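import Pool.Agent.Helper98.Elastic.Decomp

/-!
# The connective constant of bridges
-/

open Finset Filter Topology
open scoped ENNReal

namespace Pool.Agent.Helper98.Elastic

/-- the parameters of the model -/
structure Par where
  /-- strength -/
  β : ℝ
  /-- decay -/
  κ : ℝ
  hβ : 0 < β
  hκ0 : 0 < κ
  hκ1 : κ < 1

/-- words of length `n` -/
def words (n : ℕ) : Finset (List Bool) :=
  (Finset.univ : Finset (List.Vector Bool n)).image List.Vector.toList

lemma mem_words {n : ℕ} {l : List Bool} : l ∈ words n ↔ l.length = n := by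
  unfold words
  simp only [Finset.mem_image, Finset.mem_univ, true_and]
  constructor
  · rintro ⟨v, rfl⟩; exact v.toList_length
  · intro h; exact ⟨⟨l, h⟩, rfl⟩

lemma card_words (n : ℕ) : (words n).card = 2 ^ n := by
  unfold words
  rw [Finset.card_image_of_injective _ List.Vector.toList_injective, Finset.card_univ, card_vector,
    Fintype.card_bool]

/-- unnormalised weight -/
noncomputable def wt (p : Par) (l : List Bool) : ℝ := Real.exp (-(p.β * eng p.κ l))

lemma wt_pos (p : Par) (l : List Bool) : 0 < wt p l := Real.exp_pos _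

lemma wt_le_one (p : Par) (l : List Bool) : wt p l ≤ 1 := by
  unfold wt
  rw [Real.exp_le_one_iff]
  have := mul_nonneg p.hβ.le (eng_nonneg p.κ l)
  linarith

lemma wt_append_le (p : Par) (a b : List Bool) : wt p (a ++ b) ≤ wt p a * wt p b := by
  unfold wt
  rw [← Real.exp_add]
  apply Real.exp_le_exp.2
  have := mul_le_mul_of_nonneg_left (eng_append_ge p.κ a b) p.hβ.le
  linarith

lemma wt_bri_append (p : Par) {a b : List Bool} (ha : ∀ i ≤ a.length, pos a i ≤ ed a)
    (hb : Half b) : wt p (a ++ b) = wt p a * wt p b := by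
  unfold wt
  rw [← Real.exp_add, eng_bri_append p.κ ha hb]
  congr 1; ring

lemma wt_neg (p : Par) (a : List Bool) : wt p (neg a) = wt p a := by
  unfold wt; rw [eng_neg]

lemma wt_reverse (p : Par) (a : List Bool) : wt p a.reverse = wt p a := by
  unfold wt; rw [eng_reverse]

lemma wt_cons_true (p : Par) {v : List Bool} (hv : NN v) : wt p (true :: v) = wt p v := by
  unfold wt; rw [eng_cons_true p.κ hv]

open Classical in
/-- bridge sums -/
noncomputable def bb (p : Par) (n : ℕ) : ℝ := ∑ l ∈ (words n).filter Bri, wt p l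

/-- walk sums -/
noncomputable def ZZ (p : Par) (n : ℕ) : ℝ := ∑ l ∈ words n, wt p l

/-- straight word -/
def str (n : ℕ) : List Bool := List.replicate n true

@[simp] lemma length_str (n : ℕ) : (str n).length = n := by simp [str]

lemma ed_str (n : ℕ) : ed (str n) = n := by
  simp [ed, str, st]

lemma pos_str (n i : ℕ) (h : i ≤ n) : pos (str n) i = i := by
  simp only [pos, str, List.take_replicate, min_eq_left h]
  simp [st]

lemma bri_str (n : ℕ) : Bri (str n) := by
  constructor
  · intro i hi1 hi2
    rw [length_str] at hi2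
    rw [pos_str _ _ hi2]; exact_mod_cast hi1
  · intro i hi
    rw [length_str] at hi
    rw [pos_str _ _ hi, ed_str]; exact_mod_cast hi

lemma eng_str (κ : ℝ) (n : ℕ) : eng κ (str n) = 0 := by
  unfold eng en
  apply Finset.sum_eq_zero
  intro j hj
  apply Finset.sum_eq_zero
  intro i hi
  rw [if_neg]
  simp only [Finset.mem_range, length_str] at hi hj
  rw [pos_str _ _ (by omega), pos_str _ _ (by omega)]
  intro h
  have : i = j := by exact_mod_cast h
  omega

lemma wt_str (p : Par) (n : ℕ) : wt p (str n) = 1 := by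
  unfold wt; rw [eng_str]; simp

lemma one_le_bb (p : Par) (n : ℕ) : 1 ≤ bb p n := by
  classical
  unfold bb
  calc (1 : ℝ) = wt p (str n) := (wt_str p n).symm
    _ ≤ _ := Finset.single_le_sum (f := wt p) (fun l _ => (wt_pos p l).le)
        (by simp only [Finset.mem_filter, mem_words, length_str, true_and]; exact bri_str n)

lemma bb_le_ZZ (p : Par) (n : ℕ) : bb p n ≤ ZZ p n := by
  classical
  unfold bb ZZ
  exact Finset.sum_le_sum_of_subset_of_nonneg (Finset.filter_subset _ _)
    (fun l _ _ => (wt_pos p l).le)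

lemma ZZ_le (p : Par) (n : ℕ) : ZZ p n ≤ 2 ^ n := by
  unfold ZZ
  calc ∑ l ∈ words n, wt p l ≤ ∑ _l ∈ words n, (1 : ℝ) := Finset.sum_le_sum fun l _ => wt_le_one p l
    _ = 2 ^ n := by simp [card_words]

lemma bb_mul_le (p : Par) (m n : ℕ) : bb p m * bb p n ≤ bb p (m + n) := by
  classical
  unfold bb
  rw [Finset.sum_mul_sum, ← Finset.sum_product']
  have hinj : Set.InjOn (fun x : List Bool × List Bool => x.1 ++ x.2)
      (((words m).filter Bri) ×ˢ ((words n).filter Bri) : Finset (List Bool × List Bool)) := by
    intro x hx y hy hxy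
    simp only [Finset.coe_product, Set.mem_prod, Finset.mem_coe, Finset.mem_filter, mem_words] at hx hy
    have := List.append_inj hxy (by rw [hx.1.1, hy.1.1])
    exact Prod.ext this.1 this.2
  have h1 : ∑ x ∈ ((words m).filter Bri) ×ˢ ((words n).filter Bri), wt p x.1 * wt p x.2
      = ∑ l ∈ (((words m).filter Bri) ×ˢ ((words n).filter Bri)).image
          (fun x : List Bool × List Bool => x.1 ++ x.2), wt p l := by
    rw [Finset.sum_image hinj]
    refine Finset.sum_congr rfl fun x hx => ?_
    simp only [Finset.mem_product, Finset.mem_filter, mem_words] at hx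
    rw [wt_bri_append p hx.1.2.2 hx.2.2.1]
  rw [h1]
  apply Finset.sum_le_sum_of_subset_of_nonneg
  · intro l hl
    simp only [Finset.mem_image, Finset.mem_product, Finset.mem_filter, mem_words] at hl
    obtain ⟨x, hx, rfl⟩ := hl
    simp only [Finset.mem_filter, mem_words, List.length_append]
    exact ⟨by rw [hx.1.1, hx.2.1], hx.1.2.append hx.2.2⟩
  · intro l _ _; exact (wt_pos p l).le

lemma ZZ_le_mul (p : Par) (m n : ℕ) : ZZ p (m + n) ≤ ZZ p m * ZZ p n := by
  classical
  unfold ZZ
  rw [Finset.sum_mul_sum, ← Finset.sum_product']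
  have hinj : Set.InjOn (fun l : List Bool => (l.take m, l.drop m)) (words (m + n)) := by
    intro x _ y _ hxy
    simp only [Prod.mk.injEq] at hxy
    rw [← List.take_append_drop m x, ← List.take_append_drop m y, hxy.1, hxy.2]
  calc ∑ l ∈ words (m + n), wt p l
      ≤ ∑ l ∈ words (m + n), wt p (l.take m) * wt p (l.drop m) := by
        refine Finset.sum_le_sum fun l _ => ?_
        conv_lhs => rw [← List.take_append_drop m l]
        exact wt_append_le p _ _
    _ = ∑ x ∈ (words (m + n)).image (fun l : List Bool => (l.take m, l.drop m)),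
          wt p x.1 * wt p x.2 := by rw [Finset.sum_image hinj]
    _ ≤ ∑ x ∈ words m ×ˢ words n, wt p x.1 * wt p x.2 := by
        apply Finset.sum_le_sum_of_subset_of_nonneg
        · intro x hx
          simp only [Finset.mem_image, mem_words] at hx
          obtain ⟨l, hl, rfl⟩ := hx
          simp only [Finset.mem_product, mem_words, List.length_take, List.length_drop]
          omega
        · intro x _ _; exact mul_nonneg (wt_pos p _).le (wt_pos p _).le

lemma subadd_bb (p : Par) : Subadditive (fun n => - Real.log (bb p n)) := by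
  intro m n
  have h1 := one_le_bb p m
  have h2 := one_le_bb p n
  have h3 := Real.log_le_log (by positivity) (bb_mul_le p m n)
  rw [Real.log_mul (by positivity) (by positivity)] at h3
  linarith

lemma subadd_ZZ (p : Par) : Subadditive (fun n => Real.log (ZZ p n)) := by
  intro m n
  have h1 := (one_le_bb p m).trans (bb_le_ZZ p m)
  have h2 := (one_le_bb p n).trans (bb_le_ZZ p n)
  have h0 := (one_le_bb p (m + n)).trans (bb_le_ZZ p (m + n))
  have h3 := Real.log_le_log (by positivity) (ZZ_le_mul p m n)
  rw [Real.log_mul (by positivity) (by positivity)] at h3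
  exact h3

lemma bdd_bb (p : Par) : BddBelow (Set.range fun n => - Real.log (bb p n) / (n : ℝ)) := by
  refine ⟨- Real.log 2, ?_⟩
  rintro _ ⟨n, rfl⟩
  have h1 := one_le_bb p n
  have h2 : Real.log (bb p n) ≤ n * Real.log 2 := by
    rw [← Real.log_pow]
    exact Real.log_le_log (by positivity) ((bb_le_ZZ p n).trans (ZZ_le p n))
  rcases Nat.eq_zero_or_pos n with rfl | h
  · simp only [CharP.cast_eq_zero, div_zero, Left.neg_nonpos_iff]
    exact Real.log_nonneg (by norm_num)
  · have h' : (0 : ℝ) < n := by exact_mod_cast h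
    simp only
    rw [le_div_iff₀ h']
    linarith

lemma bdd_ZZ (p : Par) : BddBelow (Set.range fun n => Real.log (ZZ p n) / (n : ℝ)) := by
  refine ⟨0, ?_⟩
  rintro _ ⟨n, rfl⟩
  have h1 := (one_le_bb p n).trans (bb_le_ZZ p n)
  exact div_nonneg (Real.log_nonneg h1) (Nat.cast_nonneg n)

/-- the critical parameter `z = exp (- lim (1/n) log b_n)` -/
noncomputable def zz (p : Par) : ℝ := Real.exp ((subadd_bb p).lim)

lemma zz_pos (p : Par) : 0 < zz p := Real.exp_pos _

lemma bb_zz_le (p : Par) (n : ℕ) : bb p n * zz p ^ n ≤ 1 := by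
  rcases Nat.eq_zero_or_pos n with rfl | hn
  · have h := bb_mul_le p 0 0
    have h1 := one_le_bb p 0
    simp only [add_zero] at h
    simp only [pow_zero, mul_one]
    nlinarith [(bb_le_ZZ p 0).trans (ZZ_le p 0)]
  · have h1 := one_le_bb p n
    have h2 := (subadd_bb p).lim_le_div (bdd_bb p) (n := n) (by omega)
    have h' : (0 : ℝ) < n := by exact_mod_cast hn
    rw [le_div_iff₀ h'] at h2
    unfold zz
    rw [← Real.exp_nat_mul]
    calc bb p n * Real.exp (n * (subadd_bb p).lim)
        = Real.exp (Real.log (bb p n)) * Real.exp (n * (subadd_bb p).lim) := by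
          rw [Real.exp_log (by positivity)]
      _ = Real.exp (Real.log (bb p n) + n * (subadd_bb p).lim) := by rw [Real.exp_add]
      _ ≤ 1 := by
          rw [Real.exp_le_one_iff]
          linarith

lemma one_le_ZZ_zz (p : Par) (n : ℕ) : 1 ≤ ZZ p n * zz p ^ n := by
  have hZ := (one_le_bb p n).trans (bb_le_ZZ p n)
  rcases Nat.eq_zero_or_pos n with rfl | hn
  · simpa using hZ
  · have h1 := (subadd_bb p).tendsto_lim (bdd_bb p)
    have h2 := (subadd_ZZ p).tendsto_lim (bdd_ZZ p)
    have h3 : -(subadd_bb p).lim ≤ (subadd_ZZ p).lim := by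
      have h4 := h1.neg
      refine le_of_tendsto_of_tendsto h4 h2 (Eventually.of_forall fun k => ?_)
      simp only
      rw [← neg_div, neg_neg]
      apply div_le_div_of_nonneg_right _ (Nat.cast_nonneg k)
      exact Real.log_le_log (by linarith [one_le_bb p k]) (bb_le_ZZ p k)
    have h5 := (subadd_ZZ p).lim_le_div (bdd_ZZ p) (n := n) (by omega)
    have h' : (0 : ℝ) < n := by exact_mod_cast hn
    rw [le_div_iff₀ h'] at h5
    unfold zz
    rw [← Real.exp_nat_mul]
    calc (1 : ℝ) ≤ Real.exp (Real.log (ZZ p n) + n * (subadd_bb p).lim) := by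
          rw [Real.one_le_exp_iff]
          nlinarith
      _ = ZZ p n * Real.exp (n * (subadd_bb p).lim) := by
          rw [Real.exp_add, Real.exp_log (by positivity)]

lemma zz_le_one (p : Par) : zz p ≤ 1 := by
  have h := bb_zz_le p 1
  have h1 := one_le_bb p 1
  have h2 := zz_pos p
  rw [pow_one] at h
  nlinarith

/-- the normalised weight -/
noncomputable def W (p : Par) (l : List Bool) : ℝ≥0∞ := ENNReal.ofReal (wt p l * zz p ^ l.length)

end Pool.Agent.Helper98.Elastic
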