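import Mathlib

/-!
# Unique factorisation in a graded cancellative structure
-/

open Finset Filter Topology
open scoped ENNReal

namespace Pool.Agent.Helper98.Elastic

/-- a graded structure with unique factorisation into irreducible elements -/
structure Fac (M : Type) where
  /-- product -/
  op : M → M → M
  /-- neutral element -/
  e : M
  /-- the elements under consideration -/
  B : M → Prop
  /-- the grading -/
  sz : M → ℕ
  op_assoc : ∀ a b c, op (op a b) c = op a (op b c)
  e_op : ∀ a, op e a = a
  op_e : ∀ a, op a e = a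
  B_e : B e
  B_op : ∀ a b, B a → B b → B (op a b)
  cancel : ∀ a b c, op a b = op a c → b = c
  comp : ∀ a a' b b', B a → B a' → B b → B b' → op a b = op a' b' →
    (∃ c, B c ∧ a' = op a c) ∨ (∃ c, B c ∧ a = op a' c)
  sz_op : ∀ a b, B a → B b → sz (op a b) = sz a + sz b
  sz_pos : ∀ a, B a → a ≠ e → 0 < sz a

namespace Fac

variable {M : Type} (F : Fac M)

/-- irreducible elements -/
def Irr (a : M) : Prop :=
  F.B a ∧ a ≠ F.e ∧ ∀ b c, F.B b → F.B c → a = F.op b c → b = F.e ∨ c = F.e

/-- the type of irreducible elements -/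
abbrev P : Type := {a : M // F.Irr a}

/-- product of a list of irreducible elements -/
def pr : List F.P → M
  | [] => F.e
  | a :: L => F.op a.1 (pr L)

@[simp] lemma pr_nil : F.pr [] = F.e := rfl

@[simp] lemma pr_cons (a : F.P) (L : List F.P) : F.pr (a :: L) = F.op a.1 (F.pr L) := rfl

lemma pr_B (L : List F.P) : F.B (F.pr L) := by
  induction L with
  | nil => exact F.B_e
  | cons a L ih => exact F.B_op _ _ a.2.1 ih

lemma pr_append (L L' : List F.P) : F.pr (L ++ L') = F.op (F.pr L) (F.pr L') := by
  induction L with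
  | nil => simp [F.e_op]
  | cons a L ih => simp only [List.cons_append, pr_cons, ih, F.op_assoc]

lemma sz_e : F.sz F.e = 0 := by
  have := F.sz_op F.e F.e F.B_e F.B_e
  rw [F.op_e] at this
  omega

lemma exists_fac (n : ℕ) : ∀ x, F.B x → F.sz x = n → ∃ L : List F.P, F.pr L = x := by
  induction n using Nat.strong_induction_on with
  | _ n ih =>
    intro x hx hn
    by_cases hxe : x = F.e
    · exact ⟨[], hxe.symm⟩
    · classical
      have hex : ∃ k, ∃ a b, F.B a ∧ F.B b ∧ a ≠ F.e ∧ F.op a b = x ∧ F.sz a = k :=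
        ⟨F.sz x, x, F.e, hx, F.B_e, hxe, F.op_e x, rfl⟩
      obtain ⟨a, b, ha, hb, hae, hab, hk⟩ := Nat.find_spec hex
      have hmin : ∀ a' b', F.B a' → F.B b' → a' ≠ F.e → F.op a' b' = x → F.sz a ≤ F.sz a' := by
        intro a' b' h1 h2 h3 h4
        rw [hk]
        exact Nat.find_min' hex ⟨a', b', h1, h2, h3, h4, rfl⟩
      have hirr : F.Irr a := by
        refine ⟨ha, hae, ?_⟩
        intro b' c' hb' hc' habc
        by_contra hcon
        push Not at hcon
        have h1 := hmin b' (F.op c' b) hb' (F.B_op _ _ hc' hb) hcon.1 (by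
          rw [← F.op_assoc, ← habc, hab])
        have h2 := F.sz_pos c' hc' hcon.2
        have h3 := F.sz_op b' c' hb' hc'
        rw [← habc] at h3
        omega
      have hszb : F.sz b < n := by
        have h1 := F.sz_op a b ha hb
        rw [hab, hn] at h1
        have h2 := F.sz_pos a ha hae
        omega
      obtain ⟨L, hL⟩ := ih (F.sz b) hszb b hb rfl
      exact ⟨⟨a, hirr⟩ :: L, by rw [pr_cons, hL, hab]⟩

lemma pr_inj : ∀ L L' : List F.P, F.pr L = F.pr L' → L = L' := by
  intro L
  induction L with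
  | nil =>
    intro L' h
    cases L' with
    | nil => rfl
    | cons a' L' =>
      exfalso
      simp only [pr_nil, pr_cons] at h
      have h1 := F.sz_op a'.1 (F.pr L') a'.2.1 (F.pr_B L')
      rw [← h, sz_e] at h1
      have h2 := F.sz_pos a'.1 a'.2.1 a'.2.2.1
      omega
  | cons a L ih =>
    intro L' h
    cases L' with
    | nil =>
      exfalso
      simp only [pr_nil, pr_cons] at h
      have h1 := F.sz_op a.1 (F.pr L) a.2.1 (F.pr_B L)
      rw [h, sz_e] at h1
      have h2 := F.sz_pos a.1 a.2.1 a.2.2.1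
      omega
    | cons a' L' =>
      simp only [pr_cons] at h
      have haa : a.1 = a'.1 := by
        rcases F.comp a.1 a'.1 _ _ a.2.1 a'.2.1 (F.pr_B L) (F.pr_B L') h with ⟨c, hBc, hc⟩ | ⟨c, hBc, hc⟩
        · rcases a'.2.2.2 a.1 c a.2.1 hBc hc with h1 | h1
          · exact absurd h1 a.2.2.1
          · rw [hc, h1, F.op_e]
        · rcases a.2.2.2 a'.1 c a'.2.1 hBc hc with h1 | h1
          · exact absurd h1 a'.2.2.1
          · rw [hc, h1, F.op_e]
      have haa' : a = a' := Subtype.ext haa
      subst haa'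
      rw [ih L' (F.cancel _ _ _ h)]

/-- the factorisation bijection -/
noncomputable def equiv : List F.P ≃ {x : M // F.B x} :=
  Equiv.ofBijective (fun L => ⟨F.pr L, F.pr_B L⟩) (by
    constructor
    · intro L L' h
      exact F.pr_inj L L' (congrArg Subtype.val h)
    · rintro ⟨x, hx⟩
      obtain ⟨L, hL⟩ := F.exists_fac _ x hx rfl
      exact ⟨L, Subtype.ext hL⟩)

open Classical in
lemma tsum_B (G : M → ℝ≥0∞) : ∑' x, (if F.B x then G x else 0) = ∑' L : List F.P, G (F.pr L) := by
  have h1 : ∑' x, (if F.B x then G x else 0) = ∑' x : {x // F.B x}, G x := by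
    rw [← tsum_subtype_eq_of_support_subset (s := {x | F.B x})]
    · refine tsum_congr fun x => ?_
      have hx : F.B x.1 := x.2
      rw [if_pos hx]
    · intro x hx
      by_contra h
      have h' : ¬ F.B x := h
      simp [h'] at hx
  rw [h1, ← F.equiv.tsum_eq]
  rfl

/-- a multiplicative weight -/
noncomputable def wL (w : M → ℝ≥0∞) (L : List F.P) : ℝ≥0∞ := (L.map fun a => w a.1).prod

lemma w_pr (w : M → ℝ≥0∞) (h1 : w F.e = 1) (hmul : ∀ a b, F.B a → F.B b → w (F.op a b) = w a * w b)
    (L : List F.P) : w (F.pr L) = F.wL w L := by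
  unfold wL
  induction L with
  | nil => simpa using h1
  | cons a L ih =>
    rw [pr_cons, hmul _ _ a.2.1 (F.pr_B L), ih]
    simp

/-- an additive statistic -/
lemma s_pr {A : Type} [AddCommMonoid A] (s : M → A) (h1 : s F.e = 0)
    (hadd : ∀ a b, F.B a → F.B b → s (F.op a b) = s a + s b)
    (L : List F.P) : s (F.pr L) = (L.map fun a => s a.1).sum := by
  induction L with
  | nil => simpa using h1
  | cons a L ih =>
    rw [pr_cons, hadd _ _ a.2.1 (F.pr_B L), ih]
    simp

end Fac

end Pool.Agent.Helper98.Elastic
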