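import Pool.Agent.Helper98.Elastic.Words

/-!
# A law of large numbers for random words
-/

open Finset Filter Topology MeasureTheory ProbabilityTheory
open scoped ENNReal

namespace Pool.Agent.Helper98.Elastic

section

variable {A : Type} [Countable A]

/-- the law of a letter -/
noncomputable def letterPMF (w : A → ℝ≥0∞) (hw : ∑' a, w a = 1) : PMF A :=
  ⟨w, by rw [← hw]; exact ENNReal.summable.hasSum⟩

lemma slln_letters (w : A → ℝ≥0∞) (hw : ∑' a, w a = 1) (t : A → ℕ)
    (ht : ∑' a, w a * (t a : ℝ≥0∞) ≠ ∞) [MeasurableSpace A] [DiscreteMeasurableSpace A] :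
    ∀ᵐ ω ∂(Measure.infinitePi fun _ : ℕ => (letterPMF w hw).toMeasure),
      Tendsto (fun n : ℕ => (∑ i ∈ range n, (t (ω i) : ℝ)) / n) atTop
        (𝓝 (∑' a, w a * (t a : ℝ≥0∞)).toReal) := by
  set P := (letterPMF w hw).toMeasure with hP
  have : IsProbabilityMeasure P := by rw [hP]; infer_instance
  have hmeas : Measurable (fun a : A => (t a : ℝ)) := measurable_from_top.mono le_top le_rfl |>.mono
    (by intro s _; exact MeasurableSet.of_discrete) le_rfl
  have hPa : ∀ a, P {a} = w a := by
    intro a
    rw [hP, PMF.toMeasure_apply_singleton _ _ (MeasurableSet.of_discrete)]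
    rfl
  have hlint : ∫⁻ a, ENNReal.ofReal (t a : ℝ) ∂P = ∑' a, w a * (t a : ℝ≥0∞) := by
    rw [lintegral_countable']
    refine tsum_congr fun a => ?_
    rw [hPa, mul_comm, ENNReal.ofReal_natCast]
  have hint : Integrable (fun a : A => (t a : ℝ)) P := by
    refine ⟨hmeas.aestronglyMeasurable, ?_⟩
    rw [hasFiniteIntegral_iff_ofReal (Eventually.of_forall fun a => by positivity), hlint]
    exact lt_top_iff_ne_top.2 ht
  have hintegral : ∫ a, (t a : ℝ) ∂P = (∑' a, w a * (t a : ℝ≥0∞)).toReal := by
    rw [integral_eq_lintegral_of_nonneg_ae (Eventually.of_forall fun a => by positivity)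
      hmeas.aestronglyMeasurable, hlint]
  set μ := Measure.infinitePi fun _ : ℕ => P with hμ
  have heval : ∀ i : ℕ, Measurable (fun ω : ℕ → A => ω i) := fun i => measurable_pi_apply i
  have hXm : ∀ i : ℕ, Measurable (fun ω : ℕ → A => (t (ω i) : ℝ)) := fun i => hmeas.comp (heval i)
  have hmap : ∀ i : ℕ, Measure.map (fun ω : ℕ → A => ω i) μ = P := fun i =>
    Measure.infinitePi_map_eval (fun _ : ℕ => P) i
  have hident : ∀ i : ℕ, IdentDistrib (fun ω : ℕ → A => (t (ω i) : ℝ))
      (fun ω : ℕ → A => (t (ω 0) : ℝ)) μ μ := by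
    intro i
    refine ⟨(hXm i).aemeasurable, (hXm 0).aemeasurable, ?_⟩
    have h1 : ∀ j : ℕ, Measure.map (fun ω : ℕ → A => (t (ω j) : ℝ)) μ =
        Measure.map (fun a : A => (t a : ℝ)) P := by
      intro j
      rw [← hmap j, Measure.map_map hmeas (heval j)]
      rfl
    rw [h1, h1]
  have hindep : iIndepFun (fun (i : ℕ) (ω : ℕ → A) => (t (ω i) : ℝ)) μ :=
    iIndepFun_infinitePi (P := fun _ : ℕ => P) (X := fun _ a => (t a : ℝ)) (fun _ => hmeas)
  have hint0 : Integrable (fun ω : ℕ → A => (t (ω 0) : ℝ)) μ := by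
    have : Integrable (fun a : A => (t a : ℝ)) (Measure.map (fun ω : ℕ → A => ω 0) μ) := by
      rw [hmap]; exact hint
    exact this.comp_measurable (heval 0)
  have hE : ∫ ω, (t (ω 0) : ℝ) ∂μ = (∑' a, w a * (t a : ℝ≥0∞)).toReal := by
    rw [← hintegral, ← hmap 0, integral_map (heval 0).aemeasurable hmeas.aestronglyMeasurable]
  have := strong_law_ae_real (fun (i : ℕ) (ω : ℕ → A) => (t (ω i) : ℝ)) hint0
    (fun i j hij => hindep.indepFun hij) hident
  rw [hE] at this
  exact this

/-- sequences starting with the word `L` -/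
def cyl (L : List A) : Set (ℕ → A) := {ω | ∀ i (hi : i < L.length), ω i = L[i]}

omit [Countable A] in
lemma measure_cyl [MeasurableSpace A] [DiscreteMeasurableSpace A] (w : A → ℝ≥0∞)
    (hw : ∑' a, w a = 1) (L : List A) :
    (Measure.infinitePi fun _ : ℕ => (letterPMF w hw).toMeasure) (cyl L) = wl w L := by
  set P := (letterPMF w hw).toMeasure with hP
  have : IsProbabilityMeasure P := by rw [hP]; infer_instance
  have hPa : ∀ a, P {a} = w a := by
    intro a
    rw [hP, PMF.toMeasure_apply_singleton _ _ (MeasurableSet.of_discrete)]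
    rfl
  rcases L.eq_nil_or_concat with h0 | ⟨L', b, h0⟩
  · subst h0
    have : cyl ([] : List A) = Set.univ := by
      ext ω; simp [cyl]
    rw [this, measure_univ]; simp
  · have hne : L ≠ [] := by rw [h0]; simp
    have : Inhabited A := ⟨b⟩
    have h1 : cyl L = Set.pi (↑(range L.length)) (fun i => {L.getD i b}) := by
      ext ω
      simp only [cyl, Set.mem_pi, Finset.coe_range, Set.mem_Iio, Set.mem_singleton_iff]
      constructor
      · intro h i hi
        rw [List.getD_eq_getElem _ _ hi]; exact h i hi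
      · intro h i hi
        have := h i hi
        rwa [List.getD_eq_getElem _ _ hi] at this
    rw [h1, Measure.infinitePi_pi (μ := fun _ : ℕ => P) (fun i _ => MeasurableSet.of_discrete)]
    simp only [hPa]
    unfold wl
    rw [Finset.prod_range (fun i => w (L.getD i b)), ← List.prod_ofFn]
    congr 1
    apply List.ext_getElem
    · simp
    · intro i h2 h3
      simp only [List.getElem_ofFn, List.getElem_map]
      rw [List.getD_eq_getElem]

omit [Countable A] in
lemma measurableSet_cyl [MeasurableSpace A] [DiscreteMeasurableSpace A] (L : List A) :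
    MeasurableSet (cyl L) := by
  have : cyl L = ⋂ i : Fin L.length, (fun ω : ℕ → A => ω i) ⁻¹' {L[i]} := by
    ext ω
    simp only [cyl, Set.mem_iInter, Set.mem_preimage, Set.mem_singleton_iff]
    constructor
    · intro h i; exact h i i.2
    · intro h i hi; exact h ⟨i, hi⟩
  rw [this]
  exact MeasurableSet.iInter fun i => measurable_pi_apply _ MeasurableSet.of_discrete

omit [Countable A] in
lemma cyl_eq_take {L L' : List A} {ω : ℕ → A} (h : ω ∈ cyl L) (h' : ω ∈ cyl L')
    (hle : L.length ≤ L'.length) : L = L'.take L.length := by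
  apply List.ext_getElem
  · rw [List.length_take]; omega
  · intro i h1 h2
    rw [List.getElem_take, ← h i h1, ← h' i (by omega)]

omit [Countable A] in
lemma sum_range_of_mem_cyl {L : List A} {ω : ℕ → A} (h : ω ∈ cyl L) (t : A → ℕ) :
    ∑ i ∈ range L.length, t (ω i) = sl t L := by
  unfold sl
  rw [Finset.sum_range (fun i => t (ω i)), ← List.sum_ofFn]
  congr 1
  apply List.ext_getElem
  · simp
  · intro i h2 h3
    simp only [List.getElem_ofFn, List.getElem_map]
    rw [h i (by simpa using h2)]

open Classical in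
/-- **Law of large numbers for random words of given size.** -/
lemma wordLLN (w : A → ℝ≥0∞) (hw : ∑' a, w a = 1) (s : A → ℕ) (hs : ∀ a, 0 < s a) (t : A → ℕ)
    (hsm : ∑' a, w a * (s a : ℝ≥0∞) ≠ ∞) (htm : ∑' a, w a * (t a : ℝ≥0∞) ≠ ∞)
    (ε : ℝ) (hε : 0 < ε) :
    Tendsto (fun n : ℕ => ∑' L : List A, if sl s L = n ∧
      ε * n < |((sl t L : ℕ) : ℝ) - (∑' a, w a * (t a : ℝ≥0∞)).toReal /
        (∑' a, w a * (s a : ℝ≥0∞)).toReal * n| then wl w L else 0) atTop (𝓝 0) := by
  let _ : MeasurableSpace A := ⊤
  have : DiscreteMeasurableSpace A := ⟨fun _ => trivial⟩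
  set P := (letterPMF w hw).toMeasure with hP
  have : IsProbabilityMeasure P := by rw [hP]; infer_instance
  set μ := Measure.infinitePi fun _ : ℕ => P with hμ
  set ms := (∑' a, w a * (s a : ℝ≥0∞)).toReal with hms
  set mt := (∑' a, w a * (t a : ℝ≥0∞)).toReal with hmt
  have hms1 : 1 ≤ ms := by
    rw [hms, ← ENNReal.toReal_one, ← hw]
    apply ENNReal.toReal_mono hsm
    apply ENNReal.tsum_le_tsum
    intro a
    calc w a = w a * 1 := (mul_one _).symm
      _ ≤ w a * (s a : ℝ≥0∞) := by gcongr; exact_mod_cast hs a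
  -- bad words
  let bad : ℕ → Set (List A) := fun n => {L | sl s L = n ∧ ε * n < |((sl t L : ℕ) : ℝ) - mt / ms * n|}
  let An : ℕ → Set (ℕ → A) := fun n => ⋃ L : bad n, cyl L.1
  have hAnm : ∀ n, MeasurableSet (An n) := fun n =>
    MeasurableSet.iUnion fun L => measurableSet_cyl L.1
  have hAeq : ∀ n : ℕ, (∑' L : List A, if sl s L = n ∧
      ε * n < |((sl t L : ℕ) : ℝ) - mt / ms * n| then wl w L else 0) = μ (An n) := by
    intro n
    have h1 : μ (An n) = ∑' L : bad n, μ (cyl L.1) := by
      apply measure_iUnion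
      · intro L L' hne
        rw [Function.onFun, Set.disjoint_left]
        intro ω h h'
        apply hne
        apply Subtype.ext
        wlog hle : L.1.length ≤ L'.1.length generalizing L L'
        · exact (this hne.symm h' h (by omega)).symm
        have h2 := cyl_eq_take h h' hle
        have h3 : sl s L'.1 = sl s L.1 + sl s (L'.1.drop L.1.length) := by
          conv_lhs => rw [← List.take_append_drop L.1.length L'.1, ← h2]
          rw [sl_append]
        have h4 : sl s (L'.1.drop L.1.length) = 0 := by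
          have h5 := L.2.1
          have h6 := L'.2.1
          omega
        have h5 : L'.1.drop L.1.length = [] := by
          cases hd : L'.1.drop L.1.length with
          | nil => rfl
          | cons a D =>
            rw [hd, sl_cons] at h4
            have := hs a
            omega
        conv_rhs => rw [← List.take_append_drop L.1.length L'.1, ← h2, h5, List.append_nil]
      · intro L; exact measurableSet_cyl L.1
    rw [h1]
    have h2 : ∀ L : bad n, μ (cyl L.1) = wl w L.1 := fun L => measure_cyl w hw L.1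
    rw [tsum_congr h2, tsum_subtype (bad n) (fun L => wl w L)]
    refine tsum_congr fun L => ?_
    by_cases h4 : sl s L = n ∧ ε * n < |((sl t L : ℕ) : ℝ) - mt / ms * n|
    · have h5 : L ∈ bad n := h4
      rw [if_pos h4, Set.indicator_of_mem h5]
    · have h5 : L ∉ bad n := h4
      rw [if_neg h4, Set.indicator_of_notMem h5]
  have hae : ∀ᵐ ω ∂μ, ∀ᶠ n in atTop, ω ∈ An n ↔ ω ∈ (∅ : Set (ℕ → A)) := by
    filter_upwards [slln_letters w hw s hsm, slln_letters w hw t htm] with ω h1 h2
    have h3 : Tendsto (fun k : ℕ => (∑ i ∈ range k, (t (ω i) : ℝ)) / k -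
        mt / ms * ((∑ i ∈ range k, (s (ω i) : ℝ)) / k)) atTop (𝓝 (mt - mt / ms * ms)) :=
      h2.sub (h1.const_mul _)
    rw [div_mul_cancel₀ _ (by positivity), sub_self] at h3
    have h4 : ∀ᶠ k : ℕ in atTop, |(∑ i ∈ range k, (t (ω i) : ℝ)) / k -
        mt / ms * ((∑ i ∈ range k, (s (ω i) : ℝ)) / k)| < ε := by
      have := h3.abs
      rw [abs_zero] at this
      exact this.eventually (gt_mem_nhds hε)
    obtain ⟨K, hK⟩ := eventually_atTop.1 h4
    rw [eventually_atTop]
    refine ⟨(∑ i ∈ range (K + 1), s (ω i)) + 1, fun n hn => ?_⟩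
    simp only [Set.mem_empty_iff_false, iff_false]
    intro hmem
    simp only [An, Set.mem_iUnion] at hmem
    obtain ⟨⟨L, h5, h6⟩, hL⟩ := hmem
    simp only at hL
    have h7 := sum_range_of_mem_cyl hL s
    have h8 := sum_range_of_mem_cyl hL t
    have hlen : K + 1 ≤ L.length := by
      by_contra hcon
      push Not at hcon
      have : ∑ i ∈ range L.length, s (ω i) ≤ ∑ i ∈ range (K + 1), s (ω i) :=
        Finset.sum_le_sum_of_subset (Finset.range_subset_range.2 hcon.le)
      omega
    have hkn : L.length ≤ n := by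
      rw [← h5, ← h7]
      calc L.length = ∑ i ∈ range L.length, 1 := by simp
        _ ≤ _ := Finset.sum_le_sum fun i _ => hs (ω i)
    have h9 := hK L.length (by omega)
    have hk0 : (0 : ℝ) < L.length := by exact_mod_cast (show 0 < L.length by omega)
    have h10 : (∑ i ∈ range L.length, (t (ω i) : ℝ)) = ((sl t L : ℕ) : ℝ) := by
      rw [← h8]; push_cast; rfl
    have h11 : (∑ i ∈ range L.length, (s (ω i) : ℝ)) = (n : ℝ) := by
      rw [← h5, ← h7]; push_cast; rfl
    rw [h10, h11] at h9
    have h12 : |((sl t L : ℕ) : ℝ) - mt / ms * n| < ε * L.length := by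
      have h13 : ((sl t L : ℕ) : ℝ) / L.length - mt / ms * (n / L.length) =
          (((sl t L : ℕ) : ℝ) - mt / ms * n) / L.length := by ring
      rw [h13, abs_div, abs_of_pos hk0, div_lt_iff₀ hk0] at h9
      exact h9
    have h14 : ε * (L.length : ℝ) ≤ ε * n :=
      mul_le_mul_of_nonneg_left (by exact_mod_cast hkn) hε.le
    linarith
  have hlim := tendsto_measure_of_ae_tendsto_indicator_of_isFiniteMeasure (μ := μ) atTop
    MeasurableSet.empty hAnm hae
  rw [measure_empty] at hlim
  refine hlim.congr fun n => (hAeq n).symm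

end

end Pool.Agent.Helper98.Elastic
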