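import Pool.Agent.Helper98.Elastic.PartI2
import Pool.Agent.Helper98.Elastic.Fac
import Pool.Agent.Helper98.Elastic.LLN

/-!
# Bridges as words in irreducible bridges; laws of large numbers
-/

open Finset Filter Topology
open scoped ENNReal

namespace Pool.Agent.Helper98.Elastic

lemma Bri.ed_nonneg {a : List Bool} (h : Bri a) : 0 ≤ ed a := by
  have := h.2 0 (Nat.zero_le _); simpa using this

lemma Bri.ed_pos {a : List Bool} (h : Bri a) (hne : a ≠ []) : 0 < ed a := by
  have h1 : 0 < a.length := List.length_pos_iff.2 hne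
  have := h.1 a.length (by omega) le_rfl
  rwa [pos_length] at this

/-- the middle factor of compatible bridge factorisations is a bridge -/
lemma bri_mid {a c b' : List Bool} (h1 : Bri (a ++ c)) (h2 : Half (c ++ b')) : Bri c := by
  constructor
  · intro i hi1 hi2
    have := h2 i hi1 (by rw [List.length_append]; omega)
    rwa [pos_append_left _ _ hi2] at this
  · intro i hi
    have := h1.2 (a.length + i) (by rw [List.length_append]; omega)
    rw [pos_append_right, ed_append] at this
    omega

/-- factorisation structure of bridges -/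
def bfac : Fac (List Bool) where
  op := fun a b => a ++ b
  e := []
  B := Bri
  sz := List.length
  op_assoc := fun a b c => List.append_assoc a b c
  e_op := fun a => List.nil_append a
  op_e := fun a => List.append_nil a
  B_e := bri_nil
  B_op := fun a b ha hb => ha.append hb
  cancel := fun a b c h => List.append_cancel_left h
  comp := by
    intro a a' b b' ha ha' hb hb' h
    rcases List.append_eq_append_iff.1 h with ⟨c, hc1, hc2⟩ | ⟨c, hc1, hc2⟩
    · left
      exact ⟨c, bri_mid (a := a) (b' := b') (by rw [← hc1]; exact ha') (by rw [← hc2]; exact hb.1),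
        hc1⟩
    · right
      exact ⟨c, bri_mid (a := a') (b' := b) (by rw [← hc1]; exact ha) (by rw [← hc2]; exact hb'.1),
        hc1⟩
  sz_op := fun a b _ _ => List.length_append
  sz_pos := fun a _ ha => List.length_pos_iff.2 ha

/-- irreducible bridges -/
abbrev IB : Type := bfac.P

/-- length of an irreducible bridge -/
def len (a : IB) : ℕ := a.1.length

/-- span of an irreducible bridge -/
def span (a : IB) : ℕ := (ed a.1).toNat

lemma IB.bri (a : IB) : Bri a.1 := a.2.1

lemma IB.ne_nil (a : IB) : a.1 ≠ [] := a.2.2.1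

lemma len_pos (a : IB) : 0 < len a := List.length_pos_iff.2 a.ne_nil

lemma span_pos (a : IB) : 0 < span a := by
  have := a.bri.ed_pos a.ne_nil
  unfold span; omega

lemma span_eq (a : IB) : (span a : ℤ) = ed a.1 := by
  have := a.bri.ed_pos a.ne_nil
  unfold span; omega

lemma span_le_len (a : IB) : span a ≤ len a := by
  have h1 := span_eq a
  have h2 := (abs_le.1 (abs_ed_le a.1)).2
  unfold len; omega

/-- weight of an irreducible bridge -/
noncomputable def wI (p : Par) (a : IB) : ℝ≥0∞ := W p a.1

lemma pr_length (L : List IB) : (bfac.pr L).length = sl len L := by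
  induction L with
  | nil => rfl
  | cons a L ih =>
    rw [Fac.pr_cons, sl_cons, ← ih]
    exact List.length_append

lemma pr_ed (L : List IB) : ed (bfac.pr L) = (sl span L : ℕ) := by
  induction L with
  | nil => rfl
  | cons a L ih =>
    rw [Fac.pr_cons, sl_cons]
    have h1 : ed (bfac.op a.1 (bfac.pr L)) = ed a.1 + ed (bfac.pr L) := ed_append _ _
    rw [h1, ih, ← span_eq]
    push_cast; rfl

lemma pr_W (p : Par) (L : List IB) : W p (bfac.pr L) = wl (wI p) L := by
  induction L with
  | nil => exact W_nil p
  | cons a L ih =>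
    rw [Fac.pr_cons, wl_cons, ← ih]
    exact W_bri_append p a.bri.2 (bfac.pr_B L).1

open Classical in
/-- masses of bridges as sums over words -/
lemma mass_bri (p : Par) (Q : List Bool → Prop) :
    mass p (fun l => Bri l ∧ Q l) = ∑' L : List IB, if Q (bfac.pr L) then wl (wI p) L else 0 := by
  have h1 : mass p (fun l => Bri l ∧ Q l) =
      ∑' l, if bfac.B l then (if Q l then W p l else 0) else 0 := by
    unfold mass
    refine tsum_congr fun l => ?_
    by_cases h2 : Bri l
    · have h2' : bfac.B l := h2
      by_cases h3 : Q l <;> simp [h2, h2', h3]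
    · have h2' : ¬ bfac.B l := h2
      simp [h2, h2']
  rw [h1, bfac.tsum_B (fun l => if Q l then W p l else 0)]
  refine tsum_congr fun L => ?_
  simp only [pr_W]

lemma uu_eq_Uw (p : Par) (n : ℕ) : uu p n = Uw (wI p) len n := by
  classical
  unfold uu Uw
  rw [mass_bri p (fun l => l.length = n)]
  refine tsum_congr fun L => ?_
  by_cases h : sl len L = n <;> simp [h, pr_length]

lemma tsum_wI (p : Par) : ∑' a, wI p a = 1 := by
  obtain ⟨c, hc, hcu⟩ := exists_uu_lower p
  exact tsum_w_eq_one len_pos (fun n => by rw [← uu_eq_Uw]; exact uu_le_one p n) hc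
    (fun n => by rw [← uu_eq_Uw]; exact hcu n)

/-- the mean length of an irreducible bridge -/
noncomputable def mu (p : Par) : ℝ≥0∞ := ∑' a, wI p a * (len a : ℝ≥0∞)

/-- the mean span of an irreducible bridge -/
noncomputable def nu (p : Par) : ℝ≥0∞ := ∑' a, wI p a * (span a : ℝ≥0∞)

lemma mu_ne_top (p : Par) : mu p ≠ ∞ := by
  obtain ⟨c, hc, hcu⟩ := exists_uu_lower p
  have hU : ∀ n, Uw (wI p) len n ≤ 1 := fun n => by rw [← uu_eq_Uw]; exact uu_le_one p n
  have hR := ren_words len_pos hU
  have hct : c ≠ ∞ := ne_top_of_le_ne_top ENNReal.one_ne_top ((hcu 0).trans (uu_le_one p 0))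
  have hc' : 0 < c.toReal := ENNReal.toReal_pos hc.ne' hct
  have hcu' : ∀ n, c.toReal ≤ (Uw (wI p) len n).toReal := fun n =>
    ENNReal.toReal_mono (ne_top_of_le_ne_top ENNReal.one_ne_top (hU n))
      (by rw [← uu_eq_Uw]; exact hcu n)
  have := tsum_mul_eq_tl len_pos hU (tsum_wI p) (hR.summable_tl hc' hcu')
  unfold mu
  rw [this]
  exact ENNReal.ofReal_ne_top

lemma nu_le_mu (p : Par) : nu p ≤ mu p := by
  unfold nu mu
  apply ENNReal.tsum_le_tsum
  intro a
  gcongr
  exact span_le_len a

lemma nu_ne_top (p : Par) : nu p ≠ ∞ := ne_top_of_le_ne_top (mu_ne_top p) (nu_le_mu p)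

lemma one_le_nu (p : Par) : 1 ≤ nu p := by
  rw [← tsum_wI p]
  unfold nu
  apply ENNReal.tsum_le_tsum
  intro a
  calc wI p a = wI p a * 1 := (mul_one _).symm
    _ ≤ _ := by
      gcongr
      exact_mod_cast span_pos a

/-- real mean length -/
noncomputable def mur (p : Par) : ℝ := (mu p).toReal

/-- real mean span -/
noncomputable def nur (p : Par) : ℝ := (nu p).toReal

/-- the speed -/
noncomputable def speed (p : Par) : ℝ := nur p / mur p

lemma one_le_nur (p : Par) : 1 ≤ nur p := by
  unfold nur
  rw [← ENNReal.toReal_one]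
  exact ENNReal.toReal_mono (nu_ne_top p) (one_le_nu p)

lemma nur_le_mur (p : Par) : nur p ≤ mur p := ENNReal.toReal_mono (mu_ne_top p) (nu_le_mu p)

lemma mur_pos (p : Par) : 0 < mur p := lt_of_lt_of_le (by linarith [one_le_nur p]) (nur_le_mur p)

lemma speed_pos (p : Par) : 0 < speed p := div_pos (by linarith [one_le_nur p]) (mur_pos p)

/-- the irreducible bridge `0,1,2,1,2` -/
def zig : List Bool := [true, true, false, true]

lemma pos_zig (i : ℕ) (h : i ≤ 4) : pos zig i = 0 ∧ i = 0 ∨ pos zig i = 1 ∧ (i = 1 ∨ i = 3) ∨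
    pos zig i = 2 ∧ (i = 2 ∨ i = 4) := by
  interval_cases i <;> simp [pos, zig, st]

lemma bri_zig : Bri zig := by
  constructor
  · intro i h1 h2
    have h3 : i ≤ 4 := h2
    have := pos_zig i h3
    omega
  · intro i h2
    have h3 : i ≤ 4 := h2
    have := pos_zig i h3
    have h4 : ed zig = 2 := by simp [ed, zig, st]
    omega

lemma irr_zig : bfac.Irr zig := by
  refine ⟨bri_zig, by simp [zig, bfac], ?_⟩
  intro b c hb hc h
  have hb' : Bri b := hb
  have hc' : Bri c := hc
  have h' : zig = b ++ c := h
  by_contra hcon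
  push Not at hcon
  have hb0 : b ≠ [] := hcon.1
  have hc0 : c ≠ [] := hcon.2
  have hlen : b.length + c.length = 4 := by
    rw [← List.length_append, ← h']; rfl
  have h1 : 0 < b.length := List.length_pos_iff.2 hb0
  have h2 : 0 < c.length := List.length_pos_iff.2 hc0
  have h4 : ed zig = 2 := by simp [ed, zig, st]
  have h3 : ed b + ed c = 2 := by rw [← ed_append, ← h', h4]
  have h5 := hb'.ed_pos hb0
  have h6 := hc'.ed_pos hc0
  have hedb : ed b = 1 := by omega
  -- the position at time `b.length` is 1
  have h7 : pos zig b.length = 1 := by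
    rw [h', pos_append_left _ _ le_rfl, pos_length, hedb]
  have h8 := pos_zig b.length (by omega)
  have h9 : b.length = 1 ∨ b.length = 3 := by omega
  rcases h9 with h9 | h9
  · -- then `c` visits its starting point again
    have h10 : pos c 2 = 0 := by
      have := pos_append_right b c 2
      rw [← h', h9, hedb] at this
      have h11 : pos zig (1 + 2) = 1 := by simp [pos, zig, st]
      omega
    have := hc'.1 2 (by norm_num) (by omega)
    omega
  · -- then `b` exceeds its end
    have h10 : pos b 2 = 2 := by
      have := pos_append_left b c (i := 2) (by omega)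
      rw [← h'] at this
      rw [← this]
      simp [pos, zig, st]
    have := hb'.2 2 (by omega)
    omega

lemma nu_lt_mu (p : Par) : nu p < mu p := by
  classical
  let z : IB := ⟨zig, irr_zig⟩
  have hz1 : len z = 4 := rfl
  have hz2 : span z = 2 := by
    unfold span
    have h4 : ed zig = 2 := by simp [ed, zig, st]
    change (ed zig).toNat = 2
    rw [h4]; rfl
  unfold nu mu
  apply ENNReal.tsum_lt_tsum (i := z) (nu_ne_top p)
  · intro a
    gcongr
    exact span_le_len a
  · rw [hz1, hz2]
    have h1 : wI p z ≠ 0 := (W_pos p _).ne'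
    have h2 : wI p z ≠ ∞ := W_ne_top p _
    exact (ENNReal.mul_lt_mul_iff_right h1 h2).2 (by norm_num)

lemma speed_lt_one (p : Par) : speed p < 1 := by
  unfold speed
  rw [div_lt_one (mur_pos p)]
  exact (ENNReal.toReal_lt_toReal (nu_ne_top p) (mu_ne_top p)).2 (nu_lt_mu p)

/-- **law of large numbers for the end of a bridge of given length** -/
lemma lln_bridge_length (p : Par) (ε : ℝ) (hε : 0 < ε) :
    Tendsto (fun n : ℕ => mass p (fun l => Bri l ∧ l.length = n ∧
      ε * n < |(ed l : ℝ) - speed p * n|)) atTop (𝓝 0) := by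
  classical
  have h := wordLLN (wI p) (tsum_wI p) len len_pos span (mu_ne_top p) (nu_ne_top p) ε hε
  refine h.congr fun n => ?_
  rw [mass_bri p (fun l => l.length = n ∧ ε * n < |(ed l : ℝ) - speed p * n|)]
  refine tsum_congr fun L => ?_
  simp only [pr_length, pr_ed]
  rfl

end Pool.Agent.Helper98.Elastic
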