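import Pool.Agent.Helper98.Elastic.LemmaC

/-!
# Decomposition of walks at extremal points
-/

open Finset

namespace Pool.Agent.Helper98.Elastic

/-- walks that stay positive after time `0` -/
def Half (l : List Bool) : Prop := ∀ i, 1 ≤ i → i ≤ l.length → 0 < pos l i

/-- nonnegative walks -/
def NN (l : List Bool) : Prop := ∀ i ≤ l.length, 0 ≤ pos l i

/-- bridges -/
def Bri (l : List Bool) : Prop := Half l ∧ ∀ i ≤ l.length, pos l i ≤ ed l

/-- walks whose end is a strict record -/
def Rec (l : List Bool) : Prop := ∀ i, i < l.length → pos l i < ed l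

lemma Half.nn {l : List Bool} (h : Half l) : NN l := by
  intro i hi
  rcases Nat.eq_zero_or_pos i with rfl | h0
  · simp
  · exact (h i h0 hi).le

lemma exists_last_argmax (w : ℕ → ℤ) (n : ℕ) :
    ∃ m ≤ n, (∀ i ≤ n, w i ≤ w m) ∧ (∀ j, m < j → j ≤ n → w j < w m) := by
  induction n with
  | zero => exact ⟨0, le_rfl, fun i hi => by rw [Nat.le_zero.1 hi], fun j h1 h2 => by omega⟩
  | succ n ih =>
    obtain ⟨m, hm, h1, h2⟩ := ih
    by_cases h : w m ≤ w (n + 1)
    · refine ⟨n + 1, le_rfl, fun i hi => ?_, fun j h3 h4 => by omega⟩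
      rcases Nat.lt_or_ge i (n + 1) with h5 | h5
      · exact (h1 i (by omega)).trans h
      · rw [show i = n + 1 by omega]
    · push Not at h
      refine ⟨m, by omega, fun i hi => ?_, fun j h3 h4 => ?_⟩
      · rcases Nat.lt_or_ge i (n + 1) with h5 | h5
        · exact h1 i (by omega)
        · rw [show i = n + 1 by omega]; exact h.le
      · rcases Nat.lt_or_ge j (n + 1) with h5 | h5
        · exact h2 j h3 (by omega)
        · rw [show j = n + 1 by omega]; exact h

lemma exists_first_argmax (w : ℕ → ℤ) (n : ℕ) :
    ∃ m ≤ n, (∀ i ≤ n, w i ≤ w m) ∧ (∀ j < m, w j < w m) := by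
  induction n with
  | zero => exact ⟨0, le_rfl, fun i hi => by rw [Nat.le_zero.1 hi], fun j h1 => by omega⟩
  | succ n ih =>
    obtain ⟨m, hm, h1, h2⟩ := ih
    by_cases h : w m < w (n + 1)
    · refine ⟨n + 1, le_rfl, fun i hi => ?_, fun j h3 => ?_⟩
      · rcases Nat.lt_or_ge i (n + 1) with h5 | h5
        · exact (h1 i (by omega)).trans h.le
        · rw [show i = n + 1 by omega]
      · exact (h1 j (by omega)).trans_lt h
    · push Not at h
      refine ⟨m, by omega, fun i hi => ?_, h2⟩
      rcases Nat.lt_or_ge i (n + 1) with h5 | h5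
      · exact h1 i (by omega)
      · rw [show i = n + 1 by omega]; exact h

lemma pos_take (l : List Bool) {m i : ℕ} (h : i ≤ m) : pos (l.take m) i = pos l i := by
  simp only [pos, List.take_take, min_eq_left h]

lemma ed_take (l : List Bool) (m : ℕ) : ed (l.take m) = pos l m := rfl

lemma pos_drop (l : List Bool) {m : ℕ} (h : m ≤ l.length) (j : ℕ) :
    pos (l.drop m) j = pos l (m + j) - pos l m := by
  have h1 : pos (l.take m ++ l.drop m) ((l.take m).length + j) =
      ed (l.take m) + pos (l.drop m) j := pos_append_right _ _ _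
  rw [List.take_append_drop, List.length_take, min_eq_left h, ed_take] at h1
  linarith

lemma ed_drop (l : List Bool) {m : ℕ} (h : m ≤ l.length) :
    ed (l.drop m) = ed l - pos l m := by
  have := ed_append (l.take m) (l.drop m)
  rw [List.take_append_drop, ed_take] at this
  linarith

/-- first decomposition: a half-space walk is a bridge followed by the mirror image of a half-space
walk -/
lemma decomp_half {κ : ℝ} (hκ0 : 0 ≤ κ) (hκ1 : κ < 1) (a : List Bool) (ha : Half a) :
    ∃ l₁ l₂ : List Bool, a = l₁ ++ neg l₂ ∧ Bri l₁ ∧ Half l₂ ∧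
      (∀ j ≤ l₂.length, pos l₂ j ≤ ed l₁) ∧ (a ≠ [] → l₁ ≠ []) ∧
      (l₂.length : ℝ) ^ (1 - κ) / 4 ≤ xc κ l₁.reverse l₂ := by
  obtain ⟨m, hm, h1, h2⟩ := exists_last_argmax (pos a) a.length
  have hlen : (a.drop m).length = a.length - m := List.length_drop
  have hlent : (a.take m).length = m := by rw [List.length_take]; omega
  have hA : Bri (a.take m) := by
    constructor
    · intro i hi1 hi2
      rw [hlent] at hi2
      rw [pos_take _ hi2]
      exact ha i hi1 (by omega)
    · intro i hi
      rw [hlent] at hi
      rw [pos_take _ hi, ed_take]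
      exact h1 i (by omega)
  have hB : Half (neg (a.drop m)) := by
    intro i hi1 hi2
    rw [length_neg, hlen] at hi2
    rw [pos_neg, pos_drop _ hm]
    have := h2 (m + i) (by omega) (by omega)
    omega
  have hC : ∀ j ≤ (neg (a.drop m)).length, pos (neg (a.drop m)) j ≤ ed (a.take m) := by
    intro j hj
    rw [length_neg, hlen] at hj
    rw [pos_neg, pos_drop _ hm, ed_take]
    have := ha.nn (m + j) (by omega)
    omega
  refine ⟨a.take m, neg (a.drop m), ?_, hA, hB, hC, ?_, ?_⟩
  · rw [neg_neg', List.take_append_drop]
  · intro hne h3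
    have h4 : 0 < a.length := List.length_pos_iff.2 hne
    have h5 : m = 0 := by
      by_contra h6
      have : (a.take m).length = 0 := by rw [h3]; rfl
      omega
    subst h5
    have := h1 1 (by omega)
    have h7 := ha 1 le_rfl (by omega)
    simp at this
    omega
  · rw [xc_comm]
    apply lemmaC hκ0 hκ1
    · exact hB.nn
    · intro j hj
      rw [List.length_reverse] at hj
      rw [pos_reverse _ hj]
      have := hA.2 ((a.take m).length - j) (by omega)
      omega
    · intro i hi
      refine ⟨(a.take m).length, by simp, ?_⟩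
      rw [pos_reverse _ le_rfl, Nat.sub_self, pos_zero, sub_zero]
      exact hC i hi

/-- second decomposition: at the last minimum -/
lemma decomp_all (l : List Bool) :
    ∃ v r : List Bool, l = neg v.reverse ++ r ∧ NN v ∧ Half r := by
  obtain ⟨m, hm, h1, h2⟩ := exists_last_argmax (fun i => - pos l i) l.length
  have hlen : (l.drop m).length = l.length - m := List.length_drop
  have hlent : (l.take m).length = m := by rw [List.length_take]; omega
  refine ⟨(neg (l.take m)).reverse, l.drop m, ?_, ?_, ?_⟩
  · rw [List.reverse_reverse, neg_neg', List.take_append_drop]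
  · intro i hi
    rw [List.length_reverse, length_neg, hlent] at hi
    rw [pos_reverse _ (by rw [length_neg, hlent]; exact hi), length_neg, hlent, ed_neg, pos_neg,
      pos_take _ (by omega), ed_take]
    have := h1 (m - i) (by omega)
    omega
  · intro i hi1 hi2
    rw [hlen] at hi2
    rw [pos_drop _ hm]
    have := h2 (m + i) (by omega) (by omega)
    omega

lemma eng_valley (κ : ℝ) (v r : List Bool) :
    eng κ (neg v.reverse ++ r) = eng κ v + eng κ r + xc κ v r := by
  rw [eng_append, eng_neg, eng_reverse, neg_reverse, List.reverse_reverse, xc_neg]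

lemma eng_top (κ : ℝ) (l₁ l₂ : List Bool) :
    eng κ (l₁ ++ neg l₂) = eng κ l₁ + eng κ l₂ + xc κ l₁.reverse l₂ := by
  rw [eng_append, eng_neg, neg_neg']

lemma Half.append {a b : List Bool} (ha : Bri a) (hb : Half b) : Half (a ++ b) := by
  intro i hi1 hi2
  rw [List.length_append] at hi2
  rcases le_or_gt i a.length with h | h
  · rw [pos_append_left _ _ h]; exact ha.1 i hi1 h
  · rw [show i = a.length + (i - a.length) by omega, pos_append_right]
    have h1 := hb (i - a.length) (by omega) (by omega)
    have h2 : 0 ≤ ed a := by have := ha.2 0 (by omega); simpa using this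
    omega

lemma Bri.append {a b : List Bool} (ha : Bri a) (hb : Bri b) : Bri (a ++ b) := by
  refine ⟨Half.append ha hb.1, ?_⟩
  intro i hi
  rw [List.length_append] at hi
  rw [ed_append]
  have h3 : 0 ≤ ed b := by have := hb.2 0 (by omega); simpa using this
  rcases le_or_gt i a.length with h | h
  · rw [pos_append_left _ _ h]
    have := ha.2 i h
    omega
  · rw [show i = a.length + (i - a.length) by omega, pos_append_right]
    have := hb.2 (i - a.length) (by omega)
    omega

/-- no cross energy between a bridge and a half-space walk -/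
lemma eng_bri_append (κ : ℝ) {a b : List Bool} (ha : ∀ i ≤ a.length, pos a i ≤ ed a) (hb : Half b) :
    eng κ (a ++ b) = eng κ a + eng κ b := by
  rw [eng_append]
  have : xc κ a.reverse (neg b) = 0 := by
    unfold xc
    apply Finset.sum_eq_zero
    intro i hi
    apply Finset.sum_eq_zero
    intro j hj
    rw [if_neg]
    simp only [Finset.mem_Icc, List.length_reverse, length_neg] at hi hj
    rw [pos_reverse _ hi.2, pos_neg]
    have h1 := ha (a.length - i) (by omega)
    have h2 := hb j hj.1 hj.2
    omega
  rw [this, add_zero]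

lemma eng_cons_true (κ : ℝ) {v : List Bool} (hv : NN v) : eng κ (true :: v) = eng κ v := by
  rw [← List.singleton_append (x := true) (l := v), eng_append]
  have h1 : eng κ [true] = 0 := by
    unfold eng en
    simp [Finset.sum_range_succ, pos, st]
  have h2 : xc κ [true].reverse (neg v) = 0 := by
    unfold xc
    apply Finset.sum_eq_zero
    intro i hi
    apply Finset.sum_eq_zero
    intro j hj
    rw [if_neg]
    simp only [Finset.mem_Icc, List.length_reverse, length_neg] at hi hj
    rw [pos_reverse _ hi.2, pos_neg]
    have h3 := hv j hj.2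
    simp only [List.length_cons, List.length_nil] at hi ⊢
    rw [show 0 + 1 - i = 0 by omega]
    simp only [ed_cons, ed_nil, st, if_true, pos_zero]
    omega
  rw [h1, h2]; ring

lemma half_cons_true {v : List Bool} (hv : NN v) : Half (true :: v) := by
  intro i hi1 hi2
  obtain ⟨k, rfl⟩ : ∃ k, i = k + 1 := ⟨i - 1, by omega⟩
  rw [pos_cons_succ]
  simp only [List.length_cons] at hi2
  have := hv k (by omega)
  simp only [st, if_true]
  omega

end Pool.Agent.Helper98.Elastic
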