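import Mathlib

/-!
# The one-dimensional elastic polymer: definitions
-/

namespace Pool.Agent.Helper98.Elastic

/-- The finite set `𝒲_n` of nearest-neighbour paths `w = (w_0, …, w_n)` in `ℤ` with `w_0 = 0` and
`|w_{i+1} - w_i| = 1` for `0 ≤ i < n` (they all take values in `[-n, n]`, see `mem_paths`). -/
noncomputable def paths (n : ℕ) : Finset (Fin (n + 1) → ℤ) :=
  (Fintype.piFinset fun _ => Finset.Icc (-(n : ℤ)) n).filter
    (fun w => w 0 = 0 ∧ ∀ i : Fin n, |w i.succ - w i.castSucc| = 1)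

/-- The decaying self-intersection count `I_n^κ(w) = ∑_{0 ≤ i < j ≤ n, w_i = w_j} (j - i) ^ (-κ)`. -/
noncomputable def energy (κ : ℝ) {n : ℕ} (w : Fin (n + 1) → ℤ) : ℝ :=
  ∑ i : Fin (n + 1), ∑ j : Fin (n + 1),
    if i < j ∧ w i = w j then ((j : ℝ) - (i : ℝ)) ^ (-κ) else 0

/-- The normalising constant `Z_n^{β,κ}`. -/
noncomputable def partitionFunction (β κ : ℝ) (n : ℕ) : ℝ :=
  ∑ w ∈ paths n, Real.exp (-(β * energy κ w))

open Classical in
/-- The elastic polymer measure `P_n^{β,κ}` of a set `A` of paths. -/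
noncomputable def prob (β κ : ℝ) (n : ℕ) (A : Set (Fin (n + 1) → ℤ)) : ℝ :=
  (∑ w ∈ paths n with w ∈ A, Real.exp (-(β * energy κ w))) / partitionFunction β κ n

/-- `θ` is the speed of the polymer: `|S_n| / n → θ` in `P_n^{β,κ}`-probability, with `S_n = w_n`. -/
def IsSpeed (β κ θ : ℝ) : Prop :=
  ∀ ε : ℝ, 0 < ε → Filter.Tendsto (fun n : ℕ => prob β κ n
    {w | ε < |((|w (Fin.last n)| : ℤ) : ℝ) / (n : ℝ) - θ|}) Filter.atTop (nhds 0)

lemma mem_paths {n : ℕ} {w : Fin (n + 1) → ℤ} :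
    w ∈ paths n ↔ w 0 = 0 ∧ ∀ i : Fin n, |w i.succ - w i.castSucc| = 1 := by
  unfold paths
  rw [Finset.mem_filter, and_iff_right_iff_imp]
  rintro ⟨h0, h1⟩
  rw [Fintype.mem_piFinset]
  have key : ∀ k : ℕ, ∀ hk : k < n + 1, |w ⟨k, hk⟩| ≤ k := by
    intro k
    induction k with
    | zero => intro hk; rw [show (⟨0, hk⟩ : Fin (n + 1)) = 0 from rfl, h0]; simp
    | succ k ih =>
      intro hk
      have h2 := ih (by omega)
      have h3 := h1 ⟨k, by omega⟩
      have h4 : |w ⟨k + 1, hk⟩ - w ⟨k, by omega⟩| = 1 := h3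
      have h5 : w ⟨k + 1, hk⟩ = (w ⟨k + 1, hk⟩ - w ⟨k, by omega⟩) + w ⟨k, by omega⟩ := by ring
      rw [h5]
      refine (abs_add_le _ _).trans ?_
      push_cast
      linarith
  intro i
  have h2 := key i.1 i.2
  have h3 := abs_le.1 h2
  have h4 : ((i : ℕ) : ℤ) ≤ n := by have := i.2; omega
  rw [Finset.mem_Icc]
  have h5 : w ⟨i.1, i.2⟩ = w i := rfl
  constructor <;> linarith [h3.1, h3.2]

end Pool.Agent.Helper98.Elastic
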