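import Pool.Agent.Helper98.Elastic.Joint

/-!
# The means of irreducible pairs
-/

open Finset Filter Topology
open scoped ENNReal

namespace Pool.Agent.Helper98.Elastic

lemma sl_cast {A : Type*} (t : A → ℕ) (L : List A) :
    sl (fun a => (t a : ℝ≥0∞)) L = ((sl t L : ℕ) : ℝ≥0∞) := by
  induction L with
  | nil => simp
  | cons a L ih => rw [sl_cons, sl_cons, ih]; push_cast; rfl

lemma tsum_le_of_triple (U g : ℕ → ℝ≥0∞) (c K : ℝ≥0∞) (hU : ∀ n, c ≤ U n)
    (h : ∀ Y : ℕ, ∑ x ∈ antidiagonal Y, ∑ y ∈ antidiagonal x.2, U x.1 * (g y.1 * U y.2) ≤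
      K * (Y + 1)) : ∑' k, c * (g k * c) ≤ 2 * K := by
  apply ENNReal.tsum_le_of_sum_range_le
  intro M0
  rcases Nat.eq_zero_or_pos M0 with rfl | hM0
  · simp
  obtain ⟨M, rfl⟩ : ∃ M, M0 = M + 1 := ⟨M0 - 1, by omega⟩
  have h1 := h (2 * M)
  have h2 : ((M + 1 : ℕ) : ℝ≥0∞) * ∑ k ∈ range (M + 1), c * (g k * c) ≤
      ∑ x ∈ antidiagonal (2 * M), ∑ y ∈ antidiagonal x.2, U x.1 * (g y.1 * U y.2) := by
    calc ((M + 1 : ℕ) : ℝ≥0∞) * ∑ k ∈ range (M + 1), c * (g k * c)
        = ∑ _i ∈ range (M + 1), ∑ k ∈ range (M + 1), c * (g k * c) := by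
          rw [Finset.sum_const, Finset.card_range, nsmul_eq_mul]
      _ ≤ ∑ i ∈ range (M + 1), ∑ k ∈ range (2 * M - i + 1), c * (g k * c) := by
          apply Finset.sum_le_sum
          intro i hi
          rw [Finset.mem_range] at hi
          apply Finset.sum_le_sum_of_subset
          intro k hk
          rw [Finset.mem_range] at *
          omega
      _ ≤ ∑ i ∈ range (2 * M + 1), ∑ k ∈ range (2 * M - i + 1), c * (g k * c) := by
          apply Finset.sum_le_sum_of_subset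
          intro k hk
          rw [Finset.mem_range] at *
          omega
      _ ≤ ∑ i ∈ range (2 * M + 1), ∑ k ∈ range (2 * M - i + 1),
            U i * (g k * U (2 * M - i - k)) := by
          gcongr
          · exact hU _
          · exact hU _
      _ = _ := by
          rw [Finset.Nat.sum_antidiagonal_eq_sum_range_succ_mk]
          refine Finset.sum_congr rfl fun i _ => ?_
          rw [Finset.Nat.sum_antidiagonal_eq_sum_range_succ_mk]
  have h3 : ((M + 1 : ℕ) : ℝ≥0∞) * ∑ k ∈ range (M + 1), c * (g k * c) ≤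
      ((M + 1 : ℕ) : ℝ≥0∞) * (2 * K) := by
    refine (h2.trans h1).trans ?_
    calc K * (((2 * M : ℕ) : ℝ≥0∞) + 1) ≤ K * (2 * ((M + 1 : ℕ) : ℝ≥0∞)) := by
          gcongr
          push_cast
          rw [mul_add]
          gcongr
          norm_num
      _ = _ := by ring
  exact (ENNReal.mul_le_mul_iff_right (by simp) (by simp)).1 h3

lemma triple_le (U g V : ℕ → ℝ≥0∞) (hU : ∀ n, U n ≤ 1) (hV : ∀ n, V n ≤ 1) (Y : ℕ) :
    ∑ x ∈ antidiagonal Y, ∑ y ∈ antidiagonal x.2, U x.1 * (g y.1 * V y.2) ≤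
      (∑' k, g k) * (Y + 1) := by
  calc ∑ x ∈ antidiagonal Y, ∑ y ∈ antidiagonal x.2, U x.1 * (g y.1 * V y.2)
      ≤ ∑ x ∈ antidiagonal Y, ∑' k, g k := by
        apply Finset.sum_le_sum
        intro x _
        rw [← Finset.mul_sum]
        calc U x.1 * ∑ y ∈ antidiagonal x.2, g y.1 * V y.2 ≤ 1 * ∑' k, g k := by
              gcongr
              · exact hU _
              · exact conv_le g V hV _
          _ = _ := one_mul _
    _ = _ := by
        rw [Finset.sum_const, Finset.Nat.card_antidiagonal, nsmul_eq_mul, mul_comm]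
        push_cast; rfl

/-! ### single bridges -/

/-- a weighted sum over bridges of given span -/
noncomputable def EY (p : Par) (Y : ℕ) (t : List Bool → ℝ≥0∞) : ℝ≥0∞ :=
  ∑' a, ic (Bri a ∧ ed a = Y) (W p a) * t a

lemma EY_words (p : Par) (Y : ℕ) (t : List Bool → ℝ≥0∞) :
    EY p Y t = ∑' L : List IB, if sl span L = Y then wl (wI p) L * t (bfac.pr L) else 0 := by
  classical
  have h1 : EY p Y t = ∑' a, if bfac.B a then ic (ed a = Y) (W p a * t a) else 0 := by
    unfold EY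
    refine tsum_congr fun a => ?_
    rw [ic_ite, ic_and]
    by_cases h : Bri a
    · have h' : bfac.B a := h
      rw [ic_pos h, ic_pos h', mul_comm, ← ic_mul, mul_comm]
    · have h' : ¬ bfac.B a := h
      rw [ic_neg h, ic_neg h', zero_mul]
  rw [h1, bfac.tsum_B]
  refine tsum_congr fun L => ?_
  rw [ic_ite, pr_W, pr_ed]
  exact ic_congr (by exact_mod_cast Iff.rfl) _

lemma EY_const (p : Par) (Y : ℕ) : EY p Y (fun _ => 1) = ub p Y := by
  unfold EY
  simp only [mul_one]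
  rfl

/-- the masses of irreducible bridges by span, weighted by the length -/
noncomputable def gLen (p : Par) (k : ℕ) : ℝ≥0∞ := gw (wI p) span (fun a => (len a : ℝ≥0∞)) k

lemma tsum_gLen (p : Par) : ∑' k, gLen p k = mu p := tsum_gw _

lemma Uw_fun_eq (p : Par) : Uw (wI p) span = ub p := by
  funext n; rw [ub_eq_Uw]

lemma EY_length (p : Par) (Y : ℕ) : EY p Y (fun a => (a.length : ℝ≥0∞)) =
    ∑ x ∈ antidiagonal Y, ∑ y ∈ antidiagonal x.2, ub p x.1 * (gLen p y.1 * ub p y.2) := by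
  rw [EY_words]
  have h := campbell_additive (wI p) span (fun a => (len a : ℝ≥0∞)) Y
  rw [Uw_fun_eq] at h
  unfold gLen
  rw [← h]
  refine tsum_congr fun L => ?_
  rw [sl_cast, pr_length]

/-! ### levels -/

/-- number of visits to the level `k` -/
def lv (a : List Bool) (k : ℤ) : ℕ := ∑ i ∈ Icc 1 a.length, if pos a i = k then 1 else 0

lemma lv_append (a b : List Bool) (k : ℤ) : lv (a ++ b) k = lv a k + lv b (k - ed a) := by
  unfold lv
  rw [List.length_append, sum_Icc_add]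
  congr 1
  · refine Finset.sum_congr rfl fun i hi => ?_
    rw [Finset.mem_Icc] at hi
    rw [pos_append_left _ _ hi.2]
  · refine Finset.sum_congr rfl fun i _ => ?_
    rw [pos_append_right]
    by_cases h : pos b i = k - ed a
    · rw [if_pos h, if_pos (by linarith)]
    · rw [if_neg h, if_neg (fun h' => h (by linarith))]

lemma lv_pr (L : List IB) : ∀ k : ℤ, ((lv (bfac.pr L) k : ℕ) : ℝ≥0∞) =
    Mk (fun B b _ => ((lv b.1 (k - (sl span B : ℕ)) : ℕ) : ℝ≥0∞)) L := by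
  induction L with
  | nil =>
    intro k
    rw [Mk_nil]
    have h : lv (bfac.pr []) k = 0 := rfl
    rw [h]; simp
  | cons a L ih =>
    intro k
    rw [Mk_cons]
    have h1 : bfac.pr (a :: L) = a.1 ++ bfac.pr L := rfl
    rw [h1, lv_append]
    push_cast
    rw [ih]
    congr 1
    · simp
    · apply Mk_congr
      intro B b C _
      rw [sl_cons]
      congr 2
      push_cast
      rw [span_eq]; ring

/-- mass of bridges of integer span -/
noncomputable def ubz (p : Par) (k : ℤ) : ℝ≥0∞ := if 0 ≤ k then ub p k.toNat else 0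

lemma ubz_le_one (p : Par) (k : ℤ) : ubz p k ≤ 1 := by
  unfold ubz; split_ifs
  · exact ub_le_one p _
  · exact zero_le

lemma ubz_eq (p : Par) (k : ℤ) :
    ubz p k = ∑' L : List IB, ic ((sl span L : ℕ) = k) (wl (wI p) L) := by
  unfold ubz
  by_cases hk : 0 ≤ k
  · rw [if_pos hk, ub_eq_Uw]
    unfold Uw
    refine tsum_congr fun L => ?_
    rw [ic_ite]
    apply ic_congr
    omega
  · rw [if_neg hk, eq_comm, ENNReal.tsum_eq_zero]
    intro L
    apply ic_neg
    intro h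
    omega

/-- expected number of visits to the level `y`, for bridges of span `y + z` -/
noncomputable def lam (p : Par) (y z : ℕ) : ℝ≥0∞ :=
  ∑' b : IB, ∑ i ∈ Icc 1 (len b),
    wI p b * (ubz p (y - pos b.1 i) * ubz p (z - (ed b.1 - pos b.1 i)))

lemma lam_le (p : Par) (y z : ℕ) : lam p y z ≤ mu p := by
  unfold lam mu
  apply ENNReal.tsum_le_tsum
  intro b
  calc ∑ i ∈ Icc 1 (len b), wI p b * (ubz p (y - pos b.1 i) * ubz p (z - (ed b.1 - pos b.1 i)))
      ≤ ∑ i ∈ Icc 1 (len b), wI p b * (1 * 1) := by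
        gcongr
        · exact ubz_le_one p _
        · exact ubz_le_one p _
    _ = _ := by simp [mul_comm]

lemma EY_lv (p : Par) (y z : ℕ) : EY p (y + z) (fun a => ((lv a y : ℕ) : ℝ≥0∞)) = lam p y z := by
  rw [EY_words]
  have h1 : ∀ L : List IB, (if sl span L = y + z then
      wl (wI p) L * ((lv (bfac.pr L) y : ℕ) : ℝ≥0∞) else 0) =
      wl (wI p) L * Mk (fun B b C => ic (sl span B + (span b + sl span C) = y + z)
        ((lv b.1 (y - (sl span B : ℕ)) : ℕ) : ℝ≥0∞)) L := by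
    intro L
    rw [lv_pr]
    by_cases h : sl span L = y + z
    · rw [if_pos h]
      congr 1
      apply Mk_congr
      intro B b C hL
      rw [← hL, sl_append, sl_cons] at h
      rw [ic_pos h]
    · rw [if_neg h]
      have : Mk (fun B b C => ic (sl span B + (span b + sl span C) = y + z)
        ((lv b.1 (y - (sl span B : ℕ)) : ℕ) : ℝ≥0∞)) L = Mk (fun _ _ _ => 0) L := by
        apply Mk_congr
        intro B b C hL
        rw [← hL, sl_append, sl_cons] at h
        rw [ic_neg h]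
      rw [this]
      unfold Mk
      simp
  rw [tsum_congr h1, campbell]
  unfold lam
  rw [ENNReal.tsum_comm]
  refine tsum_congr fun b => ?_
  have h2 : ∀ B C : List IB, wl (wI p) B * (wI p b * wl (wI p) C) *
      ic (sl span B + (span b + sl span C) = y + z)
        ((lv b.1 (y - (sl span B : ℕ)) : ℕ) : ℝ≥0∞) =
      ∑ i ∈ Icc 1 (len b), wI p b * (ic ((sl span B : ℕ) = (y : ℤ) - pos b.1 i) (wl (wI p) B) *
        ic ((sl span C : ℕ) = (z : ℤ) - (ed b.1 - pos b.1 i)) (wl (wI p) C)) := by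
    intro B C
    have h3 : ((lv b.1 (y - (sl span B : ℕ)) : ℕ) : ℝ≥0∞) =
        ∑ i ∈ Icc 1 (len b), ic (pos b.1 i = y - (sl span B : ℕ)) 1 := by
      unfold lv len
      push_cast
      refine Finset.sum_congr rfl fun i _ => ?_
      rw [ic_ite]
    rw [h3]
    have h4 : ic (sl span B + (span b + sl span C) = y + z)
        (∑ i ∈ Icc 1 (len b), ic (pos b.1 i = y - (sl span B : ℕ)) 1) =
        ∑ i ∈ Icc 1 (len b), ic (sl span B + (span b + sl span C) = y + z)
          (ic (pos b.1 i = y - (sl span B : ℕ)) 1) := by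
      by_cases h : sl span B + (span b + sl span C) = y + z
      · rw [ic_pos h]
        exact Finset.sum_congr rfl fun i _ => (ic_pos h _).symm
      · rw [ic_neg h, Finset.sum_eq_zero]
        intro i _; exact ic_neg h _
    rw [h4, Finset.mul_sum]
    refine Finset.sum_congr rfl fun i _ => ?_
    rw [← ic_and]
    have hsp := span_eq b
    by_cases h5 : (sl span B : ℕ) = (y : ℤ) - pos b.1 i
    · by_cases h6 : (sl span C : ℕ) = (z : ℤ) - (ed b.1 - pos b.1 i)
      · rw [ic_pos h5, ic_pos h6, ic_pos ⟨by omega, by omega⟩]; ring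
      · rw [ic_neg h6, ic_neg, mul_zero, mul_zero, mul_zero]
        rintro ⟨h7, h8⟩
        omega
    · rw [ic_neg h5, ic_neg, mul_zero, zero_mul, mul_zero]
      rintro ⟨h7, h8⟩
      omega
  simp_rw [h2]
  simp_rw [ennreal_tsum_finset_sum]
  refine Finset.sum_congr rfl fun i _ => ?_
  rw [ubz_eq, ubz_eq, ← tsum_tsum_mul, ← ENNReal.tsum_mul_left]
  refine tsum_congr fun B => ?_
  rw [ENNReal.tsum_mul_left]

lemma tendsto_ubz (p : Par) (k : ℤ) :
    Tendsto (fun y : ℕ => ubz p ((y : ℤ) - k)) atTop (𝓝 (ENNReal.ofReal (al p))) := by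
  have h1 : Tendsto (fun y : ℕ => ((y : ℤ) - k).toNat) atTop atTop := by
    apply tendsto_atTop_atTop.2
    intro b
    exact ⟨b + k.toNat, fun a ha => by omega⟩
  refine ((tendsto_ub p).comp h1).congr' ?_
  filter_upwards [eventually_ge_atTop k.toNat] with y hy
  unfold ubz
  rw [if_pos (by omega)]
  rfl

lemma tendsto_lam (p : Par) :
    Tendsto (fun x : ℕ × ℕ => lam p x.1 x.2) atTop
      (𝓝 (mu p * (ENNReal.ofReal (al p) * ENNReal.ofReal (al p)))) := by
  have halt : ENNReal.ofReal (al p) ≠ ∞ := ENNReal.ofReal_ne_top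
  have hal1 : ENNReal.ofReal (al p) ≤ 1 := le_of_tendsto (tendsto_ub p)
    (Eventually.of_forall (ub_le_one p))
  rw [← prod_atTop_atTop_eq]
  unfold lam mu
  rw [← ENNReal.tsum_mul_right]
  apply ennreal_tannery _ _ (fun b : IB => wI p b * (len b : ℝ≥0∞)) (mu_ne_top p)
  · intro x b
    calc ∑ i ∈ Icc 1 (len b), wI p b * (ubz p (x.1 - pos b.1 i) *
          ubz p (x.2 - (ed b.1 - pos b.1 i)))
        ≤ ∑ i ∈ Icc 1 (len b), wI p b * (1 * 1) := by
          gcongr
          · exact ubz_le_one p _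
          · exact ubz_le_one p _
      _ = _ := by simp [mul_comm]
  · intro b
    calc wI p b * (len b : ℝ≥0∞) * (ENNReal.ofReal (al p) * ENNReal.ofReal (al p))
        ≤ wI p b * (len b : ℝ≥0∞) * (1 * 1) := by gcongr
      _ = _ := by simp
  · intro b
    have h1 : wI p b * (len b : ℝ≥0∞) * (ENNReal.ofReal (al p) * ENNReal.ofReal (al p)) =
        ∑ i ∈ Icc 1 (len b), wI p b * (ENNReal.ofReal (al p) * ENNReal.ofReal (al p)) := by
      simp only [Finset.sum_const, Nat.card_Icc, Nat.add_sub_cancel, nsmul_eq_mul]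
      ring
    rw [h1]
    apply tendsto_finsetSum
    intro i _
    apply ENNReal.Tendsto.const_mul _ (Or.inr (W_ne_top p _))
    apply ENNReal.Tendsto.mul _ (Or.inr halt) _ (Or.inr halt)
    · exact (tendsto_ubz p _).comp tendsto_fst
    · exact (tendsto_ubz p _).comp tendsto_snd

lemma Nc_eq {a b : List Bool} {Y : ℕ} (ha : Bri a) (hY : ed a = Y) :
    Nc a b = ∑ x ∈ antidiagonal Y, lv a x.1 * lv b x.1 := by
  rw [Finset.Nat.sum_antidiagonal_eq_sum_range_succ_mk]
  unfold Nc lv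
  simp_rw [Finset.sum_mul_sum]
  conv_rhs => rw [Finset.sum_comm]
  refine Finset.sum_congr rfl fun i hi => ?_
  conv_rhs => rw [Finset.sum_comm]
  refine Finset.sum_congr rfl fun j hj => ?_
  rw [Finset.mem_Icc] at hi
  have h1 := ha.1.nn i hi.2
  have h2 := ha.2 i hi.2
  rw [Finset.sum_eq_single (pos a i).toNat]
  · have h3 : ((pos a i).toNat : ℤ) = pos a i := Int.toNat_of_nonneg h1
    rw [h3, if_pos rfl, one_mul]
    by_cases h4 : pos a i = pos b j
    · rw [if_pos h4, if_pos h4.symm]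
    · rw [if_neg h4, if_neg (fun h => h4 h.symm)]
  · intro k _ hk
    rw [if_neg, zero_mul]
    intro h
    apply hk
    rw [h]; simp
  · intro h
    exfalso
    apply h
    rw [Finset.mem_range]
    omega

/-! ### irreducible pairs: sums weighted by additive statistics -/

/-- masses of irreducible pairs weighted by a statistic -/
noncomputable def gJ (p : Par) (t : JB → ℕ) (k : ℕ) : ℝ≥0∞ :=
  gw (wJ p) spanJ (fun x => (t x : ℝ≥0∞)) k

lemma sumJ_eq (p : Par) (t : JB → ℕ) (G : PM → ℕ) (hG : ∀ L, G (jfac.pr L) = sl t L) (Y : ℕ) :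
    ∑' a, ∑' b, ic (Bri a ∧ ed a = Y) (W p a) * ic (Bri b ∧ ed b = Y) (W p b) *
      (G (a, b) : ℝ≥0∞) =
      ∑ x ∈ antidiagonal Y, ∑ y ∈ antidiagonal x.2,
        Uw (wJ p) spanJ x.1 * (gJ p t y.1 * Uw (wJ p) spanJ y.2) := by
  rw [← tsum_jB_span p Y (fun x => (G x : ℝ≥0∞))]
  have h := campbell_additive (wJ p) spanJ (fun a => (t a : ℝ≥0∞)) Y
  unfold gJ
  rw [← h]
  refine tsum_congr fun L => ?_
  rw [sl_cast, hG]

lemma sumJ_len1 (p : Par) (Y : ℕ) :
    ∑' a, ∑' b, ic (Bri a ∧ ed a = Y) (W p a) * ic (Bri b ∧ ed b = Y) (W p b) *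
      (((fun x : PM => x.1.length) (a, b) : ℕ) : ℝ≥0∞) =
      EY p Y (fun a => (a.length : ℝ≥0∞)) * ub p Y := by
  have h1 : ∀ a b : List Bool, ic (Bri a ∧ ed a = Y) (W p a) * ic (Bri b ∧ ed b = Y) (W p b) *
      (((fun x : PM => x.1.length) (a, b) : ℕ) : ℝ≥0∞) =
      (ic (Bri a ∧ ed a = Y) (W p a) * (a.length : ℝ≥0∞)) * ic (Bri b ∧ ed b = Y) (W p b) := by
    intro a b; simp only; ring
  simp_rw [h1]
  rw [tsum_tsum_mul]
  rfl

lemma sumJ_len2 (p : Par) (Y : ℕ) :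
    ∑' a, ∑' b, ic (Bri a ∧ ed a = Y) (W p a) * ic (Bri b ∧ ed b = Y) (W p b) *
      (((fun x : PM => x.2.length) (a, b) : ℕ) : ℝ≥0∞) =
      EY p Y (fun a => (a.length : ℝ≥0∞)) * ub p Y := by
  have h1 : ∀ a b : List Bool, ic (Bri a ∧ ed a = Y) (W p a) * ic (Bri b ∧ ed b = Y) (W p b) *
      (((fun x : PM => x.2.length) (a, b) : ℕ) : ℝ≥0∞) =
      ic (Bri a ∧ ed a = Y) (W p a) * (ic (Bri b ∧ ed b = Y) (W p b) * (b.length : ℝ≥0∞)) := by
    intro a b; simp only; ring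
  simp_rw [h1]
  rw [tsum_tsum_mul, mul_comm]
  rfl

lemma sumJ_N (p : Par) (Y : ℕ) :
    ∑' a, ∑' b, ic (Bri a ∧ ed a = Y) (W p a) * ic (Bri b ∧ ed b = Y) (W p b) *
      (((fun x : PM => Nc x.1 x.2) (a, b) : ℕ) : ℝ≥0∞) =
      ∑ x ∈ antidiagonal Y, lam p x.1 x.2 * lam p x.1 x.2 := by
  have h1 : ∀ a b : List Bool, ic (Bri a ∧ ed a = Y) (W p a) * ic (Bri b ∧ ed b = Y) (W p b) *
      (((fun x : PM => Nc x.1 x.2) (a, b) : ℕ) : ℝ≥0∞) =
      ∑ x ∈ antidiagonal Y, (ic (Bri a ∧ ed a = Y) (W p a) * ((lv a x.1 : ℕ) : ℝ≥0∞)) *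
        (ic (Bri b ∧ ed b = Y) (W p b) * ((lv b x.1 : ℕ) : ℝ≥0∞)) := by
    intro a b
    simp only
    by_cases ha : Bri a ∧ ed a = Y
    · rw [Nc_eq ha.1 ha.2]
      push_cast
      rw [Finset.mul_sum]
      refine Finset.sum_congr rfl fun x _ => ?_
      ring
    · rw [ic_neg ha]; simp
  simp_rw [h1]
  simp_rw [ennreal_tsum_finset_sum]
  refine Finset.sum_congr rfl fun x hx => ?_
  rw [tsum_tsum_mul]
  rw [Finset.HasAntidiagonal.mem_antidiagonal] at hx
  have h2 := EY_lv p x.1 x.2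
  rw [hx] at h2
  rw [← h2]
  rfl

lemma tsum_gJ (p : Par) (t : JB → ℕ) : ∑' k, gJ p t k = ∑' x, wJ p x * (t x : ℝ≥0∞) := tsum_gw _

/-- a general finiteness criterion -/
lemma mean_ne_top (p : Par) (t : JB → ℕ) (K : ℝ≥0∞) (hK : K ≠ ∞)
    (h : ∀ Y : ℕ, ∑ x ∈ antidiagonal Y, ∑ y ∈ antidiagonal x.2,
        Uw (wJ p) spanJ x.1 * (gJ p t y.1 * Uw (wJ p) spanJ y.2) ≤ K * (Y + 1)) :
    ∑' x, wJ p x * (t x : ℝ≥0∞) ≠ ∞ := by
  obtain ⟨c, hc, hcU⟩ := exists_UwJ_lower p
  have h1 := tsum_le_of_triple (Uw (wJ p) spanJ) (gJ p t) (ENNReal.ofReal c) K hcU h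
  rw [ENNReal.tsum_mul_left, ENNReal.tsum_mul_right, tsum_gJ] at h1
  intro htop
  rw [htop] at h1
  have hc' : ENNReal.ofReal c ≠ 0 := (ENNReal.ofReal_pos.2 hc).ne'
  rw [ENNReal.top_mul hc', ENNReal.mul_top hc'] at h1
  exact ENNReal.mul_ne_top (by norm_num) hK (top_le_iff.1 h1)

lemma tendsto_UwJ' (p : Par) :
    Tendsto (Uw (wJ p) spanJ) atTop (𝓝 (ENNReal.ofReal (al p ^ 2))) := by
  have := ENNReal.tendsto_ofReal (tendsto_UwJ p)
  refine this.congr fun n => ENNReal.ofReal_toReal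
    (ne_top_of_le_ne_top ENNReal.one_ne_top (UwJ_le_one p n))

lemma tendsto_sumJ (p : Par) (t : JB → ℕ) (ht : ∑' x, wJ p x * (t x : ℝ≥0∞) ≠ ∞) :
    Tendsto (fun Y : ℕ => (∑ x ∈ antidiagonal Y, ∑ y ∈ antidiagonal x.2,
        Uw (wJ p) spanJ x.1 * (gJ p t y.1 * Uw (wJ p) spanJ y.2)).toReal / Y) atTop
      (𝓝 (al p ^ 4 * (∑' x, wJ p x * (t x : ℝ≥0∞)).toReal)) := by
  have h := triple_tendsto (Uw (wJ p) spanJ) (gJ p t) (Uw (wJ p) spanJ) _ _
    (by rw [tsum_gJ]; exact ht) (UwJ_le_one p) (UwJ_le_one p) (tendsto_UwJ' p) (tendsto_UwJ' p)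
  rw [tsum_gJ, ENNReal.toReal_ofReal (by positivity)] at h
  convert h using 2
  ring

lemma sumJ_len_le (p : Par) (Y : ℕ) :
    EY p Y (fun a => (a.length : ℝ≥0∞)) * ub p Y ≤ mu p * (Y + 1) := by
  rw [EY_length]
  calc (∑ x ∈ antidiagonal Y, ∑ y ∈ antidiagonal x.2, ub p x.1 * (gLen p y.1 * ub p y.2)) * ub p Y
      ≤ (mu p * (Y + 1)) * 1 := by
        gcongr
        · rw [← tsum_gLen]
          exact triple_le (ub p) (gLen p) (ub p) (ub_le_one p) (ub_le_one p) Y
        · exact ub_le_one p Y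
    _ = _ := mul_one _

lemma tendsto_sumJ_len (p : Par) :
    Tendsto (fun Y : ℕ => (EY p Y (fun a => (a.length : ℝ≥0∞)) * ub p Y).toReal / Y) atTop
      (𝓝 (al p ^ 3 * mur p)) := by
  have h := triple_tendsto (ub p) (gLen p) (ub p) _ _
    (by rw [tsum_gLen]; exact mu_ne_top p) (ub_le_one p) (ub_le_one p) (tendsto_ub p) (tendsto_ub p)
  rw [tsum_gLen, ENNReal.toReal_ofReal (al_pos p).le] at h
  have h2 := h.mul (tendsto_ub_toReal p)
  have h3 : al p * ((mu p).toReal * al p) * al p = al p ^ 3 * mur p := by unfold mur; ring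
  rw [h3] at h2
  refine h2.congr fun Y => ?_
  rw [EY_length, ENNReal.toReal_mul]
  ring

lemma mean_len_aux (p : Par) (t : JB → ℕ)
    (h : ∀ Y : ℕ, EY p Y (fun a => (a.length : ℝ≥0∞)) * ub p Y =
      ∑ x ∈ antidiagonal Y, ∑ y ∈ antidiagonal x.2,
        Uw (wJ p) spanJ x.1 * (gJ p t y.1 * Uw (wJ p) spanJ y.2)) :
    ∑' x, wJ p x * (t x : ℝ≥0∞) ≠ ∞ ∧
      (∑' x, wJ p x * (t x : ℝ≥0∞)).toReal = mur p * nur p := by
  have h1 : ∑' x, wJ p x * (t x : ℝ≥0∞) ≠ ∞ :=
    mean_ne_top p t (mu p) (mu_ne_top p) (fun Y => by rw [← h Y]; exact sumJ_len_le p Y)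
  refine ⟨h1, ?_⟩
  have h2 := tendsto_sumJ p t h1
  simp_rw [← h] at h2
  have h3 := tendsto_nhds_unique h2 (tendsto_sumJ_len p)
  have h4 := al_pos p
  have h5 : 0 < nur p := by linarith [one_le_nur p]
  have h6 : al p * nur p = 1 := by unfold al; field_simp
  have h7 : al p ^ 3 * (al p * (∑' x, wJ p x * (t x : ℝ≥0∞)).toReal) = al p ^ 3 * mur p := by
    rw [← h3]; ring
  have h8 := mul_left_cancel₀ (by positivity) h7
  calc (∑' x, wJ p x * (t x : ℝ≥0∞)).toReal
      = (al p * nur p) * (∑' x, wJ p x * (t x : ℝ≥0∞)).toReal := by rw [h6, one_mul]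
    _ = (al p * (∑' x, wJ p x * (t x : ℝ≥0∞)).toReal) * nur p := by ring
    _ = _ := by rw [h8]

lemma mean_len1 (p : Par) : ∑' x : JB, wJ p x * (x.1.1.length : ℝ≥0∞) ≠ ∞ ∧
    (∑' x : JB, wJ p x * (x.1.1.length : ℝ≥0∞)).toReal = mur p * nur p := by
  apply mean_len_aux p (fun x : JB => x.1.1.length)
  intro Y
  rw [← sumJ_len1, sumJ_eq p (fun x : JB => x.1.1.length) (fun x => x.1.length) jpr_len1]

lemma mean_len2 (p : Par) : ∑' x : JB, wJ p x * (x.1.2.length : ℝ≥0∞) ≠ ∞ ∧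
    (∑' x : JB, wJ p x * (x.1.2.length : ℝ≥0∞)).toReal = mur p * nur p := by
  apply mean_len_aux p (fun x : JB => x.1.2.length)
  intro Y
  rw [← sumJ_len2, sumJ_eq p (fun x : JB => x.1.2.length) (fun x => x.2.length) jpr_len2]

/-- mean half length of an irreducible pair -/
noncomputable def mhl (p : Par) : ℝ≥0∞ := ∑' x, wJ p x * (hl x : ℝ≥0∞)

lemma two_mhl (p : Par) : 2 * mhl p = (∑' x : JB, wJ p x * (x.1.1.length : ℝ≥0∞)) +
    ∑' x : JB, wJ p x * (x.1.2.length : ℝ≥0∞) := by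
  unfold mhl
  rw [← ENNReal.tsum_mul_left, ← ENNReal.tsum_add]
  refine tsum_congr fun x => ?_
  have h1 := parity_pair x.2.1.2.2
  have h2 : 2 * hl x = x.1.1.length + x.1.2.length := by unfold hl; omega
  have h3 : 2 * (hl x : ℝ≥0∞) = (x.1.1.length : ℝ≥0∞) + (x.1.2.length : ℝ≥0∞) := by
    exact_mod_cast h2
  rw [← mul_add, ← h3]; ring

lemma mhl_ne_top (p : Par) : mhl p ≠ ∞ := by
  intro h
  have h1 := two_mhl p
  rw [h, ENNReal.mul_top (by norm_num)] at h1
  exact ENNReal.add_ne_top.2 ⟨(mean_len1 p).1, (mean_len2 p).1⟩ h1.symm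

lemma mhl_eq (p : Par) : (mhl p).toReal = mur p * nur p := by
  have h1 := congrArg ENNReal.toReal (two_mhl p)
  rw [ENNReal.toReal_mul, ENNReal.toReal_add (mean_len1 p).1 (mean_len2 p).1, (mean_len1 p).2,
    (mean_len2 p).2] at h1
  have h2 : (2 : ℝ≥0∞).toReal = 2 := by simp
  rw [h2] at h1
  linarith

/-- mean number of coincidences of an irreducible pair -/
noncomputable def eta (p : Par) : ℝ≥0∞ := ∑' x, wJ p x * (nJ x : ℝ≥0∞)

lemma sumJ_N' (p : Par) (Y : ℕ) : ∑ x ∈ antidiagonal Y, lam p x.1 x.2 * lam p x.1 x.2 =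
      ∑ x ∈ antidiagonal Y, ∑ y ∈ antidiagonal x.2,
        Uw (wJ p) spanJ x.1 * (gJ p nJ y.1 * Uw (wJ p) spanJ y.2) := by
  rw [← sumJ_N, sumJ_eq p nJ (fun x => Nc x.1 x.2) jpr_N]

lemma eta_ne_top (p : Par) : eta p ≠ ∞ := by
  apply mean_ne_top p nJ (mu p * mu p) (ENNReal.mul_ne_top (mu_ne_top p) (mu_ne_top p))
  intro Y
  rw [← sumJ_N']
  calc ∑ x ∈ antidiagonal Y, lam p x.1 x.2 * lam p x.1 x.2
      ≤ ∑ x ∈ antidiagonal Y, mu p * mu p := by
        gcongr
        · exact lam_le p _ _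
        · exact lam_le p _ _
    _ = _ := by
        rw [Finset.sum_const, Finset.Nat.card_antidiagonal, nsmul_eq_mul, mul_comm]
        push_cast; rfl

lemma eta_eq (p : Par) : (eta p).toReal = mur p ^ 2 := by
  have h2 := tendsto_sumJ p nJ (eta_ne_top p)
  simp_rw [← sumJ_N'] at h2
  have hlt : ∀ y z, lam p y z ≠ ∞ := fun y z => ne_top_of_le_ne_top (mu_ne_top p) (lam_le p y z)
  have h3 := cesaro2 (fun y z => (lam p y z).toReal * (lam p y z).toReal) (mur p * mur p)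
    ((mur p * (al p * al p)) * (mur p * (al p * al p))) ?_ ?_
  · have h4 : (fun Y : ℕ => (∑ x ∈ antidiagonal Y, lam p x.1 x.2 * lam p x.1 x.2).toReal / (Y : ℝ)) =
        fun Y : ℕ => (∑ x ∈ antidiagonal Y, (lam p x.1 x.2).toReal * (lam p x.1 x.2).toReal) / Y := by
      funext Y
      rw [ENNReal.toReal_sum (fun x _ => ENNReal.mul_ne_top (hlt _ _) (hlt _ _))]
      congr 1
      exact Finset.sum_congr rfl fun x _ => ENNReal.toReal_mul
    rw [h4] at h2
    have h5 := tendsto_nhds_unique h2 h3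
    have h6 := al_pos p
    have h7 : al p ^ 4 * (∑' x, wJ p x * (nJ x : ℝ≥0∞)).toReal = al p ^ 4 * mur p ^ 2 := by
      rw [h5]; ring
    exact mul_left_cancel₀ (by positivity) h7
  · intro y z
    rw [abs_of_nonneg (by positivity)]
    have h1 : ∀ y z, (lam p y z).toReal ≤ mur p :=
      fun y z => ENNReal.toReal_mono (mu_ne_top p) (lam_le p y z)
    exact mul_le_mul (h1 _ _) (h1 _ _) ENNReal.toReal_nonneg (mur_pos p).le
  · have h1 := (ENNReal.tendsto_toReal (ENNReal.mul_ne_top (mu_ne_top p)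
      (ENNReal.mul_ne_top ENNReal.ofReal_ne_top ENNReal.ofReal_ne_top))).comp (tendsto_lam p)
    rw [ENNReal.toReal_mul, ENNReal.toReal_mul, ENNReal.toReal_ofReal (al_pos p).le] at h1
    exact h1.mul h1

end Pool.Agent.Helper98.Elastic
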