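import Mathlib
import Pool.Agent.Helper98.Elastic.Joint2

/-!
# Good record pieces
-/

open Finset Filter Topology
open scoped ENNReal

namespace Pool.Agent.Helper98.Elastic

/-! ### large letters -/

lemma le_sl_of_mem {A : Type*} (t : A → ℝ≥0∞) {L : List A} {b : A} (hb : b ∈ L) :
    t b ≤ sl t L := by
  induction L with
  | nil => simp at hb
  | cons a L ih =>
    rw [sl_cons]
    rcases List.mem_cons.1 hb with rfl | h
    · exact le_self_add
    · exact (ih h).trans le_add_self

lemma big_letter (p : Par) :
    Tendsto (fun Y : ℕ => mass p (fun l => Bri l ∧ (ed l = Y ∧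
      ∃ L : List IB, bfac.pr L = l ∧ ∃ b ∈ L, Y < 6 * span b))) atTop (𝓝 0) := by
  have h1 : Tendsto (fun Y : ℕ => ∑' b : IB, ic (Y < 6 * span b) (wI p b * (6 * span b : ℕ)))
      atTop (𝓝 0) := by
    apply ennreal_tannery_zero _ (fun b : IB => 6 * (wI p b * (span b : ℝ≥0∞)))
    · rw [ENNReal.tsum_mul_left]
      exact ENNReal.mul_ne_top (by norm_num) (nu_ne_top p)
    · intro Y b
      refine (ic_le _ _).trans (le_of_eq ?_)
      push_cast; ring
    · intro b
      apply tendsto_const_nhds.congr'
      filter_upwards [eventually_ge_atTop (6 * span b)] with Y hY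
      rw [ic_neg (by omega)]
  refine tendsto_of_tendsto_of_tendsto_of_le_of_le tendsto_const_nhds h1 (fun _ => zero_le)
    (fun Y => ?_)
  set t : IB → ℝ≥0∞ := fun b => ic (Y < 6 * span b) 1 with ht
  calc mass p (fun l => Bri l ∧ (ed l = Y ∧
      ∃ L : List IB, bfac.pr L = l ∧ ∃ b ∈ L, Y < 6 * span b))
      ≤ ∑' L : List IB, (if sl span L = Y then wl (wI p) L * sl t L else 0) := by
        rw [mass_bri]
        apply ENNReal.tsum_le_tsum
        intro L
        by_cases hL : ed (bfac.pr L) = Y ∧
          ∃ L' : List IB, bfac.pr L' = bfac.pr L ∧ ∃ b ∈ L', Y < 6 * span b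
        · rw [if_pos hL]
          obtain ⟨h2, L', h3, b, hb, h4⟩ := hL
          have h5 := bfac.pr_inj _ _ h3
          subst h5
          rw [pr_ed] at h2
          rw [if_pos (by exact_mod_cast h2)]
          have h6 : 1 ≤ sl t L' := by
            refine le_trans ?_ (le_sl_of_mem t hb)
            rw [ht]; simp only; rw [ic_pos h4]
          calc wl (wI p) L' = wl (wI p) L' * 1 := (mul_one _).symm
            _ ≤ _ := by gcongr
        · rw [if_neg hL]; exact zero_le
    _ = ∑ x ∈ antidiagonal Y, ∑ y ∈ antidiagonal x.2,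
        Uw (wI p) span x.1 * (gw (wI p) span t y.1 * Uw (wI p) span y.2) :=
        campbell_additive (wI p) span t Y
    _ ≤ (∑' k, gw (wI p) span t k) * (Y + 1) := by
        rw [Uw_fun_eq]
        exact triple_le (ub p) _ (ub p) (ub_le_one p) (ub_le_one p) Y
    _ = ∑' b, (wI p b * t b) * (Y + 1) := by
        rw [tsum_gw, ENNReal.tsum_mul_right]
    _ ≤ _ := by
        apply ENNReal.tsum_le_tsum
        intro b
        rw [ht]
        simp only
        by_cases hb : Y < 6 * span b
        · rw [ic_pos hb, ic_pos hb, mul_one]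
          gcongr
          have : Y + 1 ≤ 6 * span b := hb
          exact_mod_cast this
        · rw [ic_neg hb, mul_zero, zero_mul]; exact zero_le

/-! ### depth -/

/-- depth of a walk below its starting point -/
def dep (l : List Bool) : ℕ := (range (l.length + 1)).sup (fun i => (-pos l i).toNat)

lemma le_dep {l : List Bool} {i : ℕ} (hi : i ≤ l.length) : -pos l i ≤ dep l := by
  have h1 := Finset.le_sup (f := fun i => (-pos l i).toNat)
    (Finset.mem_range.2 (Nat.lt_succ_of_le hi))
  have h2 : (-pos l i).toNat ≤ dep l := h1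
  omega

lemma dep_le {l : List Bool} {m : ℕ} (h : ∀ i ≤ l.length, -pos l i ≤ m) : dep l ≤ m := by
  unfold dep
  apply Finset.sup_le
  intro i hi
  rw [Finset.mem_range] at hi
  have := h i (by omega)
  omega

lemma abs_pos_le (l : List Bool) (i : ℕ) : |pos l i| ≤ i := by
  have h1 := abs_ed_le (l.take i)
  rw [ed_take] at h1
  have h2 : (l.take i).length ≤ i := by rw [List.length_take]; omega
  omega

lemma dep_le_length (l : List Bool) : dep l ≤ l.length := by
  apply dep_le
  intro i hi
  have h1 := (abs_le.1 (abs_pos_le l i)).1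
  omega

lemma dep_append {p T : List Bool} {h : ℕ} (hp : ed p = h) :
    dep (p ++ T) ≤ max (dep p) (dep T - h) := by
  apply dep_le
  intro i hi
  rw [List.length_append] at hi
  rcases le_or_gt i p.length with h1 | h1
  · rw [pos_append_left _ _ h1]
    have := le_dep h1
    have h2 := le_max_left (dep p) (dep T - h)
    omega
  · obtain ⟨j, rfl⟩ : ∃ j, i = p.length + j := ⟨i - p.length, by omega⟩
    rw [pos_append_right, hp]
    have := le_dep (l := T) (i := j) (by omega)
    have h2 := le_max_right (dep p) (dep T - h)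
    omega

/-- number of strips covered by the depth -/
def DD (h : ℕ) (l : List Bool) : ℕ := (3 * dep l + 2 * h) / (3 * h)

lemma DD_append {p T : List Bool} {h : ℕ} (hh : 0 < h) (hp : ed p = h) :
    DD h (p ++ T) ≤ max (DD h p) (DD h T - 1) := by
  have h1 := dep_append (T := T) hp
  unfold DD
  rcases le_max_iff.1 h1 with h2 | h2
  · refine le_trans ?_ (le_max_left _ _)
    apply Nat.div_le_div_right
    omega
  · refine le_trans ?_ (le_max_right _ _)
    rcases Nat.lt_or_ge (dep T) h with h3 | h3
    · have h4 : dep (p ++ T) = 0 := by omega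
      rw [h4]
      have : (3 * 0 + 2 * h) / (3 * h) = 0 := Nat.div_eq_of_lt (by omega)
      rw [this]; exact Nat.zero_le _
    · have h5 : (3 * dep T + 2 * h) / (3 * h) - 1 = (3 * dep T + 2 * h - 3 * h) / (3 * h) := by
        rw [Nat.div_eq_sub_div (show 0 < 3 * h by omega)
          (show 3 * h ≤ 3 * dep T + 2 * h by omega), Nat.add_sub_cancel]
      rw [h5]
      apply Nat.div_le_div_right
      omega

lemma DD_eq_zero {h : ℕ} {l : List Bool} (hl : ∀ i ≤ l.length, -(h : ℤ) < 3 * pos l i) :
    DD h l = 0 := by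
  have hh : 0 < h := by
    have := hl 0 (Nat.zero_le _)
    rw [pos_zero] at this
    omega
  unfold DD
  apply Nat.div_eq_of_lt
  have h1 : dep l ≤ (h - 1) / 3 := by
    apply dep_le
    intro i hi
    have := hl i hi
    omega
  omega

lemma of_DD_eq_zero {h : ℕ} {l : List Bool} (hh : 0 < h) (hl : DD h l = 0) :
    ∀ i ≤ l.length, -(h : ℤ) < 3 * pos l i := by
  intro i hi
  unfold DD at hl
  rw [Nat.div_eq_zero_iff] at hl
  have := le_dep hi
  omega

lemma DD_le (l : List Bool) {h : ℕ} (hh : 0 < h) : (DD h l : ℝ) ≤ l.length / h + 1 := by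
  have hh0 : (0 : ℝ) < h := by exact_mod_cast hh
  have h1 : (DD h l : ℝ) ≤ ((3 * dep l + 2 * h : ℕ) : ℝ) / ((3 * h : ℕ) : ℝ) := Nat.cast_div_le
  have h2 : (dep l : ℝ) ≤ l.length := by exact_mod_cast dep_le_length l
  refine h1.trans ?_
  push_cast
  rw [div_add_one hh0.ne', div_le_div_iff₀ (by positivity) hh0]
  nlinarith

end Pool.Agent.Helper98.Elastic
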