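import Pool.Agent.Helper98.Elastic.PartII

/-!
# Speeds larger than the typical one have an exponential cost
-/

open Finset Filter Topology
open scoped ENNReal

namespace Pool.Agent.Helper98.Elastic

lemma submul_length (F : List Bool → ℝ≥0∞) (hF : ∀ a b, F (a ++ b) ≤ F a * F b) (m n : ℕ) :
    (∑' l : List Bool, if l.length = m + n then F l else 0) ≤
      (∑' l : List Bool, if l.length = m then F l else 0) *
        ∑' l : List Bool, if l.length = n then F l else 0 := by
  rw [← tsum_tsum_mul, ← ENNReal.tsum_prod (f := fun a b : List Bool =>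
    (if a.length = m then F a else 0) * (if b.length = n then F b else 0))]
  apply tsum_le_of_cover _ _ (fun x : List Bool × List Bool => x.1 ++ x.2)
  intro l hl
  have hl' : l.length = m + n := by by_contra h; simp [h] at hl
  refine ⟨(l.take m, l.drop m), List.take_append_drop m l, ?_⟩
  have h1 : (l.take m).length = m := by rw [List.length_take]; omega
  have h2 : (l.drop m).length = n := by rw [List.length_drop]; omega
  simp only
  rw [if_pos hl', if_pos h1, if_pos h2]
  conv_lhs => rw [← List.take_append_drop m l]
  exact hF _ _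

/-- exponential moments of the displacement -/
noncomputable def Phi (p : Par) (lam : ℝ) (n : ℕ) : ℝ≥0∞ :=
  ∑' l : List Bool, if l.length = n then W p l * ENNReal.ofReal (Real.exp (lam * |(ed l : ℝ)|)) else 0

lemma Phi_add (p : Par) {lam : ℝ} (hlam : 0 ≤ lam) (m n : ℕ) :
    Phi p lam (m + n) ≤ Phi p lam m * Phi p lam n := by
  apply submul_length
  intro a b
  have h1 := W_append_le p a b
  have h2 : ENNReal.ofReal (Real.exp (lam * |(ed (a ++ b) : ℝ)|)) ≤
      ENNReal.ofReal (Real.exp (lam * |(ed a : ℝ)|)) *
        ENNReal.ofReal (Real.exp (lam * |(ed b : ℝ)|)) := by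
    rw [← ENNReal.ofReal_mul (Real.exp_pos _).le, ← Real.exp_add]
    apply ENNReal.ofReal_le_ofReal
    apply Real.exp_le_exp.2
    rw [ed_append, ← mul_add]
    apply mul_le_mul_of_nonneg_left _ hlam
    push_cast
    exact abs_add_le _ _
  calc W p (a ++ b) * ENNReal.ofReal (Real.exp (lam * |(ed (a ++ b) : ℝ)|))
      ≤ (W p a * W p b) * (ENNReal.ofReal (Real.exp (lam * |(ed a : ℝ)|)) *
        ENNReal.ofReal (Real.exp (lam * |(ed b : ℝ)|))) := by gcongr
    _ = _ := by ring

lemma Phi_mul_add (p : Par) {lam : ℝ} (hlam : 0 ≤ lam) (T q r : ℕ) :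
    Phi p lam (q * T + r) ≤ Phi p lam T ^ q * Phi p lam r := by
  induction q with
  | zero => simp
  | succ q ih =>
    rw [show (q + 1) * T + r = T + (q * T + r) by ring]
    refine (Phi_add p hlam _ _).trans ?_
    rw [pow_succ']
    calc Phi p lam T * Phi p lam (q * T + r) ≤ Phi p lam T * (Phi p lam T ^ q * Phi p lam r) := by
          gcongr
      _ = _ := by ring

lemma Phi_le (p : Par) {lam : ℝ} (hlam : 0 ≤ lam) (r : ℕ) :
    Phi p lam r ≤ Czz p * ENNReal.ofReal (Real.exp (lam * r)) := by
  classical
  calc Phi p lam r ≤ mass p (fun l => l.length = r) * ENNReal.ofReal (Real.exp (lam * r)) := by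
        unfold Phi mass
        rw [← ENNReal.tsum_mul_right]
        apply ENNReal.tsum_le_tsum
        intro l
        by_cases h : l.length = r
        · rw [if_pos h, if_pos h]
          gcongr
          have := abs_ed_le l
          rw [h] at this
          exact_mod_cast this
        · rw [if_neg h]; exact zero_le
    _ ≤ _ := by gcongr; exact mass_length_le_Czz p r

lemma Phi_block (p : Par) {lam ε : ℝ} (hlam : 0 ≤ lam) (T : ℕ) (hT : 0 < T) :
    Phi p (lam / T) T ≤ Czz p * ENNReal.ofReal (Real.exp (lam * (speed p + ε))) +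
      ZE p T (badset (speed p) ε T) * ENNReal.ofReal (Real.exp lam) := by
  classical
  have hT' : (0 : ℝ) < T := by exact_mod_cast hT
  calc Phi p (lam / T) T ≤ mass p (fun l => l.length = T) *
        ENNReal.ofReal (Real.exp (lam * (speed p + ε))) +
      ZE p T (badset (speed p) ε T) * ENNReal.ofReal (Real.exp lam) := by
        unfold Phi ZE mass
        rw [← ENNReal.tsum_mul_right, ← ENNReal.tsum_mul_right, ← ENNReal.tsum_add]
        apply ENNReal.tsum_le_tsum
        intro l
        by_cases h : l.length = T
        · rw [if_pos h, if_pos h]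
          by_cases h2 : |(ed l : ℝ)| ≤ (speed p + ε) * T
          · refine le_trans ?_ le_self_add
            have h3 : lam / T * |(ed l : ℝ)| ≤ lam * (speed p + ε) := by
              calc lam / T * |(ed l : ℝ)| ≤ lam / T * ((speed p + ε) * T) := by gcongr
                _ = _ := by field_simp
            gcongr W p l * ENNReal.ofReal (Real.exp ?_)
          · refine le_trans ?_ le_add_self
            have h3 : l.length = T ∧ |ed l| ∈ badset (speed p) ε T := by
              refine ⟨h, ?_⟩
              unfold badset
              simp only [Set.mem_ofPred_eq]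
              push Not at h2
              refine lt_of_lt_of_le ?_ (le_abs_self _)
              push_cast
              linarith
            rw [if_pos h3]
            gcongr
            have h4 := abs_ed_le l
            rw [h] at h4
            have h5 : |(ed l : ℝ)| ≤ T := by exact_mod_cast h4
            calc lam / T * |(ed l : ℝ)| ≤ lam / T * T := by gcongr
              _ = lam := by field_simp
        · rw [if_neg h]; exact zero_le
    _ ≤ _ := by gcongr; exact mass_length_le_Czz p T

lemma mass_fast_le (p : Par) {lam θ : ℝ} (hlam : 0 ≤ lam) (n : ℕ) :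
    mass p (fun l => l.length = n ∧ θ * n ≤ |(ed l : ℝ)|) ≤
      ENNReal.ofReal (Real.exp (-(lam * (θ * n)))) * Phi p lam n := by
  classical
  unfold Phi mass
  rw [← ENNReal.tsum_mul_left]
  apply ENNReal.tsum_le_tsum
  intro l
  by_cases h : l.length = n ∧ θ * n ≤ |(ed l : ℝ)|
  · rw [if_pos h, if_pos h.1]
    calc W p l = W p l * 1 := (mul_one _).symm
      _ ≤ W p l * (ENNReal.ofReal (Real.exp (-(lam * (θ * n)))) *
          ENNReal.ofReal (Real.exp (lam * |(ed l : ℝ)|))) := by
          gcongr
          rw [← ENNReal.ofReal_mul (Real.exp_pos _).le, ← Real.exp_add, ← ENNReal.ofReal_one]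
          apply ENNReal.ofReal_le_ofReal
          rw [Real.one_le_exp_iff]
          have := mul_le_mul_of_nonneg_left h.2 hlam
          linarith
      _ = _ := by ring
  · rw [if_neg h]; exact zero_le

/-- **exponential cost of large speeds** -/
theorem exp_cost (p : Par) (θ : ℝ) (hθ : speed p < θ) :
    ∃ c : ℝ, 0 < c ∧ ∀ᶠ n : ℕ in atTop,
      mass p (fun l => l.length = n ∧ θ * n ≤ |(ed l : ℝ)|) ≤
        ENNReal.ofReal (Real.exp (-(c * n))) := by
  have hs := speed_pos p
  set ε := (θ - speed p) / 2 with hε
  have hε0 : 0 < ε := by rw [hε]; linarith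
  set C := (Czz p).toReal with hC
  have hC0 : 0 ≤ C := ENNReal.toReal_nonneg
  have hCe : Czz p = ENNReal.ofReal C := (ENNReal.ofReal_toReal (Czz_ne_top p)).symm
  -- choose lam
  obtain ⟨lam, hlam0, hlam⟩ : ∃ lam : ℝ, 0 < lam ∧ C * Real.exp (-(lam * ε)) ≤ 1 / 4 := by
    have h1 : Tendsto (fun lam : ℝ => C * Real.exp (-(lam * ε))) atTop (𝓝 (C * 0)) := by
      apply Tendsto.const_mul
      apply Real.tendsto_exp_atBot.comp
      apply tendsto_neg_atTop_atBot.comp
      exact tendsto_id.atTop_mul_const hε0
    rw [mul_zero] at h1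
    have h2 := h1.eventually (gt_mem_nhds (show (0 : ℝ) < 1 / 4 by norm_num))
    obtain ⟨lam, h3, h4⟩ := (h2.and (eventually_gt_atTop 0)).exists
    exact ⟨lam, h4, h3.le⟩
  -- choose T
  obtain ⟨T, hT0, hT⟩ : ∃ T : ℕ, 0 < T ∧ ZE p T (badset (speed p) ε T) ≤
      ENNReal.ofReal (Real.exp (-lam) / 4) := by
    have h1 := lln_walk p ε hε0
    have h2 : ∀ᶠ T in atTop, ZE p T (badset (speed p) ε T) < ENNReal.ofReal (Real.exp (-lam) / 4) :=
      h1.eventually (gt_mem_nhds (ENNReal.ofReal_pos.2 (by positivity)))
    obtain ⟨T, h3, h4⟩ := (h2.and (eventually_gt_atTop 0)).exists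
    exact ⟨T, h4, h3.le⟩
  have hT' : (0 : ℝ) < T := by exact_mod_cast hT0
  have hblock : ENNReal.ofReal (Real.exp (-(lam * θ))) * Phi p (lam / T) T ≤
      ENNReal.ofReal (1 / 2) := by
    calc ENNReal.ofReal (Real.exp (-(lam * θ))) * Phi p (lam / T) T
        ≤ ENNReal.ofReal (Real.exp (-(lam * θ))) * (ENNReal.ofReal C *
          ENNReal.ofReal (Real.exp (lam * (speed p + ε))) +
          ENNReal.ofReal (Real.exp (-lam) / 4) * ENNReal.ofReal (Real.exp lam)) := by
          gcongr
          refine (Phi_block p (ε := ε) hlam0.le T hT0).trans ?_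
          rw [← hCe]
          gcongr
      _ = ENNReal.ofReal (Real.exp (-(lam * θ)) * (C * Real.exp (lam * (speed p + ε)) +
            Real.exp (-lam) / 4 * Real.exp lam)) := by
          rw [← ENNReal.ofReal_mul hC0, ← ENNReal.ofReal_mul (by positivity),
            ← ENNReal.ofReal_add (by positivity) (by positivity),
            ← ENNReal.ofReal_mul (by positivity)]
      _ ≤ _ := by
          apply ENNReal.ofReal_le_ofReal
          have h1 : Real.exp (-lam) / 4 * Real.exp lam = 1 / 4 := by
            rw [div_mul_eq_mul_div, ← Real.exp_add]; simp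
          rw [h1]
          have h2 : Real.exp (-(lam * θ)) * (C * Real.exp (lam * (speed p + ε)) + 1 / 4) =
              C * (Real.exp (-(lam * θ)) * Real.exp (lam * (speed p + ε))) +
                Real.exp (-(lam * θ)) / 4 := by ring
          rw [h2, ← Real.exp_add]
          have h3 : -(lam * θ) + lam * (speed p + ε) = -(lam * ε) := by rw [hε]; ring
          rw [h3]
          have h4 : Real.exp (-(lam * θ)) ≤ 1 := by
            rw [Real.exp_le_one_iff]
            have : 0 ≤ lam * θ := by apply mul_nonneg hlam0.le; linarith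
            linarith
          linarith
  have hmain : ∀ n : ℕ, mass p (fun l => l.length = n ∧ θ * n ≤ |(ed l : ℝ)|) ≤
      ENNReal.ofReal ((1 / 2) ^ (n / T) * (C * Real.exp lam)) := by
    intro n
    have hn : n = (n / T) * T + n % T := (Nat.div_add_mod' n T).symm
    have hr : n % T < T := Nat.mod_lt n hT0
    set q := n / T with hq
    set r := n % T with hr'
    have hnr : (n : ℝ) = q * T + r := by exact_mod_cast hn
    have hlam' : 0 ≤ lam / T := by positivity
    refine (mass_fast_le p (lam := lam / T) hlam' n).trans ?_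
    calc ENNReal.ofReal (Real.exp (-(lam / T * (θ * n)))) * Phi p (lam / T) n
        ≤ ENNReal.ofReal (Real.exp (-(lam * θ)) ^ q) *
            (Phi p (lam / T) T ^ q * Phi p (lam / T) r) := by
          gcongr
          · rw [← Real.exp_nat_mul]
            apply Real.exp_le_exp.2
            rw [hnr]
            have h5 : lam / T * (θ * (q * T + r)) = q * (lam * θ) + lam / T * θ * r := by
              field_simp
            rw [h5]
            have h6 : 0 ≤ lam / T * θ * r := by
              have : 0 ≤ θ := by linarith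
              positivity
            linarith
          · conv_lhs => rw [hn]
            exact Phi_mul_add p hlam' T q r
      _ = (ENNReal.ofReal (Real.exp (-(lam * θ))) * Phi p (lam / T) T) ^ q *
            Phi p (lam / T) r := by
          rw [ENNReal.ofReal_pow (Real.exp_pos _).le, mul_pow]; ring
      _ ≤ (ENNReal.ofReal (1 / 2)) ^ q * (Czz p * ENNReal.ofReal (Real.exp lam)) := by
          gcongr
          refine (Phi_le p hlam' r).trans ?_
          gcongr
          calc lam / T * r ≤ lam / T * T := by
                gcongr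
            _ = lam := by field_simp
      _ = _ := by
          rw [hCe, ← ENNReal.ofReal_mul hC0, ← ENNReal.ofReal_pow (by norm_num),
            ← ENNReal.ofReal_mul (by positivity)]
  refine ⟨Real.log 2 / (2 * T), div_pos (Real.log_pos (by norm_num)) (by positivity), ?_⟩
  have hlog2 : 0 < Real.log 2 := Real.log_pos (by norm_num)
  have hev : ∀ᶠ n : ℕ in atTop, 2 * (C * Real.exp lam + 1) ≤
      Real.exp (Real.log 2 / (2 * T) * n) := by
    have h1 : Tendsto (fun n : ℕ => Real.exp (Real.log 2 / (2 * T) * (n : ℝ))) atTop atTop := by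
      apply Real.tendsto_exp_atTop.comp
      exact tendsto_natCast_atTop_atTop.const_mul_atTop (by positivity)
    exact h1.eventually_ge_atTop _
  filter_upwards [hev] with n hn
  refine (hmain n).trans ?_
  apply ENNReal.ofReal_le_ofReal
  have h1 : (n : ℝ) / T - 1 ≤ ((n / T : ℕ) : ℝ) := by
    have h2 : (n : ℝ) = (n / T : ℕ) * T + (n % T : ℕ) := by exact_mod_cast (Nat.div_add_mod' n T).symm
    have h3 : ((n % T : ℕ) : ℝ) ≤ T := by exact_mod_cast (Nat.mod_lt n hT0).le
    rw [sub_le_iff_le_add, div_le_iff₀ hT']
    nlinarith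
  have h4 : ((1 : ℝ) / 2) ^ (n / T) ≤ 2 * Real.exp (-(Real.log 2 / T * n)) := by
    have h5 : ((1 : ℝ) / 2) ^ (n / T) = Real.exp (-(Real.log 2 * (n / T : ℕ))) := by
      rw [show (1 : ℝ) / 2 = Real.exp (-Real.log 2) by
        rw [Real.exp_neg, Real.exp_log (by norm_num)]; norm_num]
      rw [← Real.exp_nat_mul]; congr 1; ring
    rw [h5]
    have h6 : (2 : ℝ) = Real.exp (Real.log 2) := (Real.exp_log (by norm_num)).symm
    conv_rhs => rw [h6]
    rw [← Real.exp_add]
    apply Real.exp_le_exp.2
    have h7 : Real.log 2 * ((n : ℝ) / T - 1) ≤ Real.log 2 * ((n / T : ℕ) : ℝ) :=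
      mul_le_mul_of_nonneg_left h1 hlog2.le
    have h8 : Real.log (Real.exp (Real.log 2)) = Real.log 2 := Real.log_exp _
    have h9 : Real.log 2 / T * n = Real.log 2 * ((n : ℝ) / T) := by ring
    rw [h8] at *
    linarith
  calc (1 / 2) ^ (n / T) * (C * Real.exp lam)
      ≤ 2 * Real.exp (-(Real.log 2 / T * n)) * (C * Real.exp lam + 1) := by
        gcongr
        linarith
    _ = (2 * (C * Real.exp lam + 1)) * Real.exp (-(Real.log 2 / T * n)) := by ring
    _ ≤ Real.exp (Real.log 2 / (2 * T) * n) * Real.exp (-(Real.log 2 / T * n)) := by gcongr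
    _ = Real.exp (-(Real.log 2 / (2 * T) * n)) := by
        rw [← Real.exp_add]
        congr 1
        field_simp
        ring

end Pool.Agent.Helper98.Elastic
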