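import Pool.Agent.Helper98.Elastic.Defs
import Pool.Agent.Helper98.Elastic.PartIII

/-!
# From words to paths
-/

open Finset Filter Topology
open scoped ENNReal

namespace Pool.Agent.Helper98.Elastic

/-- the path of a word -/
def toPath (n : ℕ) (l : List Bool) : Fin (n + 1) → ℤ := fun i => pos l i

lemma toPath_mem (n : ℕ) (l : List Bool) (h : l.length = n) : toPath n l ∈ paths n := by
  rw [mem_paths]
  refine ⟨by simp [toPath], fun i => ?_⟩
  unfold toPath
  have := abs_pos_succ l (i := i.1) (by rw [h]; exact i.2)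
  simpa using this

lemma toPath_inj (n : ℕ) (l l' : List Bool) (h : l.length = n) (h' : l'.length = n)
    (heq : toPath n l = toPath n l') : l = l' := by
  apply List.ext_getElem (by rw [h, h'])
  intro i h1 h2
  have h3 := congrFun heq ⟨i, by omega⟩
  have h4 := congrFun heq ⟨i + 1, by omega⟩
  simp only [toPath] at h3 h4
  rw [pos_succ l h1, pos_succ l' h2] at h4
  have h5 : st l[i] = st l'[i] := by omega
  generalize l[i] = a at h5
  generalize l'[i] = b at h5
  cases a <;> cases b <;> simp_all [st]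

lemma toPath_surj (n : ℕ) (w : Fin (n + 1) → ℤ) (hw : w ∈ paths n) :
    ∃ l : List Bool, l.length = n ∧ toPath n l = w := by
  rw [mem_paths] at hw
  obtain ⟨h0, h1⟩ := hw
  let l : List Bool := List.ofFn (fun i : Fin n => decide (w i.succ - w i.castSucc = 1))
  have hl : l.length = n := by simp [l]
  refine ⟨l, hl, ?_⟩
  have key : ∀ k : ℕ, ∀ hk : k < n + 1, pos l k = w ⟨k, hk⟩ := by
    intro k
    induction k with
    | zero => intro hk; rw [pos_zero]; exact h0.symm
    | succ k ih =>
      intro hk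
      rw [pos_succ l (by omega), ih (by omega)]
      have h2 := h1 ⟨k, by omega⟩
      have h3 : l[k]'(by omega) = decide (w (⟨k, by omega⟩ : Fin n).succ -
          w (⟨k, by omega⟩ : Fin n).castSucc = 1) := by simp [l]
      rw [h3]
      have h4 : w ⟨k + 1, hk⟩ = w (⟨k, by omega⟩ : Fin n).succ := rfl
      have h5 : w ⟨k, by omega⟩ = w (⟨k, by omega⟩ : Fin n).castSucc := rfl
      rw [h4, h5]
      by_cases h6 : w (⟨k, by omega⟩ : Fin n).succ - w (⟨k, by omega⟩ : Fin n).castSucc = 1
      · simp only [h6, decide_true, st, if_true]; omega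
      · rcases abs_eq (by norm_num : (0 : ℤ) ≤ 1) |>.1 h2 with h7 | h7
        · exact absurd h7 h6
        · simp only [h6, decide_false, st]
          simp only [Bool.false_eq_true, if_false]
          omega
  funext i
  exact key i.1 i.2

lemma energy_toPath (κ : ℝ) (n : ℕ) (l : List Bool) (h : l.length = n) :
    energy κ (toPath n l) = eng κ l := by
  unfold energy eng en toPath
  rw [Finset.sum_comm, h]
  rw [Finset.sum_range (fun j => ∑ i ∈ range j, if pos l i = pos l j then kr κ (j - i) else 0)]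
  refine Finset.sum_congr rfl fun j _ => ?_
  rw [← Finset.sum_filter_add_sum_filter_not Finset.univ (fun i : Fin (n + 1) => i < j)]
  have h2 : ∑ x : Fin (n + 1) with ¬ x < j,
      (if x < j ∧ pos l ↑x = pos l ↑j then ((j : ℝ) - (x : ℝ)) ^ (-κ) else 0) = 0 := by
    apply Finset.sum_eq_zero
    intro i hi
    rw [Finset.mem_filter] at hi
    rw [if_neg (fun h => hi.2 h.1)]
  rw [h2, add_zero]
  refine Finset.sum_bij (fun i _ => (i : ℕ)) ?_ ?_ ?_ ?_
  · intro i hi
    rw [Finset.mem_filter] at hi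
    rw [Finset.mem_range]; exact hi.2
  · intro i _ i' _ h; exact Fin.ext h
  · intro b hb
    rw [Finset.mem_range] at hb
    refine ⟨⟨b, by have := j.2; omega⟩, ?_, rfl⟩
    rw [Finset.mem_filter]
    exact ⟨Finset.mem_univ _, hb⟩
  · intro i hi
    rw [Finset.mem_filter] at hi
    have h3 : (i : ℕ) < j := hi.2
    by_cases h4 : pos l ↑i = pos l ↑j
    · rw [if_pos ⟨hi.2, h4⟩, if_pos h4]
      unfold kr
      rw [Nat.cast_sub h3.le]
    · rw [if_neg (fun h => h4 h.2), if_neg h4]

lemma sum_paths (n : ℕ) (f : (Fin (n + 1) → ℤ) → ℝ) :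
    ∑ w ∈ paths n, f w = ∑ l ∈ words n, f (toPath n l) := by
  symm
  refine Finset.sum_bij (fun l _ => toPath n l) ?_ ?_ ?_ ?_
  · intro l hl; exact toPath_mem n l (mem_words.1 hl)
  · intro l hl l' hl' h; exact toPath_inj n l l' (mem_words.1 hl) (mem_words.1 hl') h
  · intro w hw
    obtain ⟨l, h1, h2⟩ := toPath_surj n w hw
    exact ⟨l, mem_words.2 h1, h2⟩
  · intro l _; rfl

lemma partitionFunction_eq (p : Par) (n : ℕ) : partitionFunction p.β p.κ n = ZZ p n := by
  unfold partitionFunction ZZ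
  rw [sum_paths]
  refine Finset.sum_congr rfl fun l hl => ?_
  rw [energy_toPath p.κ n l (mem_words.1 hl)]
  rfl

open Classical in
lemma prob_eq (p : Par) (n : ℕ) (Q : ℤ → Prop) :
    prob p.β p.κ n {w | Q (w (Fin.last n))} =
      (∑ l ∈ (words n).filter (fun l => Q (ed l)), wt p l) / ZZ p n := by
  unfold prob
  rw [partitionFunction_eq]
  congr 1
  rw [Finset.sum_filter, Finset.sum_filter, sum_paths]
  refine Finset.sum_congr rfl fun l hl => ?_
  have h1 : toPath n l (Fin.last n) = ed l := by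
    unfold toPath
    rw [Fin.val_last, pos_ge l (mem_words.1 hl).le]
  have h2 : toPath n l ∈ {w : Fin (n + 1) → ℤ | Q (w (Fin.last n))} ↔ Q (ed l) := by
    rw [Set.mem_ofPred_eq, h1]
  by_cases h3 : Q (ed l)
  · rw [if_pos (h2.2 h3), if_pos h3, energy_toPath p.κ n l (mem_words.1 hl)]
    rfl
  · rw [if_neg (fun h => h3 (h2.1 h)), if_neg h3]

lemma prob_eq_mass (p : Par) (n : ℕ) (Q : ℤ → Prop) :
    prob p.β p.κ n {w | Q (w (Fin.last n))} =
      (mass p (fun l => l.length = n ∧ Q (ed l))).toReal / (mass p (fun l => l.length = n)).toReal := by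
  classical
  have hz := zz_pos p
  have hZ : 0 < ZZ p n := lt_of_lt_of_le (by norm_num) ((one_le_bb p n).trans (bb_le_ZZ p n))
  have h1 : mass p (fun l => l.length = n ∧ Q (ed l)) =
      ENNReal.ofReal ((∑ l ∈ (words n).filter (fun l => Q (ed l)), wt p l) * zz p ^ n) := by
    have := mass_length p (fun l => Q (ed l)) n
    rw [← this]
    exact mass_congr p (fun l => and_comm)
  have h2 : mass p (fun l => l.length = n) = ENNReal.ofReal (ZZ p n * zz p ^ n) := by
    have := mass_length p (fun _ => True) n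
    simp only [true_and, Finset.filter_true] at this
    rw [this]; rfl
  rw [h1, h2, prob_eq, ENNReal.toReal_ofReal, ENNReal.toReal_ofReal (by positivity)]
  · rw [mul_div_mul_right _ _ (by positivity)]
  · apply mul_nonneg _ (by positivity)
    exact Finset.sum_nonneg fun l _ => (wt_pos p l).le

lemma mass_ne_top (p : Par) (n : ℕ) (Q : List Bool → Prop) :
    mass p (fun l => l.length = n ∧ Q l) ≠ ∞ :=
  ne_top_of_le_ne_top (Czz_ne_top p)
    ((mass_mono p (fun _ h => h.1)).trans (mass_length_le_Czz p n))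

lemma prob_le (p : Par) (n : ℕ) (Q : ℤ → Prop) :
    prob p.β p.κ n {w | Q (w (Fin.last n))} ≤ (mass p (fun l => l.length = n ∧ Q (ed l))).toReal := by
  rw [prob_eq_mass]
  have h1 : 1 ≤ (mass p (fun l => l.length = n)).toReal := by
    rw [← ENNReal.toReal_one]
    exact ENNReal.toReal_mono (ne_top_of_le_ne_top (Czz_ne_top p) (mass_length_le_Czz p n))
      (one_le_Z p n)
  exact div_le_self ENNReal.toReal_nonneg h1

lemma le_prob (p : Par) (n : ℕ) (Q : ℤ → Prop) :
    (mass p (fun l => l.length = n ∧ Q (ed l))).toReal / (Czz p).toReal ≤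
      prob p.β p.κ n {w | Q (w (Fin.last n))} := by
  rw [prob_eq_mass]
  have h1 : 1 ≤ (mass p (fun l => l.length = n)).toReal := by
    rw [← ENNReal.toReal_one]
    exact ENNReal.toReal_mono (ne_top_of_le_ne_top (Czz_ne_top p) (mass_length_le_Czz p n))
      (one_le_Z p n)
  apply div_le_div_of_nonneg_left ENNReal.toReal_nonneg (by linarith)
  exact ENNReal.toReal_mono (Czz_ne_top p) (mass_length_le_Czz p n)

lemma prob_nonneg (p : Par) (n : ℕ) (Q : ℤ → Prop) :
    0 ≤ prob p.β p.κ n {w | Q (w (Fin.last n))} := by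
  rw [prob_eq_mass]; positivity

lemma isSpeed_speed (p : Par) : IsSpeed p.β p.κ (speed p) := by
  intro ε hε
  have h1 : Tendsto (fun n : ℕ => (ZE p n (badset (speed p) ε n)).toReal) atTop (𝓝 0) := by
    have := (ENNReal.tendsto_toReal ENNReal.zero_ne_top).comp (lln_walk p ε hε)
    rw [ENNReal.toReal_zero] at this
    exact this
  refine tendsto_of_tendsto_of_tendsto_of_le_of_le' tendsto_const_nhds h1
    (Eventually.of_forall fun n => prob_nonneg p n
      (fun x => ε < |((|x| : ℤ) : ℝ) / (n : ℝ) - speed p|)) ?_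
  filter_upwards [eventually_gt_atTop 0] with n hn
  have hn' : (0 : ℝ) < n := by exact_mod_cast hn
  refine (prob_le p n (fun x => ε < |((|x| : ℤ) : ℝ) / (n : ℝ) - speed p|)).trans ?_
  apply ENNReal.toReal_mono
  · exact mass_ne_top p n (fun l => |ed l| ∈ badset (speed p) ε n)
  · apply mass_mono
    rintro l ⟨h2, h3⟩
    refine ⟨h2, ?_⟩
    unfold badset
    rw [Set.mem_ofPred_eq]
    have h4 : ((|ed l| : ℤ) : ℝ) / n - speed p = (((|ed l| : ℤ) : ℝ) - speed p * n) / n := by
      field_simp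
    rw [h4, abs_div, abs_of_pos hn', lt_div_iff₀ hn'] at h3
    exact h3

lemma large_cost (p : Par) (θ : ℝ) (hθ : speed p < θ) : ∃ c : ℝ, 0 < c ∧ ∀ᶠ n : ℕ in atTop,
    prob p.β p.κ n {w | θ * n ≤ ((|w (Fin.last n)| : ℤ) : ℝ)} ≤ Real.exp (-(c * n)) := by
  obtain ⟨c, hc, hev⟩ := exp_cost p θ hθ
  refine ⟨c, hc, ?_⟩
  filter_upwards [hev] with n hn
  refine (prob_le p n (fun x => θ * n ≤ ((|x| : ℤ) : ℝ))).trans ?_
  have h1 := ENNReal.toReal_mono ENNReal.ofReal_ne_top hn
  rw [ENNReal.toReal_ofReal (Real.exp_pos _).le] at h1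
  refine le_trans (le_of_eq ?_) h1
  congr 1
  apply mass_congr
  intro l
  simp

lemma mass_split_le (p : Par) (n : ℕ) (P Q : List Bool → Prop) (h : ∀ l, l.length = n → P l ∨ Q l) :
    mass p (fun l => l.length = n) ≤
      mass p (fun l => l.length = n ∧ P l) + mass p (fun l => l.length = n ∧ Q l) := by
  classical
  unfold mass
  rw [← ENNReal.tsum_add]
  apply ENNReal.tsum_le_tsum
  intro l
  by_cases h1 : l.length = n
  · rcases h l h1 with h2 | h2
    · rw [if_pos h1, if_pos ⟨h1, h2⟩]; exact le_self_add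
    · rw [if_pos h1, if_pos (⟨h1, h2⟩ : l.length = n ∧ Q l)]; exact le_add_self
  · rw [if_neg h1]; exact zero_le

lemma speed_unique (p : Par) (θ : ℝ) (h : IsSpeed p.β p.κ θ) : θ = speed p := by
  by_contra hne
  have hpos : 0 < |θ - speed p| := abs_pos.2 (sub_ne_zero.2 hne)
  have h1 := h (|θ - speed p| / 3) (by positivity)
  have h2 := isSpeed_speed p (|θ - speed p| / 3) (by positivity)
  have h3 := h1.add h2
  rw [add_zero] at h3
  have h4 : ∀ᶠ n : ℕ in atTop, (1 : ℝ) ≤ prob p.β p.κ n
      {w | |θ - speed p| / 3 < |((|w (Fin.last n)| : ℤ) : ℝ) / (n : ℝ) - θ|} +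
      prob p.β p.κ n {w | |θ - speed p| / 3 < |((|w (Fin.last n)| : ℤ) : ℝ) / (n : ℝ) - speed p|} := by
    refine Eventually.of_forall fun n => ?_
    rw [prob_eq_mass p n (fun x => |θ - speed p| / 3 < |((|x| : ℤ) : ℝ) / (n : ℝ) - θ|),
      prob_eq_mass p n (fun x => |θ - speed p| / 3 < |((|x| : ℤ) : ℝ) / (n : ℝ) - speed p|),
      ← add_div]
    have h5 : 1 ≤ (mass p (fun l => l.length = n)).toReal := by
      rw [← ENNReal.toReal_one]
      exact ENNReal.toReal_mono (ne_top_of_le_ne_top (Czz_ne_top p) (mass_length_le_Czz p n))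
        (one_le_Z p n)
    rw [one_le_div (by linarith)]
    have h6 := mass_split_le p n
      (fun l => |θ - speed p| / 3 < |((|ed l| : ℤ) : ℝ) / (n : ℝ) - θ|)
      (fun l => |θ - speed p| / 3 < |((|ed l| : ℤ) : ℝ) / (n : ℝ) - speed p|) (by
        intro l _
        by_contra hcon
        push Not at hcon
        obtain ⟨h7, h8⟩ := hcon
        have h9 : θ - speed p = (((|ed l| : ℤ) : ℝ) / (n : ℝ) - speed p) -
          (((|ed l| : ℤ) : ℝ) / (n : ℝ) - θ) := by ring
        have h10 : |θ - speed p| ≤ |θ - speed p| / 3 + |θ - speed p| / 3 := by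
          conv_lhs => rw [h9]
          exact (abs_sub _ _).trans (add_le_add h8 h7)
        linarith)
    have h7 := ENNReal.toReal_mono (ENNReal.add_ne_top.2 ⟨mass_ne_top p n _, mass_ne_top p n _⟩) h6
    rwa [ENNReal.toReal_add (mass_ne_top p n _) (mass_ne_top p n _)] at h7
  have h5 := ge_of_tendsto h3 h4
  linarith

end Pool.Agent.Helper98.Elastic
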