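import Pool.Agent.Helper98.Elastic.Lower3

/-!
# Uniform lower bound for slow half-space walks
-/

open Finset Filter Topology
open scoped ENNReal

namespace Pool.Agent.Helper98.Elastic

lemma poly_le_exp (j : ℕ) {B a c : ℝ} (hB : 0 < B) (ha : 0 < a) (hc : 0 < c) :
    ∀ᶠ n : ℕ in atTop, ((n : ℝ) + 1) ^ j ≤ c * Real.exp (B * (n : ℝ) ^ a) := by
  have h1 := (summable_pow_exp j hB ha).tendsto_atTop_zero
  have h2 : (0 : ℝ) < c / 2 ^ j := by positivity
  filter_upwards [h1.eventually (gt_mem_nhds h2), eventually_ge_atTop 1] with n hn hn1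
  have hn0 : (1 : ℝ) ≤ n := by exact_mod_cast hn1
  have h3 : ((n : ℝ) + 1) ^ j ≤ 2 ^ j * (n : ℝ) ^ j := by
    rw [← mul_pow]
    apply pow_le_pow_left₀ (by positivity)
    linarith
  have h4 : Real.exp (-(B * (n : ℝ) ^ a)) * Real.exp (B * (n : ℝ) ^ a) = 1 := by
    rw [← Real.exp_add]; simp
  have h5 := Real.exp_pos (B * (n : ℝ) ^ a)
  calc ((n : ℝ) + 1) ^ j ≤ 2 ^ j * (n : ℝ) ^ j := h3
    _ = 2 ^ j * ((n : ℝ) ^ j * Real.exp (-(B * (n : ℝ) ^ a))) * Real.exp (B * (n : ℝ) ^ a) := by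
        rw [mul_assoc, mul_assoc, h4, mul_one]
    _ ≤ 2 ^ j * (c / 2 ^ j) * Real.exp (B * (n : ℝ) ^ a) := by gcongr
    _ = _ := by field_simp

/-- the cost of reaching `x` in `n` steps -/
noncomputable def rate (p : Par) (n x : ℝ) : ℝ :=
  p.β / speed p * SS p.κ ((n - x / speed p) / 2)

lemma rate_eq (p : Par) {n θ : ℝ} (hn : 0 ≤ n) (hθ : θ ≤ speed p) :
    rate p n (θ * n) = p.β * (speed p - θ) ^ (1 - p.κ) /
      (2 * (1 - p.κ) * speed p ^ (2 - p.κ)) * n ^ (1 - p.κ) := by
  have hs := speed_pos p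
  have h1 : 0 < 1 - p.κ := by linarith [p.hκ1]
  unfold rate SS
  have h2 : (n - θ * n / speed p) / 2 = (speed p - θ) * n / (2 * speed p) := by field_simp
  have h3 : 0 ≤ speed p - θ := by linarith
  rw [h2, Real.div_rpow (by positivity) (by positivity), Real.mul_rpow h3 hn,
    Real.mul_rpow (by norm_num) hs.le]
  have h4 : speed p ^ (2 - p.κ) = speed p * speed p ^ (1 - p.κ) := by
    rw [show 2 - p.κ = 1 + (1 - p.κ) by ring, Real.rpow_add hs, Real.rpow_one]
  have h5 : (2 : ℝ) ^ (1 - p.κ) = 2 * 2 ^ (-p.κ) := by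
    rw [sub_eq_add_neg, Real.rpow_add (by norm_num), Real.rpow_one]
  rw [h4, h5]
  have h6 : (0 : ℝ) < 2 ^ (-p.κ) := by positivity
  have h7 : 0 < speed p ^ (1 - p.κ) := by positivity
  field_simp

lemma rate_nonneg (p : Par) {n x : ℝ} (h : x ≤ speed p * n) : 0 ≤ rate p n x := by
  have hs := speed_pos p
  have hβ := p.hβ
  unfold rate
  have h1 : 0 ≤ (n - x / speed p) / 2 := by
    have : x / speed p ≤ n := by rw [div_le_iff₀ hs]; linarith
    linarith
  have := SS_nonneg p.hκ1 h1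
  positivity

lemma lower_unif (p : Par) (δ ε₁ : ℝ) (hδ : 0 < δ) (hε₁ : 0 < ε₁) :
    ∃ N : ℕ, ∀ n ≥ N, ∀ x : ℕ, (n + x) % 2 = 1 → (x : ℝ) ≤ (speed p - δ) * n →
      ENNReal.ofReal (Real.exp (-((1 + ε₁) * rate p n x))) ≤
        mass p (fun l => Half l ∧ l.length = n ∧ ed l = x + 1) := by
  have hs := speed_pos p
  have hs1 := speed_lt_one p
  have hβ := p.hβ
  have hκ0 := p.hκ0
  have hκ1 := p.hκ1
  set e : ℝ := min ε₁ 1 with he
  have he0 : 0 < e := lt_min hε₁ one_pos
  have he1 : e ≤ 1 := min_le_right _ _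
  have heε : e ≤ ε₁ := min_le_left _ _
  obtain ⟨c, K, hc, hK, h⟩ := lower_raw p (e / 4) (e / 8 * (δ / speed p)) (by positivity)
    (by positivity)
  set A : ℝ := p.β / speed p * (2 ^ (-p.κ) * ((δ / (2 * speed p)) ^ (1 - p.κ) / (1 - p.κ))) with hA
  have h1κ : 0 < 1 - p.κ := by linarith
  have hApos : 0 < A := by positivity
  have h1 := poly_le_exp 2 (B := e / 4 * A) (a := 1 - p.κ) (c := c) (by positivity) h1κ hc
  have h2 : ∀ᶠ n : ℕ in atTop, K + 1 ≤ e / 8 * (δ / speed p) * n := by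
    have : Tendsto (fun n : ℕ => e / 8 * (δ / speed p) * (n : ℝ)) atTop atTop :=
      tendsto_natCast_atTop_atTop.const_mul_atTop (by positivity)
    exact this.eventually_ge_atTop _
  obtain ⟨N, hN⟩ := eventually_atTop.1 (h1.and (h2.and (eventually_ge_atTop 1)))
  refine ⟨N, fun n hn x hpar hx => ?_⟩
  obtain ⟨g1, g2, g3⟩ := hN n hn
  have hn0 : (1 : ℝ) ≤ n := by exact_mod_cast g3
  have hx0 : (0 : ℝ) ≤ x := Nat.cast_nonneg x
  have hxn : (x : ℝ) ≤ n := by nlinarith
  have hxs : (x : ℝ) / speed p ≤ n - δ / speed p * n := by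
    rw [div_le_iff₀ hs]
    calc (x : ℝ) ≤ (speed p - δ) * n := hx
      _ = _ := by field_simp
  set t : ℝ := (n - x / speed p) / 2 with ht
  have ht1 : δ / speed p * n ≤ 2 * t := by rw [ht]; linarith
  have ht0 : 0 < t := by
    have : 0 < δ / speed p * n := by positivity
    linarith
  have hdiv : 1 / speed p * (x : ℝ) = x / speed p := by ring
  have herr : e / 8 * (δ / speed p) * x + K + 1 ≤ e / 4 * (δ / speed p * n) := by
    have : e / 8 * (δ / speed p) * x ≤ e / 8 * (δ / speed p) * n := by gcongr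
    linarith
  have h3 := h n x hpar (by
    rw [hdiv]
    have h4 : e / 4 * (δ / speed p * n) ≤ δ / speed p * n := by
      have : 0 < δ / speed p * n := by positivity
      nlinarith
    linarith)
  have h5 : SS p.κ ((n - 1 / speed p * x + e / 8 * (δ / speed p) * x + K) / 2) ≤
      (1 + e / 4) * SS p.κ t := by
    calc SS p.κ ((n - 1 / speed p * x + e / 8 * (δ / speed p) * x + K) / 2)
        ≤ SS p.κ ((1 + e / 4) * t) := by
          apply SS_mono hκ1
          · rw [hdiv]
            have : 0 ≤ e / 8 * (δ / speed p) * x := by positivity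
            have : 0 < δ / speed p * n := by positivity
            linarith
          · rw [hdiv]
            have h6 : e / 4 * (δ / speed p * n) ≤ e / 4 * (2 * t) := by gcongr
            rw [ht] at h6 ⊢
            linarith
      _ = (1 + e / 4) ^ (1 - p.κ) * SS p.κ t := SS_mul (by positivity) ht0.le
      _ ≤ (1 + e / 4) ^ (1 : ℝ) * SS p.κ t := by
          gcongr
          · exact SS_nonneg hκ1 ht0.le
          · linarith
          · linarith
      _ = _ := by rw [Real.rpow_one]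
  have hrate : rate p n x = p.β / speed p * SS p.κ t := rfl
  have hSt := SS_nonneg hκ1 ht0.le
  have h6 : p.β * ((1 + e / 4) / speed p) *
      SS p.κ ((n - 1 / speed p * x + e / 8 * (δ / speed p) * x + K) / 2) ≤
      (1 + 3 * e / 4) * rate p n x := by
    calc p.β * ((1 + e / 4) / speed p) *
        SS p.κ ((n - 1 / speed p * x + e / 8 * (δ / speed p) * x + K) / 2)
        ≤ p.β * ((1 + e / 4) / speed p) * ((1 + e / 4) * SS p.κ t) := by gcongr
      _ = (1 + e / 4) * (1 + e / 4) * (p.β / speed p * SS p.κ t) := by ring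
      _ ≤ (1 + 3 * e / 4) * (p.β / speed p * SS p.κ t) := by
          gcongr
          nlinarith
      _ = _ := by rw [hrate]
  have h7 : A * (n : ℝ) ^ (1 - p.κ) ≤ rate p n x := by
    rw [hrate]
    calc A * (n : ℝ) ^ (1 - p.κ) = p.β / speed p * SS p.κ (δ / (2 * speed p) * n) := by
          unfold SS
          rw [Real.mul_rpow (by positivity) (by positivity), hA]; ring
      _ ≤ _ := by
          gcongr
          apply SS_mono hκ1 (by positivity)
          have : δ / (2 * speed p) * n = (δ / speed p * n) / 2 := by field_simp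
          rw [this]; linarith
  -- conclusion
  have hmain : Real.exp (-((1 + ε₁) * rate p n x)) * ((n : ℝ) + 1) ^ 2 ≤
      c * Real.exp (-(p.β * ((1 + e / 4) / speed p) *
        SS p.κ ((n - 1 / speed p * x + e / 8 * (δ / speed p) * x + K) / 2))) := by
    have hr0 : 0 ≤ rate p n x := by rw [hrate]; positivity
    calc Real.exp (-((1 + ε₁) * rate p n x)) * ((n : ℝ) + 1) ^ 2
        ≤ Real.exp (-((1 + ε₁) * rate p n x)) * (c * Real.exp (e / 4 * A * (n : ℝ) ^ (1 - p.κ))) := by
          gcongr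
      _ = c * Real.exp (-((1 + ε₁) * rate p n x) + e / 4 * A * (n : ℝ) ^ (1 - p.κ)) := by
          rw [Real.exp_add]; ring
      _ ≤ _ := by
          gcongr
          have h8 : e / 4 * (A * (n : ℝ) ^ (1 - p.κ)) ≤ e / 4 * rate p n x := by gcongr
          have h9 : e * rate p n x ≤ ε₁ * rate p n x := by gcongr
          linarith
  have hn1 : (0 : ℝ) < ((n : ℝ) + 1) ^ 2 := by positivity
  have h8 : ENNReal.ofReal (Real.exp (-((1 + ε₁) * rate p n x))) *
      (((n + 1) * (n + 1) : ℕ) : ℝ≥0∞) ≤ (((n + 1) * (n + 1) : ℕ) : ℝ≥0∞) *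
        mass p (fun l => Half l ∧ l.length = n ∧ ed l = x + 1) := by
    refine le_trans ?_ h3
    rw [← ENNReal.ofReal_natCast, ← ENNReal.ofReal_mul (Real.exp_pos _).le]
    apply ENNReal.ofReal_le_ofReal
    refine le_trans (le_of_eq ?_) hmain
    push_cast; ring
  rw [mul_comm] at h8
  exact (ENNReal.mul_le_mul_iff_right (by simp) (ENNReal.natCast_ne_top _)).1 h8

end Pool.Agent.Helper98.Elastic
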