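import Pool.Agent.Helper98.Elastic.Upper6

/-!
# The upper bound in finite volume
-/

open Finset Filter Topology
open scoped ENNReal

namespace Pool.Agent.Helper98.Elastic

lemma exists_chain {h : ℕ} (hh : 0 < h) (N : ℕ) : ∀ l : List Bool, l.length ≤ N →
    ∃ (P : List (List Bool)) (r : List Bool), l = P.flatten ++ r ∧ (∀ a ∈ P, Exi h h a) ∧
      Cn h h r := by
  have hh' : (0 : ℤ) < h := by exact_mod_cast hh
  induction N with
  | zero =>
    intro l hl
    have : l = [] := List.length_eq_zero_iff.1 (by omega)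
    subst this
    refine ⟨[], [], rfl, by simp, ?_⟩
    intro i hi
    rw [pos_nil]; omega
  | succ N ih =>
    intro l hl
    by_cases hC : Cn h h l
    · exact ⟨[], l, rfl, by simp, hC⟩
    · have hex : ∃ i, i ≤ l.length ∧ ¬ (-(h : ℤ) < pos l i ∧ pos l i < h) := by
        unfold Cn at hC
        push Not at hC
        obtain ⟨i, hi, h2⟩ := hC
        exact ⟨i, hi, fun h3 => absurd (h2 h3.1) (by omega)⟩
      classical
      obtain ⟨hi, hout⟩ := Nat.find_spec hex
      have hmin : ∀ j < Nat.find hex, (-(h : ℤ) < pos l j ∧ pos l j < h) := by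
        intro j hj
        by_contra hcon
        exact Nat.find_min hex hj ⟨by omega, hcon⟩
      set i := Nat.find hex with hidef
      have hi0 : 0 < i := by
        rcases Nat.eq_zero_or_pos i with h0 | h0
        · exfalso; apply hout; rw [h0, pos_zero]; omega
        · exact h0
      have h1 := hmin (i - 1) (by omega)
      have h2 := abs_pos_succ l (i := i - 1) (by omega)
      rw [Nat.sub_add_cancel hi0] at h2
      have h3 : pos l i = h ∨ pos l i = -h := by
        rcases abs_eq (zero_le_one) |>.1 h2 with h4 | h4 <;> omega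
      obtain ⟨P, r, e1, e2, e3⟩ := ih (l.drop i) (by rw [List.length_drop]; omega)
      refine ⟨l.take i :: P, r, ?_, ?_, e3⟩
      · rw [List.flatten_cons, List.append_assoc, ← e1, List.take_append_drop]
      · intro a ha
        rcases List.mem_cons.1 ha with rfl | ha
        · refine ⟨by rw [ed_take]; exact h3, ?_⟩
          intro j hj
          rw [List.length_take] at hj
          rw [pos_take l (by omega)]
          exact hmin j (by omega)
        · exact e2 a ha

lemma exi_length {h : ℕ} {l : List Bool} (hl : Exi h h l) : h ≤ l.length := by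
  have h1 := abs_ed_le l
  rcases hl.1 with h2 | h2 <;> rw [h2] at h1
  · rw [abs_of_nonneg (by positivity)] at h1; exact_mod_cast h1
  · rw [abs_neg, abs_of_nonneg (by positivity)] at h1; exact_mod_cast h1

lemma chain_length {h : ℕ} (P : List (List Bool)) (hP : ∀ a ∈ P, Exi h h a) :
    P.length * h ≤ P.flatten.length := by
  induction P with
  | nil => simp
  | cons a P ih =>
    have h1 := exi_length (hP a List.mem_cons_self)
    have h2 := ih (fun b hb => hP b (List.mem_cons_of_mem _ hb))
    rw [List.flatten_cons, List.length_append, List.length_cons]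
    have : (P.length + 1) * h = P.length * h + h := by ring
    omega

lemma tsum_wl_length {A : Type*} (w : A → ℝ≥0∞) (k : ℕ) :
    ∑' L : List A, ic (L.length = k) (wl w L) = (∑' a, w a) ^ k := by
  induction k with
  | zero =>
    rw [pow_zero, tsum_eq_single ([] : List A)]
    · rw [ic_pos List.length_nil]; simp [wl]
    · intro L hL
      exact ic_neg (fun h => hL (List.length_eq_zero_iff.1 h)) _
  | succ k ih =>
    rw [tsum_list_cons, ic_neg (by simp), zero_add, pow_succ', ← ih, ← tsum_tsum_mul]
    refine tsum_congr fun a => tsum_congr fun L => ?_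
    have h1 : wl w (a :: L) = w a * wl w L := by simp [wl]
    rw [h1, ic_mul]
    congr 1
    apply ic_congr
    simp

lemma W_flatten_le (p : Par) (P : List (List Bool)) : W p P.flatten ≤ wl (W p) P := by
  induction P with
  | nil => rw [List.flatten_nil, W_nil]; simp [wl]
  | cons a P ih =>
    rw [List.flatten_cons]
    have h1 : wl (W p) (a :: P) = W p a * wl (W p) P := by simp [wl]
    rw [h1]
    exact (W_append_le p _ _).trans (by gcongr)

/-- weight of a piece with the exponential of its bad time -/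
noncomputable def wb (p : Par) (lam : ℝ) (h D : ℕ) (l : List Bool) : ℝ≥0∞ :=
  ic (Exi h h l) (W p l) * ENNReal.ofReal (Real.exp (lam * (bt D l) / h))

lemma chain_weight (p : Par) (lam : ℝ) (h D : ℕ) (P : List (List Bool))
    (hP : ∀ a ∈ P, Exi h h a) :
    W p P.flatten * ENNReal.ofReal (Real.exp (lam * ((P.map (bt D)).sum : ℕ) / h)) ≤
      wl (wb p lam h D) P := by
  induction P with
  | nil =>
    simp only [List.flatten_nil, List.map_nil, List.sum_nil, Nat.cast_zero, mul_zero, zero_div,
      Real.exp_zero, ENNReal.ofReal_one, mul_one, W_nil]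
    simp [wl]
  | cons a P ih =>
    have h1 : wl (wb p lam h D) (a :: P) = wb p lam h D a * wl (wb p lam h D) P := by simp [wl]
    have h2 := ih (fun b hb => hP b (List.mem_cons_of_mem _ hb))
    rw [h1, List.flatten_cons, List.map_cons, List.sum_cons]
    have h3 : Real.exp (lam * ((bt D a + (P.map (bt D)).sum : ℕ)) / h) =
        Real.exp (lam * (bt D a) / h) * Real.exp (lam * ((P.map (bt D)).sum : ℕ) / h) := by
      rw [← Real.exp_add]; congr 1; push_cast; ring
    rw [h3, ENNReal.ofReal_mul (Real.exp_pos _).le]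
    unfold wb
    rw [ic_pos (hP a List.mem_cons_self)]
    calc W p (a ++ P.flatten) * (ENNReal.ofReal (Real.exp (lam * (bt D a) / h)) *
          ENNReal.ofReal (Real.exp (lam * ((P.map (bt D)).sum : ℕ) / h)))
        ≤ (W p a * W p P.flatten) * (ENNReal.ofReal (Real.exp (lam * (bt D a) / h)) *
          ENNReal.ofReal (Real.exp (lam * ((P.map (bt D)).sum : ℕ) / h))) := by
          gcongr
          exact W_append_le p _ _
      _ = (W p a * ENNReal.ofReal (Real.exp (lam * (bt D a) / h))) * (W p P.flatten *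
          ENNReal.ofReal (Real.exp (lam * ((P.map (bt D)).sum : ℕ) / h))) := by ring
      _ ≤ _ := by gcongr; exact h2

/-- sum over chains with at most `N` pieces -/
lemma chains_sum (w : List Bool → ℝ≥0∞) (R : ℝ≥0∞) (hR : ∑' a, w a ≤ R) (hR1 : 1 ≤ R) (N : ℕ) :
    ∑' P : List (List Bool), ic (P.length ≤ N) (wl w P) ≤ (N + 1 : ℕ) * R ^ N := by
  calc ∑' P : List (List Bool), ic (P.length ≤ N) (wl w P)
      ≤ ∑' P : List (List Bool), ∑ k ∈ range (N + 1), ic (P.length = k) (wl w P) := by
        apply ENNReal.tsum_le_tsum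
        intro P
        by_cases h : P.length ≤ N
        · rw [ic_pos h]
          refine le_trans ?_ (Finset.single_le_sum (f := fun k => ic (P.length = k) (wl w P))
            (fun _ _ => zero_le) (Finset.mem_range.2 (Nat.lt_succ_of_le h)))
          rw [ic_pos rfl]
        · rw [ic_neg h]; exact zero_le
    _ = ∑ k ∈ range (N + 1), (∑' a, w a) ^ k := by
        rw [ennreal_tsum_finset_sum]
        exact Finset.sum_congr rfl fun k _ => tsum_wl_length w k
    _ ≤ ∑ k ∈ range (N + 1), R ^ N := by
        apply Finset.sum_le_sum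
        intro k hk
        rw [Finset.mem_range] at hk
        calc (∑' a, w a) ^ k ≤ R ^ k := by gcongr
          _ ≤ R ^ N := pow_le_pow_right₀ hR1 (by omega)
    _ = _ := by rw [Finset.sum_const, Finset.card_range, nsmul_eq_mul]

/-- chains with a lot of bad time -/
lemma bad_part (p : Par) {lam : ℝ} (hlam : 0 ≤ lam) {h : ℕ} (hh : 0 < h) (D B n N : ℕ)
    (R S : ℝ≥0∞) (hR1 : 1 ≤ R) (hR : ∑' a, wb p lam h D a ≤ R)
    (hS : ∀ m : ℕ, mass p (fun l => Cn h h l ∧ l.length = m) *
      ENNReal.ofReal (Real.exp (lam * m / h)) ≤ S) :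
    ∑' x : List (List Bool) × List Bool, ic ((∀ a ∈ x.1, Exi h h a) ∧ x.1.length ≤ N ∧
      Cn h h x.2 ∧ x.2.length ≤ n ∧ B < (x.1.map (bt D)).sum + x.2.length)
      (W p x.1.flatten * W p x.2) ≤
    ENNReal.ofReal (Real.exp (-(lam * B / h))) * (((N + 1 : ℕ) * R ^ N) * ((n + 1 : ℕ) * S)) := by
  have hh0 : (0 : ℝ) < h := by exact_mod_cast hh
  have h1 : ∑' r : List Bool, ic (Cn h h r ∧ r.length ≤ n) (W p r) *
      ENNReal.ofReal (Real.exp (lam * r.length / h)) ≤ (n + 1 : ℕ) * S := by
    calc ∑' r : List Bool, ic (Cn h h r ∧ r.length ≤ n) (W p r) *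
          ENNReal.ofReal (Real.exp (lam * r.length / h))
        ≤ ∑' r : List Bool, ∑ m ∈ range (n + 1), ic (Cn h h r ∧ r.length = m) (W p r) *
          ENNReal.ofReal (Real.exp (lam * m / h)) := by
          apply ENNReal.tsum_le_tsum
          intro r
          by_cases hr : Cn h h r ∧ r.length ≤ n
          · refine le_trans ?_ (Finset.single_le_sum (f := fun m : ℕ =>
              ic (Cn h h r ∧ r.length = m) (W p r) * ENNReal.ofReal (Real.exp (lam * m / h)))
              (fun _ _ => zero_le) (Finset.mem_range.2 (Nat.lt_succ_of_le hr.2)))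
            rw [ic_pos hr, ic_pos ⟨hr.1, rfl⟩]
          · rw [ic_neg hr, zero_mul]; exact zero_le
      _ = ∑ m ∈ range (n + 1), mass p (fun l => Cn h h l ∧ l.length = m) *
          ENNReal.ofReal (Real.exp (lam * m / h)) := by
          rw [ennreal_tsum_finset_sum]
          refine Finset.sum_congr rfl fun m _ => ?_
          rw [ENNReal.tsum_mul_right, mass_eq_ic]
      _ ≤ ∑ m ∈ range (n + 1), S := Finset.sum_le_sum fun m _ => hS m
      _ = _ := by rw [Finset.sum_const, Finset.card_range, nsmul_eq_mul]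
  have h2 := chains_sum (wb p lam h D) R hR hR1 N
  calc _ ≤ ∑' x : List (List Bool) × List Bool, ENNReal.ofReal (Real.exp (-(lam * B / h))) *
        (ic (x.1.length ≤ N) (wl (wb p lam h D) x.1) *
        (ic (Cn h h x.2 ∧ x.2.length ≤ n) (W p x.2) *
          ENNReal.ofReal (Real.exp (lam * x.2.length / h)))) := by
        apply ENNReal.tsum_le_tsum
        rintro ⟨P, r⟩
        simp only
        by_cases hx : (∀ a ∈ P, Exi h h a) ∧ P.length ≤ N ∧ Cn h h r ∧ r.length ≤ n ∧
          B < (P.map (bt D)).sum + r.length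
        · obtain ⟨x1, x2, x3, x4, x5⟩ := hx
          rw [ic_pos ⟨x1, x2, x3, x4, x5⟩, ic_pos x2, ic_pos ⟨x3, x4⟩]
          have h3 := chain_weight p lam h D P x1
          have h4 : (1 : ℝ≥0∞) ≤ ENNReal.ofReal (Real.exp (-(lam * B / h))) *
              (ENNReal.ofReal (Real.exp (lam * ((P.map (bt D)).sum : ℕ) / h)) *
                ENNReal.ofReal (Real.exp (lam * r.length / h))) := by
            rw [← ENNReal.ofReal_mul (Real.exp_pos _).le, ← Real.exp_add,
              ← ENNReal.ofReal_mul (Real.exp_pos _).le, ← Real.exp_add, ← ENNReal.ofReal_one]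
            apply ENNReal.ofReal_le_ofReal
            apply Real.one_le_exp
            have h5 : (B : ℝ) ≤ ((P.map (bt D)).sum : ℕ) + r.length := by exact_mod_cast x5.le
            have h6 : lam * B / h ≤ lam * (((P.map (bt D)).sum : ℕ) + r.length) / h := by gcongr
            have h7 : lam * (((P.map (bt D)).sum : ℕ) + r.length) / h =
              lam * ((P.map (bt D)).sum : ℕ) / h + lam * r.length / h := by ring
            linarith
          calc W p P.flatten * W p r = W p P.flatten * W p r * 1 := (mul_one _).symm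
            _ ≤ W p P.flatten * W p r * (ENNReal.ofReal (Real.exp (-(lam * B / h))) *
              (ENNReal.ofReal (Real.exp (lam * ((P.map (bt D)).sum : ℕ) / h)) *
                ENNReal.ofReal (Real.exp (lam * r.length / h)))) := by gcongr
            _ = ENNReal.ofReal (Real.exp (-(lam * B / h))) * ((W p P.flatten *
                ENNReal.ofReal (Real.exp (lam * ((P.map (bt D)).sum : ℕ) / h))) * (W p r *
                ENNReal.ofReal (Real.exp (lam * r.length / h)))) := by ring
            _ ≤ _ := by gcongr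
        · rw [ic_neg hx]; exact zero_le
    _ = ENNReal.ofReal (Real.exp (-(lam * B / h))) *
        ((∑' P : List (List Bool), ic (P.length ≤ N) (wl (wb p lam h D) P)) *
        ∑' r : List Bool, ic (Cn h h r ∧ r.length ≤ n) (W p r) *
          ENNReal.ofReal (Real.exp (lam * r.length / h))) := by
        rw [ENNReal.tsum_mul_left, ← tsum_tsum_mul, ENNReal.tsum_prod (f :=
          fun (P : List (List Bool)) (r : List Bool) =>
          ic (P.length ≤ N) (wl (wb p lam h D) P) * (ic (Cn h h r ∧ r.length ≤ n) (W p r) *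
          ENNReal.ofReal (Real.exp (lam * r.length / h))))]
    _ ≤ _ := by gcongr

/-- chains with little bad time -/
lemma good_part (p : Par) {h : ℕ} (D B n N M : ℕ) (C F : ℝ≥0∞) (hC1 : 1 ≤ C)
    (hG : ∀ c : List Bool, c.length ≤ N → M ≤ dc c → Gc p h D B c ≤ C ^ c.length * F) :
    ∑' x : List (List Bool) × List Bool, ic ((∀ a ∈ x.1, Exi h h a) ∧ x.1.length ≤ N ∧
      (x.1.map (bt D)).sum ≤ B ∧ M ≤ dc (x.1.map sg) ∧ x.2.length ≤ n)
      (W p x.1.flatten * W p x.2) ≤
    (((N + 1 : ℕ) * (2 * C) ^ N) * F) * ((n + 1 : ℕ) * Czz p) := by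
  classical
  have h1 : ∑' r : List Bool, ic (r.length ≤ n) (W p r) ≤ (n + 1 : ℕ) * Czz p := by
    calc ∑' r : List Bool, ic (r.length ≤ n) (W p r)
        ≤ ∑' r : List Bool, ∑ m ∈ range (n + 1), ic (r.length = m) (W p r) := by
          apply ENNReal.tsum_le_tsum
          intro r
          by_cases hr : r.length ≤ n
          · refine le_trans ?_ (Finset.single_le_sum (f := fun m : ℕ =>
              ic (r.length = m) (W p r)) (fun _ _ => zero_le)
              (Finset.mem_range.2 (Nat.lt_succ_of_le hr)))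
            rw [ic_pos hr, ic_pos rfl]
          · rw [ic_neg hr]; exact zero_le
      _ = ∑ m ∈ range (n + 1), mass p (fun l => l.length = m) := by
          rw [ennreal_tsum_finset_sum]
          exact Finset.sum_congr rfl fun m _ => (mass_eq_ic p _).symm
      _ ≤ ∑ m ∈ range (n + 1), Czz p := Finset.sum_le_sum fun m _ => mass_length_le_Czz p m
      _ = _ := by rw [Finset.sum_const, Finset.card_range, nsmul_eq_mul]
  have h2 : ∑' P : List (List Bool), ic ((∀ a ∈ P, Exi h h a) ∧ P.length ≤ N ∧
      (P.map (bt D)).sum ≤ B ∧ M ≤ dc (P.map sg)) (W p P.flatten) ≤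
      ((N + 1 : ℕ) * (2 * C) ^ N) * F := by
    calc ∑' P : List (List Bool), ic ((∀ a ∈ P, Exi h h a) ∧ P.length ≤ N ∧
          (P.map (bt D)).sum ≤ B ∧ M ≤ dc (P.map sg)) (W p P.flatten)
        ≤ ∑' P : List (List Bool), ∑ k ∈ range (N + 1), ∑ c ∈ words k,
            ic (M ≤ dc c) (ic (Ch h D B c P) (W p P.flatten)) := by
          apply ENNReal.tsum_le_tsum
          intro P
          by_cases hP : (∀ a ∈ P, Exi h h a) ∧ P.length ≤ N ∧
            (P.map (bt D)).sum ≤ B ∧ M ≤ dc (P.map sg)
          · obtain ⟨x1, x2, x3, x4⟩ := hP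
            rw [ic_pos ⟨x1, x2, x3, x4⟩]
            refine le_trans ?_ (Finset.single_le_sum (f := fun k => ∑ c ∈ words k,
              ic (M ≤ dc c) (ic (Ch h D B c P) (W p P.flatten)))
              (fun _ _ => zero_le) (Finset.mem_range.2 (Nat.lt_succ_of_le x2)))
            refine le_trans ?_ (Finset.single_le_sum (f := fun c =>
              ic (M ≤ dc c) (ic (Ch h D B c P) (W p P.flatten)))
              (fun _ _ => zero_le) (mem_words.2 (show (P.map sg).length = P.length by simp)))
            have hch : Ch h D B (P.map sg) P := ⟨x1, rfl, x3⟩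
            rw [ic_pos x4, ic_pos hch]
          · rw [ic_neg hP]; exact zero_le
      _ = ∑ k ∈ range (N + 1), ∑ c ∈ words k, ic (M ≤ dc c) (Gc p h D B c) := by
          rw [ennreal_tsum_finset_sum]
          refine Finset.sum_congr rfl fun k _ => ?_
          rw [ennreal_tsum_finset_sum]
          refine Finset.sum_congr rfl fun c _ => ?_
          by_cases hc : M ≤ dc c
          · simp only [ic_pos hc]; rfl
          · simp only [ic_neg hc]; simp
      _ ≤ ∑ k ∈ range (N + 1), ∑ c ∈ words k, C ^ N * F := by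
          apply Finset.sum_le_sum
          intro k hk
          apply Finset.sum_le_sum
          intro c hc
          rw [Finset.mem_range] at hk
          rw [mem_words] at hc
          by_cases hc' : M ≤ dc c
          · rw [ic_pos hc']
            refine (hG c (by omega) hc').trans ?_
            gcongr
            omega
          · rw [ic_neg hc']; exact zero_le
      _ ≤ ∑ k ∈ range (N + 1), 2 ^ N * (C ^ N * F) := by
          apply Finset.sum_le_sum
          intro k hk
          rw [Finset.mem_range] at hk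
          rw [Finset.sum_const, card_words, nsmul_eq_mul]
          gcongr
          push_cast
          exact pow_le_pow_right₀ (by norm_num) (by omega)
      _ = _ := by
          rw [Finset.sum_const, Finset.card_range, nsmul_eq_mul, mul_pow]
          ring
  calc _ = ∑' x : List (List Bool) × List Bool, ic ((∀ a ∈ x.1, Exi h h a) ∧ x.1.length ≤ N ∧
        (x.1.map (bt D)).sum ≤ B ∧ M ≤ dc (x.1.map sg)) (W p x.1.flatten) *
        ic (x.2.length ≤ n) (W p x.2) := by
        refine tsum_congr fun x => ?_
        by_cases hx : (∀ a ∈ x.1, Exi h h a) ∧ x.1.length ≤ N ∧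
          (x.1.map (bt D)).sum ≤ B ∧ M ≤ dc (x.1.map sg)
        · by_cases hx2 : x.2.length ≤ n
          · rw [ic_pos hx, ic_pos hx2, ic_pos ⟨hx.1, hx.2.1, hx.2.2.1, hx.2.2.2, hx2⟩]
          · rw [ic_neg hx2, mul_zero, ic_neg (fun h => hx2 h.2.2.2.2)]
        · rw [ic_neg hx, zero_mul, ic_neg (fun h => hx ⟨h.1, h.2.1, h.2.2.1, h.2.2.2.1⟩)]
    _ = (∑' P : List (List Bool), ic ((∀ a ∈ P, Exi h h a) ∧ P.length ≤ N ∧
        (P.map (bt D)).sum ≤ B ∧ M ≤ dc (P.map sg)) (W p P.flatten)) *
        ∑' r : List Bool, ic (r.length ≤ n) (W p r) := by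
        rw [← tsum_tsum_mul, ENNReal.tsum_prod (f :=
          fun (P : List (List Bool)) (r : List Bool) => ic ((∀ a ∈ P, Exi h h a) ∧
          P.length ≤ N ∧ (P.map (bt D)).sum ≤ B ∧ M ≤ dc (P.map sg)) (W p P.flatten) *
          ic (r.length ≤ n) (W p r))]
    _ ≤ _ := by gcongr

/-- the upper bound in finite volume -/
lemma upper_fin (p : Par) {lam : ℝ} (hlam : 0 ≤ lam) {h : ℕ} (hh : 0 < h) {D : ℕ} (hD : 0 < D)
    (B n M : ℕ) (x : ℤ) (R S C F : ℝ≥0∞) (hR1 : 1 ≤ R) (hR : ∑' a, wb p lam h D a ≤ R)
    (hS : ∀ m : ℕ, mass p (fun l => Cn h h l ∧ l.length = m) *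
      ENNReal.ofReal (Real.exp (lam * m / h)) ≤ S) (hC1 : 1 ≤ C)
    (hG : ∀ c : List Bool, M ≤ dc c → Gc p h D B c ≤ C ^ c.length * F)
    (hM : 2 * (M : ℝ) ≤ ((n : ℝ) - B) / D - |(x : ℝ)| / h - 1) :
    mass p (fun l => l.length = n ∧ ed l = x) ≤
      ENNReal.ofReal (Real.exp (-(lam * B / h))) *
        (((n / h + 1 : ℕ) * R ^ (n / h)) * ((n + 1 : ℕ) * S)) +
      (((n / h + 1 : ℕ) * (2 * C) ^ (n / h)) * F) * ((n + 1 : ℕ) * Czz p) := by
  have hh0 : (0 : ℝ) < h := by exact_mod_cast hh
  have hD0 : (0 : ℝ) < D := by exact_mod_cast hD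
  refine le_trans ?_ (add_le_add (bad_part p hlam hh D B n (n / h) R S hR1 hR hS)
    (good_part p (h := h) D B n (n / h) M C F hC1 (fun c _ hc => hG c hc)))
  rw [← ENNReal.tsum_add, mass_eq_ic]
  apply tsum_le_of_cover _ _ (fun y : List (List Bool) × List Bool => y.1.flatten ++ y.2)
  intro l hl
  have hl' : l.length = n ∧ ed l = x := by by_contra hcon; exact hl (ic_neg hcon _)
  obtain ⟨P, r, e1, e2, e3⟩ := exists_chain hh l.length l le_rfl
  refine ⟨(P, r), e1.symm, ?_⟩
  simp only
  rw [ic_pos hl']
  have hlen : P.flatten.length + r.length = n := by rw [← hl'.1, e1, List.length_append]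
  have hN : P.length ≤ n / h := by
    rw [Nat.le_div_iff_mul_le hh]
    have := chain_length P e2
    omega
  have hW : W p l ≤ W p P.flatten * W p r := by rw [e1]; exact W_append_le p _ _
  by_cases hB : B < (P.map (bt D)).sum + r.length
  · rw [ic_pos (⟨e2, hN, e3, by omega, hB⟩ : (∀ a ∈ P, Exi h h a) ∧ P.length ≤ n / h ∧
      Cn h h r ∧ r.length ≤ n ∧ B < (P.map (bt D)).sum + r.length)]
    exact hW.trans le_self_add
  · have hMc : M ≤ dc (P.map sg) := by
      have f1 := flatten_length D P
      have f2 : n ≤ P.length * D + B := by omega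
      have f3 := flatten_ed hh P e2
      have f4 := e3 r.length le_rfl
      rw [pos_length] at f4
      have f5 : x = h * ed (P.map sg) + ed r := by
        rw [← hl'.2, e1, ed_append, f3]
      have f6 : ((ed (P.map sg)).natAbs : ℝ) ≤ |(x : ℝ)| / h + 1 := by
        have g1 : ((ed (P.map sg)).natAbs : ℝ) = |((ed (P.map sg) : ℤ) : ℝ)| := by
          rw [Nat.cast_natAbs, Int.cast_abs]
        rw [g1]
        have g2 : (h : ℝ) * ((ed (P.map sg) : ℤ) : ℝ) = x - ed r := by
          rw [f5]; push_cast; ring
        have g3 : |((ed r : ℤ) : ℝ)| ≤ h := by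
          rw [abs_le]
          constructor
          · have : (-(h : ℤ) : ℤ) ≤ ed r := f4.1.le
            exact_mod_cast this
          · exact_mod_cast f4.2.le
        have g4 : (h : ℝ) * |((ed (P.map sg) : ℤ) : ℝ)| ≤ |(x : ℝ)| + h := by
          calc (h : ℝ) * |((ed (P.map sg) : ℤ) : ℝ)| = |(h : ℝ) * ((ed (P.map sg) : ℤ) : ℝ)| := by
                rw [abs_mul, abs_of_pos hh0]
            _ = |(x : ℝ) - ed r| := by rw [g2]
            _ ≤ |(x : ℝ)| + |((ed r : ℤ) : ℝ)| := abs_sub _ _
            _ ≤ _ := by linarith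
        have g5 : |((ed (P.map sg) : ℤ) : ℝ)| ≤ (|(x : ℝ)| + h) / h := by
          rw [le_div_iff₀ hh0]; linarith
        rw [add_div, div_self hh0.ne'] at g5
        exact g5
      have f7 : ((n : ℝ) - B) / D ≤ P.length := by
        rw [div_le_iff₀ hD0]
        have : (n : ℝ) ≤ P.length * D + B := by exact_mod_cast f2
        linarith
      have f8 : 2 * (M : ℝ) + (ed (P.map sg)).natAbs ≤ P.length := by linarith
      have f9 : 2 * M + (ed (P.map sg)).natAbs ≤ P.length := by exact_mod_cast f8
      unfold dc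
      rw [List.length_map]
      omega
    rw [ic_pos (⟨e2, hN, by omega, hMc, by omega⟩ : (∀ a ∈ P, Exi h h a) ∧ P.length ≤ n / h ∧
      (P.map (bt D)).sum ≤ B ∧ M ≤ dc (P.map sg) ∧ r.length ≤ n)]
    exact hW.trans le_add_self

end Pool.Agent.Helper98.Elastic
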