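import Pool.Agent.Helper98.Elastic.Upper5

/-!
# Chains of pieces
-/

open Finset Filter Topology
open scoped ENNReal

namespace Pool.Agent.Helper98.Elastic

/-- sign of a piece -/
def sg (l : List Bool) : Bool := decide (0 < ed l)

/-- chains of pieces with prescribed signs and bounded bad time -/
def Ch (h D B : ℕ) (c : List Bool) (P : List (List Bool)) : Prop :=
  (∀ l ∈ P, Exi h h l) ∧ P.map sg = c ∧ (P.map (bt D)).sum ≤ B

/-- weight of the chains with prescribed signs -/
noncomputable def Gc (p : Par) (h D B : ℕ) (c : List Bool) : ℝ≥0∞ :=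
  ∑' P : List (List Bool), ic (Ch h D B c P) (W p P.flatten)

lemma exi_ed {h : ℕ} (hh : 0 < h) {l : List Bool} (hl : Exi h h l) : ed l = h * st (sg l) := by
  have hh' : (0 : ℤ) < h := by exact_mod_cast hh
  unfold sg
  rcases hl.1 with h1 | h1
  · have : decide (0 < ed l) = true := by rw [decide_eq_true_iff, h1]; exact hh'
    rw [this, h1]; simp [st]
  · have : decide (0 < ed l) = false := by rw [decide_eq_false_iff_not, h1]; omega
    rw [this, h1]; simp [st]

lemma flatten_ed {h : ℕ} (hh : 0 < h) (P : List (List Bool)) (hP : ∀ l ∈ P, Exi h h l) :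
    ed P.flatten = h * ed (P.map sg) := by
  induction P with
  | nil => simp
  | cons l P ih =>
    rw [List.flatten_cons, ed_append, ih (fun l' hl' => hP l' (List.mem_cons_of_mem _ hl')),
      List.map_cons, ed_cons, exi_ed hh (hP l List.mem_cons_self)]
    ring

lemma flatten_length (D : ℕ) (P : List (List Bool)) :
    P.flatten.length ≤ P.length * D + (P.map (bt D)).sum := by
  induction P with
  | nil => simp
  | cons l P ih =>
    rw [List.flatten_cons, List.length_append, List.length_cons, List.map_cons, List.sum_cons]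
    have h1 : l.length ≤ D + bt D l := by
      unfold bt; split_ifs <;> omega
    have h2 : (P.length + 1) * D = P.length * D + D := by ring
    omega

lemma Gc_nil (p : Par) (h D B : ℕ) : Gc p h D B [] ≤ 1 := by
  unfold Gc
  rw [tsum_eq_single ([] : List (List Bool))]
  · refine (ic_le _ _).trans ?_
    rw [List.flatten_nil, W_nil]
  · intro P hP
    apply ic_neg
    rintro ⟨_, h2, _⟩
    exact hP (List.map_eq_nil_iff.1 h2)

lemma Gc_append (p : Par) (h D B : ℕ) (c₁ c₂ : List Bool) :
    Gc p h D B (c₁ ++ c₂) ≤ Gc p h D B c₁ * Gc p h D B c₂ := by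
  unfold Gc
  rw [← tsum_tsum_mul, ← ENNReal.tsum_prod (f := fun P Q : List (List Bool) =>
    ic (Ch h D B c₁ P) (W p P.flatten) * ic (Ch h D B c₂ Q) (W p Q.flatten))]
  apply tsum_le_of_cover _ _ (fun x : List (List Bool) × List (List Bool) => x.1 ++ x.2)
  intro P hP
  have hCh : Ch h D B (c₁ ++ c₂) P := by by_contra hcon; exact hP (ic_neg hcon _)
  obtain ⟨h1, h2, h3⟩ := hCh
  obtain ⟨P₁, P₂, rfl, h4, h5⟩ := List.map_eq_append_iff.1 h2
  refine ⟨(P₁, P₂), rfl, ?_⟩
  simp only
  have k1 : Ch h D B (c₁ ++ c₂) (P₁ ++ P₂) := ⟨h1, h2, h3⟩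
  rw [List.map_append, List.sum_append] at h3
  have k2 : Ch h D B c₁ P₁ := ⟨fun l hl => h1 l (List.mem_append_left _ hl), h4, by omega⟩
  have k3 : Ch h D B c₂ P₂ := ⟨fun l hl => h1 l (List.mem_append_right _ hl), h5, by omega⟩
  rw [ic_pos k1, ic_pos k2, ic_pos k3, List.flatten_append]
  exact W_append_le p _ _

lemma exi_exu {h : ℕ} (hh : 0 < h) {l : List Bool} (hl : Exi h h l) (hs : sg l = true) :
    ExU h l := by
  have h1 := exi_ed hh hl
  rw [hs] at h1
  refine ⟨by rw [h1]; simp [st], fun i hi => ?_⟩
  rw [abs_lt]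
  exact hl.2 i hi

lemma exi_exu_neg {h : ℕ} (hh : 0 < h) {l : List Bool} (hl : Exi h h l) (hs : sg l = false) :
    ExU h (neg l) := by
  have h1 := exi_ed hh hl
  rw [hs] at h1
  refine ⟨by rw [ed_neg, h1]; simp [st], fun i hi => ?_⟩
  rw [length_neg] at hi
  rw [pos_neg, abs_neg, abs_lt]
  exact hl.2 i hi

/-- orientation -/
def ori (s : Bool) (l : List Bool) : List Bool := if s then l else neg l

lemma ori_ori (s : Bool) (l : List Bool) : ori s (ori s l) = l := by
  cases s <;> simp [ori]

lemma W_ori (p : Par) (s : Bool) (l : List Bool) : W p (ori s l) = W p l := by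
  cases s <;> simp [ori, W_neg]

lemma exi_ori {h : ℕ} (hh : 0 < h) {l : List Bool} (hl : Exi h h l) {s : Bool} (hs : sg l = s) :
    ExU h (ori s l) := by
  cases s
  · exact exi_exu_neg hh hl hs
  · exact exi_exu hh hl hs

lemma Gc_single (p : Par) {h : ℕ} (hh : 0 < h) (D B : ℕ) (s : Bool) : Gc p h D B [s] ≤ CV p := by
  have hh' : (0 : ℤ) < h := by exact_mod_cast hh
  calc Gc p h D B [s] ≤ mass p (fun l => Rec l ∧ ed l = h) := by
        unfold Gc
        rw [mass_eq_ic]
        apply tsum_le_of_cover _ _ (fun l : List Bool => [ori s l])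
        intro P hP
        have hCh : Ch h D B [s] P := by by_contra hcon; exact hP (ic_neg hcon _)
        obtain ⟨h1, h2, h3⟩ := hCh
        obtain ⟨l, rfl, h4⟩ := List.map_eq_singleton_iff.1 h2
        have h5 := exi_ori hh (h1 l (by simp)) h4
        refine ⟨ori s l, by rw [ori_ori], ?_⟩
        have k1 : Ch h D B [s] [l] := ⟨h1, h2, h3⟩
        rw [ic_pos k1, ic_pos ⟨h5.rec, h5.1⟩, W_ori]
        simp
    _ ≤ CV p := rec_mass_le p h hh'

lemma W_sandwich (p : Par) (a m b : List Bool) (hm : ed m = 0) (M : ℕ)
    (hM : a.length + m.length + b.length ≤ M) :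
    W p (a ++ (m ++ b)) ≤ W p a * W p m * W p b *
      ENNReal.ofReal (Real.exp (-(p.β * (kr p.κ M * Nc a.reverse (neg b))))) := by
  rw [W_append_eq]
  have h1 : kr p.κ M * (Nc a.reverse (neg b) : ℝ) ≤ xc p.κ a.reverse (neg (m ++ b)) := by
    unfold Nc xc
    push_cast
    rw [Finset.mul_sum, List.length_reverse]
    refine Finset.sum_le_sum fun i hi => ?_
    rw [Finset.mem_Icc] at hi
    rw [Finset.mul_sum]
    have h2 : (neg (m ++ b)).length = m.length + (neg b).length := by simp
    rw [h2, sum_Icc_add]
    refine le_trans ?_ (le_add_of_nonneg_left (Finset.sum_nonneg fun j _ => by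
      split_ifs
      · exact kr_nonneg _ _
      · exact le_rfl))
    refine Finset.sum_le_sum fun j hj => ?_
    rw [Finset.mem_Icc, length_neg] at hj
    have h3 : pos (neg (m ++ b)) (m.length + j) = pos (neg b) j := by
      rw [neg_append]
      have := pos_append_right (neg m) (neg b) j
      rw [length_neg, ed_neg, hm] at this
      rw [this]; ring
    rw [h3]
    split_ifs
    · rw [mul_one]
      exact kr_anti p.hκ0.le (by omega) (by omega)
    · simp
  have h4 := exp_xc_le p h1
  calc W p a * W p (m ++ b) * ENNReal.ofReal (Real.exp (-(p.β * xc p.κ a.reverse (neg (m ++ b)))))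
      ≤ W p a * (W p m * W p b) *
        ENNReal.ofReal (Real.exp (-(p.β * (kr p.κ M * Nc a.reverse (neg b))))) := by
        gcongr
        exact W_append_le p m b
    _ = _ := by ring

lemma Nc_neg (a b : List Bool) : Nc (neg a) (neg b) = Nc a b := by
  unfold Nc
  simp only [length_neg, pos_neg, neg_inj]

lemma Nc_ori (s : Bool) (a b : List Bool) :
    Nc (ori s a).reverse (neg (ori (!s) b)) = Nc a.reverse b := by
  cases s
  · simp only [ori, Bool.false_eq_true, if_false, Bool.not_false, if_true]
    rw [← neg_reverse, Nc_neg]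
  · simp only [ori, if_true, Bool.not_true, Bool.false_eq_true, if_false]
    rw [neg_neg']

lemma Gc_pair (p : Par) {h : ℕ} (hh : 0 < h) (D B : ℕ) (s : Bool) (d : List Bool)
    (hd : ed d = 0) :
    Gc p h D B (s :: (d ++ [!s])) ≤ E2 p h (kr p.κ ((d.length + 2) * D + B)) * Gc p h D B d := by
  set M := (d.length + 2) * D + B with hM
  have h0 : E2 p h (kr p.κ M) * Gc p h D B d =
      ∑' x : (List Bool × List Bool) × List (List Bool),
        (ic (ExU h x.1.1) (W p x.1.1) * ic (ExU h x.1.2) (W p x.1.2) *
          ENNReal.ofReal (Real.exp (-(p.β * (kr p.κ M * Nc x.1.1.reverse x.1.2))))) *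
        ic (Ch h D B d x.2) (W p x.2.flatten) := by
    unfold E2 Gc
    rw [← ENNReal.tsum_prod (f := fun l q : List Bool => ic (ExU h l) (W p l) *
      ic (ExU h q) (W p q) * ENNReal.ofReal (Real.exp (-(p.β * (kr p.κ M * Nc l.reverse q)))))]
    rw [← tsum_tsum_mul, ← ENNReal.tsum_prod (f := fun (y : List Bool × List Bool)
      (Q : List (List Bool)) => (ic (ExU h y.1) (W p y.1) * ic (ExU h y.2) (W p y.2) *
          ENNReal.ofReal (Real.exp (-(p.β * (kr p.κ M * Nc y.1.reverse y.2))))) *
        ic (Ch h D B d Q) (W p Q.flatten))]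
  rw [h0]
  unfold Gc
  apply tsum_le_of_cover _ _ (fun x : (List Bool × List Bool) × List (List Bool) =>
    ori s x.1.1 :: (x.2 ++ [ori (!s) x.1.2]))
  intro P hP
  have hCh : Ch h D B (s :: (d ++ [!s])) P := by by_contra hcon; exact hP (ic_neg hcon _)
  obtain ⟨h1, h2, h3⟩ := hCh
  obtain ⟨a, P', rfl, h4, h5⟩ := List.map_eq_cons_iff.1 h2
  obtain ⟨Q, P'', rfl, h6, h7⟩ := List.map_eq_append_iff.1 h5
  obtain ⟨b, rfl, h8⟩ := List.map_eq_singleton_iff.1 h7
  have ha := h1 a (by simp)
  have hb := h1 b (by simp)
  have hQ : ∀ l ∈ Q, Exi h h l := fun l hl => h1 l (by simp [hl])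
  have h9 : (Q.map (bt D)).sum + bt D a + bt D b ≤ B := by
    simp only [List.map_cons, List.map_append, List.sum_cons, List.sum_append, List.map_nil,
      List.sum_nil] at h3
    omega
  refine ⟨((ori s a, ori (!s) b), Q), by simp only [ori_ori], ?_⟩
  simp only
  have hCQ : Ch h D B d Q := ⟨hQ, h6, by omega⟩
  have k1 : Ch h D B (s :: (d ++ [!s])) (a :: (Q ++ [b])) := ⟨h1, h2, h3⟩
  rw [ic_pos k1, ic_pos (exi_ori hh ha h4), ic_pos (exi_ori hh hb h8), ic_pos hCQ, W_ori, W_ori]
  have h10 : (a :: (Q ++ [b])).flatten = a ++ (Q.flatten ++ b) := by simp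
  rw [h10]
  have hlen : Q.length = d.length := by rw [← h6, List.length_map]
  have h11 : a.length + Q.flatten.length + b.length ≤ M := by
    have e1 := flatten_length D Q
    have e2 : a.length ≤ D + bt D a := by unfold bt; split_ifs <;> omega
    have e3 : b.length ≤ D + bt D b := by unfold bt; split_ifs <;> omega
    have e4 : (d.length + 2) * D = d.length * D + D + D := by ring
    rw [hlen] at e1
    omega
  have h12 : ed Q.flatten = 0 := by rw [flatten_ed hh Q hQ, h6, hd, mul_zero]
  have h13 := W_sandwich p a Q.flatten b h12 M h11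
  have h14 := Nc_ori s (ori s a) (ori (!s) b)
  rw [ori_ori, ori_ori] at h14
  rw [h14] at h13
  refine h13.trans (le_of_eq ?_)
  ring

/-! ### words -/

lemma pos_one (s : Bool) (c : List Bool) : pos (s :: c) 1 = st s := by
  have := pos_cons_succ s c 0
  simpa using this

lemma word_split (c : List Bool) (hc : 2 ≤ c.length) :
    (∃ c₁ c₂, c = c₁ ++ c₂ ∧ c₁.length < c.length ∧ c₂.length < c.length ∧
      (ed c).natAbs = (ed c₁).natAbs + (ed c₂).natAbs) ∨
    (∃ s d, c = s :: (d ++ [!s]) ∧ ed d = 0) := by
  by_cases hz : ∃ k, 0 < k ∧ k < c.length ∧ pos c k = 0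
  · left
    obtain ⟨k, hk0, hk1, hk2⟩ := hz
    refine ⟨c.take k, c.drop k, (List.take_append_drop k c).symm, ?_, ?_, ?_⟩
    · rw [List.length_take]; omega
    · rw [List.length_drop]; omega
    · rw [ed_take, hk2, ed_drop c hk1.le, hk2]; simp
  · push Not at hz
    obtain ⟨s, c', rfl⟩ : ∃ s c', c = s :: c' := by
      cases c with
      | nil => simp at hc
      | cons s c' => exact ⟨s, c', rfl⟩
    have hpos : ∀ k, 0 < k → k < (s :: c').length → 0 < pos (s :: c') k * st s := by
      intro k hk0
      induction k with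
      | zero => omega
      | succ k ih =>
        intro hk1
        rcases Nat.eq_zero_or_pos k with h0 | h0
        · subst h0
          rw [zero_add, pos_one]
          rcases st_cases s with h | h <;> rw [h] <;> norm_num
        · have h1 := ih h0 (by omega)
          have h2 := hz (k + 1) (by omega) hk1
          have h3 := abs_pos_succ (s :: c') (i := k) (by omega)
          rcases st_cases s with h | h <;> rw [h] at h1 ⊢ <;>
            rcases abs_eq (zero_le_one) |>.1 h3 with h4 | h4 <;> omega
    by_cases he : ed (s :: c') = 0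
    · right
      have hne : c' ≠ [] := by
        intro h; rw [h] at hc; simp at hc
      obtain ⟨d, t, rfl⟩ : ∃ d t, c' = d ++ [t] := ⟨c'.dropLast, c'.getLast hne,
        (List.dropLast_append_getLast hne).symm⟩
      have h1 := hpos (s :: d).length (by simp) (by simp)
      have h2 : pos (s :: (d ++ [t])) (s :: d).length = ed (s :: d) := by
        rw [← List.cons_append, pos_append_left _ _ le_rfl, pos_length]
      rw [h2] at h1
      rw [ed_cons, ed_append, ed_cons, ed_nil] at he
      rw [ed_cons] at h1
      have h3 : st t = - st s ∧ ed d = 0 := by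
        rcases st_cases s with h | h <;> rcases st_cases t with h' | h' <;>
          rw [h] at h1 he ⊢ <;> rw [h'] at he ⊢ <;> constructor <;> omega
      refine ⟨s, d, ?_, h3.2⟩
      have h4 : t = !s := by
        have := h3.1
        cases s <;> cases t <;> simp [st] at this ⊢
      rw [h4]
    · left
      refine ⟨[s], c', rfl, ?_, ?_, ?_⟩
      · simp only [List.length_singleton]; omega
      · simp
      · have h1 := hpos ((s :: c').length - 1) (by omega) (by omega)
        have h2 := abs_pos_succ (s :: c') (i := (s :: c').length - 1) (by omega)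
        rw [Nat.sub_add_cancel (by omega), pos_length] at h2
        rw [ed_cons] at he h2 ⊢
        rw [ed_cons, ed_nil]
        rcases st_cases s with h | h <;> rw [h] at h1 he h2 ⊢ <;>
          rcases abs_eq (zero_le_one) |>.1 h2 with h4 | h4 <;> omega

/-- number of coarse backtracks -/
def dc (c : List Bool) : ℕ := (c.length - (ed c).natAbs) / 2

lemma parity_ed (c : List Bool) : (c.length - (ed c).natAbs) % 2 = 0 ∧
    (ed c).natAbs ≤ c.length := by
  have h1 := pos_parity c c.length le_rfl
  rw [pos_length] at h1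
  have h2 := abs_ed_le c
  have h3 : ((ed c).natAbs : ℤ) = |ed c| := Int.natCast_natAbs _
  constructor <;> omega

lemma dc_append {c c₁ c₂ : List Bool} (h : c = c₁ ++ c₂)
    (h' : (ed c).natAbs = (ed c₁).natAbs + (ed c₂).natAbs) : dc c = dc c₁ + dc c₂ := by
  have h1 := parity_ed c
  have h2 := parity_ed c₁
  have h3 := parity_ed c₂
  have h4 : c.length = c₁.length + c₂.length := by rw [h]; simp
  unfold dc
  omega

lemma dc_pair {s : Bool} {d : List Bool} (hd : ed d = 0) :
    dc (s :: (d ++ [!s])) = dc d + 1 ∧ d.length + 2 = 2 * dc (s :: (d ++ [!s])) := by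
  have h1 := parity_ed d
  have h2 : ed (s :: (d ++ [!s])) = 0 := by
    rw [ed_cons, ed_append, ed_cons, ed_nil, hd, st_not]; ring
  have h3 : (s :: (d ++ [!s])).length = d.length + 2 := by simp
  unfold dc
  rw [h2, hd] at *
  simp only [Int.natAbs_zero] at *
  omega

/-- accumulated interaction -/
noncomputable def Phi' (p : Par) (A : ℝ) (D B m : ℕ) : ℝ :=
  ∑ k ∈ range m, A * kr p.κ (2 * (k + 1) * D + B)

lemma Phi'_subadd (p : Par) {A : ℝ} (hA : 0 ≤ A) {D : ℕ} (hD : 0 < D) (B m n : ℕ) :
    Phi' p A D B (m + n) ≤ Phi' p A D B m + Phi' p A D B n := by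
  unfold Phi'
  rw [Finset.sum_range_add]
  gcongr with k _
  apply kr_anti p.hκ0.le
  · positivity
  · gcongr
    omega

lemma Gc_le (p : Par) {h : ℕ} (hh : 0 < h) {D : ℕ} (hD : 0 < D) (B : ℕ) {A : ℝ} (hA : 0 ≤ A)
    (C : ℝ≥0∞) (hC : CV p ≤ C)
    (hE : ∀ m : ℕ, 0 < m → E2 p h (kr p.κ (2 * m * D + B)) ≤
      C ^ 2 * ENNReal.ofReal (Real.exp (-(A * kr p.κ (2 * m * D + B))))) (N : ℕ) :
    ∀ c : List Bool, c.length ≤ N → Gc p h D B c ≤
      C ^ c.length * ENNReal.ofReal (Real.exp (-Phi' p A D B (dc c))) := by
  induction N with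
  | zero =>
    intro c hc
    have : c = [] := List.length_eq_zero_iff.1 (by omega)
    subst this
    have : dc [] = 0 := by unfold dc; simp
    rw [this]
    unfold Phi'
    simp only [List.length_nil, pow_zero, Finset.range_zero, Finset.sum_empty, neg_zero,
      Real.exp_zero, ENNReal.ofReal_one, mul_one]
    exact Gc_nil p h D B
  | succ N ih =>
    intro c hc
    rcases Nat.lt_or_ge c.length 2 with h2 | h2
    · rcases Nat.eq_zero_or_pos c.length with h0 | h0
      · exact ih c (by omega)
      · obtain ⟨s, rfl⟩ : ∃ s, c = [s] := by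
          apply List.length_eq_one_iff.1; omega
        have : dc [s] = 0 := by
          unfold dc; simp only [List.length_singleton]; omega
        rw [this]
        unfold Phi'
        simp only [List.length_singleton, pow_one, Finset.range_zero, Finset.sum_empty, neg_zero,
          Real.exp_zero, ENNReal.ofReal_one, mul_one]
        exact (Gc_single p hh D B s).trans hC
    · rcases word_split c h2 with ⟨c₁, c₂, hc12, hl1, hl2, hnat⟩ | ⟨s, d, hcd, hd⟩
      · have i1 := ih c₁ (by omega)
        have i2 := ih c₂ (by omega)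
        have i3 := dc_append hc12 hnat
        have hlen : c.length = c₁.length + c₂.length := by rw [hc12]; simp
        calc Gc p h D B c = Gc p h D B (c₁ ++ c₂) := by rw [hc12]
          _ ≤ Gc p h D B c₁ * Gc p h D B c₂ := Gc_append p h D B c₁ c₂
          _ ≤ (C ^ c₁.length * ENNReal.ofReal (Real.exp (-Phi' p A D B (dc c₁)))) *
              (C ^ c₂.length * ENNReal.ofReal (Real.exp (-Phi' p A D B (dc c₂)))) := by gcongr
          _ = C ^ c.length * (ENNReal.ofReal (Real.exp (-Phi' p A D B (dc c₁))) *
              ENNReal.ofReal (Real.exp (-Phi' p A D B (dc c₂)))) := by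
              rw [hlen, pow_add]; ring
          _ ≤ _ := by
              gcongr
              rw [← ENNReal.ofReal_mul (Real.exp_pos _).le, ← Real.exp_add]
              apply ENNReal.ofReal_le_ofReal
              apply Real.exp_le_exp.2
              rw [i3]
              linarith [Phi'_subadd p hA hD B (dc c₁) (dc c₂)]
      · have i3 := dc_pair (s := s) hd
        have hlen : c.length = d.length + 2 := by rw [hcd]; simp
        have i1 := ih d (by omega)
        have i4 := Gc_pair p hh D B s d hd
        rw [← hcd] at i3 i4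
        have i5 : (d.length + 2) * D + B = 2 * dc c * D + B := by rw [i3.2]
        rw [i5] at i4
        have i6 := hE (dc c) (by omega)
        calc Gc p h D B c ≤ E2 p h (kr p.κ (2 * dc c * D + B)) * Gc p h D B d := i4
          _ ≤ (C ^ 2 * ENNReal.ofReal (Real.exp (-(A * kr p.κ (2 * dc c * D + B))))) *
              (C ^ d.length * ENNReal.ofReal (Real.exp (-Phi' p A D B (dc d)))) := by gcongr
          _ = C ^ c.length * (ENNReal.ofReal (Real.exp (-Phi' p A D B (dc d))) *
              ENNReal.ofReal (Real.exp (-(A * kr p.κ (2 * dc c * D + B))))) := by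
              rw [hlen, pow_add]; ring
          _ = _ := by
              rw [← ENNReal.ofReal_mul (Real.exp_pos _).le, ← Real.exp_add, i3.1]
              congr 3
              unfold Phi'
              rw [Finset.sum_range_succ]
              ring

end Pool.Agent.Helper98.Elastic
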