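import Mathlib
import Pool.Agent.Helper98.Elastic.Upper6

/-!
# The sharp upper bound
-/

open Finset Filter Topology
open scoped ENNReal

namespace Pool.Agent.Helper98.Elastic

lemma rpow_step_le {κ s y : ℝ} (hκ0 : 0 < κ) (hκ1 : κ < 1) (hs : 0 < s) (hy : 0 < y) :
    (y + s) ^ (1 - κ) - y ^ (1 - κ) ≤ (1 - κ) * s * y ^ (-κ) := by
  have h1 := rpow_diff_le hκ0 hκ1 (t := y / s) (by positivity)
  have h2 : y + s = s * (y / s + 1) := by field_simp
  have h3 : y = s * (y / s) := by field_simp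
  have h4 : (y + s) ^ (1 - κ) = s ^ (1 - κ) * (y / s + 1) ^ (1 - κ) := by
    rw [h2, Real.mul_rpow hs.le (by positivity)]
  have h5 : y ^ (1 - κ) = s ^ (1 - κ) * (y / s) ^ (1 - κ) := by
    conv_lhs => rw [h3]
    rw [Real.mul_rpow hs.le (by positivity)]
  have h6 : y ^ (-κ) = s ^ (-κ) * (y / s) ^ (-κ) := by
    conv_lhs => rw [h3]
    rw [Real.mul_rpow hs.le (by positivity)]
  have h7 : s ^ (1 - κ) = s * s ^ (-κ) := by
    rw [sub_eq_add_neg, Real.rpow_add hs, Real.rpow_one]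
  have h8 : 0 < s ^ (1 - κ) := by positivity
  rw [h4, h5, h6]
  have h9 := mul_le_mul_of_nonneg_left h1 h8.le
  calc s ^ (1 - κ) * (y / s + 1) ^ (1 - κ) - s ^ (1 - κ) * (y / s) ^ (1 - κ)
      = s ^ (1 - κ) * ((y / s + 1) ^ (1 - κ) - (y / s) ^ (1 - κ)) := by ring
    _ ≤ s ^ (1 - κ) * ((1 - κ) * (y / s) ^ (-κ)) := h9
    _ = _ := by rw [h7]; ring

lemma Phi'_ge (p : Par) {A : ℝ} (hA : 0 ≤ A) {D : ℕ} (hD : 0 < D) (B M : ℕ) :
    A / (2 * D * (1 - p.κ)) * ((2 * D * (M + 1) + B : ℝ) ^ (1 - p.κ) -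
      (2 * D + B : ℝ) ^ (1 - p.κ)) ≤ Phi' p A D B M := by
  have hD0 : (0 : ℝ) < D := by exact_mod_cast hD
  have hκ : 0 < 1 - p.κ := by linarith [p.hκ1]
  unfold Phi'
  induction M with
  | zero =>
    simp only [Finset.range_zero, Finset.sum_empty, Nat.cast_zero, zero_add, mul_one, sub_self,
      mul_zero, le_refl]
  | succ M ih =>
    rw [Finset.sum_range_succ]
    have hy : (0 : ℝ) < 2 * D * (M + 1) + B := by positivity
    have h1 := rpow_step_le p.hκ0 p.hκ1 (s := 2 * D) (by positivity) hy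
    have h2 : kr p.κ (2 * (M + 1) * D + B) = (2 * D * (M + 1) + B : ℝ) ^ (-p.κ) := by
      unfold kr
      congr 1
      push_cast; ring
    have h3 : (2 * D * ((M + 1 : ℕ) + 1) + B : ℝ) = 2 * D * (M + 1) + B + 2 * D := by
      push_cast; ring
    rw [h2, h3]
    have h4 : A / (2 * D * (1 - p.κ)) * ((2 * D * (M + 1) + B + 2 * D : ℝ) ^ (1 - p.κ) -
        (2 * D * (M + 1) + B : ℝ) ^ (1 - p.κ)) ≤ A * (2 * D * (M + 1) + B : ℝ) ^ (-p.κ) := by
      calc _ ≤ A / (2 * D * (1 - p.κ)) * ((1 - p.κ) * (2 * D) *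
            (2 * D * (M + 1) + B : ℝ) ^ (-p.κ)) := by gcongr
        _ = _ := by field_simp
    linarith

/-- the rate function -/
noncomputable def cth (p : Par) (θ : ℝ) : ℝ :=
  p.β * (speed p - θ) ^ (1 - p.κ) / (2 * (1 - p.κ) * speed p ^ (2 - p.κ))

lemma cth_nonneg (p : Par) {θ : ℝ} (hθ : θ ≤ speed p) : 0 ≤ cth p θ := by
  have := p.hβ
  have := speed_pos p
  have h1 : 0 < 1 - p.κ := by linarith [p.hκ1]
  have h2 : 0 ≤ speed p - θ := by linarith
  unfold cth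
  positivity

/-- approximate rate -/
noncomputable def vth (p : Par) (θ ε η : ℝ) : ℝ :=
  p.β * ((1 - ε) / speed p ^ 2) / (2 * ((1 + 2 * ε) / speed p) * (1 - p.κ)) *
    ((1 - θ * ((1 + 2 * ε) / speed p)) ^ (1 - p.κ) - η ^ (1 - p.κ))

lemma vth_zero (p : Par) {θ : ℝ} (hθ : θ < speed p) : vth p θ 0 0 = cth p θ := by
  have hs := speed_pos p
  have h1 : 0 < 1 - p.κ := by linarith [p.hκ1]
  unfold vth cth
  have h2 : 1 - θ * ((1 + 2 * 0) / speed p) = (speed p - θ) / speed p := by field_simp; ring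
  rw [h2, Real.zero_rpow h1.ne', Real.div_rpow (by linarith) hs.le]
  have h4 : speed p ^ (2 - p.κ) = speed p * speed p ^ (1 - p.κ) := by
    rw [show 2 - p.κ = 1 + (1 - p.κ) by ring, Real.rpow_add hs, Real.rpow_one]
  rw [h4]
  have h7 : 0 < speed p ^ (1 - p.κ) := by positivity
  field_simp
  ring

lemma exists_params (p : Par) {θ δ : ℝ} (hθ0 : 0 ≤ θ) (hθ : θ < speed p) (hδ : 0 < δ) :
    ∃ t : ℝ, 0 < t ∧ t < 1 / 2 ∧ t < 1 - θ * ((1 + 2 * t) / speed p) ∧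
      cth p θ - δ < vth p θ t t := by
  have hs := speed_pos p
  have h1 : 0 < 1 - p.κ := by linarith [p.hκ1]
  have hlim : Tendsto (fun t : ℝ => vth p θ t t) (𝓝[>] 0) (𝓝 (cth p θ)) := by
    rw [← vth_zero p hθ]
    have hc : ContinuousAt (fun t : ℝ => vth p θ t t) 0 := by
      unfold vth
      apply ContinuousAt.mul
      · apply ContinuousAt.div
        · fun_prop
        · fun_prop
        · have : (2 * ((1 + 2 * (0 : ℝ)) / speed p) * (1 - p.κ)) = 2 / speed p * (1 - p.κ) := by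
            ring
          rw [this]
          positivity
      · apply ContinuousAt.sub
        · apply ContinuousAt.rpow_const
          · fun_prop
          · left
            have : 1 - θ * ((1 + 2 * (0 : ℝ)) / speed p) = (speed p - θ) / speed p := by
              field_simp; ring
            rw [this]
            exact (div_pos (by linarith) hs).ne'
        · apply ContinuousAt.rpow_const
          · fun_prop
          · right; exact h1.le
    exact hc.tendsto.mono_left nhdsWithin_le_nhds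
  have hlim2 : Tendsto (fun t : ℝ => 1 - θ * ((1 + 2 * t) / speed p) - t) (𝓝[>] 0)
      (𝓝 (1 - θ * ((1 + 2 * 0) / speed p) - 0)) := by
    have hc : ContinuousAt (fun t : ℝ => 1 - θ * ((1 + 2 * t) / speed p) - t) 0 := by fun_prop
    exact hc.tendsto.mono_left nhdsWithin_le_nhds
  have h3 : 0 < 1 - θ * ((1 + 2 * (0 : ℝ)) / speed p) - 0 := by
    have : 1 - θ * ((1 + 2 * (0 : ℝ)) / speed p) - 0 = (speed p - θ) / speed p := by
      field_simp; ring
    rw [this]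
    exact div_pos (by linarith) hs
  have e1 : ∀ᶠ t in 𝓝[>] (0 : ℝ), cth p θ - δ < vth p θ t t :=
    hlim.eventually (lt_mem_nhds (by linarith))
  have e2 : ∀ᶠ t in 𝓝[>] (0 : ℝ), 0 < 1 - θ * ((1 + 2 * t) / speed p) - t :=
    hlim2.eventually (lt_mem_nhds h3)
  have e3 : ∀ᶠ t in 𝓝[>] (0 : ℝ), t < 1 / 2 :=
    (eventually_lt_nhds (by norm_num : (0 : ℝ) < 1 / 2)).filter_mono nhdsWithin_le_nhds
  have e4 : ∀ᶠ t in 𝓝[>] (0 : ℝ), 0 < t := eventually_mem_nhdsWithin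
  obtain ⟨t, t1, t2, t3, t4⟩ := (e1.and (e2.and (e3.and e4))).exists
  exact ⟨t, t4, t3, by linarith, t1⟩

/-! ### the scales -/

/-- coarse scale -/
noncomputable def hn (p : Par) (K : ℝ) (n : ℕ) : ℕ := ⌈K * (n : ℝ) ^ p.κ⌉₊

lemma hn_ge (p : Par) (K : ℝ) (n : ℕ) : K * (n : ℝ) ^ p.κ ≤ hn p K n := Nat.le_ceil _

lemma hn_le (p : Par) {K : ℝ} (hK : 0 < K) (n : ℕ) : (hn p K n : ℝ) ≤ K * (n : ℝ) ^ p.κ + 1 :=
  (Nat.ceil_lt_add_one (by positivity)).le

lemma tendsto_hn (p : Par) {K : ℝ} (hK : 0 < K) : Tendsto (hn p K) atTop atTop := by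
  have h1 : Tendsto (fun n : ℕ => K * (n : ℝ) ^ p.κ) atTop atTop :=
    ((tendsto_rpow_atTop p.hκ0).comp tendsto_natCast_atTop_atTop).const_mul_atTop hK
  exact tendsto_nat_ceil_atTop.comp h1

lemma hn_div (p : Par) {K : ℝ} (hK : 0 < K) :
    Tendsto (fun n : ℕ => (hn p K n : ℝ) / n) atTop (𝓝 0) := by
  have h1 : Tendsto (fun n : ℕ => K * (n : ℝ) ^ (-(1 - p.κ)) + 1 / (n : ℝ)) atTop
      (𝓝 (K * 0 + 0)) := by
    apply Tendsto.add
    · apply Tendsto.const_mul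
      exact (tendsto_rpow_neg_atTop (by linarith [p.hκ1])).comp tendsto_natCast_atTop_atTop
    · exact tendsto_const_nhds.div_atTop tendsto_natCast_atTop_atTop
  rw [mul_zero, add_zero] at h1
  refine tendsto_of_tendsto_of_tendsto_of_le_of_le' tendsto_const_nhds h1
    (Eventually.of_forall fun n => by positivity) ?_
  filter_upwards [eventually_gt_atTop 0] with n hn0
  have hn1 : (0 : ℝ) < n := by exact_mod_cast hn0
  rw [div_le_iff₀ hn1]
  have h2 := hn_le p hK n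
  have h3 : (n : ℝ) ^ (-(1 - p.κ)) * n = (n : ℝ) ^ p.κ := by
    rw [show (n : ℝ) ^ (-(1 - p.κ)) * n = (n : ℝ) ^ (-(1 - p.κ)) * (n : ℝ) ^ (1 : ℝ) by
      rw [Real.rpow_one], ← Real.rpow_add hn1]
    congr 1; ring
  calc (hn p K n : ℝ) ≤ K * (n : ℝ) ^ p.κ + 1 := h2
    _ = K * ((n : ℝ) ^ (-(1 - p.κ)) * n) + 1 / (n : ℝ) * n := by rw [h3]; field_simp
    _ = _ := by ring

lemma Dh_le_eventually (p : Par) {K ε : ℝ} (hK : 0 < K) (hε : 0 < ε) : ∀ᶠ n : ℕ in atTop,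
    (Dh p ε (hn p K n) : ℝ) ≤ (1 + 2 * ε) / speed p * hn p K n := by
  have hs := speed_pos p
  have h1 : Tendsto (fun n : ℕ => ε / speed p * (hn p K n : ℝ)) atTop atTop :=
    (tendsto_natCast_atTop_atTop.comp (tendsto_hn p hK)).const_mul_atTop (by positivity)
  filter_upwards [h1.eventually_ge_atTop 1] with n hn1
  have h2 : (Dh p ε (hn p K n) : ℝ) ≤ (1 + ε) * (hn p K n : ℝ) / speed p + 1 :=
    (Nat.ceil_lt_add_one (by positivity)).le
  calc (Dh p ε (hn p K n) : ℝ) ≤ (1 + ε) * (hn p K n : ℝ) / speed p + 1 := h2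
    _ ≤ (1 + ε) * (hn p K n : ℝ) / speed p + ε / speed p * (hn p K n : ℝ) := by gcongr
    _ = _ := by ring

lemma Dh_pos (p : Par) {ε : ℝ} (hε : 0 < ε) {h : ℕ} (hh : 0 < h) : 0 < Dh p ε h := by
  have hs := speed_pos p
  have : (0 : ℝ) < h := by exact_mod_cast hh
  apply Nat.ceil_pos.2
  positivity

/-- number of coarse backtracks that are forced -/
noncomputable def Mn (p : Par) (θ ε K η : ℝ) (n : ℕ) : ℕ :=
  ⌊(((n : ℝ) - (⌊η * n⌋₊ : ℕ)) / (Dh p ε (hn p K n) : ℕ) - (θ * n + 1) / (hn p K n : ℕ) - 1) / 2⌋₊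

lemma phi_asymp (p : Par) {θ K t : ℝ} (δ : ℝ) (hθ0 : 0 ≤ θ) (hK : 0 < K)
    (ht : 0 < t) (ht2 : t < 1 / 2) (ht1 : t < 1 - θ * ((1 + 2 * t) / speed p)) (hδ : 0 < δ) :
    ∀ᶠ n : ℕ in atTop, (vth p θ t t - δ) * (n : ℝ) ^ (1 - p.κ) ≤
      Phi' p (p.β * ((1 - t) / speed p ^ 2) * hn p K n) (Dh p t (hn p K n)) ⌊t * n⌋₊
        (Mn p θ t K t n) := by
  have hs := speed_pos p
  have hβ := p.hβ
  have hκ : 0 < 1 - p.κ := by linarith [p.hκ1]
  set q : ℝ := (1 + 2 * t) / speed p with hq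
  have hq0 : 0 < q := by positivity
  set a : ℝ := p.β * ((1 - t) / speed p ^ 2) with ha
  have ha0 : 0 < a := by
    have : 0 < 1 - t := by linarith
    positivity
  have l1 : Tendsto (fun n : ℕ => 1 - θ * q - q / (n : ℝ) - q * ((hn p K n : ℝ) / n)) atTop
      (𝓝 (1 - θ * q - 0 - q * 0)) := by
    apply Tendsto.sub
    · apply Tendsto.sub tendsto_const_nhds
      exact tendsto_const_nhds.div_atTop tendsto_natCast_atTop_atTop
    · exact (hn_div p hK).const_mul q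
  have l2 : Tendsto (fun n : ℕ => t + 2 * q * ((hn p K n : ℝ) / n)) atTop
      (𝓝 (t + 2 * q * 0)) := tendsto_const_nhds.add ((hn_div p hK).const_mul _)
  simp only [mul_zero, sub_zero, add_zero] at l1 l2
  have l3 : Tendsto (fun n : ℕ => a / (2 * q * (1 - p.κ)) *
      ((1 - θ * q - q / (n : ℝ) - q * ((hn p K n : ℝ) / n)) ^ (1 - p.κ) -
        (t + 2 * q * ((hn p K n : ℝ) / n)) ^ (1 - p.κ))) atTop (𝓝 (vth p θ t t)) := by
    apply Tendsto.const_mul
    apply Tendsto.sub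
    · exact l1.rpow_const (Or.inr hκ.le)
    · exact l2.rpow_const (Or.inr hκ.le)
  have e1 := l3.eventually (lt_mem_nhds (show vth p θ t t - δ < vth p θ t t by linarith))
  have e2 := l1.eventually (lt_mem_nhds ht1)
  have e2' := l2.eventually (gt_mem_nhds (show t < (1 - θ * q + t) / 2 by linarith))
  have e2'' := l1.eventually (lt_mem_nhds (show (1 - θ * q + t) / 2 < 1 - θ * q by linarith))
  filter_upwards [e1, e2, e2', e2'', Dh_le_eventually p hK ht, eventually_gt_atTop 0,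
    (tendsto_hn p hK).eventually_gt_atTop 0] with n f1 f2 f2' f2'' f3 f4 f5
  set h := hn p K n with hh
  set D := Dh p t h with hD
  have hD0 : 0 < D := Dh_pos p ht f5
  have hDr : (0 : ℝ) < D := by exact_mod_cast hD0
  have hhr : (0 : ℝ) < h := by exact_mod_cast f5
  have hn0 : (0 : ℝ) < n := by exact_mod_cast f4
  set B := ⌊t * (n : ℝ)⌋₊ with hB
  have hBle : (B : ℝ) ≤ t * n := Nat.floor_le (by positivity)
  set M := Mn p θ t K t n with hM
  have hM1 : (((n : ℝ) - B) / D - (θ * n + 1) / h - 1) / 2 < M + 1 := Nat.lt_floor_add_one _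
  have g1 := Phi'_ge p (A := a * h) (by positivity) hD0 B M
  refine le_trans ?_ g1
  have g2 : (n : ℝ) * (1 - θ * q - q / (n : ℝ) - q * ((h : ℝ) / n)) ≤ 2 * D * (M + 1) + B := by
    have g3 : 2 * D * ((((n : ℝ) - B) / D - (θ * n + 1) / h - 1) / 2) ≤ 2 * D * (M + 1) := by
      gcongr
    have g4 : 2 * D * ((((n : ℝ) - B) / D - (θ * n + 1) / h - 1) / 2) =
        n - B - (θ * n + 1) * (D / h) - D := by field_simp
    have g5 : (D : ℝ) / h ≤ q := by rw [div_le_iff₀ hhr]; exact f3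
    have g6 : (θ * n + 1) * ((D : ℝ) / h) ≤ (θ * n + 1) * q := by gcongr
    have g7 : (n : ℝ) * (1 - θ * q - q / (n : ℝ) - q * ((h : ℝ) / n)) =
        n - θ * n * q - q - q * h := by field_simp
    rw [g7]
    linarith
  have g3 : (2 * D + B : ℝ) ≤ n * (t + 2 * q * ((h : ℝ) / n)) := by
    have g7 : (n : ℝ) * (t + 2 * q * ((h : ℝ) / n)) = t * n + 2 * (q * h) := by field_simp
    rw [g7]
    linarith
  have u1 : 0 < 1 - θ * q - q / (n : ℝ) - q * ((h : ℝ) / n) := by linarith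
  have u2 : 0 < t + 2 * q * ((h : ℝ) / n) := by positivity
  have g4 : (n : ℝ) ^ (1 - p.κ) * (1 - θ * q - q / (n : ℝ) - q * ((h : ℝ) / n)) ^ (1 - p.κ) ≤
      (2 * D * (M + 1) + B : ℝ) ^ (1 - p.κ) := by
    rw [← Real.mul_rpow hn0.le u1.le]
    exact Real.rpow_le_rpow (by positivity) g2 hκ.le
  have g5 : (2 * D + B : ℝ) ^ (1 - p.κ) ≤
      (n : ℝ) ^ (1 - p.κ) * (t + 2 * q * ((h : ℝ) / n)) ^ (1 - p.κ) := by
    rw [← Real.mul_rpow hn0.le u2.le]
    exact Real.rpow_le_rpow (by positivity) g3 hκ.le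
  have g6 : 0 ≤ (1 - θ * q - q / (n : ℝ) - q * ((h : ℝ) / n)) ^ (1 - p.κ) -
      (t + 2 * q * ((h : ℝ) / n)) ^ (1 - p.κ) := by
    rw [sub_nonneg]
    exact Real.rpow_le_rpow u2.le (by linarith) hκ.le
  have g7 : a / (2 * q * (1 - p.κ)) ≤ a * h / (2 * D * (1 - p.κ)) := by
    rw [div_le_div_iff₀ (by positivity) (by positivity)]
    have : (D : ℝ) ≤ q * h := f3
    calc a * (2 * D * (1 - p.κ)) ≤ a * (2 * (q * h) * (1 - p.κ)) := by gcongr
      _ = _ := by ring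
  have hnp : 0 < (n : ℝ) ^ (1 - p.κ) := by positivity
  calc (vth p θ t t - δ) * (n : ℝ) ^ (1 - p.κ)
      ≤ a / (2 * q * (1 - p.κ)) *
      ((1 - θ * q - q / (n : ℝ) - q * ((h : ℝ) / n)) ^ (1 - p.κ) -
        (t + 2 * q * ((h : ℝ) / n)) ^ (1 - p.κ)) * (n : ℝ) ^ (1 - p.κ) := by gcongr
    _ ≤ a * h / (2 * D * (1 - p.κ)) *
      ((1 - θ * q - q / (n : ℝ) - q * ((h : ℝ) / n)) ^ (1 - p.κ) -
        (t + 2 * q * ((h : ℝ) / n)) ^ (1 - p.κ)) * (n : ℝ) ^ (1 - p.κ) := by gcongr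
    _ = a * h / (2 * D * (1 - p.κ)) * ((n : ℝ) ^ (1 - p.κ) *
        (1 - θ * q - q / (n : ℝ) - q * ((h : ℝ) / n)) ^ (1 - p.κ) -
        (n : ℝ) ^ (1 - p.κ) * (t + 2 * q * ((h : ℝ) / n)) ^ (1 - p.κ)) := by ring
    _ ≤ _ := by gcongr

end Pool.Agent.Helper98.Elastic
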