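import Mathlib
import Pool.Agent.Helper98.Elastic.Upper8
import Pool.Agent.Helper98.Elastic.Lower4
import Pool.Agent.Helper98.Elastic.Upper7

/-!
# The sharp upper bound for slow speeds
-/

open Finset Filter Topology
open scoped ENNReal

namespace Pool.Agent.Helper98.Elastic

lemma Mn_spec (p : Par) {θ K t : ℝ} (hK : 0 < K) (ht : 0 < t)
    (hθ0 : 0 ≤ θ) (ht1 : t < 1 - θ * ((1 + 2 * t) / speed p)) :
    ∀ᶠ n : ℕ in atTop, 2 * (Mn p θ t K t n : ℝ) ≤
      ((n : ℝ) - (⌊t * n⌋₊ : ℕ)) / (Dh p t (hn p K n) : ℕ) - (θ * n + 1) / (hn p K n : ℕ) - 1 := by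
  have hs := speed_pos p
  set q : ℝ := (1 + 2 * t) / speed p with hq
  have hq0 : 0 < q := by positivity
  have l1 : Tendsto (fun n : ℕ => 1 - t - θ * q - q / (n : ℝ) - q * ((hn p K n : ℝ) / n)) atTop
      (𝓝 (1 - t - θ * q - 0 - q * 0)) := by
    apply Tendsto.sub
    · apply Tendsto.sub tendsto_const_nhds
      exact tendsto_const_nhds.div_atTop tendsto_natCast_atTop_atTop
    · exact (hn_div p hK).const_mul q
  simp only [mul_zero, sub_zero] at l1
  have e1 := l1.eventually (lt_mem_nhds (show 0 < 1 - t - θ * q by linarith))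
  filter_upwards [e1, Dh_le_eventually p hK ht, eventually_gt_atTop 0,
    (tendsto_hn p hK).eventually_gt_atTop 0] with n f1 f3 f4 f5
  unfold Mn
  set h := hn p K n with hh
  set D := Dh p t h with hD
  have hD0 : 0 < D := Dh_pos p ht f5
  have hDr : (0 : ℝ) < D := by exact_mod_cast hD0
  have hhr : (0 : ℝ) < h := by exact_mod_cast f5
  have hn0 : (0 : ℝ) < n := by exact_mod_cast f4
  set B := ⌊t * (n : ℝ)⌋₊ with hB
  have hBle : (B : ℝ) ≤ t * n := Nat.floor_le (by positivity)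
  have hpos : 0 ≤ (((n : ℝ) - B) / D - (θ * n + 1) / h - 1) / 2 := by
    have g4 : ((n : ℝ) - B) / D - (θ * n + 1) / h - 1 =
        (n - B - (θ * n + 1) * (D / h) - D) / D := by field_simp
    rw [g4]
    have g5 : (D : ℝ) / h ≤ q := by rw [div_le_iff₀ hhr]; exact f3
    have g6 : (θ * n + 1) * ((D : ℝ) / h) ≤ (θ * n + 1) * q := by gcongr
    have g7 : (n : ℝ) * (1 - t - θ * q - q / (n : ℝ) - q * ((h : ℝ) / n)) =
        n - t * n - θ * n * q - q - q * h := by field_simp
    have g8 : 0 < (n : ℝ) * (1 - t - θ * q - q / (n : ℝ) - q * ((h : ℝ) / n)) := by positivity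
    have f3' : (D : ℝ) ≤ q * h := f3
    have g9 : 0 ≤ n - B - (θ * n + 1) * ((D : ℝ) / h) - D := by
      rw [g7] at g8
      linarith only [f3, hBle, g6, g8]
    positivity
  have := Nat.floor_le hpos
  linarith only [this]

lemma Phi'_mono (p : Par) {A : ℝ} (hA : 0 ≤ A) (D B : ℕ) {m n : ℕ} (h : m ≤ n) :
    Phi' p A D B m ≤ Phi' p A D B n := by
  unfold Phi'
  apply Finset.sum_le_sum_of_subset_of_nonneg
  · intro k hk; rw [Finset.mem_range] at *; omega
  · intro k _ _; exact mul_nonneg hA (kr_nonneg _ _)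

theorem upper_sharp (p : Par) {θ δ : ℝ} (hθ0 : 0 ≤ θ) (hθ : θ < speed p) (hδ : 0 < δ) :
    ∀ᶠ n : ℕ in atTop, ∀ x : ℤ, |(x : ℝ)| ≤ θ * n + 1 →
      mass p (fun l => l.length = n ∧ ed l = x) ≤
        ENNReal.ofReal (Real.exp (-((cth p θ - δ) * (n : ℝ) ^ (1 - p.κ)))) := by
  have hs := speed_pos p
  have hβ := p.hβ
  have hκ0 := p.hκ0
  have hκ : 0 < 1 - p.κ := by linarith [p.hκ1]
  have hcth := cth_nonneg p hθ.le
  obtain ⟨t, ht0, ht2, ht1, htv⟩ := exists_params p hθ0 hθ (show 0 < δ / 4 by positivity)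
  set V : ℝ := (CV p).toReal with hV
  have hVE : CV p = ENNReal.ofReal V := (ENNReal.ofReal_toReal (CV_ne_top p)).symm
  have hV1 : 1 ≤ V := by
    have := ENNReal.toReal_mono (CV_ne_top p) (one_le_CV p)
    simpa using this
  set K : ℝ := Real.log (4 * V) / (δ / 4) + 1 with hK
  have hlog : 0 < Real.log (4 * V) := Real.log_pos (by linarith)
  have hK1 : 1 ≤ K := by
    have : 0 < Real.log (4 * V) / (δ / 4) := by positivity
    linarith
  have hK0 : 0 < K := by linarith
  set lam : ℝ := 4 * K * (cth p θ + 1) / t with hlam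
  have hlam0 : 0 ≤ lam := by positivity
  set K3 : ℝ := (t / 2) ^ (-p.κ) * (K + 1) with hK3
  set S : ℝ≥0∞ := E0 p lam * Czz p with hS
  have hStop : S + Czz p ≠ ∞ := ENNReal.add_ne_top.2
    ⟨ENNReal.mul_ne_top (E0_ne_top p lam) (Czz_ne_top p), Czz_ne_top p⟩
  set S' : ℝ := (S + Czz p).toReal + 1 with hS'
  have hS'0 : 0 < S' := by have := ENNReal.toReal_nonneg (a := S + Czz p); linarith only [ht0, ht2, this]
  have hSle : S + Czz p ≤ ENNReal.ofReal S' := by
    rw [← ENNReal.ofReal_toReal hStop]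
    apply ENNReal.ofReal_le_ofReal
    linarith
  have ev1 := (tendsto_hn p hK0).eventually (exi_weight p hlam0 ht0)
  have ev2 := (tendsto_hn p hK0).eventually (cn_weight p hlam0)
  have ev3 := (tendsto_hn p hK0).eventually (E2_bound p t ht0 (by linarith) K3)
  have ev4 := phi_asymp p (δ / 4) hθ0 hK0 ht0 ht2 ht1 (by positivity)
  have ev5 := Mn_spec p hK0 ht0 hθ0 ht1
  have ev6 := poly_le_exp 2 (B := δ / 4) (a := 1 - p.κ) (c := 1 / S') (by positivity) hκ
    (by positivity)
  have ev7 : ∀ᶠ n : ℕ in atTop, 2 ≤ t * (n : ℝ) := by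
    have : Tendsto (fun n : ℕ => t * (n : ℝ)) atTop atTop :=
      tendsto_natCast_atTop_atTop.const_mul_atTop ht0
    exact this.eventually_ge_atTop 2
  filter_upwards [ev1, ev2, ev3, ev4, ev5, ev6, ev7, eventually_gt_atTop 0,
    (tendsto_hn p hK0).eventually_gt_atTop 0] with n f1 f2 f3 f4 f5 f6 f7 f8 f9 x hx
  have hh := hn_ge p K n
  have hh2 := hn_le p hK0 n
  set h := hn p K n with hhdef
  set D := Dh p t h with hD
  set B := ⌊t * (n : ℝ)⌋₊ with hB
  set M := Mn p θ t K t n with hM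
  have hD0 : 0 < D := Dh_pos p ht0 f9
  have hn0 : (0 : ℝ) < n := by exact_mod_cast f8
  have hn1 : (1 : ℝ) ≤ n := by exact_mod_cast f8
  have hhr : (0 : ℝ) < h := by exact_mod_cast f9
  have hnk : 1 ≤ (n : ℝ) ^ p.κ := Real.one_le_rpow hn1 hκ0.le
  set y : ℝ := (n : ℝ) ^ p.κ with hydef
  have hy0 : 0 < y := by linarith only [ht0, ht2, hnk]
  set s : ℝ := (n : ℝ) ^ (1 - p.κ) with hsdef
  have hs0 : 0 < s := by positivity
  have hns : (n : ℝ) = s * y := by
    rw [hsdef, hydef, ← Real.rpow_add hn0]; simp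
  have hBge : t * n / 2 ≤ B := by
    have := Nat.lt_floor_add_one (t * (n : ℝ))
    have h2 : t * (n : ℝ) < B + 1 := this
    linarith only [f7, this]
  have hBpos : 0 < B := by
    have : (0 : ℝ) < B := by linarith
    exact_mod_cast this
  have hh3 : (h : ℝ) ≤ (K + 1) * y := by linarith only [hh2, hnk]
  have hh4 : (h : ℝ) ≤ 2 * K * y := by nlinarith only [hK1, hh2, hnk, ht0, ht2]
  -- the pair bound
  have hE : ∀ m : ℕ, 0 < m → E2 p h (kr p.κ (2 * m * D + B)) ≤
      (2 * CV p) ^ 2 * ENNReal.ofReal (Real.exp (-((p.β * ((1 - t) / speed p ^ 2) * h) *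
        kr p.κ (2 * m * D + B)))) := by
    intro m _
    have g1 : kr p.κ (2 * m * D + B) * h ≤ K3 := by
      calc kr p.κ (2 * m * D + B) * h ≤ kr p.κ B * h := by
            gcongr
            exact kr_anti hκ0.le hBpos (by omega)
        _ ≤ (t * n / 2) ^ (-p.κ) * ((K + 1) * y) := by
            gcongr
            unfold kr
            exact Real.rpow_le_rpow_of_nonpos (by positivity) hBge (by linarith only [hκ0])
        _ = K3 := by
            rw [show t * (n : ℝ) / 2 = (t / 2) * n by ring, Real.mul_rpow (by positivity) hn0.le,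
              hK3]
            have : (n : ℝ) ^ (-p.κ) * y = 1 := by
              rw [hydef, ← Real.rpow_add hn0]; simp
            calc (t / 2) ^ (-p.κ) * (n : ℝ) ^ (-p.κ) * ((K + 1) * y)
                = (t / 2) ^ (-p.κ) * (K + 1) * ((n : ℝ) ^ (-p.κ) * y) := by ring
              _ = _ := by rw [this, mul_one]
    have g2 := f3 (kr p.κ (2 * m * D + B)) (kr_nonneg _ _) g1
    refine g2.trans ?_
    have g3 : (p.β * ((1 - t) / speed p ^ 2) * h) * kr p.κ (2 * m * D + B) =
        p.β * ((1 - t) / speed p ^ 2) * (kr p.κ (2 * m * D + B) * h) := by ring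
    rw [g3]
    gcongr
    calc 2 * (CV p * CV p) ≤ 4 * (CV p * CV p) := by gcongr; norm_num
      _ = _ := by ring
  have hA0 : 0 ≤ p.β * ((1 - t) / speed p ^ 2) * h := by
    have : 0 < 1 - t := by linarith only [ht0, ht2]
    positivity
  have hCV2 : CV p ≤ 2 * CV p := by
    calc CV p = 1 * CV p := (one_mul _).symm
      _ ≤ 2 * CV p := by gcongr; norm_num
  have hG : ∀ c : List Bool, M ≤ dc c → Gc p h D B c ≤ (2 * CV p) ^ c.length *
      ENNReal.ofReal (Real.exp (-Phi' p (p.β * ((1 - t) / speed p ^ 2) * h) D B M)) := by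
    intro c hc
    refine (Gc_le p f9 hD0 B hA0 (2 * CV p) hCV2 hE c.length c le_rfl).trans ?_
    gcongr
    exact Phi'_mono p hA0 D B hc
  have hMx : 2 * (M : ℝ) ≤ ((n : ℝ) - B) / D - |(x : ℝ)| / h - 1 := by
    have g1 : |(x : ℝ)| / h ≤ (θ * n + 1) / h := by gcongr
    linarith only [f5, g1]
  have hone : (1 : ℝ≥0∞) ≤ 3 * CV p := by
    calc (1 : ℝ≥0∞) = 1 * 1 := (one_mul _).symm
      _ ≤ 3 * CV p := mul_le_mul' (by norm_num) (one_le_CV p)
  have hone' : (1 : ℝ≥0∞) ≤ 2 * CV p := (one_le_CV p).trans hCV2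
  have hfin := upper_fin p hlam0 f9 hD0 B n M x (3 * CV p) S (2 * CV p) _ hone f1 f2 hone' hG hMx
  refine hfin.trans ?_
  -- numerical estimates
  have hN1 : ((n / h : ℕ) : ℝ) ≤ s / K := by
    calc ((n / h : ℕ) : ℝ) ≤ (n : ℝ) / h := Nat.cast_div_le
      _ ≤ (n : ℝ) / (K * y) := by gcongr
      _ = s / K := by
          rw [hns]
          field_simp
  have hpow : (4 * CV p) ^ (n / h) ≤ ENNReal.ofReal (Real.exp (δ / 4 * s)) := by
    have e1 : (4 : ℝ≥0∞) * CV p = ENNReal.ofReal (4 * V) := by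
      rw [ENNReal.ofReal_mul (by norm_num), hVE]
      simp
    rw [e1, ← ENNReal.ofReal_pow (by positivity)]
    apply ENNReal.ofReal_le_ofReal
    have e2 : (4 * V) ^ (n / h) = Real.exp ((n / h : ℕ) * Real.log (4 * V)) := by
      rw [Real.exp_nat_mul, Real.exp_log (by positivity)]
    rw [e2]
    apply Real.exp_le_exp.2
    calc ((n / h : ℕ) : ℝ) * Real.log (4 * V) ≤ s / K * Real.log (4 * V) := by gcongr
      _ = (Real.log (4 * V) / K) * s := by ring
      _ ≤ δ / 4 * s := by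
          apply mul_le_mul_of_nonneg_right _ hs0.le
          rw [div_le_iff₀ hK0, hK]
          have : δ / 4 * (Real.log (4 * V) / (δ / 4) + 1) = Real.log (4 * V) + δ / 4 := by
            field_simp
          rw [this]
          linarith only [hδ]
  have hlamB : (cth p θ - δ / 2) * s ≤ lam * B / h := by
    calc (cth p θ - δ / 2) * s ≤ (cth p θ + 1) * s := by gcongr; linarith only [hδ, ht0, ht2]
      _ = lam * (t * n / 2) / (2 * K * y) := by
          rw [hlam, hns]
          field_simp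
          norm_num
      _ ≤ lam * B / h := by gcongr
  have hphi : (cth p θ - δ / 2) * s ≤ Phi' p (p.β * ((1 - t) / speed p ^ 2) * h) D B M := by
    refine le_trans ?_ f4
    apply mul_le_mul_of_nonneg_right _ hs0.le
    linarith only [htv]
  have hnN : (n / h + 1 : ℕ) ≤ n + 1 := by
    have := Nat.div_le_self n h
    omega
  have hnN' : ((n / h + 1 : ℕ) : ℝ≥0∞) ≤ ((n + 1 : ℕ) : ℝ≥0∞) := by exact_mod_cast hnN
  have hX : ENNReal.ofReal (Real.exp (-(lam * B / h))) ≤
      ENNReal.ofReal (Real.exp (-((cth p θ - δ / 2) * s))) := by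
    apply ENNReal.ofReal_le_ofReal
    gcongr
  have hY : ENNReal.ofReal (Real.exp (-Phi' p (p.β * ((1 - t) / speed p ^ 2) * h) D B M)) ≤
      ENNReal.ofReal (Real.exp (-((cth p θ - δ / 2) * s))) := by
    apply ENNReal.ofReal_le_ofReal
    gcongr
  calc _ ≤ ENNReal.ofReal (Real.exp (-((cth p θ - δ / 2) * s))) *
        ((((n + 1 : ℕ) : ℝ≥0∞) * ENNReal.ofReal (Real.exp (δ / 4 * s))) *
          (((n + 1 : ℕ) : ℝ≥0∞) * S)) +
        ((((n + 1 : ℕ) : ℝ≥0∞) * ENNReal.ofReal (Real.exp (δ / 4 * s))) *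
        ENNReal.ofReal (Real.exp (-((cth p θ - δ / 2) * s)))) *
          (((n + 1 : ℕ) : ℝ≥0∞) * Czz p) := by
        gcongr
        · refine le_trans ?_ hpow
          gcongr
          norm_num
        · refine le_trans (le_of_eq ?_) hpow
          rw [← mul_assoc]; norm_num
    _ = ((n + 1 : ℕ) : ℝ≥0∞) ^ 2 * (ENNReal.ofReal (Real.exp (δ / 4 * s)) *
        ENNReal.ofReal (Real.exp (-((cth p θ - δ / 2) * s)))) * (S + Czz p) := by ring
    _ ≤ ((n + 1 : ℕ) : ℝ≥0∞) ^ 2 * (ENNReal.ofReal (Real.exp (δ / 4 * s)) *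
        ENNReal.ofReal (Real.exp (-((cth p θ - δ / 2) * s)))) * ENNReal.ofReal S' := by
        gcongr
    _ = ENNReal.ofReal ((((n : ℝ) + 1) ^ 2 * S') * (Real.exp (δ / 4 * s) *
        Real.exp (-((cth p θ - δ / 2) * s)))) := by
        have e1 : ((n + 1 : ℕ) : ℝ≥0∞) = ENNReal.ofReal ((n : ℝ) + 1) := by
          rw [← ENNReal.ofReal_natCast]; push_cast; rfl
        rw [e1, ← ENNReal.ofReal_pow (by positivity), ← ENNReal.ofReal_mul (Real.exp_pos _).le,
          ← ENNReal.ofReal_mul (by positivity), ← ENNReal.ofReal_mul (by positivity)]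
        congr 1; ring
    _ ≤ _ := by
        apply ENNReal.ofReal_le_ofReal
        have e2 : ((n : ℝ) + 1) ^ 2 * S' ≤ Real.exp (δ / 4 * s) := by
          calc ((n : ℝ) + 1) ^ 2 * S' ≤ (1 / S' * Real.exp (δ / 4 * s)) * S' := by gcongr
            _ = _ := by field_simp
        calc (((n : ℝ) + 1) ^ 2 * S') * (Real.exp (δ / 4 * s) *
            Real.exp (-((cth p θ - δ / 2) * s)))
            ≤ Real.exp (δ / 4 * s) * (Real.exp (δ / 4 * s) *
              Real.exp (-((cth p θ - δ / 2) * s))) := by gcongr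
          _ = _ := by
              rw [← Real.exp_add, ← Real.exp_add]
              congr 1; ring

end Pool.Agent.Helper98.Elastic
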