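import Pool.Agent.Helper98.Elastic.End7
import Pool.Agent.Helper98.Elastic.Upper9
import Pool.Agent.Helper98.Elastic.Link

/-!
# The sharp rate for slow speeds
-/

open Finset Filter Topology
open scoped ENNReal

namespace Pool.Agent.Helper98.Elastic

/-- mass of the walks of length `n` ending at `x` -/
noncomputable def Zm (p : Par) (n : ℕ) (x : ℤ) : ℝ≥0∞ := mass p (fun l => l.length = n ∧ ed l = x)

lemma Hm_le_Zm (p : Par) (n : ℕ) (x : ℤ) : Hm p n x ≤ Zm p n x :=
  mass_mono p (fun _ h => h.2)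

lemma continuous_cth (p : Par) : Continuous (cth p) := by
  unfold cth
  have h : 0 ≤ 1 - p.κ := by linarith [p.hκ1]
  have h1 : Continuous (fun θ : ℝ => (speed p - θ) ^ (1 - p.κ)) :=
    (continuous_const.sub continuous_id).rpow_const (fun _ => Or.inr h)
  exact (continuous_const.mul h1).div_const _

lemma rate_anti (p : Par) {n x y : ℝ} (h : x ≤ y) (hy : y ≤ speed p * n) :
    rate p n y ≤ rate p n x := by
  have hs := speed_pos p
  have hβ := p.hβ
  unfold rate
  have h1 : SS p.κ ((n - y / speed p) / 2) ≤ SS p.κ ((n - x / speed p) / 2) := by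
    apply SS_mono p.hκ1
    · have : y / speed p ≤ n := by rw [div_le_iff₀ hs]; linarith
      linarith
    · have : x / speed p ≤ y / speed p := by gcongr
      linarith
  gcongr

lemma rate_eq_cth (p : Par) {n θ : ℝ} (hn : 0 ≤ n) (hθ : θ ≤ speed p) :
    rate p n (θ * n) = cth p θ * n ^ (1 - p.κ) := rate_eq p hn hθ

lemma lower_pos (p : Par) {θ ε : ℝ} (hθ0 : 0 < θ) (hθ : θ < speed p) (hε : 0 < ε) :
    ∀ᶠ n : ℕ in atTop, (⌈θ * n⌉ - (n : ℤ)) % 2 = 0 →
      ENNReal.ofReal (Real.exp (-((cth p θ + ε) * (n : ℝ) ^ (1 - p.κ)))) ≤ Zm p n ⌈θ * n⌉ := by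
  have hc := cth_nonneg p hθ.le
  have h1 : ∀ᶠ t in 𝓝[<] θ, cth p t < cth p θ + ε / 2 ∧ t < θ := by
    have h3 : ∀ᶠ t in 𝓝 θ, cth p t < cth p θ + ε / 2 :=
      (continuous_cth p).continuousAt.eventually (gt_mem_nhds (by linarith))
    exact (h3.filter_mono nhdsWithin_le_nhds).and self_mem_nhdsWithin
  obtain ⟨t, ht1, ht2⟩ := h1.exists
  have hct := cth_nonneg p (θ := t) (by linarith)
  obtain ⟨N, hN⟩ := lower_unif p (speed p - θ) (ε / (2 * (cth p θ + ε))) (by linarith)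
    (by positivity)
  have h4 := eventually_div_lt (δ := θ - t) (by linarith) 1
  filter_upwards [h4, eventually_ge_atTop N, eventually_ge_atTop 1] with n f1 f2 f3 hpar
  have hn1 : (1 : ℝ) ≤ n := by exact_mod_cast f3
  have hpos : 0 < ⌈θ * n⌉ := Int.ceil_pos.2 (by positivity)
  obtain ⟨x, hx⟩ : ∃ x : ℕ, ⌈θ * (n : ℝ)⌉ = x + 1 := ⟨(⌈θ * n⌉ - 1).toNat, by omega⟩
  have hx1 : (x : ℝ) < θ * n := by
    have := Int.ceil_lt_add_one (θ * (n : ℝ))
    rw [hx] at this
    push_cast at this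
    linarith
  have hx2 : θ * n ≤ x + 1 := by
    have := Int.le_ceil (θ * (n : ℝ))
    rw [hx] at this
    push_cast at this
    exact this
  have h5 := hN n f2 x (by omega) (by linarith)
  rw [hx]
  refine le_trans ?_ (h5.trans (Hm_le_Zm p n _))
  apply ENNReal.ofReal_le_ofReal
  apply Real.exp_le_exp.2
  have h6 : rate p n x ≤ cth p t * (n : ℝ) ^ (1 - p.κ) := by
    rw [← rate_eq_cth p (by positivity) (by linarith : t ≤ speed p)]
    apply rate_anti
    · push_cast at f1; linarith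
    · have : θ * (n : ℝ) ≤ speed p * n := by gcongr
      linarith
  have hr0 : 0 ≤ rate p n x := by
    apply rate_nonneg
    have : θ * (n : ℝ) ≤ speed p * n := by gcongr
    linarith
  have h7 : (1 + ε / (2 * (cth p θ + ε))) * cth p t ≤ cth p θ + ε := by
    have h8 : ε / (2 * (cth p θ + ε)) * cth p t ≤ ε / 2 := by
      calc ε / (2 * (cth p θ + ε)) * cth p t ≤ ε / (2 * (cth p θ + ε)) * (cth p θ + ε) := by
            gcongr
            linarith
        _ = ε / 2 := by field_simp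
    linarith
  have h9 : (1 + ε / (2 * (cth p θ + ε))) * rate p n x ≤ (cth p θ + ε) * (n : ℝ) ^ (1 - p.κ) := by
    calc (1 + ε / (2 * (cth p θ + ε))) * rate p n x
        ≤ (1 + ε / (2 * (cth p θ + ε))) * (cth p t * (n : ℝ) ^ (1 - p.κ)) := by gcongr
      _ = ((1 + ε / (2 * (cth p θ + ε))) * cth p t) * (n : ℝ) ^ (1 - p.κ) := by ring
      _ ≤ _ := by gcongr
  linarith

/-! ### The target `0` -/

lemma xc_down {κ : ℝ} (hκ : 0 ≤ κ) {l : List Bool} (hl : Half l) (he : ed l = 1) :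
    xc κ l.reverse (neg [false]) ≤ 1 := by
  unfold xc
  calc ∑ i ∈ Icc 1 l.reverse.length, ∑ j ∈ Icc 1 (neg [false]).length,
        (if pos l.reverse i = pos (neg [false]) j then kr κ (i + j) else 0)
      ≤ ∑ i ∈ Icc 1 l.reverse.length, (if i = l.length then (1 : ℝ) else 0) := by
        apply Finset.sum_le_sum
        intro i hi
        rw [Finset.mem_Icc, List.length_reverse] at hi
        have h1 : (neg [false]).length = 1 := rfl
        rw [h1, Finset.Icc_self, Finset.sum_singleton]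
        have h2 : pos (neg [false]) 1 = 1 := by simp [neg, pos, st]
        rw [h2, pos_reverse _ hi.2, he]
        by_cases h3 : i = l.length
        · rw [if_pos h3]
          split_ifs
          · exact kr_le_one hκ _
          · norm_num
        · rw [if_neg h3, if_neg]
          have := hl (l.length - i) (by omega) (by omega)
          omega
    _ ≤ 1 := by
        rw [Finset.sum_ite_eq']
        split_ifs <;> norm_num

lemma W_down (p : Par) {l : List Bool} (hl : Half l) (he : ed l = 1) :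
    W p l * ENNReal.ofReal (zz p * Real.exp (-p.β)) ≤ W p (l ++ [false]) := by
  rw [W_append_eq]
  have h1 : W p [false] = ENNReal.ofReal (zz p) := by
    have h2 : ([false] : List Bool) = neg (str 1) := rfl
    rw [h2, W_neg, W_str, pow_one, ze]
  rw [h1, mul_assoc, ← ENNReal.ofReal_mul (zz_pos p).le]
  gcongr
  · exact (zz_pos p).le
  · have := xc_down p.hκ0.le hl he
    have hβ := p.hβ
    nlinarith

lemma Zm_down (p : Par) (m : ℕ) :
    Hm p m 1 * ENNReal.ofReal (zz p * Real.exp (-p.β)) ≤ Zm p (m + 1) 0 := by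
  unfold Hm Zm
  rw [mass_eq_ic, ← ENNReal.tsum_mul_right, mass_eq_ic]
  apply tsum_le_of_inj _ _ (fun l : List Bool => l ++ [false])
  · intro l l' _ _ h
    exact List.append_cancel_right h
  · intro l hl
    have h1 : Half l ∧ l.length = m ∧ ed l = 1 := by
      by_contra h; apply hl; rw [ic_neg h, zero_mul]
    rw [ic_pos h1, ic_pos]
    · exact W_down p h1.1 h1.2.2
    · refine ⟨by rw [List.length_append, h1.2.1]; rfl, ?_⟩
      rw [ed_append, h1.2.2]
      simp [st]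

lemma lower_zero (p : Par) {ε : ℝ} (hε : 0 < ε) :
    ∀ᶠ n : ℕ in atTop, (n : ℤ) % 2 = 0 →
      ENNReal.ofReal (Real.exp (-((cth p 0 + ε) * (n : ℝ) ^ (1 - p.κ)))) ≤ Zm p n 0 := by
  have hs := speed_pos p
  have hβ := p.hβ
  have h1κ : 0 < 1 - p.κ := by linarith [p.hκ1]
  have hc := cth_nonneg p hs.le
  obtain ⟨N, hN⟩ := lower_unif p (speed p / 2) (ε / (2 * (cth p 0 + ε))) (by linarith)
    (by positivity)
  have hc0 : 0 < zz p * Real.exp (-p.β) := mul_pos (zz_pos p) (Real.exp_pos _)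
  have h4 := poly_le_exp 0 (B := ε / 2) (a := 1 - p.κ) (c := zz p * Real.exp (-p.β))
    (by positivity) h1κ hc0
  filter_upwards [h4, eventually_ge_atTop (N + 1)] with n f1 f2 hpar
  obtain ⟨m, rfl⟩ : ∃ m, n = m + 1 := ⟨n - 1, by omega⟩
  have h5 := hN m (by omega) 0 (by omega) (by
    have : 0 ≤ (speed p - speed p / 2) * (m : ℝ) := by
      have : 0 ≤ speed p - speed p / 2 := by linarith
      positivity
    simpa using this)
  have h6 := Zm_down p m
  refine le_trans ?_ h6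
  have h7 : (((0 : ℕ) : ℤ) + 1) = 1 := by norm_num
  rw [h7] at h5
  have h8 : rate p m ((0 : ℕ) : ℝ) = cth p 0 * (m : ℝ) ^ (1 - p.κ) := by
    rw [← rate_eq_cth p (by positivity) hs.le, zero_mul, Nat.cast_zero]
  rw [h8] at h5
  refine le_trans ?_ (mul_le_mul' h5 le_rfl)
  rw [← ENNReal.ofReal_mul (Real.exp_pos _).le]
  apply ENNReal.ofReal_le_ofReal
  rw [pow_zero] at f1
  have h9 : Real.exp (-(ε / 2 * (((m + 1 : ℕ) : ℝ)) ^ (1 - p.κ))) ≤ zz p * Real.exp (-p.β) := by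
    rw [Real.exp_neg, inv_le_iff_one_le_mul₀ (Real.exp_pos _)]
    exact f1
  have h10 : (m : ℝ) ^ (1 - p.κ) ≤ (((m + 1 : ℕ) : ℝ)) ^ (1 - p.κ) := by
    gcongr
    exact_mod_cast Nat.le_succ m
  have h11 : (1 + ε / (2 * (cth p 0 + ε))) * cth p 0 ≤ cth p 0 + ε / 2 := by
    have h8 : ε / (2 * (cth p 0 + ε)) * cth p 0 ≤ ε / 2 := by
      calc ε / (2 * (cth p 0 + ε)) * cth p 0 ≤ ε / (2 * (cth p 0 + ε)) * (cth p 0 + ε) := by
            gcongr
            linarith
        _ = ε / 2 := by field_simp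
    linarith
  calc Real.exp (-((cth p 0 + ε) * (((m + 1 : ℕ) : ℝ)) ^ (1 - p.κ)))
      = Real.exp (-((cth p 0 + ε / 2) * (((m + 1 : ℕ) : ℝ)) ^ (1 - p.κ))) *
        Real.exp (-(ε / 2 * (((m + 1 : ℕ) : ℝ)) ^ (1 - p.κ))) := by
        rw [← Real.exp_add]; congr 1; ring
    _ ≤ Real.exp (-((1 + ε / (2 * (cth p 0 + ε))) * (cth p 0 * (m : ℝ) ^ (1 - p.κ)))) *
        (zz p * Real.exp (-p.β)) := by
        have h12 : (1 + ε / (2 * (cth p 0 + ε))) * (cth p 0 * (m : ℝ) ^ (1 - p.κ)) ≤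
            (cth p 0 + ε / 2) * (((m + 1 : ℕ) : ℝ)) ^ (1 - p.κ) := by
          calc (1 + ε / (2 * (cth p 0 + ε))) * (cth p 0 * (m : ℝ) ^ (1 - p.κ))
              = ((1 + ε / (2 * (cth p 0 + ε))) * cth p 0) * (m : ℝ) ^ (1 - p.κ) := by ring
            _ ≤ _ := by gcongr
        gcongr

/-! ### Two-sided bounds -/

lemma lower_all (p : Par) {θ ε : ℝ} (hθ0 : 0 ≤ θ) (hθ : θ ≤ speed p) (hε : 0 < ε) :
    ∀ᶠ n : ℕ in atTop, (⌈θ * n⌉ - (n : ℤ)) % 2 = 0 →
      ENNReal.ofReal (Real.exp (-((cth p θ + ε) * (n : ℝ) ^ (1 - p.κ)))) ≤ Zm p n ⌈θ * n⌉ := by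
  rcases hθ0.eq_or_lt with rfl | h0
  · filter_upwards [lower_zero p hε] with n hn hpar
    simp only [zero_mul, Int.ceil_zero] at hpar ⊢
    exact hn (by omega)
  rcases hθ.eq_or_lt with rfl | h1
  · have h1κ : 1 - p.κ ≠ 0 := by linarith [p.hκ1]
    have hc : cth p (speed p) = 0 := by
      unfold cth
      rw [sub_self, Real.zero_rpow h1κ]; simp
    have hs := speed_pos p
    filter_upwards [endpoint p hε, eventually_ge_atTop 1] with n hn hn1 hpar
    have hn1' : (1 : ℝ) ≤ n := by exact_mod_cast hn1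
    have hpos : 0 < ⌈speed p * n⌉ := Int.ceil_pos.2 (by positivity)
    obtain ⟨x, hx⟩ : ∃ x : ℕ, ⌈speed p * (n : ℝ)⌉ = x := ⟨⌈speed p * n⌉.toNat, by omega⟩
    have hx1 : (x : ℝ) < speed p * n + 1 := by
      have := Int.ceil_lt_add_one (speed p * (n : ℝ))
      rw [hx] at this
      push_cast at this
      linarith
    have hx2 : speed p * n ≤ x := by
      have := Int.le_ceil (speed p * (n : ℝ))
      rw [hx] at this
      push_cast at this
      exact this
    have h5 := hn x (by omega) (by linarith) hx1.le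
    rw [hx, hc, zero_add]
    exact h5.trans (Hm_le_Zm p n x)
  · exact lower_pos p h0 h1 hε

lemma upper_all (p : Par) {θ ε : ℝ} (hθ0 : 0 ≤ θ) (hθ : θ ≤ speed p) (hε : 0 < ε) :
    ∀ᶠ n : ℕ in atTop, prob p.β p.κ n {w | w (Fin.last n) = ⌈θ * n⌉} ≤
      Real.exp (-((cth p θ - ε) * (n : ℝ) ^ (1 - p.κ))) := by
  rcases hθ.eq_or_lt with rfl | h1
  · have h1κ : 1 - p.κ ≠ 0 := by linarith [p.hκ1]
    have hc : cth p (speed p) = 0 := by
      unfold cth
      rw [sub_self, Real.zero_rpow h1κ]; simp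
    refine Eventually.of_forall fun n => ?_
    have h2 : prob p.β p.κ n {w | w (Fin.last n) = ⌈speed p * n⌉} ≤ 1 := by
      rw [prob_eq_mass p n (fun x => x = ⌈speed p * n⌉)]
      apply div_le_one_of_le₀ _ ENNReal.toReal_nonneg
      apply ENNReal.toReal_mono (ne_top_of_le_ne_top (Czz_ne_top p) (mass_length_le_Czz p n))
      exact mass_mono p (fun _ h => h.1)
    refine h2.trans ?_
    rw [hc, Real.one_le_exp_iff]
    have : 0 ≤ ε * (n : ℝ) ^ (1 - p.κ) := by positivity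
    linarith
  · filter_upwards [upper_sharp p hθ0 h1 hε] with n hn
    have hx1 : (⌈θ * n⌉ : ℝ) < θ * n + 1 := Int.ceil_lt_add_one (θ * (n : ℝ))
    have hx2 : (0 : ℝ) ≤ ⌈θ * n⌉ := by
      have : 0 ≤ ⌈θ * (n : ℝ)⌉ := Int.ceil_nonneg (by positivity)
      exact_mod_cast this
    have h2 := hn ⌈θ * n⌉ (by rw [abs_of_nonneg hx2]; exact hx1.le)
    refine (prob_le p n (fun x => x = ⌈θ * n⌉)).trans ?_
    have h3 := ENNReal.toReal_mono ENNReal.ofReal_ne_top h2
    rwa [ENNReal.toReal_ofReal (Real.exp_pos _).le] at h3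

lemma prob_lower (p : Par) {θ ε : ℝ} (hθ0 : 0 ≤ θ) (hθ : θ ≤ speed p) (hε : 0 < ε) :
    ∀ᶠ n : ℕ in atTop, (⌈θ * n⌉ - (n : ℤ)) % 2 = 0 →
      Real.exp (-((cth p θ + ε) * (n : ℝ) ^ (1 - p.κ))) ≤
        prob p.β p.κ n {w | w (Fin.last n) = ⌈θ * n⌉} := by
  have h1κ : 0 < 1 - p.κ := by linarith [p.hκ1]
  have hC1 : 1 ≤ (Czz p).toReal := by
    rw [← ENNReal.toReal_one]
    exact ENNReal.toReal_mono (Czz_ne_top p) ((one_le_Z p 0).trans (mass_length_le_Czz p 0))
  have h4 := poly_le_exp 0 (B := ε / 2) (a := 1 - p.κ) (c := 1 / (Czz p).toReal)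
    (by positivity) h1κ (by positivity)
  filter_upwards [lower_all p hθ0 hθ (half_pos hε), h4] with n hn f1 hpar
  have h2 := ENNReal.toReal_mono (mass_ne_top p n (fun l => ed l = ⌈θ * n⌉)) (hn hpar)
  rw [ENNReal.toReal_ofReal (Real.exp_pos _).le] at h2
  refine le_trans ?_ (le_prob p n (fun x => x = ⌈θ * n⌉))
  rw [le_div_iff₀ (by linarith)]
  refine le_trans ?_ h2
  rw [pow_zero] at f1
  have h5 : (Czz p).toReal ≤ Real.exp (ε / 2 * (n : ℝ) ^ (1 - p.κ)) := by
    have : 1 / (Czz p).toReal * Real.exp (ε / 2 * (n : ℝ) ^ (1 - p.κ)) * (Czz p).toReal =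
      Real.exp (ε / 2 * (n : ℝ) ^ (1 - p.κ)) := by field_simp
    rw [← this]
    calc (Czz p).toReal = 1 * (Czz p).toReal := (one_mul _).symm
      _ ≤ _ := by gcongr
  calc Real.exp (-((cth p θ + ε) * (n : ℝ) ^ (1 - p.κ))) * (Czz p).toReal
      ≤ Real.exp (-((cth p θ + ε) * (n : ℝ) ^ (1 - p.κ))) *
        Real.exp (ε / 2 * (n : ℝ) ^ (1 - p.κ)) := by gcongr
    _ = _ := by rw [← Real.exp_add]; congr 1; ring

/-- **the sharp rate** -/
theorem sharp_rate (p : Par) {θ : ℝ} (hθ0 : 0 ≤ θ) (hθ : θ ≤ speed p) :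
    Tendsto (fun n : ℕ => Real.log (prob p.β p.κ n {w | w (Fin.last n) = ⌈θ * n⌉}) /
        (n : ℝ) ^ (1 - p.κ))
      (atTop ⊓ 𝓟 {n : ℕ | (⌈θ * n⌉ - (n : ℤ)) % 2 = 0}) (𝓝 (-cth p θ)) := by
  rw [Metric.tendsto_nhds]
  intro ε hε
  rw [eventually_inf_principal]
  filter_upwards [prob_lower p hθ0 hθ (half_pos hε), upper_all p hθ0 hθ (half_pos hε),
    eventually_ge_atTop 1] with n h1 h2 hn1 hpar
  have h3 := h1 hpar
  have hn1' : (1 : ℝ) ≤ n := by exact_mod_cast hn1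
  have hpow : 0 < (n : ℝ) ^ (1 - p.κ) := Real.rpow_pos_of_pos (by linarith) _
  have hpos := lt_of_lt_of_le (Real.exp_pos _) h3
  have h4 := (Real.le_log_iff_exp_le hpos).2 h3
  have h5 := (Real.log_le_iff_le_exp hpos).2 h2
  rw [Real.dist_eq, abs_lt]
  constructor
  · have : -(cth p θ + ε / 2) ≤ Real.log (prob p.β p.κ n {w | w (Fin.last n) = ⌈θ * n⌉}) /
        (n : ℝ) ^ (1 - p.κ) := by
      rw [le_div_iff₀ hpow]; linarith
    linarith
  · have : Real.log (prob p.β p.κ n {w | w (Fin.last n) = ⌈θ * n⌉}) /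
        (n : ℝ) ^ (1 - p.κ) ≤ -(cth p θ - ε / 2) := by
      rw [div_le_iff₀ hpow]; linarith
    linarith

end Pool.Agent.Helper98.Elastic
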