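import Pool.Agent.Helper98.Elastic.Lower2

/-!
# Lower bound for slow half-space walks
-/

open Finset Filter Topology
open scoped ENNReal

namespace Pool.Agent.Helper98.Elastic

lemma mass_or_le (p : Par) {P Q R : List Bool → Prop} (h : ∀ l, P l → Q l ∨ R l) :
    mass p P ≤ mass p Q + mass p R := by
  classical
  rw [mass_eq_ic, mass_eq_ic, mass_eq_ic, ← ENNReal.tsum_add]
  apply ENNReal.tsum_le_tsum
  intro l
  by_cases hP : P l
  · rw [ic_pos hP]
    rcases h l hP with hQ | hR
    · rw [ic_pos hQ]; exact le_self_add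
    · rw [ic_pos hR]; exact le_add_self
  · rw [ic_neg hP]; exact zero_le

lemma W_le_mass (p : Par) {P : List Bool → Prop} {l : List Bool} (h : P l) : W p l ≤ mass p P := by
  rw [mass_eq_ic]
  calc W p l = ic (P l) (W p l) := (ic_pos h _).symm
    _ ≤ _ := ENNReal.le_tsum l

lemma ub_close (p : Par) (ε : ℝ) (hε : 0 < ε) : ∃ c K : ℝ, 0 < c ∧ 0 < K ∧ ∀ x : ℕ,
    ENNReal.ofReal c ≤ mass p (fun l => Bri l ∧ ed l = x ∧
      |(l.length : ℝ) - 1 / speed p * x| ≤ ε * x + K) := by
  obtain ⟨c0, hc0, h0⟩ := exists_ub_lower p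
  have h1 : ∀ᶠ n : ℕ in atTop, mass p (fun l => Bri l ∧ ed l = n ∧
      ε * n < |(l.length : ℝ) - 1 / speed p * n|) < ENNReal.ofReal (c0 / 2) :=
    (lln_bridge_span p ε hε).eventually (gt_mem_nhds (ENNReal.ofReal_pos.2 (by positivity)))
  obtain ⟨X0, hX0⟩ := eventually_atTop.1 h1
  have hs := speed_pos p
  have hs1 := speed_lt_one p
  refine ⟨min (c0 / 2) (zz p ^ X0), X0 / speed p + 1, lt_min (by positivity)
    (pow_pos (zz_pos p) _), by positivity, fun x => ?_⟩
  rcases lt_or_ge x X0 with hx | hx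
  · calc ENNReal.ofReal (min (c0 / 2) (zz p ^ X0)) ≤ ENNReal.ofReal (zz p ^ X0) :=
          ENNReal.ofReal_le_ofReal (min_le_right _ _)
      _ = ze p ^ X0 := by rw [ENNReal.ofReal_pow (zz_pos p).le]; rfl
      _ ≤ ze p ^ x := pow_le_pow_right_of_le_one' (ze_le_one p) hx.le
      _ = W p (str x) := (W_str p x).symm
      _ ≤ _ := by
          apply W_le_mass
          refine ⟨bri_str x, ed_str x, ?_⟩
          rw [length_str]
          have h2 : (x : ℝ) ≤ X0 := by exact_mod_cast hx.le
          have h3 : (0 : ℝ) ≤ x := Nat.cast_nonneg x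
          have h4 : (x : ℝ) ≤ 1 / speed p * x := by
            have : 1 ≤ 1 / speed p := by rw [le_div_iff₀ hs]; linarith
            nlinarith
          rw [abs_sub_comm, abs_of_nonneg (by linarith)]
          have h5 : 1 / speed p * (x : ℝ) ≤ X0 / speed p := by
            rw [div_mul_eq_mul_div, one_mul]; gcongr
          have h6 : 0 ≤ ε * x := by positivity
          linarith
  · have h2 := hX0 x hx
    have h3 : ub p x ≤ mass p (fun l => Bri l ∧ ed l = x ∧
      |(l.length : ℝ) - 1 / speed p * x| ≤ ε * x + (X0 / speed p + 1)) +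
      mass p (fun l => Bri l ∧ ed l = x ∧
      ε * x < |(l.length : ℝ) - 1 / speed p * x|) := by
      apply mass_or_le
      rintro l ⟨h4, h5⟩
      by_cases h6 : |(l.length : ℝ) - 1 / speed p * x| ≤ ε * x
      · left
        refine ⟨h4, h5, h6.trans ?_⟩
        have : (0 : ℝ) ≤ X0 / speed p := by positivity
        linarith
      · right; exact ⟨h4, h5, not_le.1 h6⟩
    have h4 : ENNReal.ofReal (c0 / 2) + ENNReal.ofReal (c0 / 2) ≤ mass p (fun l => Bri l ∧
      ed l = x ∧ |(l.length : ℝ) - 1 / speed p * x| ≤ ε * x + (X0 / speed p + 1)) +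
      ENNReal.ofReal (c0 / 2) := by
      rw [← ENNReal.ofReal_add (by positivity) (by positivity), add_halves]
      exact (h0 x).trans (h3.trans (by gcongr))
    exact (ENNReal.ofReal_le_ofReal (min_le_left _ _)).trans
      ((ENNReal.add_le_add_iff_right ENNReal.ofReal_ne_top).1 h4)

/-! ### composition -/

/-- the composed walk -/
def cmp (B : List Bool) (V B' : List Bool) : List Bool := B ++ (true :: (V.reverse ++ neg B'))

lemma nn_cap {V B' : List Bool} (hV : Bri V) (hB' : Bri B') (hed : ed V = ed B') :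
    NN (V.reverse ++ neg B') := by
  intro i hi
  rw [List.length_append, List.length_reverse, length_neg] at hi
  by_cases h : i ≤ V.length
  · rw [pos_append_left _ _ (by rw [List.length_reverse]; exact h), pos_reverse _ h]
    have := hV.2 (V.length - i) (by omega)
    linarith
  · obtain ⟨j, rfl⟩ : ∃ j, i = V.reverse.length + j := ⟨i - V.length, by
      rw [List.length_reverse]; omega⟩
    rw [pos_append_right, pos_neg, ed_reverse]
    rw [List.length_reverse] at hi
    have := hB'.2 j (by omega)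
    linarith

lemma cmp_half {B V B' : List Bool} (hB : Bri B) (hV : Bri V) (hB' : Bri B')
    (hed : ed V = ed B') : Half (cmp B V B') :=
  Half.append hB (half_cons_true (nn_cap hV hB' hed))

lemma cmp_length (B V B' : List Bool) :
    (cmp B V B').length = B.length + 1 + (V.length + B'.length) := by
  unfold cmp
  simp only [List.length_append, List.length_cons, List.length_reverse, length_neg]
  ring

lemma cmp_ed {B V B' : List Bool} (hed : ed V = ed B') : ed (cmp B V B') = ed B + 1 := by
  unfold cmp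
  rw [ed_append, ed_cons, ed_append, ed_reverse, ed_neg, hed]
  simp [st]

lemma cmp_W (p : Par) {B V B' : List Bool} (hB : Bri B) (hV : Bri V) (hB' : Bri B')
    (hed : ed V = ed B') : W p (cmp B V B') = W p B * ze p * (W p V * W p B' *
      ENNReal.ofReal (Real.exp (-(p.β * xc p.κ V B')))) := by
  unfold cmp
  rw [W_bri_append p hB.2 (half_cons_true (nn_cap hV hB' hed)), W_cons_true p (nn_cap hV hB' hed),
    W_append_eq, W_reverse, W_neg, List.reverse_reverse, neg_neg']
  ring

/-- weight of a composed walk -/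
noncomputable def cw (p : Par) (B : List Bool) (L : List JB) : ℝ≥0∞ :=
  W p B * ze p * (wl (wJ p) L *
    ENNReal.ofReal (Real.exp (-(p.β * xc p.κ (jfac.pr L).1 (jfac.pr L).2))))

lemma compose_le (p : Par) (n x : ℕ) :
    (∑' y : List Bool × List JB, ic (Bri y.1 ∧ ed y.1 = x ∧ y.1.length + 1 + 2 * sl hl y.2 = n)
      (cw p y.1 y.2)) ≤
    (((n + 1) * (n + 1) : ℕ) : ℝ≥0∞) *
      mass p (fun l => Half l ∧ l.length = n ∧ ed l = x + 1) := by
  classical
  have h1 : ∀ y : List Bool × List JB,
      ic (Bri y.1 ∧ ed y.1 = x ∧ y.1.length + 1 + 2 * sl hl y.2 = n) (cw p y.1 y.2) =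
      ∑ z ∈ range (n + 1) ×ˢ range (n + 1),
        ic ((Bri y.1 ∧ ed y.1 = x ∧ y.1.length + 1 + 2 * sl hl y.2 = n) ∧
          (jfac.pr y.2).1.length = z.1 ∧ (jfac.pr y.2).2.length = z.2) (cw p y.1 y.2) := by
    intro y
    by_cases h : Bri y.1 ∧ ed y.1 = x ∧ y.1.length + 1 + 2 * sl hl y.2 = n
    · rw [ic_pos h, Finset.sum_eq_single ((jfac.pr y.2).1.length, (jfac.pr y.2).2.length)]
      · rw [ic_pos ⟨h, rfl, rfl⟩]
      · intro z _ hz
        apply ic_neg
        rintro ⟨_, h2, h3⟩
        apply hz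
        rw [h2, h3]
      · intro hz
        exfalso
        apply hz
        have h2 := jpr_hl y.2
        have h3 := h.2.2
        rw [Finset.mem_product, Finset.mem_range, Finset.mem_range]
        constructor <;> simp only <;> omega
    · rw [ic_neg h, Finset.sum_eq_zero]
      intro z _
      exact ic_neg (fun h' => h h'.1) _
  simp_rw [h1]
  rw [ennreal_tsum_finset_sum]
  calc ∑ z ∈ range (n + 1) ×ˢ range (n + 1), ∑' y : List Bool × List JB,
        ic ((Bri y.1 ∧ ed y.1 = x ∧ y.1.length + 1 + 2 * sl hl y.2 = n) ∧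
          (jfac.pr y.2).1.length = z.1 ∧ (jfac.pr y.2).2.length = z.2) (cw p y.1 y.2)
      ≤ ∑ z ∈ range (n + 1) ×ˢ range (n + 1),
        mass p (fun l => Half l ∧ l.length = n ∧ ed l = x + 1) := by
        apply Finset.sum_le_sum
        intro z _
        rw [mass_eq_ic]
        apply tsum_le_of_inj _ _ (fun y : List Bool × List JB =>
          cmp y.1 (jfac.pr y.2).1 (jfac.pr y.2).2)
        · intro y y' hy hy' heq
          have a1 : (Bri y.1 ∧ ed y.1 = x ∧ y.1.length + 1 + 2 * sl hl y.2 = n) ∧
            (jfac.pr y.2).1.length = z.1 ∧ (jfac.pr y.2).2.length = z.2 := by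
            by_contra h; exact hy (ic_neg h _)
          have a2 : (Bri y'.1 ∧ ed y'.1 = x ∧ y'.1.length + 1 + 2 * sl hl y'.2 = n) ∧
            (jfac.pr y'.2).1.length = z.1 ∧ (jfac.pr y'.2).2.length = z.2 := by
            by_contra h; exact hy' (ic_neg h _)
          have b1 := jpr_hl y.2
          have b2 := jpr_hl y'.2
          have b3 : y.1.length = y'.1.length := by
            have c1 := a1.1.2.2; have c2 := a2.1.2.2
            have c3 := a1.2.1; have c4 := a1.2.2; have c5 := a2.2.1; have c6 := a2.2.2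
            omega
          unfold cmp at heq
          obtain ⟨d1, d2⟩ := List.append_inj heq b3
          rw [List.cons.injEq] at d2
          obtain ⟨d3, d4⟩ := List.append_inj d2.2 (by
            rw [List.length_reverse, List.length_reverse, a1.2.1, a2.2.1])
          have d5 : (jfac.pr y.2).1 = (jfac.pr y'.2).1 := List.reverse_injective d3
          have d6 : (jfac.pr y.2).2 = (jfac.pr y'.2).2 := by
            have := congrArg neg d4
            rwa [neg_neg', neg_neg'] at this
          have d7 : y.2 = y'.2 := jfac.pr_inj _ _ (Prod.ext d5 d6)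
          exact Prod.ext d1 d7
        · intro y hy
          have a1 : (Bri y.1 ∧ ed y.1 = x ∧ y.1.length + 1 + 2 * sl hl y.2 = n) ∧
            (jfac.pr y.2).1.length = z.1 ∧ (jfac.pr y.2).2.length = z.2 := by
            by_contra h; exact hy (ic_neg h _)
          have hB := jpr_B y.2
          rw [ic_pos a1, ic_pos, cmp_W p a1.1.1 hB.1 hB.2.1 hB.2.2, jpr_W]
          · rfl
          · refine ⟨cmp_half a1.1.1 hB.1 hB.2.1 hB.2.2, ?_, ?_⟩
            · rw [cmp_length, jpr_hl]; exact a1.1.2.2
            · rw [cmp_ed hB.2.2, a1.1.2.1]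
    _ = _ := by
        rw [Finset.sum_const, Finset.card_product, Finset.card_range, nsmul_eq_mul]

lemma lower_raw (p : Par) (ε ε' : ℝ) (hε : 0 < ε) (hε' : 0 < ε') :
    ∃ c K : ℝ, 0 < c ∧ 0 < K ∧ ∀ n x : ℕ, (n + x) % 2 = 1 →
      1 / speed p * x + ε' * x + K + 1 ≤ n →
      ENNReal.ofReal (c * Real.exp (-(p.β * ((1 + ε) / speed p) *
        SS p.κ ((n - 1 / speed p * x + ε' * x + K) / 2)))) ≤
      (((n + 1) * (n + 1) : ℕ) : ℝ≥0∞) *
        mass p (fun l => Half l ∧ l.length = n ∧ ed l = x + 1) := by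
  obtain ⟨c1, hc1, h1⟩ := FX_lower p ε hε
  obtain ⟨c2, K, hc2, hK, h2⟩ := ub_close p ε' hε'
  have hs := speed_pos p
  have hz := zz_pos p
  refine ⟨c2 * zz p * c1, K, by positivity, hK, fun n x hpar hx => ?_⟩
  refine le_trans ?_ (compose_le p n x)
  rw [ENNReal.tsum_prod (f := fun B L => ic (Bri B ∧ ed B = x ∧ B.length + 1 + 2 * sl hl L = n)
    (cw p B L))]
  have h3 : ∀ B : List Bool, ic (Bri B ∧ ed B = x ∧ |(B.length : ℝ) - 1 / speed p * x| ≤ ε' * x + K)
      (W p B) * (ze p * ENNReal.ofReal (c1 * Real.exp (-(p.β * ((1 + ε) / speed p) *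
        SS p.κ ((n - 1 / speed p * x + ε' * x + K) / 2))))) ≤
      ∑' L : List JB, ic (Bri B ∧ ed B = x ∧ B.length + 1 + 2 * sl hl L = n) (cw p B L) := by
    intro B
    by_cases hB : Bri B ∧ ed B = x ∧ |(B.length : ℝ) - 1 / speed p * x| ≤ ε' * x + K
    · rw [ic_pos hB]
      have h4 := abs_le.1 hB.2.2
      have h5 : (B.length : ℝ) + 1 ≤ n := by linarith [h4.2]
      have h6 : B.length + 1 ≤ n := by exact_mod_cast h5
      have h7 := pos_parity B B.length le_rfl
      rw [pos_length, hB.2.1] at h7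
      obtain ⟨m, hm⟩ : ∃ m, B.length + 1 + 2 * m = n := ⟨(n - 1 - B.length) / 2, by omega⟩
      have h8 : ENNReal.ofReal (c1 * Real.exp (-(p.β * ((1 + ε) / speed p) *
        SS p.κ ((n - 1 / speed p * x + ε' * x + K) / 2)))) ≤ FX p m := by
        refine le_trans ?_ (h1 m)
        apply ENNReal.ofReal_le_ofReal
        have hβ := p.hβ
        have h9 : SS p.κ m ≤ SS p.κ ((n - 1 / speed p * x + ε' * x + K) / 2) := by
          apply SS_mono p.hκ1 (Nat.cast_nonneg m)
          have h10 : (B.length : ℝ) + 1 + 2 * m = n := by exact_mod_cast hm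
          have h11 := h4.1
          linarith
        gcongr
      calc W p B * (ze p * ENNReal.ofReal (c1 * Real.exp (-(p.β * ((1 + ε) / speed p) *
            SS p.κ ((n - 1 / speed p * x + ε' * x + K) / 2)))))
          ≤ W p B * (ze p * FX p m) := by gcongr
        _ = ∑' L : List JB, ic (Bri B ∧ ed B = x ∧ B.length + 1 + 2 * sl hl L = n) (cw p B L) := by
            unfold FX
            rw [← mul_assoc, ← ENNReal.tsum_mul_left]
            refine tsum_congr fun L => ?_
            rw [ic_ite, ← ic_mul]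
            have h12 : (sl hl L = m) ↔
                (Bri B ∧ ed B = x ∧ B.length + 1 + 2 * sl hl L = n) := by
              constructor
              · intro h; exact ⟨hB.1, hB.2.1, by rw [h]; exact hm⟩
              · rintro ⟨-, -, h⟩; omega
            rw [ic_congr h12]
            rfl
    · rw [ic_neg hB, zero_mul]; exact zero_le
  refine le_trans ?_ (ENNReal.tsum_le_tsum h3)
  rw [ENNReal.tsum_mul_right]
  have h4 := h2 x
  rw [mass_eq_ic] at h4
  calc ENNReal.ofReal (c2 * zz p * c1 * Real.exp (-(p.β * ((1 + ε) / speed p) *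
        SS p.κ ((n - 1 / speed p * x + ε' * x + K) / 2))))
      = ENNReal.ofReal c2 * (ze p * ENNReal.ofReal (c1 * Real.exp (-(p.β * ((1 + ε) / speed p) *
        SS p.κ ((n - 1 / speed p * x + ε' * x + K) / 2))))) := by
        unfold ze
        rw [← ENNReal.ofReal_mul hz.le, ← ENNReal.ofReal_mul hc2.le]
        congr 1; ring
    _ ≤ _ := by gcongr

end Pool.Agent.Helper98.Elastic
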