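import Pool.Agent.Helper98.Elastic.Upper1

/-!
# The interaction of two pieces crossing the same strip
-/

open Finset Filter Topology
open scoped ENNReal

namespace Pool.Agent.Helper98.Elastic

lemma rec_decomp (p : Par) {l : List Bool} {a : ℤ} (ha : 0 < a) (hrec : Rec l) (hed : ed l = a) :
    ∃ v r : List Bool, l = neg v.reverse ++ r ∧ NN v ∧ Bri r ∧ Rec r ∧ ed r = a + ed v ∧
      W p l ≤ W p v * Eb p v.length * W p r := by
  obtain ⟨v, r, h1, h2, h3⟩ := decomp_all l
  have hlen : l.length = v.length + r.length := by rw [h1]; simp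
  have hedv : 0 ≤ ed v := by have := h2 v.length le_rfl; rwa [pos_length] at this
  have hedr : ed r = a + ed v := by
    have : ed l = ed r - ed v := by rw [h1, ed_append, ed_neg, ed_reverse]; ring
    omega
  have hr0 : 0 < r.length := by
    rcases Nat.eq_zero_or_pos r.length with h | h
    · have : r = [] := List.length_eq_zero_iff.1 h
      rw [this] at hedr
      simp at hedr
      omega
    · exact h
  have hrecr : Rec r := by
    intro i hi
    have h4 := hrec (v.length + i) (by omega)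
    rw [h1] at h4
    have h5 := pos_append_right (neg v.reverse) r i
    rw [length_neg, List.length_reverse] at h5
    rw [h5, ed_append] at h4
    linarith
  have hbri : Bri r := by
    refine ⟨h3, fun i hi => ?_⟩
    rcases Nat.lt_or_ge i r.length with h | h
    · exact (hrecr i h).le
    · rw [pos_ge r h]
  have hlow : Low v r := by
    intro i hi
    refine ⟨r.length, le_rfl, ?_⟩
    rw [pos_length]
    have h4 := hrec (v.length - i) (by omega)
    have h5 : pos l (v.length - i) = pos (neg v.reverse) (v.length - i) := by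
      rw [h1]; exact pos_append_left _ _ (by simp)
    rw [pos_neg, pos_reverse _ (by omega)] at h5
    rw [show v.length - (v.length - i) = i by omega] at h5
    omega
  exact ⟨v, r, h1, h2, hbri, hrecr, hedr, by rw [h1]; exact W_valley_le p h2 h3.nn hlow⟩

/-- up pieces at scale `h` -/
def ExU (h : ℕ) (l : List Bool) : Prop := ed l = h ∧ ∀ i < l.length, |pos l i| < h

lemma ExU.rec {h : ℕ} {l : List Bool} (hl : ExU h l) : Rec l := by
  intro i hi
  have := (abs_lt.1 (hl.2 i hi)).2
  rw [hl.1]; exact this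

lemma bri_reverse {r : List Bool} (h1 : Bri r) (h2 : Rec r) : Bri r.reverse := by
  constructor
  · intro i hi1 hi2
    rw [List.length_reverse] at hi2
    rw [pos_reverse _ hi2]
    have := h2 (r.length - i) (by omega)
    linarith
  · intro i hi
    rw [List.length_reverse] at hi
    rw [pos_reverse _ hi, ed_reverse]
    have := h1.1.nn (r.length - i) (by omega)
    linarith

lemma ext_left (p : Par) {r : List Bool} (h1 : Bri r) (h2 : Rec r) (b : ℕ) :
    Bri (str b ++ r.reverse) ∧ ed (str b ++ r.reverse) = ed r + b ∧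
      W p (str b ++ r.reverse) = ze p ^ b * W p r := by
  have h3 := bri_reverse h1 h2
  refine ⟨Bri.append (bri_str b) h3, ?_, ?_⟩
  · rw [ed_append, ed_str, ed_reverse]; ring
  · rw [W_bri_append p (bri_str b).2 h3.1, W_str, W_reverse]

lemma ext_right (p : Par) {r : List Bool} (h1 : Bri r) (a : ℕ) :
    Bri (r ++ str a) ∧ ed (r ++ str a) = ed r + a ∧
      W p (r ++ str a) = W p r * ze p ^ a := by
  refine ⟨Bri.append h1 (bri_str a), ?_, ?_⟩
  · rw [ed_append, ed_str]
  · rw [W_bri_append p h1.2 (bri_str a).1, W_str]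

lemma nc_core {v v' r r' : List Bool} {a b h : ℕ} (hb : ed v' = b) (hr' : ed r' = h + b) :
    Nc (str b ++ r.reverse) (r' ++ str a) ≤
      Nc (neg v.reverse ++ r).reverse (neg v'.reverse ++ r') +
        ∑ k ∈ Icc (h + a + b + 1 - a) (h + a + b), lv (str b ++ r.reverse) k +
        ∑ k ∈ Icc 1 b, lv (r' ++ str a) k := by
  set X := str b ++ r.reverse with hX
  set Y := r' ++ str a with hY
  have hXl : X.length = b + r.length := by rw [hX]; simp
  have hYl : Y.length = r'.length + a := by rw [hY]; simp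
  have hX1 : ∀ i ≤ b, pos X i = i := by
    intro i hi
    rw [hX, pos_append_left _ _ (by rw [length_str]; exact hi), pos_str _ _ hi]
  have hX2 : ∀ i, pos X (b + i) = b + pos r.reverse i := by
    intro i
    have := pos_append_right (str b) r.reverse i
    rw [length_str, ed_str] at this
    exact this
  have hY1 : ∀ j ≤ r'.length, pos Y j = pos r' j := fun j hj => pos_append_left _ _ hj
  have hY2 : ∀ j ≤ a, pos Y (r'.length + j) = h + b + j := by
    intro j hj
    rw [hY, pos_append_right, hr', pos_str _ _ hj]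
  have e1 : Nc X Y = (∑ i ∈ Icc 1 b, ∑ j ∈ Icc 1 Y.length, if pos X i = pos Y j then 1 else 0) +
      ((∑ i ∈ Icc 1 r.length, ∑ j ∈ Icc 1 r'.length,
        if pos X (b + i) = pos Y j then 1 else 0) +
      ∑ i ∈ Icc 1 r.length, ∑ j ∈ Icc 1 a,
        if pos X (b + i) = pos Y (r'.length + j) then 1 else 0) := by
    unfold Nc
    rw [hXl, sum_Icc_add, ← Finset.sum_add_distrib, hYl]
    congr 1
    refine Finset.sum_congr rfl fun i _ => ?_
    rw [sum_Icc_add]
  have e2 : (∑ i ∈ Icc 1 b, ∑ j ∈ Icc 1 Y.length, if pos X i = pos Y j then 1 else 0) =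
      ∑ k ∈ Icc 1 b, lv Y k := by
    refine Finset.sum_congr rfl fun i hi => ?_
    rw [Finset.mem_Icc] at hi
    unfold lv
    refine Finset.sum_congr rfl fun j _ => ?_
    rw [hX1 i hi.2]
    by_cases h1 : (i : ℤ) = pos Y j
    · rw [if_pos h1, if_pos h1.symm]
    · rw [if_neg h1, if_neg (fun h2 => h1 h2.symm)]
  have e3 : (∑ i ∈ Icc 1 r.length, ∑ j ∈ Icc 1 a,
        if pos X (b + i) = pos Y (r'.length + j) then 1 else 0) ≤
      ∑ k ∈ Icc (h + a + b + 1 - a) (h + a + b), lv X k := by
    rw [Finset.sum_comm]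
    have e4 : ∑ k ∈ Icc (h + a + b + 1 - a) (h + a + b), lv X (k : ℤ) =
        ∑ j ∈ Icc 1 a, lv X ((h + b + j : ℕ) : ℤ) := by
      symm
      refine Finset.sum_nbij' (fun j => h + b + j) (fun k => k - (h + b)) ?_ ?_ ?_ ?_ ?_
      · intro j hj; simp only [Finset.mem_Icc] at *; omega
      · intro j hj; simp only [Finset.mem_Icc] at *; omega
      · intro j hj; simp only [Finset.mem_Icc] at *; omega
      · intro j hj; simp only [Finset.mem_Icc] at *; omega
      · intro j hj; rfl
    rw [e4]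
    refine Finset.sum_le_sum fun j hj => ?_
    rw [Finset.mem_Icc] at hj
    unfold lv
    rw [hXl, sum_Icc_add]
    refine le_trans (le_of_eq ?_) le_add_self
    refine Finset.sum_congr rfl fun i _ => ?_
    rw [hY2 j hj.2]
    push_cast
    rfl
  have e5 : (∑ i ∈ Icc 1 r.length, ∑ j ∈ Icc 1 r'.length,
        if pos X (b + i) = pos Y j then 1 else 0) ≤
      Nc (neg v.reverse ++ r).reverse (neg v'.reverse ++ r') := by
    unfold Nc
    have l1 : (neg v.reverse ++ r).reverse.length = r.length + v.length := by simp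
    have l2 : (neg v'.reverse ++ r').length = v'.length + r'.length := by simp
    rw [l1, l2, sum_Icc_add]
    refine le_trans ?_ le_self_add
    refine Finset.sum_le_sum fun i hi => ?_
    rw [Finset.mem_Icc] at hi
    rw [sum_Icc_add]
    refine le_trans (le_of_eq ?_) le_add_self
    refine Finset.sum_congr rfl fun j hj => ?_
    rw [Finset.mem_Icc] at hj
    have q1 : pos (neg v.reverse ++ r).reverse i = pos r.reverse i := by
      rw [List.reverse_append, pos_append_left _ _ (by rw [List.length_reverse]; exact hi.2)]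
    have q2 : pos (neg v'.reverse ++ r') (v'.length + j) = pos r' j - b := by
      have := pos_append_right (neg v'.reverse) r' j
      rw [length_neg, List.length_reverse] at this
      rw [this, ed_neg, ed_reverse, hb]; ring
    rw [q1, q2, hX2, hY1 j hj.2]
    by_cases h1 : (b : ℤ) + pos r.reverse i = pos r' j
    · rw [if_pos h1, if_pos (by linarith)]
    · rw [if_neg h1, if_neg (fun h2 => h1 (by linarith))]
  rw [e1, e2]
  omega

/-- mass of the pairs of records with few coincidences -/
noncomputable def bad2 (p : Par) (c : ℝ) (h : ℕ) (v v' : List Bool) : ℝ≥0∞ :=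
  ∑' r, ∑' r', ic (Bri r ∧ Rec r ∧ ed r = h + ed v) (W p r) *
    ic (Bri r' ∧ Rec r' ∧ ed r' = h + ed v') (W p r') *
    ic ((Nc (neg v.reverse ++ r).reverse (neg v'.reverse ++ r') : ℝ) < c * h) 1

lemma bri_rec_mass_le (p : Par) (h : ℕ) (v : List Bool) (hv : NN v) :
    ∑' r, ic (Bri r ∧ Rec r ∧ ed r = h + ed v) (W p r) ≤ 1 := by
  have hedv : 0 ≤ ed v := by have := hv v.length le_rfl; rwa [pos_length] at this
  calc ∑' r, ic (Bri r ∧ Rec r ∧ ed r = h + ed v) (W p r)
      ≤ ∑' r, ic (Bri r ∧ ed r = ((h + ed v).toNat : ℤ)) (W p r) := by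
        apply ENNReal.tsum_le_tsum
        intro r
        apply ic_mono _ le_rfl
        rintro ⟨h1, _, h2⟩
        exact ⟨h1, by rw [h2, Int.toNat_of_nonneg (by omega)]⟩
    _ = ub p (h + ed v).toNat := rfl
    _ ≤ 1 := ub_le_one p _

lemma bad2_le_one (p : Par) (c : ℝ) (h : ℕ) (v v' : List Bool) (hv : NN v) (hv' : NN v') :
    bad2 p c h v v' ≤ 1 := by
  calc bad2 p c h v v' ≤ ∑' r, ∑' r', ic (Bri r ∧ Rec r ∧ ed r = h + ed v) (W p r) *
        ic (Bri r' ∧ Rec r' ∧ ed r' = h + ed v') (W p r') := by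
        unfold bad2
        apply ENNReal.tsum_le_tsum
        intro r
        apply ENNReal.tsum_le_tsum
        intro r'
        calc _ ≤ ic (Bri r ∧ Rec r ∧ ed r = h + ed v) (W p r) *
              ic (Bri r' ∧ Rec r' ∧ ed r' = h + ed v') (W p r') * 1 := by
              gcongr
              exact ic_le _ _
          _ = _ := mul_one _
    _ = (∑' r, ic (Bri r ∧ Rec r ∧ ed r = h + ed v) (W p r)) *
        ∑' r', ic (Bri r' ∧ Rec r' ∧ ed r' = h + ed v') (W p r') := tsum_tsum_mul _ _
    _ ≤ 1 * 1 := by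
        gcongr
        · exact bri_rec_mass_le p h v hv
        · exact bri_rec_mass_le p h v' hv'
    _ = 1 := one_mul 1

lemma bad2_le (p : Par) (c : ℝ) (hc : 0 ≤ c) (h a b : ℕ) (v v' : List Bool) (ha : ed v = a)
    (hb : ed v' = b) :
    bad2 p c h v v' ≤ (ze p ^ (a + b))⁻¹ * pm p (h + a + b) (fun x y =>
      (Nc x y : ℝ) - ((∑ k ∈ Icc (h + a + b + 1 - a) (h + a + b), lv x k : ℕ) : ℝ) -
        ((∑ k ∈ Icc 1 b, lv y k : ℕ) : ℝ) < c * (h + a + b : ℕ)) := by
  have hz : ze p ^ (a + b) ≠ 0 := pow_ne_zero _ (ze_ne_zero p)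
  have hz' : ze p ^ (a + b) ≠ ∞ := ENNReal.pow_ne_top (ze_ne_top p)
  rw [← ENNReal.mul_le_mul_iff_right hz hz', ← mul_assoc, ENNReal.mul_inv_cancel hz hz', one_mul]
  unfold bad2 pm
  rw [← ENNReal.tsum_mul_left]
  simp_rw [← ENNReal.tsum_mul_left]
  rw [← ENNReal.tsum_prod (f := fun r r' : List Bool => ze p ^ (a + b) *
    (ic (Bri r ∧ Rec r ∧ ed r = h + ed v) (W p r) *
    ic (Bri r' ∧ Rec r' ∧ ed r' = h + ed v') (W p r') *
    ic ((Nc (neg v.reverse ++ r).reverse (neg v'.reverse ++ r') : ℝ) < c * h) 1))]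
  rw [← ENNReal.tsum_prod (f := fun x y : List Bool =>
    ic (Bri x ∧ ed x = ((h + a + b : ℕ) : ℤ)) (W p x) *
    ic (Bri y ∧ ed y = ((h + a + b : ℕ) : ℤ)) (W p y) *
    ic ((Nc x y : ℝ) - ((∑ k ∈ Icc (h + a + b + 1 - a) (h + a + b), lv x k : ℕ) : ℝ) -
        ((∑ k ∈ Icc 1 b, lv y k : ℕ) : ℝ) < c * (h + a + b : ℕ)) 1)]
  apply tsum_le_of_inj _ _ (fun x : List Bool × List Bool => (str b ++ x.1.reverse, x.2 ++ str a))
  · intro x y _ _ hxy
    simp only [Prod.mk.injEq] at hxy
    obtain ⟨h1, h2⟩ := hxy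
    have h3 := List.reverse_injective (List.append_cancel_left h1)
    have h4 := List.append_cancel_right h2
    exact Prod.ext h3 h4
  · rintro ⟨r, r'⟩ hne
    simp only at hne ⊢
    by_cases c1 : Bri r ∧ Rec r ∧ ed r = h + ed v
    · by_cases c2 : Bri r' ∧ Rec r' ∧ ed r' = h + ed v'
      · by_cases c3 : (Nc (neg v.reverse ++ r).reverse (neg v'.reverse ++ r') : ℝ) < c * h
        · obtain ⟨d1, d2, d3⟩ := ext_left p c1.1 c1.2.1 b
          obtain ⟨d4, d5, d6⟩ := ext_right p c2.1 a
          have hcore := nc_core (v := v) (r := r) (a := a) hb (by rw [c2.2.2, hb])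
          rw [ic_pos c1, ic_pos c2, ic_pos c3, ic_pos ⟨d1, by rw [d2, c1.2.2, ha]; push_cast; ring⟩,
            ic_pos ⟨d4, by rw [d5, c2.2.2, hb]; push_cast; ring⟩, ic_pos, d3, d6]
          · rw [pow_add]
            apply le_of_eq; ring
          · have hcore' : (Nc (str b ++ r.reverse) (r' ++ str a) : ℝ) ≤
              (Nc (neg v.reverse ++ r).reverse (neg v'.reverse ++ r') : ℝ) +
              ((∑ k ∈ Icc (h + a + b + 1 - a) (h + a + b), lv (str b ++ r.reverse) k : ℕ) : ℝ) +
              ((∑ k ∈ Icc 1 b, lv (r' ++ str a) k : ℕ) : ℝ) := by exact_mod_cast hcore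
            have h5 : c * (h : ℝ) ≤ c * ((h + a + b : ℕ) : ℝ) := by
              gcongr
              omega
            linarith
        · exfalso; apply hne; rw [ic_neg c3]; simp
      · exfalso; apply hne; rw [ic_neg c2]; simp
    · exfalso; apply hne; rw [ic_neg c1]; simp

lemma tendsto_bad2 (p : Par) (ε : ℝ) (hε : 0 < ε) (hε1 : ε ≤ 1) (v v' : List Bool) (hv : NN v)
    (hv' : NN v') :
    Tendsto (fun h : ℕ => bad2 p ((1 - ε) / speed p ^ 2) h v v') atTop (𝓝 0) := by
  have hedv : 0 ≤ ed v := by have := hv v.length le_rfl; rwa [pos_length] at this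
  have hedv' : 0 ≤ ed v' := by have := hv' v'.length le_rfl; rwa [pos_length] at this
  obtain ⟨a, ha⟩ := Int.eq_ofNat_of_zero_le hedv
  obtain ⟨b, hb⟩ := Int.eq_ofNat_of_zero_le hedv'
  have hs := speed_pos p
  have h1 := core_lln p ε hε a b
  have h2 : Tendsto (fun h : ℕ => h + a + b) atTop atTop :=
    tendsto_atTop_mono (fun h => by simp only [id]; omega) tendsto_id
  have h3 := h1.comp h2
  have hz : ze p ^ (a + b) ≠ 0 := pow_ne_zero _ (ze_ne_zero p)
  have h4 := ENNReal.Tendsto.const_mul h3 (a := (ze p ^ (a + b))⁻¹)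
    (Or.inr (ENNReal.inv_ne_top.2 hz))
  rw [mul_zero] at h4
  refine tendsto_of_tendsto_of_tendsto_of_le_of_le tendsto_const_nhds h4 (fun _ => zero_le)
    (fun h => ?_)
  exact bad2_le p _ (div_nonneg (by linarith) (by positivity)) h a b v v' ha hb

end Pool.Agent.Helper98.Elastic
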