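import Mathlib
import Pool.Agent.Helper98.Elastic.Lower3
import Pool.Agent.Helper98.Elastic.Upper2

/-!
# Exit times from an interval
-/

open Finset Filter Topology
open scoped ENNReal

namespace Pool.Agent.Helper98.Elastic

lemma mass_neg (p : Par) (P : List Bool → Prop) : mass p (fun l => P (neg l)) = mass p P := by
  rw [mass_eq_ic, mass_eq_ic]
  have hinv : Function.Involutive neg := neg_neg'
  rw [← Equiv.tsum_eq (Function.Involutive.toPerm neg hinv)]
  refine tsum_congr fun l => ?_
  simp only [Function.Involutive.coe_toPerm, neg_neg', W_neg]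

lemma rec_tendsto (p : Par) (Q : ℕ → List Bool → Prop)
    (hQ : ∀ v : List Bool, NN v → Tendsto (fun h : ℕ => mass p (fun r => Bri r ∧ Rec r ∧
      ed r = h + ed v ∧ Q h (neg v.reverse ++ r))) atTop (𝓝 0)) :
    Tendsto (fun h : ℕ => mass p (fun l => Rec l ∧ ed l = h ∧ Q h l)) atTop (𝓝 0) := by
  have h1 : Tendsto (fun h : ℕ => ∑' v : List Bool, ic (NN v) (W p v * Eb p v.length) *
      mass p (fun r => Bri r ∧ Rec r ∧ ed r = h + ed v ∧ Q h (neg v.reverse ++ r))) atTop
      (𝓝 0) := by
    apply ennreal_tannery_zero _ (fun v : List Bool => ic (NN v) (W p v * Eb p v.length))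
    · rw [← CV_eq]; exact CV_ne_top p
    · intro h v
      by_cases hv : NN v
      · calc _ ≤ ic (NN v) (W p v * Eb p v.length) * 1 := by
              gcongr
              refine le_trans (mass_mono p (Q := fun r => Bri r ∧ Rec r ∧ ed r = h + ed v)
                (fun r hr => ⟨hr.1, hr.2.1, hr.2.2.1⟩)) ?_
              exact bri_rec_mass_le p h v hv
          _ = _ := mul_one _
      · rw [ic_neg hv]; simp
    · intro v
      by_cases hv : NN v
      · have h3 := ENNReal.Tendsto.const_mul (hQ v hv) (a := ic (NN v) (W p v * Eb p v.length))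
          (Or.inr (by
            rw [ic_pos hv]
            exact ENNReal.mul_ne_top (W_ne_top p _) (ne_top_of_le_ne_top
                ENNReal.one_ne_top (Eb_le_one p _))))
        rwa [mul_zero] at h3
      · rw [ic_neg hv]; simp
  refine tendsto_of_tendsto_of_tendsto_of_le_of_le' tendsto_const_nhds h1
    (Eventually.of_forall fun _ => zero_le) ?_
  filter_upwards [eventually_gt_atTop 0] with h hh
  refine (cover_rec p h (by exact_mod_cast hh) (Q h)).trans ?_
  apply ENNReal.tsum_le_tsum
  intro v
  rw [mass_eq_ic, ← ENNReal.tsum_mul_left]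
  apply ENNReal.tsum_le_tsum
  intro r
  rw [ic_and]
  by_cases hv : NN v
  · rw [ic_pos hv, ic_pos hv, ic_mul]
  · rw [ic_neg hv]; exact zero_le

/-- typical duration of records -/
lemma rec_duration (p : Par) (ε : ℝ) (hε : 0 < ε) :
    Tendsto (fun h : ℕ => mass p (fun l => Rec l ∧ ed l = h ∧
      ε * h < |(l.length : ℝ) - 1 / speed p * h|)) atTop (𝓝 0) := by
  apply rec_tendsto p (fun h l => ε * h < |(l.length : ℝ) - 1 / speed p * h|)
  intro v hv
  have hs := speed_pos p
  have hedv : 0 ≤ ed v := by have := hv v.length le_rfl; rwa [pos_length] at this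
  obtain ⟨a, ha⟩ := Int.eq_ofNat_of_zero_le hedv
  have h1 := lln_bridge_span p (ε / 2) (by positivity)
  have h2 : Tendsto (fun h : ℕ => h + a) atTop atTop :=
    tendsto_atTop_mono (fun h => by simp only [id]; omega) tendsto_id
  have h3 := h1.comp h2
  refine tendsto_of_tendsto_of_tendsto_of_le_of_le' tendsto_const_nhds h3
    (Eventually.of_forall fun _ => zero_le) ?_
  have h4 : ∀ᶠ h : ℕ in atTop, (v.length : ℝ) + 1 / speed p * a + ε / 2 * a ≤ ε / 2 * h := by
    have : Tendsto (fun n : ℕ => ε / 2 * (n : ℝ)) atTop atTop :=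
      tendsto_natCast_atTop_atTop.const_mul_atTop (by positivity)
    exact this.eventually_ge_atTop _
  filter_upwards [h4] with h hh
  apply mass_mono
  rintro r ⟨e1, _, e3, e4⟩
  refine ⟨e1, by rw [e3, ha]; push_cast; ring, ?_⟩
  rw [List.length_append, length_neg, List.length_reverse] at e4
  push_cast at e4 ⊢
  rcases le_abs'.1 (le_of_lt e4) with h5 | h5
  · rw [lt_abs]
    have hne : ((v.length : ℝ) + r.length - 1 / speed p * h) ≤ -(ε * h) := h5
    rw [lt_abs] at e4
    rcases e4 with e4 | e4
    · exfalso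
      have : 0 ≤ ε * (h : ℝ) := by positivity
      linarith
    · right
      have : 0 ≤ (v.length : ℝ) := Nat.cast_nonneg _
      have : 0 ≤ 1 / speed p * (a : ℝ) := by positivity
      linarith
  · rw [lt_abs]
    rw [lt_abs] at e4
    rcases e4 with e4 | e4
    · left
      have : 0 ≤ (v.length : ℝ) := Nat.cast_nonneg _
      have : 0 ≤ 1 / speed p * (a : ℝ) := by positivity
      linarith
    · exfalso
      have : 0 ≤ ε * (h : ℝ) := by positivity
      linarith

/-! ### Confinement -/

/-- exits from the interval `(-s, t)` -/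
def Exi (s t : ℤ) (l : List Bool) : Prop :=
  (ed l = t ∨ ed l = -s) ∧ ∀ i < l.length, -s < pos l i ∧ pos l i < t

/-- walks confined to the interval `(-s, t)` -/
def Cn (s t : ℤ) (l : List Bool) : Prop := ∀ i ≤ l.length, -s < pos l i ∧ pos l i < t

lemma exi_mass (p : Par) {s t : ℤ} (hs : 0 < s) (ht : 0 < t) : mass p (Exi s t) ≤ 2 * CV p := by
  have h1 : mass p (Exi s t) ≤ mass p (fun l => Rec l ∧ ed l = t) +
      mass p (fun l => (fun l => Rec l ∧ ed l = s) (neg l)) := by
    apply mass_or_le
    rintro l ⟨h1 | h1, h2⟩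
    · left
      exact ⟨fun i hi => by rw [h1]; exact (h2 i hi).2, h1⟩
    · right
      refine ⟨fun i hi => ?_, by rw [ed_neg, h1]; ring⟩
      rw [length_neg] at hi
      rw [pos_neg, ed_neg, h1]
      have := (h2 i hi).1
      linarith
  refine h1.trans ?_
  rw [mass_neg p (fun l => Rec l ∧ ed l = s), two_mul]
  gcongr
  · exact rec_mass_le p t ht
  · exact rec_mass_le p s hs

/-- mass of slow blocks -/
noncomputable def rho (p : Par) (H T : ℕ) : ℝ≥0∞ :=
  mass p (fun l => l.length = T ∧ |ed l| < 2 * (H : ℤ))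

/-- splitting off a block -/
lemma block_le (p : Par) (H T : ℕ) (P : List Bool → Prop) (Q : List Bool → List Bool → Prop)
    (M : ℝ≥0∞)
    (h1 : ∀ l, P l → T ≤ l.length ∧ |pos l T| < 2 * (H : ℤ) ∧ Q (l.take T) (l.drop T))
    (h2 : ∀ a, mass p (Q a) ≤ M) : mass p P ≤ rho p H T * M := by
  have h3 : mass p P ≤ ∑' x : List Bool × List Bool,
      ic (x.1.length = T ∧ |ed x.1| < 2 * (H : ℤ)) (W p x.1) * ic (Q x.1 x.2) (W p x.2) := by
    rw [mass_eq_ic]
    apply tsum_le_of_cover _ _ (fun x : List Bool × List Bool => x.1 ++ x.2)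
    intro l hl
    have hP : P l := by by_contra h; exact hl (ic_neg h _)
    obtain ⟨e1, e2, e3⟩ := h1 l hP
    refine ⟨(l.take T, l.drop T), List.take_append_drop _ _, ?_⟩
    simp only
    rw [ic_pos hP, ic_pos e3, ic_pos ⟨by rw [List.length_take]; omega, by rw [ed_take]; exact e2⟩]
    calc W p l = W p (l.take T ++ l.drop T) := by rw [List.take_append_drop]
      _ ≤ _ := W_append_le p _ _
  refine h3.trans ?_
  rw [ENNReal.tsum_prod (f := fun a b : List Bool =>
    ic (a.length = T ∧ |ed a| < 2 * (H : ℤ)) (W p a) * ic (Q a b) (W p b))]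
  unfold rho
  rw [mass_eq_ic, ← ENNReal.tsum_mul_right]
  apply ENNReal.tsum_le_tsum
  intro a
  rw [ENNReal.tsum_mul_left]
  gcongr
  exact h2 a

lemma exi_long (p : Par) (H T : ℕ) (j : ℕ) : ∀ s t : ℤ, 0 < s → 0 < t → s + t ≤ 2 * H →
    mass p (fun l => Exi s t l ∧ j * T < l.length) ≤ rho p H T ^ j * (2 * CV p) := by
  induction j with
  | zero =>
    intro s t hs ht _
    rw [pow_zero, one_mul]
    exact (mass_mono p fun l hl => hl.1).trans (exi_mass p hs ht)
  | succ j ih =>
    intro s t hs ht hst
    rw [pow_succ', mul_assoc]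
    apply block_le p H T _ (fun a b => (-s < ed a ∧ ed a < t) ∧
      Exi (s + ed a) (t - ed a) b ∧ j * T < b.length)
    · rintro l ⟨h1, h2⟩
      have h3 : T < l.length := by
        have : (j + 1) * T = j * T + T := by ring
        have : 0 ≤ j * T := Nat.zero_le _
        omega
      have h4 := h1.2 T h3
      refine ⟨h3.le, ?_, ?_, ?_, ?_⟩
      · rw [abs_lt]; constructor <;> omega
      · rw [ed_take]; exact h4
      · constructor
        · rw [ed_drop _ h3.le, ed_take]
          rcases h1.1 with h5 | h5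
          · left; rw [h5]
          · right; rw [h5]; ring
        · intro i hi
          rw [List.length_drop] at hi
          have h5 := h1.2 (T + i) (by omega)
          rw [pos_drop _ h3.le, ed_take]
          constructor <;> omega
      · rw [List.length_drop]
        have : (j + 1) * T = j * T + T := by ring
        omega
    · intro a
      by_cases ha : -s < ed a ∧ ed a < t
      · refine le_trans (mass_mono p fun b hb => hb.2) (ih (s + ed a) (t - ed a) ?_ ?_ ?_)
        · omega
        · omega
        · omega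
      · have : mass p (fun b => (-s < ed a ∧ ed a < t) ∧
          Exi (s + ed a) (t - ed a) b ∧ j * T < b.length) = 0 := by
          rw [mass_eq_ic, ENNReal.tsum_eq_zero]
          intro b; exact ic_neg (fun h => ha h.1) _
        rw [this]; exact zero_le

lemma cn_long (p : Par) (H T r : ℕ) (j : ℕ) : ∀ s t : ℤ, s + t ≤ 2 * H → 0 < s → 0 < t →
    mass p (fun l => Cn s t l ∧ l.length = j * T + r) ≤ rho p H T ^ j * Czz p := by
  induction j with
  | zero =>
    intro s t _ _ _
    rw [pow_zero, one_mul]
    refine le_trans (mass_mono p fun l hl => ?_) (mass_length_le_Czz p r)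
    simpa using hl.2
  | succ j ih =>
    intro s t hst hs ht
    rw [pow_succ', mul_assoc]
    apply block_le p H T _ (fun a b => (-s < ed a ∧ ed a < t) ∧
      Cn (s + ed a) (t - ed a) b ∧ b.length = j * T + r)
    · rintro l ⟨h1, h2⟩
      have h3 : T ≤ l.length := by
        have : (j + 1) * T = j * T + T := by ring
        have : 0 ≤ j * T := Nat.zero_le _
        omega
      have h4 := h1 T h3
      refine ⟨h3, ?_, ?_, ?_, ?_⟩
      · rw [abs_lt]; constructor <;> omega
      · rw [ed_take]; exact h4
      · intro i hi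
        rw [List.length_drop] at hi
        have h5 := h1 (T + i) (by omega)
        rw [pos_drop _ h3, ed_take]
        constructor <;> omega
      · rw [List.length_drop]
        have : (j + 1) * T = j * T + T := by ring
        omega
    · intro a
      by_cases ha : -s < ed a ∧ ed a < t
      · refine le_trans (mass_mono p fun b hb => hb.2) (ih (s + ed a) (t - ed a) ?_ ?_ ?_)
        · omega
        · omega
        · omega
      · have : mass p (fun b => (-s < ed a ∧ ed a < t) ∧
          Cn (s + ed a) (t - ed a) b ∧ b.length = j * T + r) = 0 := by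
          rw [mass_eq_ic, ENNReal.tsum_eq_zero]
          intro b; exact ic_neg (fun h => ha h.1) _
        rw [this]; exact zero_le

/-- long time scale associated with `h` -/
noncomputable def Tm (p : Par) (h : ℕ) : ℕ := ⌈4 * (h : ℝ) / speed p⌉₊

lemma Tm_ge (p : Par) (h : ℕ) : 4 * (h : ℝ) / speed p ≤ Tm p h := Nat.le_ceil _

lemma Tm_le (p : Par) {h : ℕ} (hh : 0 < h) : (Tm p h : ℝ) ≤ (4 / speed p + 1) * h := by
  have hs := speed_pos p
  have h1 := Nat.ceil_lt_add_one (show 0 ≤ 4 * (h : ℝ) / speed p by positivity)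
  have h2 : (1 : ℝ) ≤ h := by exact_mod_cast hh
  unfold Tm
  calc (⌈4 * (h : ℝ) / speed p⌉₊ : ℝ) ≤ 4 * (h : ℝ) / speed p + h := by linarith
    _ = _ := by ring

lemma Tm_pos (p : Par) {h : ℕ} (hh : 0 < h) : 0 < Tm p h := by
  have hs := speed_pos p
  have h2 : (0 : ℝ) < h := by exact_mod_cast hh
  apply Nat.ceil_pos.2
  positivity

lemma tendsto_Tm (p : Par) : Tendsto (Tm p) atTop atTop := by
  have hs := speed_pos p
  apply tendsto_atTop_mono (f := fun n : ℕ => n) (fun h => ?_) tendsto_id
  have h1 := Tm_ge p h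
  have h2 : (h : ℝ) ≤ 4 * (h : ℝ) / speed p := by
    rw [le_div_iff₀ hs]
    have := speed_lt_one p
    have : (0 : ℝ) ≤ h := Nat.cast_nonneg h
    nlinarith
  exact_mod_cast h2.trans h1

lemma tendsto_rho (p : Par) : Tendsto (fun h : ℕ => rho p h (Tm p h)) atTop (𝓝 0) := by
  have hs := speed_pos p
  have h1 := (lln_walk p (speed p / 4) (by positivity)).comp (tendsto_Tm p)
  refine tendsto_of_tendsto_of_tendsto_of_le_of_le' tendsto_const_nhds h1
    (Eventually.of_forall fun _ => zero_le) ?_
  filter_upwards [eventually_gt_atTop 0] with h hh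
  apply mass_mono
  rintro l ⟨e1, e2⟩
  refine ⟨e1, ?_⟩
  have h3 := Tm_ge p h
  rw [div_le_iff₀ hs] at h3
  have hT : (0 : ℝ) < Tm p h := by exact_mod_cast Tm_pos p hh
  show speed p / 4 * (Tm p h : ℝ) < |((|ed l| : ℤ) : ℝ) - speed p * (Tm p h : ℝ)|
  rw [lt_abs]
  right
  have e3 : ((|ed l| : ℤ) : ℝ) < 2 * (h : ℝ) := by exact_mod_cast e2
  nlinarith

end Pool.Agent.Helper98.Elastic
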