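import Mathlib
import Pool.Agent.Helper98.Elastic.Link
import Pool.Agent.Helper98.Elastic.Upper4

/-!
# The rate function above the typical speed: upper bound
-/

open Finset Filter Topology
open scoped ENNReal

namespace Pool.Agent.Helper98.Elastic

/-- mass of the bridges of length `n` that end at or above `x` -/
noncomputable def BG (p : Par) (n : ℕ) (x : ℝ) : ℝ≥0∞ :=
  mass p (fun l => Bri l ∧ l.length = n ∧ x ≤ (ed l : ℝ))

lemma BG_mul (p : Par) (m n : ℕ) (x y : ℝ) : BG p m x * BG p n y ≤ BG p (m + n) (x + y) := by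
  unfold BG
  rw [mass_eq_ic, mass_eq_ic, ← tsum_tsum_mul, ← ENNReal.tsum_prod (f := fun a b : List Bool =>
    ic (Bri a ∧ a.length = m ∧ x ≤ (ed a : ℝ)) (W p a) *
      ic (Bri b ∧ b.length = n ∧ y ≤ (ed b : ℝ)) (W p b)),
    mass_eq_ic]
  apply tsum_le_of_inj _ _ (fun x : List Bool × List Bool => x.1 ++ x.2)
  · rintro ⟨a, b⟩ ⟨a', b'⟩ h1 h2 h3
    simp only at h1 h2 h3
    have ha : Bri a ∧ a.length = m ∧ x ≤ (ed a : ℝ) := by
      by_contra h; apply h1; rw [ic_neg h, zero_mul]
    have ha' : Bri a' ∧ a'.length = m ∧ x ≤ (ed a' : ℝ) := by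
      by_contra h; apply h2; rw [ic_neg h, zero_mul]
    have := List.append_inj h3 (by rw [ha.2.1, ha'.2.1])
    exact Prod.ext this.1 this.2
  · rintro ⟨a, b⟩ h1
    simp only at h1 ⊢
    have ha : Bri a ∧ a.length = m ∧ x ≤ (ed a : ℝ) := by
      by_contra h; apply h1; rw [ic_neg h, zero_mul]
    have hb : Bri b ∧ b.length = n ∧ y ≤ (ed b : ℝ) := by
      by_contra h; apply h1; rw [ic_neg h, mul_zero]
    rw [ic_pos ha, ic_pos hb, ic_pos, W_bri_append p ha.1.2 hb.1.1]
    refine ⟨Bri.append ha.1 hb.1, by rw [List.length_append, ha.2.1, hb.2.1], ?_⟩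
    rw [ed_append]
    push_cast
    linarith [ha.2.2, hb.2.2]

lemma BG_le_one (p : Par) (n : ℕ) (x : ℝ) : BG p n x ≤ 1 :=
  (mass_mono p (fun _ h => ⟨h.1, h.2.1⟩)).trans (uu_le_one p n)

lemma BG_ne_top (p : Par) (n : ℕ) (x : ℝ) : BG p n x ≠ ∞ :=
  ne_top_of_le_ne_top ENNReal.one_ne_top (BG_le_one p n x)

lemma BG_anti (p : Par) (n : ℕ) {x y : ℝ} (h : x ≤ y) : BG p n y ≤ BG p n x :=
  mass_mono p (fun _ h' => ⟨h'.1, h'.2.1, h.trans h'.2.2⟩)

lemma Bri.ed_nonneg' {l : List Bool} (h : Bri l) : 0 ≤ ed l := by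
  have := h.2 0 (by omega)
  simpa using this

lemma uu_le_BG (p : Par) (n : ℕ) : uu p n ≤ BG p n 0 :=
  mass_mono p (fun _ h => ⟨h.1, h.2, by exact_mod_cast h.1.ed_nonneg'⟩)

lemma BG_str (p : Par) {n : ℕ} {x : ℝ} (h : x ≤ n) : ENNReal.ofReal (zz p ^ n) ≤ BG p n x := by
  unfold BG
  refine le_trans (le_of_eq ?_) (W_le_mass p (l := str n)
    ⟨bri_str n, length_str n, by rw [ed_str]; exact_mod_cast h⟩)
  rw [W_str, ze, ENNReal.ofReal_pow (zz_pos p).le]

lemma BG_shift (p : Par) : ∃ D : ℝ≥0∞, D ≠ ∞ ∧ ∀ (m n : ℕ) (x : ℝ), m ≤ n →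
    BG p m x ≤ D * BG p n x := by
  obtain ⟨c, hc, hu⟩ := exists_uu_lower p
  refine ⟨c⁻¹, ENNReal.inv_ne_top.2 hc.ne', fun m n x hmn => ?_⟩
  have hct : c ≠ ∞ := ne_top_of_le_ne_top ENNReal.one_ne_top ((hu 0).trans (uu_le_one p 0))
  rw [← ENNReal.div_eq_inv_mul, ENNReal.le_div_iff_mul_le (Or.inl hc.ne') (Or.inl hct)]
  calc BG p m x * c ≤ BG p m x * BG p (n - m) 0 := by
        gcongr
        exact (hu _).trans (uu_le_BG p _)
    _ ≤ BG p (m + (n - m)) (x + 0) := BG_mul p _ _ _ _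
    _ = BG p n x := by rw [add_zero]; congr 1; omega

/-- the walk reaches the level `x` -/
def Top (x : ℝ) (l : List Bool) : Prop := ∃ i ≤ l.length, x ≤ (pos l i : ℝ)

lemma half_top (p : Par) : ∃ K : ℝ≥0∞, K ≠ ∞ ∧ ∀ (n : ℕ) (x : ℝ),
    mass p (fun l => Half l ∧ (l.length = n ∧ Top x l)) ≤ K * BG p n x := by
  classical
  obtain ⟨D, hD, hsh⟩ := BG_shift p
  refine ⟨D * (Gam p * ∑' k, Eb p k), ENNReal.mul_ne_top hD
    (ENNReal.mul_ne_top (Gam_ne_top p) (tsum_Eb_ne_top p)), fun n x => ?_⟩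
  have h1 := cover_half p (fun l => l.length = n ∧ Top x l)
    (fun a b => a.length + b.length = n ∧ x ≤ (ed a : ℝ)) (by
      intro a b ha hb _ h
      obtain ⟨h1, i, hi, h2⟩ := h
      rw [List.length_append, length_neg] at h1 hi
      refine ⟨h1, h2.trans ?_⟩
      rcases le_or_gt i a.length with h3 | h3
      · rw [pos_append_left _ _ h3]
        exact_mod_cast ha.2 i h3
      · rw [show i = a.length + (i - a.length) by omega, pos_append_right, pos_neg]
        have := hb.nn (i - a.length) (by omega)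
        have : ed a + -pos b (i - a.length) ≤ ed a := by omega
        exact_mod_cast this)
  refine h1.trans (le_trans (b := ∑ y ∈ antidiagonal n, BG p y.1 x * (hh p y.2 * Eb p y.2))
    (le_of_eq ?_) ?_)
  · refine (tsum_congr fun y => ?_).trans ((tsum_prod_antidiagonal List.length List.length n
      (fun a b => if Bri a ∧ Half b ∧ x ≤ (ed a : ℝ) then
          W p a * (W p b * Eb p b.length) else 0)).trans ?_)
    · by_cases h : y.1.length + y.2.length = n
      · simp [h]
      · simp [h]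
    refine Finset.sum_congr rfl fun y _ => ?_
    unfold BG hh
    rw [← tsum_ite_mul_ite]
    refine tsum_congr fun a => tsum_congr fun b => ?_
    by_cases hb : b.length = y.2
    · by_cases ha : a.length = y.1
      · simp only [ha, hb, true_and, and_true, and_self, if_true]
        by_cases h5 : Bri a <;> by_cases h6 : Half b <;> by_cases h7 : x ≤ (ed a : ℝ) <;>
          simp [h5, h6, h7]
      · simp [ha]
    · simp [hb]
  calc ∑ y ∈ antidiagonal n, BG p y.1 x * (hh p y.2 * Eb p y.2)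
      ≤ ∑ y ∈ antidiagonal n, (D * BG p n x) * (Gam p * Eb p y.2) := by
        apply Finset.sum_le_sum
        intro y hy
        rw [Finset.HasAntidiagonal.mem_antidiagonal] at hy
        gcongr
        · exact hsh _ _ _ (by omega)
        · exact hh_le_Gam p _
    _ = (D * BG p n x) * Gam p * ∑ y ∈ antidiagonal n, Eb p y.2 := by
        rw [Finset.mul_sum]
        refine Finset.sum_congr rfl fun y _ => ?_
        ring
    _ ≤ (D * BG p n x) * Gam p * ∑' k, Eb p k := by
        gcongr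
        exact sum_antidiagonal_snd_le _ n
    _ = _ := by ring

lemma nn_top (p : Par) : ∃ K : ℝ≥0∞, K ≠ ∞ ∧ ∀ (n : ℕ) (x : ℝ),
    mass p (fun l => NN l ∧ (l.length = n ∧ Top x l)) ≤ K * BG p (n + 1) (x + 1) := by
  classical
  obtain ⟨K, hK, h⟩ := half_top p
  refine ⟨(ze p)⁻¹ * K, ENNReal.mul_ne_top (inv_ze_ne_top p) hK, fun n x => ?_⟩
  have h1 : mass p (fun l => NN l ∧ (l.length = n ∧ Top x l)) ≤
      (ze p)⁻¹ * mass p (fun l => Half l ∧ (l.length = n + 1 ∧ Top (x + 1) l)) := by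
    rw [← ENNReal.div_eq_inv_mul, ENNReal.le_div_iff_mul_le (Or.inl (ze_ne_zero p))
      (Or.inl (ze_ne_top p)), mul_comm]
    unfold mass
    rw [← ENNReal.tsum_mul_left]
    apply tsum_le_of_inj _ _ (fun l => true :: l)
    · intro x y _ _ h; simpa using h
    · intro l hl
      have h2 : NN l ∧ (l.length = n ∧ Top x l) := by
        by_contra h; apply hl; rw [if_neg h, mul_zero]
      have h3 : Half (true :: l) ∧ ((true :: l).length = n + 1 ∧ Top (x + 1) (true :: l)) := by
        refine ⟨half_cons_true h2.1, by simp [h2.2.1], ?_⟩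
        obtain ⟨i, hi, hx⟩ := h2.2.2
        refine ⟨i + 1, by simp only [List.length_cons]; omega, ?_⟩
        rw [pos_cons_succ]
        simp only [st, if_true]
        push_cast
        linarith
      rw [if_pos h2, if_pos h3, W_cons_true p h2.1]
  refine h1.trans ?_
  calc (ze p)⁻¹ * mass p (fun l => Half l ∧ (l.length = n + 1 ∧ Top (x + 1) l))
      ≤ (ze p)⁻¹ * (K * BG p (n + 1) (x + 1)) := by gcongr; exact h _ _
    _ = _ := by ring

lemma all_top (p : Par) : ∃ K : ℝ≥0∞, K ≠ ∞ ∧ ∀ (n : ℕ) (x : ℝ),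
    mass p (fun l => l.length = n ∧ x ≤ (ed l : ℝ)) ≤
      K * (BG p n x + BG p (n + 1) (x + 1)) := by
  classical
  obtain ⟨D, hD, hsh⟩ := BG_shift p
  obtain ⟨K1, hK1, h1⟩ := half_top p
  obtain ⟨K2, hK2, h2⟩ := nn_top p
  have hT := tsum_Eb_ne_top p
  refine ⟨(ze p)⁻¹ * Gam p * (∑' k, Eb p k) * (K1 * D) + K2 * D * Gam p * (∑' k, Eb p k),
    ENNReal.add_ne_top.2 ⟨?_, ?_⟩, fun n x => ?_⟩
  · exact ENNReal.mul_ne_top (ENNReal.mul_ne_top (ENNReal.mul_ne_top (inv_ze_ne_top p)
      (Gam_ne_top p)) hT) (ENNReal.mul_ne_top hK1 hD)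
  · exact ENNReal.mul_ne_top (ENNReal.mul_ne_top (ENNReal.mul_ne_top hK2 hD) (Gam_ne_top p)) hT
  -- the covering
  have hcov : mass p (fun l => l.length = n ∧ x ≤ (ed l : ℝ)) ≤
      (∑' y : List Bool × List Bool,
        if y.1.length + y.2.length = n then
          (if NN y.1 ∧ (Half y.2 ∧ Top x y.2) then
            W p y.1 * Eb p y.1.length * W p y.2 else 0) else 0) +
      (∑' y : List Bool × List Bool,
        if y.1.length + y.2.length = n then
          (if (NN y.1 ∧ Top x y.1) ∧ Half y.2 then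
            W p y.1 * (W p y.2 * Eb p y.2.length) else 0) else 0) := by
    rw [← ENNReal.tsum_add]
    unfold mass
    apply tsum_le_of_cover _ _ (fun y => neg y.1.reverse ++ y.2)
    intro a ha
    have ha' : a.length = n ∧ x ≤ (ed a : ℝ) := by by_contra h; simp [h] at ha
    obtain ⟨v, r, g1, g2, g3⟩ := decomp_all a
    refine ⟨(v, r), g1.symm, ?_⟩
    have g4 := ha'.1
    have g5 := ha'.2
    rw [g1, List.length_append, length_neg, List.length_reverse] at g4
    have g6 : ed (neg v.reverse ++ r) = ed r - ed v := by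
      rw [ed_append, ed_neg, ed_reverse]; ring
    have g7 : 0 ≤ ed v := by have := g2 v.length le_rfl; rwa [pos_length] at this
    have g8 : x ≤ (ed r : ℝ) := by
      rw [g1, g6] at g5
      push_cast at g5
      have : (0 : ℝ) ≤ ed v := by exact_mod_cast g7
      linarith
    have g9 : Top x r := ⟨r.length, le_rfl, by rw [pos_length]; exact g8⟩
    simp only
    rw [if_pos ha', if_pos g4, if_pos g4, g1]
    rcases low_total v r with h | h
    · rw [if_pos ⟨g2, g3, g9⟩]
      exact (W_valley_le p g2 g3.nn h).trans le_self_add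
    · have g10 : Top x v := by
        obtain ⟨j, hj, hj'⟩ := h r.length le_rfl
        rw [pos_length] at hj'
        exact ⟨j, hj, g8.trans (by exact_mod_cast hj')⟩
      refine le_trans ?_ (le_add_self)
      rw [if_pos ⟨⟨g2, g10⟩, g3⟩]
      exact W_valley_le' p g2 g3.nn h
  refine hcov.trans ?_
  have e1 : (∑' y : List Bool × List Bool,
        if y.1.length + y.2.length = n then
          (if NN y.1 ∧ (Half y.2 ∧ Top x y.2) then
            W p y.1 * Eb p y.1.length * W p y.2 else 0) else 0) =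
      ∑ y ∈ antidiagonal n, nn p y.1 * Eb p y.1 *
        mass p (fun l => Half l ∧ (l.length = y.2 ∧ Top x l)) := by
    refine (tsum_prod_antidiagonal List.length List.length n
      (fun a b => if NN a ∧ (Half b ∧ Top x b) then
          W p a * Eb p a.length * W p b else 0)).trans ?_
    refine Finset.sum_congr rfl fun y _ => ?_
    unfold nn
    rw [← tsum_ite_mul_ite']
    refine tsum_congr fun a => tsum_congr fun b => ?_
    by_cases hb : b.length = y.2
    · by_cases ha : a.length = y.1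
      · simp only [ha, hb, true_and, and_true, and_self, if_true]
      · simp [ha]
    · simp [hb]
  have e2 : (∑' y : List Bool × List Bool,
        if y.1.length + y.2.length = n then
          (if (NN y.1 ∧ Top x y.1) ∧ Half y.2 then
            W p y.1 * (W p y.2 * Eb p y.2.length) else 0) else 0) =
      ∑ y ∈ antidiagonal n, mass p (fun l => NN l ∧ (l.length = y.1 ∧ Top x l)) *
        (hh p y.2 * Eb p y.2) := by
    refine (tsum_prod_antidiagonal List.length List.length n
      (fun a b => if (NN a ∧ Top x a) ∧ Half b then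
          W p a * (W p b * Eb p b.length) else 0)).trans ?_
    refine Finset.sum_congr rfl fun y _ => ?_
    unfold hh
    rw [← tsum_ite_mul_ite]
    refine tsum_congr fun a => tsum_congr fun b => ?_
    by_cases hb : b.length = y.2
    · by_cases ha : a.length = y.1
      · simp only [ha, hb, true_and, and_true, and_self, if_true]
      · simp [ha]
    · simp [hb]
  rw [e1, e2]
  have e3 : ∑ y ∈ antidiagonal n, Eb p y.1 ≤ ∑' k, Eb p k := by
    rw [← Finset.Nat.sum_antidiagonal_swap]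
    exact sum_antidiagonal_snd_le _ n
  calc (∑ y ∈ antidiagonal n, nn p y.1 * Eb p y.1 *
        mass p (fun l => Half l ∧ (l.length = y.2 ∧ Top x l))) +
      ∑ y ∈ antidiagonal n, mass p (fun l => NN l ∧ (l.length = y.1 ∧ Top x l)) *
        (hh p y.2 * Eb p y.2)
      ≤ (∑ y ∈ antidiagonal n, (ze p)⁻¹ * Gam p * Eb p y.1 * (K1 * (D * BG p n x))) +
        ∑ y ∈ antidiagonal n, (K2 * (D * BG p (n + 1) (x + 1))) * (Gam p * Eb p y.2) := by
        apply add_le_add
        · apply Finset.sum_le_sum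
          intro y hy
          rw [Finset.HasAntidiagonal.mem_antidiagonal] at hy
          gcongr
          · exact nn_le_Gam p _
          · refine (h1 _ _).trans ?_
            gcongr
            exact hsh _ _ _ (by omega)
        · apply Finset.sum_le_sum
          intro y hy
          rw [Finset.HasAntidiagonal.mem_antidiagonal] at hy
          gcongr
          · refine (h2 _ _).trans ?_
            gcongr
            exact hsh _ _ _ (by omega)
          · exact hh_le_Gam p _
    _ = (ze p)⁻¹ * Gam p * (∑ y ∈ antidiagonal n, Eb p y.1) * (K1 * (D * BG p n x)) +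
        (K2 * (D * BG p (n + 1) (x + 1))) * Gam p * ∑ y ∈ antidiagonal n, Eb p y.2 := by
        rw [Finset.mul_sum, Finset.sum_mul, Finset.mul_sum]
        congr 1
        refine Finset.sum_congr rfl fun y _ => ?_
        ring
    _ ≤ (ze p)⁻¹ * Gam p * (∑' k, Eb p k) * (K1 * (D * BG p n x)) +
        (K2 * (D * BG p (n + 1) (x + 1))) * Gam p * ∑' k, Eb p k := by
        gcongr
        exact sum_antidiagonal_snd_le _ n
    _ = (ze p)⁻¹ * Gam p * (∑' k, Eb p k) * (K1 * D) * BG p n x +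
        K2 * D * Gam p * (∑' k, Eb p k) * BG p (n + 1) (x + 1) := by ring
    _ ≤ _ := by
        rw [mul_add]
        gcongr
        · exact le_self_add
        · exact le_add_self

/-! ### The rate function -/

lemma BG_toReal_pos (p : Par) {n : ℕ} {x : ℝ} (h : x ≤ n) : 0 < (BG p n x).toReal :=
  ENNReal.toReal_pos (ne_of_gt (lt_of_lt_of_le (ENNReal.ofReal_pos.2 (pow_pos (zz_pos p) n))
    (BG_str p h))) (BG_ne_top p n x)

lemma zz_pow_le_BG (p : Par) {n : ℕ} {x : ℝ} (h : x ≤ n) : zz p ^ n ≤ (BG p n x).toReal := by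
  have := ENNReal.toReal_mono (BG_ne_top p n x) (BG_str p h)
  rwa [ENNReal.toReal_ofReal (pow_nonneg (zz_pos p).le n)] at this

lemma BG_toReal_le_one (p : Par) (n : ℕ) (x : ℝ) : (BG p n x).toReal ≤ 1 := by
  rw [← ENNReal.toReal_one]
  exact ENNReal.toReal_mono ENNReal.one_ne_top (BG_le_one p n x)

lemma subadd_BG (p : Par) {θ : ℝ} (hθ : θ ≤ 1) :
    Subadditive (fun n : ℕ => -Real.log (BG p n (θ * n)).toReal) := by
  intro m n
  have hm : θ * (m : ℝ) ≤ m := by
    have : (0 : ℝ) ≤ m := Nat.cast_nonneg m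
    nlinarith
  have hn : θ * (n : ℝ) ≤ n := by
    have : (0 : ℝ) ≤ n := Nat.cast_nonneg n
    nlinarith
  have h1 := BG_toReal_pos p hm
  have h2 := BG_toReal_pos p hn
  have h3 : (BG p m (θ * m)).toReal * (BG p n (θ * n)).toReal ≤
      (BG p (m + n) (θ * ((m + n : ℕ) : ℝ))).toReal := by
    rw [← ENNReal.toReal_mul]
    apply ENNReal.toReal_mono (BG_ne_top p _ _)
    refine (BG_mul p m n _ _).trans (le_of_eq ?_)
    congr 1; push_cast; ring
  have h4 := Real.log_le_log (by positivity) h3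
  rw [Real.log_mul h1.ne' h2.ne'] at h4
  linarith

lemma bdd_BG (p : Par) (θ : ℝ) :
    BddBelow (Set.range fun n : ℕ => -Real.log (BG p n (θ * n)).toReal / (n : ℝ)) := by
  refine ⟨0, ?_⟩
  rintro _ ⟨n, rfl⟩
  apply div_nonneg _ (Nat.cast_nonneg n)
  have := Real.log_nonpos ENNReal.toReal_nonneg (BG_toReal_le_one p n (θ * n))
  linarith

/-- the rate function -/
noncomputable def RF (p : Par) (θ : ℝ) : ℝ :=
  if h : θ ≤ 1 then (subadd_BG p h).lim else 0

lemma RF_tendsto (p : Par) {θ : ℝ} (hθ : θ ≤ 1) :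
    Tendsto (fun n : ℕ => -Real.log (BG p n (θ * n)).toReal / (n : ℝ)) atTop (𝓝 (RF p θ)) := by
  unfold RF
  rw [dif_pos hθ]
  exact (subadd_BG p hθ).tendsto_lim (bdd_BG p θ)

lemma RF_nonneg (p : Par) {θ : ℝ} (hθ : θ ≤ 1) : 0 ≤ RF p θ := by
  refine ge_of_tendsto (RF_tendsto p hθ) (Eventually.of_forall fun n => ?_)
  apply div_nonneg _ (Nat.cast_nonneg n)
  have := Real.log_nonpos ENNReal.toReal_nonneg (BG_toReal_le_one p n (θ * n))
  linarith

lemma BG_le_RF (p : Par) {θ : ℝ} (hθ : θ ≤ 1) (n : ℕ) :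
    BG p n (θ * n) ≤ ENNReal.ofReal (Real.exp (-(RF p θ * n))) := by
  rcases Nat.eq_zero_or_pos n with rfl | hn
  · simpa using BG_le_one p 0 0
  have hn' : (0 : ℝ) < n := by exact_mod_cast hn
  have h1 := (subadd_BG p hθ).lim_le_div (bdd_BG p θ) (n := n) (by omega)
  have h2 : RF p θ = (subadd_BG p hθ).lim := by unfold RF; rw [dif_pos hθ]
  rw [← h2, le_div_iff₀ hn'] at h1
  have hx : θ * (n : ℝ) ≤ n := by nlinarith
  have h3 := BG_toReal_pos p hx
  rw [← ENNReal.ofReal_toReal (BG_ne_top p n (θ * n))]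
  apply ENNReal.ofReal_le_ofReal
  rw [← Real.exp_log h3]
  apply Real.exp_le_exp.2
  linarith

/-- upper bound for the tail -/
lemma tail_upper (p : Par) {θ : ℝ} (hθ : θ ≤ 1) : ∃ K : ℝ, 0 < K ∧ ∀ n : ℕ,
    prob p.β p.κ n {w | θ * n ≤ ((|w (Fin.last n)| : ℤ) : ℝ)} ≤
      K * Real.exp (-(RF p θ * n)) := by
  obtain ⟨K, hK, h⟩ := all_top p
  refine ⟨4 * K.toReal + 1, by positivity, fun n => ?_⟩
  have hJ := RF_nonneg p hθ
  have hn0 : (0 : ℝ) ≤ n := Nat.cast_nonneg n
  have h1 : BG p (n + 1) (θ * n + 1) ≤ ENNReal.ofReal (Real.exp (-(RF p θ * n))) := by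
    refine (BG_anti p (n + 1) (x := θ * ((n + 1 : ℕ) : ℝ)) (by push_cast; linarith)).trans ?_
    refine (BG_le_RF p hθ (n + 1)).trans ?_
    apply ENNReal.ofReal_le_ofReal
    apply Real.exp_le_exp.2
    push_cast
    linarith
  have h2 : mass p (fun l => l.length = n ∧ θ * n ≤ (ed l : ℝ)) ≤
      K * (2 * ENNReal.ofReal (Real.exp (-(RF p θ * n)))) := by
    refine (h n (θ * n)).trans ?_
    rw [two_mul]
    gcongr
    exact BG_le_RF p hθ n
  have h3 : mass p (fun l => l.length = n ∧ θ * n ≤ ((|ed l| : ℤ) : ℝ)) ≤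
      4 * K * ENNReal.ofReal (Real.exp (-(RF p θ * n))) := by
    refine (mass_or_le p (Q := fun l => l.length = n ∧ θ * n ≤ (ed l : ℝ))
      (R := fun l => (neg l).length = n ∧ θ * n ≤ (ed (neg l) : ℝ)) ?_).trans ?_
    · rintro l ⟨g1, g2⟩
      rcases abs_cases (ed l) with g3 | g3
      · left; rw [g3.1] at g2; exact ⟨g1, g2⟩
      · right; rw [g3.1] at g2; exact ⟨by rw [length_neg]; exact g1, by rw [ed_neg]; exact g2⟩
    · rw [mass_neg p (fun l => l.length = n ∧ θ * n ≤ (ed l : ℝ))]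
      refine (add_le_add h2 h2).trans (le_of_eq ?_)
      ring
  refine (prob_le p n (fun x => θ * n ≤ ((|x| : ℤ) : ℝ))).trans ?_
  have h4 := ENNReal.toReal_mono (ENNReal.mul_ne_top (ENNReal.mul_ne_top (by norm_num) hK)
    ENNReal.ofReal_ne_top) h3
  refine h4.trans ?_
  rw [ENNReal.toReal_mul, ENNReal.toReal_mul, ENNReal.toReal_ofReal (Real.exp_pos _).le]
  have h5 : (4 : ℝ≥0∞).toReal = 4 := by simp
  rw [h5]
  have := Real.exp_pos (-(RF p θ * n))
  nlinarith

/-- lower bound for the tail -/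
lemma tail_lower (p : Par) (θ : ℝ) (n : ℕ) :
    (BG p n (θ * n)).toReal / (Czz p).toReal ≤
      prob p.β p.κ n {w | θ * n ≤ ((|w (Fin.last n)| : ℤ) : ℝ)} := by
  refine le_trans ?_ (le_prob p n (fun x => θ * n ≤ ((|x| : ℤ) : ℝ)))
  apply div_le_div_of_nonneg_right _ ENNReal.toReal_nonneg
  apply ENNReal.toReal_mono (mass_ne_top p n _)
  apply mass_mono
  rintro l ⟨_, h2, h3⟩
  refine ⟨h2, h3.trans ?_⟩
  exact_mod_cast le_abs_self (ed l)

lemma RF_pos (p : Par) {θ : ℝ} (hs : speed p < θ) (hθ : θ ≤ 1) : 0 < RF p θ := by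
  obtain ⟨c, hc, h⟩ := exp_cost p θ hs
  refine lt_of_lt_of_le hc ?_
  refine ge_of_tendsto (RF_tendsto p hθ) ?_
  filter_upwards [h, eventually_gt_atTop 0] with n hn hn0
  have hn' : (0 : ℝ) < n := by exact_mod_cast hn0
  have hx : θ * (n : ℝ) ≤ n := by nlinarith
  have h1 : BG p n (θ * n) ≤ ENNReal.ofReal (Real.exp (-(c * n))) := by
    refine le_trans (mass_mono p ?_) hn
    rintro l ⟨_, h2, h3⟩
    exact ⟨h2, h3.trans (le_abs_self _)⟩
  have h2 := ENNReal.toReal_mono ENNReal.ofReal_ne_top h1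
  rw [ENNReal.toReal_ofReal (Real.exp_pos _).le] at h2
  have h3 := (Real.log_le_iff_le_exp (BG_toReal_pos p hx)).2 h2
  rw [le_div_iff₀ hn']
  linarith

end Pool.Agent.Helper98.Elastic
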