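import Mathlib
import Pool.Agent.Helper98.Elastic.End9
import Pool.Agent.Helper98.Elastic.End8

/-!
# The rate function above the typical speed: lower bound and limits
-/

open Finset Filter Topology
open scoped ENNReal

namespace Pool.Agent.Helper98.Elastic

lemma BG_pigeon (p : Par) {m : ℕ} {x : ℝ} (h : 0 < BG p m x) : ∃ y : ℕ, x ≤ y ∧
    BG p m x ≤ ((m + 1 : ℕ) : ℝ≥0∞) * Bm p m y := by
  have h1 : BG p m x ≤ ∑ y ∈ range (m + 1), ic (x ≤ (y : ℝ)) (Bm p m y) := by
    have h2 : ∑ y ∈ range (m + 1), ic (x ≤ (y : ℝ)) (Bm p m y) =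
        ∑' l : List Bool, ∑ y ∈ range (m + 1),
          ic (x ≤ (y : ℝ)) (ic (Bri l ∧ l.length = m ∧ ed l = y) (W p l)) := by
      rw [ennreal_tsum_finset_sum]
      refine Finset.sum_congr rfl fun y _ => ?_
      unfold Bm
      rw [mass_eq_ic]
      by_cases hy : x ≤ (y : ℝ)
      · simp only [ic_pos hy]
      · simp only [ic_neg hy, tsum_zero]
    rw [h2]
    unfold BG
    rw [mass_eq_ic]
    apply ENNReal.tsum_le_tsum
    intro l
    by_cases hl : Bri l ∧ l.length = m ∧ x ≤ (ed l : ℝ)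
    · rw [ic_pos hl]
      obtain ⟨g1, g2, g3⟩ := hl
      have g4 := g1.ed_nonneg'
      have g5 := (abs_le.1 (abs_ed_le l)).2
      have g6 : (((ed l).toNat : ℕ) : ℤ) = ed l := Int.toNat_of_nonneg g4
      have g7 : (((ed l).toNat : ℕ) : ℝ) = (ed l : ℝ) := by exact_mod_cast g6
      refine le_trans ?_ (Finset.single_le_sum (f := fun y : ℕ => ic (x ≤ (y : ℝ))
        (ic (Bri l ∧ l.length = m ∧ ed l = y) (W p l))) (fun _ _ => zero_le)
        (Finset.mem_range.2 (show (ed l).toNat < m + 1 by omega)))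
      rw [ic_pos (by rw [g7]; exact g3), ic_pos ⟨g1, g2, g6.symm⟩]
    · rw [ic_neg hl]; exact zero_le
  obtain ⟨y, hy, hmax⟩ := Finset.exists_max_image (range (m + 1))
    (fun y : ℕ => ic (x ≤ (y : ℝ)) (Bm p m y)) ⟨0, by simp⟩
  have h3 : BG p m x ≤ ((m + 1 : ℕ) : ℝ≥0∞) * ic (x ≤ (y : ℝ)) (Bm p m y) := by
    refine h1.trans ((Finset.sum_le_sum hmax).trans (le_of_eq ?_))
    rw [Finset.sum_const, Finset.card_range, nsmul_eq_mul]
  have h4 : x ≤ (y : ℝ) := by
    by_contra hcon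
    rw [ic_neg hcon, mul_zero] at h3
    exact absurd (lt_of_lt_of_le h h3) (lt_irrefl _)
  rw [ic_pos h4] at h3
  exact ⟨y, h4, h3⟩

lemma eventually_ge_real {δ : ℝ} (hδ : 0 < δ) (B : ℝ) : ∀ᶠ n : ℕ in atTop, B ≤ δ * n :=
  (tendsto_natCast_atTop_atTop.const_mul_atTop hδ).eventually_ge_atTop B

lemma steep (p : Par) {θ ε : ℝ} (hθ1 : θ < 1) (hε : 0 < ε) : ∃ M Y : ℕ, 0 < M ∧
    θ * M < Y ∧ ENNReal.ofReal (Real.exp (-((RF p θ + ε) * M))) ≤ Bm p M Y := by
  have hJ := RF_nonneg p hθ1.le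
  set K₀ : ℝ := -Real.log (zz p) with hK₀
  have hK₀0 : 0 ≤ K₀ := by
    have := Real.log_nonpos (zz_pos p).le (zz_le_one p)
    linarith
  set η : ℝ := ε / (4 * (K₀ + 1)) with hη
  have hη0 : 0 < η := by positivity
  have e1 := (RF_tendsto p hθ1.le).eventually (gt_mem_nhds (show RF p θ < RF p θ + ε / 4 by linarith only [hε]))
  have e2 := poly_le_exp 1 (B := ε / 4) (a := 1) (c := 1) (by positivity) one_pos one_pos
  have e3 := eventually_ge_real hη0 1
  obtain ⟨m, f1, f2, f3, f4⟩ := (e1.and (e2.and (e3.and (eventually_gt_atTop 0)))).exists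
  have hm : (0 : ℝ) < m := by exact_mod_cast f4
  have hx : θ * (m : ℝ) ≤ m := by nlinarith only [hθ1]
  have hBpos := BG_toReal_pos p hx
  obtain ⟨y, hy1, hy2⟩ := BG_pigeon p (m := m) (x := θ * m) (by
    by_contra hcon
    have : BG p m (θ * m) = 0 := by simpa using hcon
    rw [this] at hBpos
    simp at hBpos)
  set j : ℕ := ⌈η * m⌉₊ with hj
  have hj1 : η * m ≤ j := Nat.le_ceil _
  have hj2 : (j : ℝ) < η * m + 1 := Nat.ceil_lt_add_one (by positivity)
  have hj3 : (1 : ℝ) ≤ j := f3.trans hj1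
  have hj0 : (0 : ℝ) ≤ j := by linarith only [f3, hj1]
  refine ⟨m + j, y + j, by omega, ?_, ?_⟩
  · push_cast
    nlinarith only [hθ1, hy1, f3, hj1]
  -- the bound
  have g1 : Real.exp (-((RF p θ + ε / 4) * m)) ≤ (BG p m (θ * m)).toReal := by
    rw [div_lt_iff₀ hm] at f1
    rw [← Real.le_log_iff_exp_le hBpos]
    linarith only [f1]
  have g2 : Real.exp (-(ε / 2 * m)) ≤ zz p ^ j := by
    have h1 : zz p ^ j = Real.exp (j * Real.log (zz p)) := by
      rw [← Real.log_pow, Real.exp_log (pow_pos (zz_pos p) j)]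
    rw [h1]
    apply Real.exp_le_exp.2
    have h2 : (j : ℝ) * K₀ ≤ (2 * (η * m)) * K₀ := by
      apply mul_le_mul_of_nonneg_right _ hK₀0
      linarith only [f3, hj2]
    have h3 : η * K₀ ≤ ε / 4 := by
      calc η * K₀ ≤ η * (K₀ + 1) := by gcongr; linarith
        _ = ε / 4 := by rw [hη]; field_simp
    have h4 : (2 * (η * m)) * K₀ ≤ ε / 2 * m := by
      calc (2 * (η * m)) * K₀ = 2 * (η * K₀) * m := by ring
        _ ≤ 2 * (ε / 4) * m := by gcongr
        _ = _ := by ring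
    have h5 : (j : ℝ) * Real.log (zz p) = -(j * K₀) := by rw [hK₀]; ring
    rw [h5]
    linarith only [h2, h4]
  have g3 : Real.exp (-((RF p θ + ε) * ((m + j : ℕ) : ℝ))) * ((m : ℝ) + 1) ≤
      (BG p m (θ * m)).toReal * zz p ^ j := by
    calc Real.exp (-((RF p θ + ε) * ((m + j : ℕ) : ℝ))) * ((m : ℝ) + 1)
        ≤ Real.exp (-((RF p θ + ε) * m)) * Real.exp (ε / 4 * m) := by
          gcongr
          · linarith only []
          · rw [pow_one, Real.rpow_one, one_mul] at f2; exact f2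
      _ = Real.exp (-((RF p θ + ε / 4) * m)) * Real.exp (-(ε / 2 * m)) := by
          rw [← Real.exp_add, ← Real.exp_add]; congr 1; ring
      _ ≤ _ := by gcongr
  have g4 : ENNReal.ofReal (Real.exp (-((RF p θ + ε) * ((m + j : ℕ) : ℝ)))) *
      ((m + 1 : ℕ) : ℝ≥0∞) ≤ ((m + 1 : ℕ) : ℝ≥0∞) * Bm p (m + j) (y + j : ℕ) := by
    calc ENNReal.ofReal (Real.exp (-((RF p θ + ε) * ((m + j : ℕ) : ℝ)))) * ((m + 1 : ℕ) : ℝ≥0∞)
        = ENNReal.ofReal (Real.exp (-((RF p θ + ε) * ((m + j : ℕ) : ℝ))) * ((m : ℝ) + 1)) := by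
          rw [ENNReal.ofReal_mul (Real.exp_pos _).le, ← ENNReal.ofReal_natCast (m + 1)]
          congr 2
          push_cast; rfl
      _ ≤ ENNReal.ofReal ((BG p m (θ * m)).toReal * zz p ^ j) := ENNReal.ofReal_le_ofReal g3
      _ = BG p m (θ * m) * ENNReal.ofReal (zz p ^ j) := by
          rw [ENNReal.ofReal_mul ENNReal.toReal_nonneg, ENNReal.ofReal_toReal (BG_ne_top p _ _)]
      _ ≤ (((m + 1 : ℕ) : ℝ≥0∞) * Bm p m y) * Bm p j j := mul_le_mul' hy2 (Bm_str p j)
      _ = ((m + 1 : ℕ) : ℝ≥0∞) * (Bm p m y * Bm p j j) := by ring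
      _ ≤ ((m + 1 : ℕ) : ℝ≥0∞) * Bm p (m + j) (y + j) := by
          gcongr
          exact Bm_mul p m j y j
      _ = _ := by push_cast; rfl
  rw [mul_comm] at g4
  exact (ENNReal.mul_le_mul_iff_right (by simp) (ENNReal.natCast_ne_top _)).1 g4

lemma Bm_pow (p : Par) (M Y k : ℕ) : Bm p M Y ^ k ≤ Bm p (k * M) ((k * Y : ℕ) : ℤ) := by
  induction k with
  | zero =>
    have := Bm_str p 0
    simpa using this
  | succ k ih =>
    calc Bm p M Y ^ (k + 1) = Bm p M Y ^ k * Bm p M Y := pow_succ _ _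
      _ ≤ Bm p (k * M) ((k * Y : ℕ) : ℤ) * Bm p M Y := by gcongr
      _ ≤ Bm p (k * M + M) (((k * Y : ℕ) : ℤ) + Y) := Bm_mul p _ _ _ _
      _ = _ := by
          have h1 : k * M + M = (k + 1) * M := by ring
          have h2 : (((k * Y : ℕ) : ℤ) + Y) = (((k + 1) * Y : ℕ) : ℤ) := by push_cast; ring
          rw [h1, h2]

lemma point_lower (p : Par) {θ ε : ℝ} (hs : speed p < θ) (hθ1 : θ < 1) (hε : 0 < ε) :
    ∀ᶠ n : ℕ in atTop, (⌈θ * n⌉ - (n : ℤ)) % 2 = 0 →
      ENNReal.ofReal (Real.exp (-((RF p θ + ε) * n))) ≤ Zm p n ⌈θ * n⌉ := by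
  have hσ := speed_pos p
  have hσ1 := speed_lt_one p
  have hκ0 := p.hκ0
  have hκ1 := p.hκ1
  have hJ := RF_nonneg p hθ1.le
  obtain ⟨M, Y, hM, hMY, hB⟩ := steep p (θ := θ) (ε := ε / 2) hθ1 (by positivity)
  obtain ⟨C, hC, hcr⟩ := crude p
  have hM' : (0 : ℝ) < M := by exact_mod_cast hM
  set D : ℝ := Y - speed p * M with hD
  have hD0 : 0 < D := by
    have : speed p * (M : ℝ) < θ * M := by gcongr
    rw [hD]; linarith
  set ρ : ℝ := M * (θ - speed p) / D with hρ
  have hρ1 : ρ < 1 := by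
    rw [hρ, div_lt_one hD0, hD]
    linarith only [hMY]
  have e1 := eventually_ge_real (δ := speed p * (1 - ρ)) (by
    have : 0 < 1 - ρ := by linarith
    positivity) (Y + 1 + speed p * (M / D + M))
  have e2 : ∀ᶠ n : ℕ in atTop, 2 * C / ε ≤ (n : ℝ) ^ p.κ :=
    ((tendsto_rpow_atTop hκ0).comp tendsto_natCast_atTop_atTop).eventually_ge_atTop _
  filter_upwards [e1, e2, eventually_gt_atTop 0] with n f1 f2 f3 hpar
  have hn : (0 : ℝ) < n := by exact_mod_cast f3
  have hpos : 0 < ⌈θ * (n : ℝ)⌉ := Int.ceil_pos.2 (by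
    have : 0 < θ := by linarith only [hs, hσ]
    positivity)
  obtain ⟨x, hx⟩ : ∃ x : ℕ, ⌈θ * (n : ℝ)⌉ = x := ⟨⌈θ * n⌉.toNat, by omega⟩
  have hx1 : (x : ℝ) < θ * n + 1 := by
    have := Int.ceil_lt_add_one (θ * (n : ℝ))
    rw [hx] at this
    push_cast at this
    exact this
  have hx2 : θ * n ≤ x := by
    have := Int.le_ceil (θ * (n : ℝ))
    rw [hx] at this
    push_cast at this
    exact this
  rw [hx]
  rw [hx] at hpar
  set t : ℝ := (x - speed p * n) / D with ht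
  have ht0 : 0 ≤ t := by
    apply div_nonneg _ hD0.le
    have : speed p * (n : ℝ) ≤ θ * n := by gcongr
    linarith
  set k : ℕ := ⌈t⌉₊ with hk
  have hk1 : t ≤ k := Nat.le_ceil _
  have hk2 : (k : ℝ) < t + 1 := Nat.ceil_lt_add_one ht0
  have hk1' : x - speed p * n ≤ k * D := by rwa [ht, div_le_iff₀ hD0] at hk1
  have hk2' : k * D < (x - speed p * n) + D := by
    have : k * D < (t + 1) * D := by gcongr
    have h2 : t * D = x - speed p * n := by rw [ht]; field_simp
    linarith only [this, h2]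
  have hkM : (k : ℝ) * M ≤ ρ * n + (M / D + M) := by
    have h1 : (k : ℝ) * M * D ≤ (ρ * n + (M / D + M)) * D := by
      have h2 : (ρ * n + (M / D + M)) * D = M * ((θ - speed p) * n + 1 + D) := by
        rw [hρ]
        field_simp
        ring
      rw [h2]
      have h3 : (k : ℝ) * M * D = M * (k * D) := by ring
      rw [h3]
      gcongr
      linarith only [hx1, hk2']
    exact le_of_mul_le_mul_right h1 hD0
  have hY0 : (0 : ℝ) ≤ Y := Nat.cast_nonneg Y
  have hr : (Y : ℝ) + 1 ≤ speed p * (n - k * M) := by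
    have h1 : speed p * (k * M) ≤ speed p * (ρ * n + (M / D + M)) := by gcongr
    have h2 : speed p * (1 - ρ) * n = speed p * n - speed p * (ρ * n) := by ring
    linarith only [f1, h1]
  have hkMn : k * M ≤ n := by
    have h1 : 0 < n - (k : ℝ) * M := by
      by_contra hcon
      rw [not_lt] at hcon
      have : speed p * (n - k * M) ≤ 0 := mul_nonpos_of_nonneg_of_nonpos hσ.le hcon
      linarith only [hs, hθ1, hσ, hr, this]
    have : ((k * M : ℕ) : ℝ) ≤ n := by push_cast; linarith only [h1]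
    exact_mod_cast this
  have hkY : (k : ℝ) * Y + 1 ≤ x := by
    have h1 : (k : ℝ) * D = k * Y - speed p * (k * M) := by rw [hD]; ring
    have h2 : D ≤ Y := by
      rw [hD]
      have : 0 ≤ speed p * (M : ℝ) := by positivity
      linarith only [this]
    have h3 : speed p * (n - k * M) = speed p * n - speed p * (k * M) := by ring
    linarith only [hk2', hr, h2]
  have hkY' : k * Y + 1 ≤ x := by
    have : ((k * Y + 1 : ℕ) : ℝ) ≤ x := by push_cast; exact hkY
    exact_mod_cast this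
  have hBpos : 0 < Bm p M Y := lt_of_lt_of_le (ENNReal.ofReal_pos.2 (Real.exp_pos _)) hB
  have hparB := Bm_parity p hBpos
  obtain ⟨s, hs2⟩ : ∃ s : ℤ, (M : ℤ) + Y = 2 * s := ⟨((M : ℤ) + Y) / 2, by omega⟩
  have hks : (((k * M : ℕ) : ℤ)) + ((k * Y : ℕ) : ℤ) = 2 * (k * s) := by
    push_cast
    rw [← mul_add, hs2]; ring
  have hc1 : ((n - k * M : ℕ) : ℝ) = n - k * M := by rw [Nat.cast_sub hkMn]; push_cast; rfl
  have hc2 : ((x - k * Y : ℕ) : ℝ) = x - k * Y := by
    rw [Nat.cast_sub (by omega)]; push_cast; rfl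
  have h5 := hcr (n - k * M) (x - k * Y) (by omega) (by
    rw [hc1, hc2]
    have h1 : (k : ℝ) * D = k * Y - speed p * (k * M) := by rw [hD]; ring
    have h3 : speed p * (n - k * M) = speed p * n - speed p * (k * M) := by ring
    linarith only [hk1']) (by
    have h6 : ((n - k * M : ℕ) : ℤ) = n - ((k * M : ℕ) : ℤ) := by omega
    have h7 : ((x - k * Y : ℕ) : ℤ) = x - ((k * Y : ℕ) : ℤ) := by omega
    have h8 : (((n - k * M) + (x - k * Y) : ℕ) : ℤ) % 2 = 0 := by
      push_cast [h6, h7]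
      push_cast at hks
      omega
    omega)
  have h6 := Hm_mul p (k * M) (n - k * M) ((k * Y : ℕ) : ℤ) ((x - k * Y : ℕ) : ℤ)
  have h7 : k * M + (n - k * M) = n := by omega
  have h8 : ((k * Y : ℕ) : ℤ) + ((x - k * Y : ℕ) : ℤ) = x := by omega
  rw [h7, h8] at h6
  refine le_trans ?_ (h6.trans (Hm_le_Zm p n x))
  have h9 : ENNReal.ofReal (Real.exp (-((RF p θ + ε / 2) * n))) ≤ Bm p (k * M) ((k * Y : ℕ) : ℤ) := by
    refine le_trans ?_ (Bm_pow p M Y k)
    refine le_trans ?_ (pow_le_pow_left' hB k)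
    rw [← ENNReal.ofReal_pow (Real.exp_pos _).le, ← Real.exp_nat_mul]
    apply ENNReal.ofReal_le_ofReal
    apply Real.exp_le_exp.2
    have h10 : (k : ℝ) * M ≤ n := by
      have : ((k * M : ℕ) : ℝ) ≤ n := by exact_mod_cast hkMn
      push_cast at this
      exact this
    have h11 : (RF p θ + ε / 2) * (k * M) ≤ (RF p θ + ε / 2) * n := by gcongr
    have h12 : (k : ℝ) * -((RF p θ + ε / 2) * M) = -((RF p θ + ε / 2) * (k * M)) := by ring
    rw [h12]
    linarith only [h11]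
  refine le_trans ?_ (mul_le_mul' h9 h5)
  rw [← ENNReal.ofReal_mul (Real.exp_pos _).le, ← Real.exp_add]
  apply ENNReal.ofReal_le_ofReal
  apply Real.exp_le_exp.2
  have h13 : C * ((n - k * M : ℕ) : ℝ) ^ (1 - p.κ) ≤ ε / 2 * n := by
    have h1κ : 0 < 1 - p.κ := by linarith only [hκ1]
    calc C * ((n - k * M : ℕ) : ℝ) ^ (1 - p.κ) ≤ C * (n : ℝ) ^ (1 - p.κ) := by
          gcongr
          exact_mod_cast Nat.sub_le n (k * M)
      _ ≤ (ε / 2 * (n : ℝ) ^ p.κ) * (n : ℝ) ^ (1 - p.κ) := by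
          gcongr
          rw [div_le_iff₀ hε] at f2
          linarith only [f2]
      _ = ε / 2 * n := by
          rw [mul_assoc, ← Real.rpow_add hn]
          have : p.κ + (1 - p.κ) = 1 := by ring
          rw [this, Real.rpow_one]
  linarith only [h13]

lemma tendsto_log_of_bounds {f : ℕ → ℝ} {J : ℝ} (S : Set ℕ)
    (h : ∀ ε : ℝ, 0 < ε → ∀ᶠ n : ℕ in atTop, n ∈ S → Real.exp (-((J + ε) * n)) ≤ f n ∧
      f n ≤ Real.exp (-((J - ε) * n))) :
    Tendsto (fun n : ℕ => Real.log (f n) / (n : ℝ)) (atTop ⊓ 𝓟 S) (𝓝 (-J)) := by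
  rw [Metric.tendsto_nhds]
  intro ε hε
  rw [eventually_inf_principal]
  filter_upwards [h (ε / 2) (half_pos hε), eventually_gt_atTop 0] with n h1 hn hS
  obtain ⟨h2, h3⟩ := h1 hS
  have hn' : (0 : ℝ) < n := by exact_mod_cast hn
  have hpos := lt_of_lt_of_le (Real.exp_pos _) h2
  have h4 := (Real.le_log_iff_exp_le hpos).2 h2
  have h5 := (Real.log_le_iff_le_exp hpos).2 h3
  rw [Real.dist_eq, abs_lt]
  constructor
  · have : -(J + ε / 2) ≤ Real.log (f n) / (n : ℝ) := by rw [le_div_iff₀ hn']; linarith only [h4]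
    linarith only [hε, this]
  · have : Real.log (f n) / (n : ℝ) ≤ -(J - ε / 2) := by rw [div_le_iff₀ hn']; linarith only [h5]
    linarith only [hε, this]

lemma const_le_exp {K ε : ℝ} (hε : 0 < ε) : ∀ᶠ n : ℕ in atTop, K ≤ Real.exp (ε * n) := by
  filter_upwards [eventually_ge_real hε K] with n hn
  linarith [Real.add_one_le_exp (ε * (n : ℝ))]

lemma Czz_one_le (p : Par) : 1 ≤ (Czz p).toReal := by
  rw [← ENNReal.toReal_one]
  exact ENNReal.toReal_mono (Czz_ne_top p) ((one_le_Z p 0).trans (mass_length_le_Czz p 0))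

lemma BG_lower (p : Par) {θ ε : ℝ} (hθ : θ ≤ 1) (hε : 0 < ε) : ∀ᶠ n : ℕ in atTop,
    Real.exp (-((RF p θ + ε) * n)) ≤ (BG p n (θ * n)).toReal := by
  filter_upwards [(RF_tendsto p hθ).eventually (gt_mem_nhds (show RF p θ < RF p θ + ε by linarith)),
    eventually_gt_atTop 0] with n hn hn0
  have hn' : (0 : ℝ) < n := by exact_mod_cast hn0
  have hx : θ * (n : ℝ) ≤ n := by nlinarith only [hθ]
  rw [div_lt_iff₀ hn'] at hn
  rw [← Real.le_log_iff_exp_le (BG_toReal_pos p hx)]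
  linarith

/-- exponential rate of the tails -/
theorem fast_tail (p : Par) {θ : ℝ} (hθ : θ ≤ 1) :
    Tendsto (fun n : ℕ =>
      Real.log (prob p.β p.κ n {w | θ * n ≤ ((|w (Fin.last n)| : ℤ) : ℝ)}) / (n : ℝ))
      atTop (𝓝 (-RF p θ)) := by
  have h := tendsto_log_of_bounds
    (f := fun n : ℕ => prob p.β p.κ n {w | θ * n ≤ ((|w (Fin.last n)| : ℤ) : ℝ)})
    (J := RF p θ) Set.univ (by
      intro ε hε
      obtain ⟨K, hK, hup⟩ := tail_upper p hθ
      filter_upwards [BG_lower p hθ (half_pos hε), const_le_exp (K := (Czz p).toReal) (half_pos hε),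
        const_le_exp (K := K) hε] with n h1 h2 h3 _
      have hC := Czz_one_le p
      constructor
      · refine le_trans ?_ (tail_lower p θ n)
        rw [le_div_iff₀ (by linarith)]
        refine le_trans ?_ h1
        calc Real.exp (-((RF p θ + ε) * n)) * (Czz p).toReal
            ≤ Real.exp (-((RF p θ + ε) * n)) * Real.exp (ε / 2 * n) := by gcongr
          _ = _ := by rw [← Real.exp_add]; congr 1; ring
      · refine (hup n).trans ?_
        calc K * Real.exp (-(RF p θ * n)) ≤ Real.exp (ε * n) * Real.exp (-(RF p θ * n)) := by gcongr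
          _ = _ := by rw [← Real.exp_add]; congr 1; ring)
  simpa using h

/-- exponential rate of the end-point probabilities -/
theorem fast_point (p : Par) {θ : ℝ} (hs : speed p < θ) (hθ : θ ≤ 1) :
    Tendsto (fun n : ℕ =>
      Real.log (prob p.β p.κ n {w | w (Fin.last n) = ⌈θ * n⌉}) / (n : ℝ))
      (atTop ⊓ 𝓟 {n : ℕ | (⌈θ * n⌉ - (n : ℤ)) % 2 = 0}) (𝓝 (-RF p θ)) := by
  apply tendsto_log_of_bounds
  intro ε hε
  obtain ⟨K, hK, hup⟩ := tail_upper p hθ
  have hlow : ∀ᶠ n : ℕ in atTop, (⌈θ * n⌉ - (n : ℤ)) % 2 = 0 →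
      ENNReal.ofReal (Real.exp (-((RF p θ + ε / 2) * n))) ≤ Zm p n ⌈θ * n⌉ := by
    rcases hθ.eq_or_lt with rfl | h1
    · filter_upwards [BG_lower p le_rfl (half_pos hε)] with n hn _
      have h2 : BG p n (1 * n) ≤ Zm p n ⌈(1 : ℝ) * n⌉ := by
        apply mass_mono
        rintro l ⟨_, h2, h3⟩
        refine ⟨h2, ?_⟩
        rw [one_mul] at h3
        have h4 : (n : ℤ) ≤ ed l := by exact_mod_cast h3
        have h5 := (abs_le.1 (abs_ed_le l)).2
        rw [one_mul, Int.ceil_natCast]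
        omega
      refine le_trans ?_ h2
      rw [← ENNReal.ofReal_toReal (BG_ne_top p n (1 * n))]
      exact ENNReal.ofReal_le_ofReal hn
    · exact point_lower p hs h1 (half_pos hε)
  filter_upwards [hlow, const_le_exp (K := (Czz p).toReal) (half_pos hε),
    const_le_exp (K := K) hε] with n h1 h2 h3 hpar
  have hC := Czz_one_le p
  constructor
  · have h4 := ENNReal.toReal_mono (mass_ne_top p n (fun l => ed l = ⌈θ * n⌉)) (h1 hpar)
    rw [ENNReal.toReal_ofReal (Real.exp_pos _).le] at h4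
    refine le_trans ?_ (le_prob p n (fun x => x = ⌈θ * n⌉))
    rw [le_div_iff₀ (by linarith)]
    refine le_trans ?_ h4
    calc Real.exp (-((RF p θ + ε) * n)) * (Czz p).toReal
        ≤ Real.exp (-((RF p θ + ε) * n)) * Real.exp (ε / 2 * n) := by gcongr
      _ = _ := by rw [← Real.exp_add]; congr 1; ring
  · have h4 : prob p.β p.κ n {w | w (Fin.last n) = ⌈θ * n⌉} ≤
        prob p.β p.κ n {w | θ * n ≤ ((|w (Fin.last n)| : ℤ) : ℝ)} := by
      rw [prob_eq_mass p n (fun x => x = ⌈θ * n⌉),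
        prob_eq_mass p n (fun x => θ * n ≤ ((|x| : ℤ) : ℝ))]
      apply div_le_div_of_nonneg_right _ ENNReal.toReal_nonneg
      apply ENNReal.toReal_mono (mass_ne_top p n _)
      apply mass_mono
      rintro l ⟨g1, g2⟩
      refine ⟨g1, ?_⟩
      rw [g2]
      refine (Int.le_ceil _).trans ?_
      exact_mod_cast le_abs_self _
    refine h4.trans ((hup n).trans ?_)
    calc K * Real.exp (-(RF p θ * n)) ≤ Real.exp (ε * n) * Real.exp (-(RF p θ * n)) := by gcongr
      _ = _ := by rw [← Real.exp_add]; congr 1; ring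

end Pool.Agent.Helper98.Elastic
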