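import Mathlib
import Pool.Agent.Helper98.Elastic.End1
import Pool.Agent.Helper98.Elastic.Upper4

/-!
# Long irreducible bridges are slow
-/

open Finset Filter Topology
open scoped ENNReal

namespace Pool.Agent.Helper98.Elastic

/-- the piece has a cut in its middle third -/
def cutw (h : ℕ) (l : List Bool) : Prop :=
  ∃ c₁ c₂, l = c₁ ++ c₂ ∧ (∀ i ≤ c₁.length, pos c₁ i ≤ ed c₁) ∧ Half c₂ ∧
    (h : ℤ) ≤ 3 * ed c₁ ∧ 3 * ed c₁ ≤ 2 * h

/-- good pieces -/
def Gd (p : Par) (ε : ℝ) (h : ℕ) (l : List Bool) : Prop :=
  cutw h l ∧ (∀ i ≤ l.length, -(h : ℤ) < 3 * pos l i) ∧ (1 - ε) / speed p * h ≤ l.length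

lemma exists_cutpt (L : List IB) (y : ℕ) (hy : y ≤ sl span L) (hy0 : 0 < y) :
    ∃ L₁ b L₂, L = L₁ ++ b :: L₂ ∧ sl span L₁ < y ∧ y ≤ sl span L₁ + span b := by
  induction L generalizing y with
  | nil => simp at hy; omega
  | cons a L ih =>
    rw [sl_cons] at hy
    rcases Nat.lt_or_ge (span a) y with h | h
    · obtain ⟨L₁, b, L₂, h1, h2, h3⟩ := ih (y - span a) (by omega) (by omega)
      exact ⟨a :: L₁, b, L₂, by rw [h1]; rfl, by rw [sl_cons]; omega, by rw [sl_cons]; omega⟩
    · exact ⟨[], a, L, rfl, by simpa using hy0, by simpa using h⟩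

lemma tendsto_not_Gd (p : Par) {ε : ℝ} (hε : 0 < ε) :
    Tendsto (fun h : ℕ => mass p (fun l => Rec l ∧ ed l = h ∧ ¬ Gd p ε h l)) atTop (𝓝 0) := by
  apply rec_tendsto p (fun h l => ¬ Gd p ε h l)
  intro v hv
  have hs := speed_pos p
  have hs1 := speed_lt_one p
  have hedv : 0 ≤ ed v := by have := hv v.length le_rfl; rwa [pos_length] at this
  obtain ⟨a, ha⟩ := Int.eq_ofNat_of_zero_le hedv
  have hav : a ≤ v.length := by
    have := ed_le_length v
    omega
  have h2 : Tendsto (fun h : ℕ => h + a) atTop atTop :=
    tendsto_atTop_mono (fun h => by simp only [id]; omega) tendsto_id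
  have h3 := ((lln_bridge_span p (ε / 2) (by positivity)).comp h2).add ((big_letter p).comp h2)
  rw [add_zero] at h3
  refine tendsto_of_tendsto_of_tendsto_of_le_of_le' tendsto_const_nhds h3
    (Eventually.of_forall fun _ => zero_le) ?_
  filter_upwards [eventually_gt_atTop (3 * v.length)] with h hh
  have hh0 : 0 < h := by omega
  simp only [Function.comp]
  apply mass_or_le
  rintro r ⟨e1, e2, e3, e4⟩
  have hedr : ed r = ((h + a : ℕ) : ℤ) := by rw [e3, ha]; push_cast; ring
  by_cases hslow : (1 - ε) / speed p * h ≤ r.length
  · right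
    refine ⟨e1, hedr, ?_⟩
    obtain ⟨L, hL⟩ := bfac.exists_fac r.length r e1 rfl
    refine ⟨L, hL, ?_⟩
    have hsl : sl span L = h + a := by
      have := pr_ed L
      rw [hL, hedr] at this
      exact_mod_cast this.symm
    by_contra hcon
    push Not at hcon
    apply e4
    obtain ⟨L₁, b, L₂, f1, f2, f3⟩ := exists_cutpt L (a + (h + 2) / 3) (by omega) (by omega)
    have f4 := hcon b (by rw [f1]; simp)
    have f5 : sl span (L₁ ++ [b]) = sl span L₁ + span b := by
      rw [sl_append, sl_cons, sl_nil, add_zero]
    have hv1 : ∀ i ≤ v.length, |pos (neg v.reverse) i| ≤ v.length := by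
      intro i hi
      exact (abs_pos_le _ i).trans (by exact_mod_cast hi)
    have hvl : (neg v.reverse).length = v.length := by simp
    have hve : ed (neg v.reverse) = -a := by rw [ed_neg, ed_reverse, ha]
    refine ⟨⟨neg v.reverse ++ bfac.pr (L₁ ++ [b]), bfac.pr L₂, ?_, ?_, ?_, ?_, ?_⟩, ?_, ?_⟩
    · rw [List.append_assoc]
      congr 1
      rw [← hL, f1, show L₁ ++ b :: L₂ = (L₁ ++ [b]) ++ L₂ by simp]
      exact bfac.pr_append _ _
    · intro i hi
      rw [ed_append, hve, pr_ed, f5]
      rw [List.length_append, hvl] at hi
      rcases le_or_gt i v.length with h1 | h1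
      · rw [pos_append_left _ _ (by rw [hvl]; exact h1)]
        have := (abs_le.1 (hv1 i h1)).2
        push_cast
        omega
      · obtain ⟨j, rfl⟩ : ∃ j, i = (neg v.reverse).length + j := ⟨i - v.length, by
          rw [hvl]; omega⟩
        rw [pos_append_right, hve]
        rw [hvl] at hi
        have := (bfac.pr_B (L₁ ++ [b])).2 j (by omega)
        rw [pr_ed, f5] at this
        linarith
    · exact (bfac.pr_B L₂).1
    · rw [ed_append, hve, pr_ed, f5]; push_cast; omega
    · rw [ed_append, hve, pr_ed, f5]; push_cast; omega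
    · intro i hi
      rw [List.length_append, hvl] at hi
      rcases le_or_gt i v.length with h1 | h1
      · rw [pos_append_left _ _ (by rw [hvl]; exact h1)]
        have := (abs_le.1 (hv1 i h1)).1
        omega
      · obtain ⟨j, rfl⟩ : ∃ j, i = (neg v.reverse).length + j := ⟨i - v.length, by
          rw [hvl]; omega⟩
        rw [pos_append_right, hve]
        rw [hvl] at hi
        have := e1.1.nn j (by omega)
        omega
    · rw [List.length_append]
      push_cast
      have : (0 : ℝ) ≤ ((neg v.reverse).length : ℝ) := Nat.cast_nonneg _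
      linarith
  · left
    refine ⟨e1, hedr, ?_⟩
    rw [lt_abs]
    right
    rw [not_le] at hslow
    push_cast
    have h5 : 1 / speed p * ((h : ℝ) + a) = (1 - ε) / speed p * h + ε / speed p * h +
      1 / speed p * a := by ring
    have h6 : ε / 2 * ((h : ℝ) + a) < ε / speed p * h := by
      have h7 : (a : ℝ) ≤ h := by
        have : a ≤ h := by omega
        exact_mod_cast this
      have h8 : (0 : ℝ) < h := by exact_mod_cast hh0
      have h9 : ε * h < ε / speed p * h := by
        gcongr
        rw [lt_div_iff₀ hs]
        nlinarith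
      nlinarith
    have h7 : 0 ≤ 1 / speed p * (a : ℝ) := by positivity
    linarith

/-! ### records -/

lemma exists_recs {h : ℕ} (hh : 0 < h) (J : ℕ) : ∀ l : List Bool, ((J * h : ℕ) : ℤ) ≤ ed l →
    ∃ (P : List (List Bool)) (r : List Bool), l = P.flatten ++ r ∧ P.length = J ∧
      ∀ q ∈ P, Rec q ∧ ed q = h := by
  induction J with
  | zero => intro l _; exact ⟨[], l, rfl, rfl, by simp⟩
  | succ J ih =>
    intro l hl
    have e0 : ((J + 1) * h : ℕ) = J * h + h := by ring
    rw [e0] at hl
    push_cast at hl
    have e1 : (0 : ℤ) ≤ (J : ℤ) * h := by positivity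
    have hex : ∃ i, i ≤ l.length ∧ pos l i = h :=
      ivt_pos l h l.length (by omega) (by rw [pos_length]; omega)
    classical
    obtain ⟨hi, hpi⟩ := Nat.find_spec hex
    have hmin : ∀ j < Nat.find hex, pos l j < h := by
      intro j hj
      by_contra hcon
      rw [not_lt] at hcon
      obtain ⟨j', hj', hp'⟩ := ivt_pos l h j (by omega) hcon
      exact Nat.find_min hex (lt_of_le_of_lt hj' hj) ⟨by omega, hp'⟩
    set i := Nat.find hex with hidef
    obtain ⟨P, r, g1, g2, g3⟩ := ih (l.drop i) (by
      rw [ed_drop l hi, hpi]; push_cast; omega)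
    refine ⟨l.take i :: P, r, ?_, by rw [List.length_cons, g2], ?_⟩
    · rw [List.flatten_cons, List.append_assoc, ← g1, List.take_append_drop]
    · intro q hq
      rcases List.mem_cons.1 hq with rfl | hq
      · refine ⟨?_, by rw [ed_take]; exact hpi⟩
        intro j hj
        rw [List.length_take] at hj
        rw [pos_take l (by omega), ed_take, hpi]
        exact hmin j (by omega)
      · exact g3 q hq

open Classical in
/-- cost of a piece -/
noncomputable def kp (p : Par) (ε : ℝ) (h : ℕ) (q : List Bool) : ℕ :=
  if Gd p ε h q then 0 else DD h q + 1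

lemma cover_count (p : Par) (ε : ℝ) {h : ℕ} (hh : 0 < h) {b r : List Bool} (hb : bfac.Irr b)
    (P : List (List Bool)) : ∀ Pre : List Bool, (∀ q ∈ P, Rec q ∧ ed q = h) →
    (∀ i ≤ Pre.length, pos Pre i ≤ ed Pre) → Pre ++ (P.flatten ++ r) = b →
    P.length + DD h (P.flatten ++ r) ≤ (P.map (kp p ε h)).sum + DD h r := by
  induction P with
  | nil => intro Pre _ _ _; simp
  | cons q P ih =>
    intro Pre hP hPre hb'
    set T := P.flatten ++ r with hT
    have hq := hP q List.mem_cons_self
    have hh' : (0 : ℤ) < h := by exact_mod_cast hh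
    have e1 : (q :: P).flatten ++ r = q ++ T := by rw [hT]; simp
    have hPre' : ∀ i ≤ (Pre ++ q).length, pos (Pre ++ q) i ≤ ed (Pre ++ q) := by
      intro i hi
      rw [List.length_append] at hi
      rw [ed_append, hq.2]
      rcases le_or_gt i Pre.length with h1 | h1
      · rw [pos_append_left _ _ h1]
        have := hPre i h1
        omega
      · obtain ⟨j, rfl⟩ : ∃ j, i = Pre.length + j := ⟨i - Pre.length, by omega⟩
        rw [pos_append_right]
        rcases Nat.lt_or_ge j q.length with h2 | h2
        · have := hq.1 j h2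
          rw [hq.2] at this
          omega
        · rw [pos_ge q h2, hq.2]
    have i1 := ih (Pre ++ q) (fun q' hq' => hP q' (List.mem_cons_of_mem _ hq')) hPre'
      (by rw [← hb', e1, List.append_assoc])
    rw [e1, List.length_cons, List.map_cons, List.sum_cons]
    have i2 := DD_append (T := T) hh hq.2
    by_cases hg : Gd p ε h q
    · have hk : kp p ε h q = 0 := if_pos hg
      have hDq : DD h q = 0 := DD_eq_zero hg.2.1
      have hDT : DD h T ≠ 0 := by
        intro hT0
        have hTpos := of_DD_eq_zero hh hT0
        obtain ⟨c₁, c₂, f1, f2, f3, f4, f5⟩ := hg.1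
        have hbri : Bri b := hb.1
        have hbeq : b = (Pre ++ c₁) ++ (c₂ ++ T) := by
          rw [← hb', e1, f1]; simp
        have hedc : ed c₁ + ed c₂ = h := by rw [← ed_append, ← f1]; exact hq.2
        have hc1 : 0 ≤ ed c₁ := by omega
        have hA : Bri (Pre ++ c₁) := by
          constructor
          · intro i hi1 hi2
            have := hbri.1 i hi1 (by rw [hbeq, List.length_append]; omega)
            rw [hbeq, pos_append_left _ _ hi2] at this
            exact this
          · intro i hi
            rw [List.length_append] at hi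
            rw [ed_append]
            rcases le_or_gt i Pre.length with h1 | h1
            · rw [pos_append_left _ _ h1]
              have := hPre i h1
              omega
            · obtain ⟨j, rfl⟩ : ∃ j, i = Pre.length + j := ⟨i - Pre.length, by omega⟩
              rw [pos_append_right]
              have := f2 j (by omega)
              omega
        have hB : Bri (c₂ ++ T) := by
          constructor
          · intro i hi1 hi2
            rw [List.length_append] at hi2
            rcases le_or_gt i c₂.length with h1 | h1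
            · rw [pos_append_left _ _ h1]
              exact f3 i hi1 h1
            · obtain ⟨j, rfl⟩ : ∃ j, i = c₂.length + j := ⟨i - c₂.length, by omega⟩
              rw [pos_append_right]
              have := hTpos j (by omega)
              omega
          · intro i hi
            have hlb : b.length = (Pre ++ c₁).length + (c₂ ++ T).length := by
              rw [hbeq, List.length_append]
            have := hbri.2 ((Pre ++ c₁).length + i) (by omega)
            rw [hbeq, pos_append_right, ed_append (Pre ++ c₁)] at this
            omega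
        rcases hb.2.2 _ _ hA hB hbeq with h1 | h1
        · have h2 : Pre ++ c₁ = [] := h1
          have h3 : c₁ = [] := (List.append_eq_nil_iff.1 h2).2
          rw [h3, ed_nil] at f4
          omega
        · have h2 : c₂ ++ T = [] := h1
          have h3 : c₂ = [] := (List.append_eq_nil_iff.1 h2).1
          rw [h3, ed_nil] at hedc
          omega
      rw [hk]
      rw [hDq] at i2
      omega
    · have hk : kp p ε h q = DD h q + 1 := if_neg hg
      rw [hk]
      have := max_le_add_of_nonneg (Nat.zero_le (DD h q)) (Nat.zero_le (DD h T - 1))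
      omega

end Pool.Agent.Helper98.Elastic
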