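import Mathlib
import Pool.Agent.Helper98.Elastic.End2
import Pool.Agent.Helper98.Elastic.Lower4
import Pool.Agent.Helper98.Elastic.Upper7

/-!
# Long irreducible bridges are slow: the estimate
-/

open Finset Filter Topology
open scoped ENNReal

namespace Pool.Agent.Helper98.Elastic

/-- exponent of a piece -/
noncomputable def ex1 (p : Par) (a c₁ ε : ℝ) (h : ℕ) (q : List Bool) : ℝ :=
  -(a * q.length / h) + a * c₁ + a * kp p ε h q - a

/-- tilted weight of a record piece -/
noncomputable def wp (p : Par) (a c₁ ε : ℝ) (h : ℕ) (q : List Bool) : ℝ≥0∞ :=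
  ic (Rec q ∧ ed q = h) (W p q) * ENNReal.ofReal (Real.exp (ex1 p a c₁ ε h q))

lemma wp_sum (p : Par) (a c₁ ε : ℝ) (h : ℕ) (P : List (List Bool))
    (hP : ∀ q ∈ P, Rec q ∧ ed q = h) :
    W p P.flatten * ENNReal.ofReal (Real.exp (-(a * P.flatten.length / h) +
      (a * c₁ - a) * P.length + a * ((P.map (kp p ε h)).sum : ℕ))) ≤ wl (wp p a c₁ ε h) P := by
  induction P with
  | nil => simp [W_nil]
  | cons q P ih =>
    have h2 := ih (fun b hb => hP b (List.mem_cons_of_mem _ hb))
    rw [wl_cons, List.flatten_cons, List.map_cons, List.sum_cons, List.length_append,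
      List.length_cons]
    have h3 : Real.exp (-(a * ((q.length + P.flatten.length : ℕ) : ℝ) / h) +
        (a * c₁ - a) * ((P.length + 1 : ℕ) : ℝ) +
        a * ((kp p ε h q + (P.map (kp p ε h)).sum : ℕ) : ℝ)) =
        Real.exp (ex1 p a c₁ ε h q) * Real.exp (-(a * P.flatten.length / h) +
      (a * c₁ - a) * P.length + a * ((P.map (kp p ε h)).sum : ℕ)) := by
      rw [← Real.exp_add]; congr 1; unfold ex1; push_cast; ring
    rw [h3, ENNReal.ofReal_mul (Real.exp_pos _).le]
    unfold wp at h2 ⊢
    rw [ic_pos (hP q List.mem_cons_self)]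
    calc W p (q ++ P.flatten) * (ENNReal.ofReal (Real.exp (ex1 p a c₁ ε h q)) *
          ENNReal.ofReal (Real.exp (-(a * P.flatten.length / h) +
      (a * c₁ - a) * P.length + a * ((P.map (kp p ε h)).sum : ℕ))))
        ≤ (W p q * W p P.flatten) * (ENNReal.ofReal (Real.exp (ex1 p a c₁ ε h q)) *
          ENNReal.ofReal (Real.exp (-(a * P.flatten.length / h) +
      (a * c₁ - a) * P.length + a * ((P.map (kp p ε h)).sum : ℕ)))) := by
          gcongr
          exact W_append_le p _ _
      _ = (W p q * ENNReal.ofReal (Real.exp (ex1 p a c₁ ε h q))) * (W p P.flatten *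
          ENNReal.ofReal (Real.exp (-(a * P.flatten.length / h) +
      (a * c₁ - a) * P.length + a * ((P.map (kp p ε h)).sum : ℕ)))) := by ring
      _ ≤ _ := by gcongr

lemma tsum_wp_le (p : Par) {a c₁ : ℝ} (ha : 0 < a) (hc : c₁ ≤ 1 / speed p + 1 / 4) {h : ℕ}
    (hh : 0 < h) :
    ∑' q, wp p a c₁ (speed p / 4) h q ≤ CV p * ENNReal.ofReal (Real.exp (-(a / 2))) +
      mass p (fun l => Rec l ∧ ed l = h ∧ ¬ Gd p (speed p / 4) h l) *
        ENNReal.ofReal (Real.exp (a * c₁ + a)) := by
  have hs := speed_pos p
  have hh0 : (0 : ℝ) < h := by exact_mod_cast hh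
  have hh' : (0 : ℤ) < h := by exact_mod_cast hh
  calc ∑' q, wp p a c₁ (speed p / 4) h q
      ≤ ∑' q, (ic (Rec q ∧ ed q = h) (W p q) * ENNReal.ofReal (Real.exp (-(a / 2))) +
        ic (Rec q ∧ ed q = h ∧ ¬ Gd p (speed p / 4) h q) (W p q) *
          ENNReal.ofReal (Real.exp (a * c₁ + a))) := by
        apply ENNReal.tsum_le_tsum
        intro q
        unfold wp
        by_cases hq : Rec q ∧ ed q = h
        · rw [ic_pos hq]
          by_cases hg : Gd p (speed p / 4) h q
          · refine le_trans ?_ le_self_add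
            gcongr
            unfold ex1
            have hk : kp p (speed p / 4) h q = 0 := if_pos hg
            rw [hk]
            have h1 := hg.2.2
            have h2 : (1 - speed p / 4) / speed p = 1 / speed p - 1 / 4 := by field_simp
            rw [h2] at h1
            have h3 : 1 / speed p - 1 / 4 ≤ q.length / h := by
              rw [le_div_iff₀ hh0]; exact h1
            have h4 : a * q.length / h = a * (q.length / h) := by ring
            rw [h4]
            have h5 : a * (1 / speed p - 1 / 4) ≤ a * (q.length / h) := by gcongr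
            have h6 : a * c₁ ≤ a * (1 / speed p + 1 / 4) := by gcongr
            push_cast
            linarith only [h5, h6]
          · refine le_trans ?_ le_add_self
            rw [ic_pos ⟨hq.1, hq.2, hg⟩]
            gcongr
            unfold ex1
            have hk : kp p (speed p / 4) h q = DD h q + 1 := if_neg hg
            rw [hk]
            have h1 := DD_le q hh
            have h4 : a * q.length / h = a * (q.length / h) := by ring
            rw [h4]
            have h5 : a * (DD h q : ℝ) ≤ a * (q.length / h + 1) := by gcongr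
            push_cast
            linarith
        · rw [ic_neg hq, zero_mul]; exact zero_le
    _ = mass p (fun l => Rec l ∧ ed l = h) * ENNReal.ofReal (Real.exp (-(a / 2))) +
      mass p (fun l => Rec l ∧ ed l = h ∧ ¬ Gd p (speed p / 4) h l) *
        ENNReal.ofReal (Real.exp (a * c₁ + a)) := by
        rw [ENNReal.tsum_add, ENNReal.tsum_mul_right, ENNReal.tsum_mul_right, mass_eq_ic,
          mass_eq_ic]
    _ ≤ _ := by
        gcongr
        exact rec_mass_le p h hh'

lemma ofReal_mul3 {x A B C : ℝ} (hx : 0 ≤ x) (hA : 0 ≤ A) (hB : 0 ≤ B) (hC : 0 ≤ C) :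
    ENNReal.ofReal (x ^ 2 * (A * B * C)) =
      ENNReal.ofReal x ^ 2 * (ENNReal.ofReal A * ENNReal.ofReal B * ENNReal.ofReal C) := by
  rw [ENNReal.ofReal_mul (by positivity), ENNReal.ofReal_mul (by positivity),
    ENNReal.ofReal_mul hA, ENNReal.ofReal_pow hx]

/-- long irreducible bridges with a speed close to the typical speed are exponentially rare -/
theorem irr_fast (p : Par) : ∃ ε' c : ℝ, 0 < ε' ∧ ε' < speed p ∧ 0 < c ∧ ∀ᶠ k : ℕ in atTop,
    mass p (fun b => bfac.Irr b ∧ b.length = k ∧ (speed p - ε') * k ≤ (ed b : ℝ)) ≤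
      ENNReal.ofReal (Real.exp (-(c * k))) := by
  have hs := speed_pos p
  have hs1 := speed_lt_one p
  set ε' : ℝ := speed p ^ 2 / 8 with hε'
  have hε0 : 0 < ε' := by positivity
  have hεs : ε' < speed p := by rw [hε']; nlinarith
  have hse : 0 < speed p - ε' := by linarith
  set c₁ : ℝ := 1 / (speed p - ε') with hc₁
  have hc₁0 : 0 < c₁ := by positivity
  have hc₁1 : c₁ ≤ 1 / speed p + 1 / 4 := by
    rw [hc₁, div_add_div _ _ hs.ne' (by norm_num), div_le_div_iff₀ hse (by positivity), hε']
    nlinarith only [hs1]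
  set V : ℝ := (CV p).toReal with hV
  have hVE : CV p = ENNReal.ofReal V := (ENNReal.ofReal_toReal (CV_ne_top p)).symm
  have hV1 : 1 ≤ V := by
    have := ENNReal.toReal_mono (CV_ne_top p) (one_le_CV p)
    simpa using this
  set a : ℝ := 2 * Real.log (4 * V) with ha
  have ha0 : 0 < a := by
    have := Real.log_pos (show 1 < 4 * V by linarith)
    linarith
  have hexp : CV p * ENNReal.ofReal (Real.exp (-(a / 2))) ≤ 1 / 4 := by
    have h1 : Real.exp (-(a / 2)) = 1 / (4 * V) := by
      rw [ha, show -(2 * Real.log (4 * V) / 2) = -Real.log (4 * V) by ring, Real.exp_neg,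
        Real.exp_log (by positivity), one_div]
    rw [h1, hVE, ← ENNReal.ofReal_mul (by positivity)]
    have h2 : V * (1 / (4 * V)) = 1 / 4 := by field_simp
    rw [h2, ENNReal.ofReal_div_of_pos (by norm_num)]
    simp
  have hlim : Tendsto (fun h : ℕ =>
      mass p (fun l => Rec l ∧ ed l = h ∧ ¬ Gd p (speed p / 4) h l) *
        ENNReal.ofReal (Real.exp (a * c₁ + a))) atTop (𝓝 0) := by
    have := ENNReal.Tendsto.mul_const (tendsto_not_Gd p (show 0 < speed p / 4 by positivity))
      (b := ENNReal.ofReal (Real.exp (a * c₁ + a))) (Or.inr ENNReal.ofReal_ne_top)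
    rwa [zero_mul] at this
  obtain ⟨h, hh1, hh⟩ := ((hlim.eventually (gt_mem_nhds
    (show (0 : ℝ≥0∞) < 1 / 4 by simp))).and (eventually_gt_atTop 0)).exists
  have hh0 : (0 : ℝ) < h := by exact_mod_cast hh
  have hq : ∑' q, wp p a c₁ (speed p / 4) h q ≤ 1 / 2 := by
    refine (tsum_wp_le p ha0 hc₁1 hh).trans ?_
    calc _ ≤ (1 / 4 + 1 / 4 : ℝ≥0∞) := add_le_add hexp hh1.le
      _ = 1 / 2 := by
          rw [← two_mul, ← mul_div_assoc, mul_one]
          rw [show (4 : ℝ≥0∞) = 2 * 2 by norm_num]
          rw [ENNReal.div_eq_div_iff] <;> norm_num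
  set ε := speed p / 4 with hε
  set c : ℝ := Real.log 2 * (speed p - ε') / h / 2 with hcdef
  have hlog2 : 0 < Real.log 2 := Real.log_pos (by norm_num)
  have hc0 : 0 < c := by positivity
  set CZ : ℝ := (Czz p).toReal + 1 with hCZ
  have hCZ0 : 0 < CZ := by have := ENNReal.toReal_nonneg (a := Czz p); linarith
  have hCZle : Czz p ≤ ENNReal.ofReal CZ := by
    rw [← ENNReal.ofReal_toReal (Czz_ne_top p)]
    apply ENNReal.ofReal_le_ofReal; linarith
  refine ⟨ε', c, hε0, hεs, hc0, ?_⟩
  have ev := poly_le_exp 2 (B := c) (a := 1)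
    (c := 1 / (CZ * Real.exp a * Real.exp (a * c₁) * 2)) hc0 one_pos (by positivity)
  filter_upwards [ev] with k hk
  rw [Real.rpow_one] at hk
  -- the sum over the decompositions
  have main : mass p (fun b => bfac.Irr b ∧ b.length = k ∧ (speed p - ε') * k ≤ (ed b : ℝ)) ≤
      ∑' x : List (List Bool) × List Bool, ∑ J ∈ range (k + 1),
        ic ((speed p - ε') * k ≤ ((J : ℝ) + 1) * h) (ENNReal.ofReal (Real.exp (a * c₁)) *
        (ic (x.1.length = J) (wl (wp p a c₁ ε h) x.1) *
          (ic (x.2.length ≤ k) (W p x.2) * ENNReal.ofReal (Real.exp a)))) := by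
    rw [mass_eq_ic]
    apply tsum_le_of_cover _ _ (fun x : List (List Bool) × List Bool => x.1.flatten ++ x.2)
    intro b hb
    have hb' : bfac.Irr b ∧ b.length = k ∧ (speed p - ε') * k ≤ (ed b : ℝ) := by
      by_contra hcon; exact hb (ic_neg hcon _)
    obtain ⟨b1, b2, b3⟩ := hb'
    have hbri : Bri b := b1.1
    have hed := hbri.ed_nonneg
    set J := (ed b).toNat / h with hJ
    have hJ1 : J * h ≤ (ed b).toNat := Nat.div_mul_le_self _ _
    have hJ2 : (ed b).toNat < h * (J + 1) := Nat.lt_mul_div_succ _ hh
    have hedk := ed_le_length b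
    have hJk : J ≤ k := by
      have : J ≤ (ed b).toNat := Nat.div_le_self _ _
      omega
    obtain ⟨P, r, g1, g2, g3⟩ := exists_recs hh J b (by omega)
    refine ⟨(P, r), g1.symm, ?_⟩
    simp only
    have hcc := cover_count p ε hh b1 P [] g3 (by intro i hi; simp) (by rw [← g1]; rfl)
    have hJr : (speed p - ε') * k ≤ ((J : ℝ) + 1) * h := by
      refine b3.trans ?_
      have h3 : ((ed b : ℤ) : ℝ) = ((ed b).toNat : ℝ) := by
        have : ((ed b).toNat : ℤ) = ed b := Int.toNat_of_nonneg hed
        exact_mod_cast this.symm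
      rw [h3]
      have h4 : (((ed b).toNat : ℕ) : ℝ) ≤ ((h * (J + 1) : ℕ) : ℝ) := by exact_mod_cast hJ2.le
      push_cast at h4
      linarith only [h4]
    have hlen : P.flatten.length + r.length = k := by rw [← b2, g1, List.length_append]
    rw [ic_pos (⟨b1, b2, b3⟩ : bfac.Irr b ∧ b.length = k ∧ (speed p - ε') * k ≤ (ed b : ℝ))]
    refine le_trans ?_ (Finset.single_le_sum (f := fun J : ℕ =>
      ic ((speed p - ε') * k ≤ ((J : ℝ) + 1) * h) (ENNReal.ofReal (Real.exp (a * c₁)) *
        (ic (P.length = J) (wl (wp p a c₁ ε h) P) *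
          (ic (r.length ≤ k) (W p r) * ENNReal.ofReal (Real.exp a))))) (fun _ _ => zero_le)
      (Finset.mem_range.2 (Nat.lt_succ_of_le hJk)))
    rw [ic_pos hJr, ic_pos g2, ic_pos (show r.length ≤ k by omega)]
    have hw := wp_sum p a c₁ ε h P g3
    have hone : (1 : ℝ≥0∞) ≤ ENNReal.ofReal (Real.exp (a * c₁)) *
        (ENNReal.ofReal (Real.exp (-(a * P.flatten.length / h) +
      (a * c₁ - a) * P.length + a * ((P.map (kp p ε h)).sum : ℕ))) *
      ENNReal.ofReal (Real.exp a)) := by
      rw [← ENNReal.ofReal_mul (Real.exp_pos _).le, ← Real.exp_add,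
        ← ENNReal.ofReal_mul (Real.exp_pos _).le, ← Real.exp_add, ← ENNReal.ofReal_one]
      apply ENNReal.ofReal_le_ofReal
      apply Real.one_le_exp
      have k1 : (P.length : ℝ) ≤ ((P.map (kp p ε h)).sum : ℕ) + (DD h r : ℕ) := by
        have : P.length ≤ (P.map (kp p ε h)).sum + DD h r := by omega
        exact_mod_cast this
      have k2 := DD_le r hh
      have k3 : (P.flatten.length : ℝ) + r.length = k := by exact_mod_cast hlen
      have k4 : (P.length : ℝ) = J := by exact_mod_cast g2
      have k5 : (k : ℝ) / h ≤ c₁ * (J + 1) := by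
        rw [div_le_iff₀ hh0, hc₁, div_mul_eq_mul_div, one_mul, div_mul_eq_mul_div,
          le_div_iff₀ hse]
        linarith only [hJr]
      have k6 : a * ((k : ℝ) / h) ≤ a * (c₁ * (J + 1)) := by gcongr
      have k7 : a * (P.length : ℝ) ≤ a * (((P.map (kp p ε h)).sum : ℕ) +
          (r.length / h + 1)) := by
        gcongr
        linarith only [k1, k2]
      have k8 : a * P.flatten.length / h = a * (k / h) - a * (r.length / h) := by
        rw [← k3]; ring
      rw [k8]
      rw [k4] at k7 ⊢
      linarith only [k6, k7]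
    calc W p b ≤ W p P.flatten * W p r := by rw [g1]; exact W_append_le p _ _
      _ = W p P.flatten * W p r * 1 := (mul_one _).symm
      _ ≤ W p P.flatten * W p r * (ENNReal.ofReal (Real.exp (a * c₁)) *
        (ENNReal.ofReal (Real.exp (-(a * P.flatten.length / h) +
      (a * c₁ - a) * P.length + a * ((P.map (kp p ε h)).sum : ℕ))) *
      ENNReal.ofReal (Real.exp a))) := by gcongr
      _ = ENNReal.ofReal (Real.exp (a * c₁)) * ((W p P.flatten *
        ENNReal.ofReal (Real.exp (-(a * P.flatten.length / h) +
      (a * c₁ - a) * P.length + a * ((P.map (kp p ε h)).sum : ℕ)))) *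
        (W p r * ENNReal.ofReal (Real.exp a))) := by ring
      _ ≤ _ := by gcongr
  refine main.trans ?_
  rw [ennreal_tsum_finset_sum]
  have hr : ∑' r : List Bool, ic (r.length ≤ k) (W p r) ≤ (k + 1 : ℕ) * Czz p := by
    calc ∑' r : List Bool, ic (r.length ≤ k) (W p r)
        ≤ ∑' r : List Bool, ∑ m ∈ range (k + 1), ic (r.length = m) (W p r) := by
          apply ENNReal.tsum_le_tsum
          intro r
          by_cases hr : r.length ≤ k
          · refine le_trans ?_ (Finset.single_le_sum (f := fun m : ℕ =>
              ic (r.length = m) (W p r)) (fun _ _ => zero_le)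
              (Finset.mem_range.2 (Nat.lt_succ_of_le hr)))
            rw [ic_pos hr, ic_pos rfl]
          · rw [ic_neg hr]; exact zero_le
      _ = ∑ m ∈ range (k + 1), mass p (fun l => l.length = m) := by
          rw [ennreal_tsum_finset_sum]
          exact Finset.sum_congr rfl fun m _ => (mass_eq_ic p _).symm
      _ ≤ ∑ m ∈ range (k + 1), Czz p := Finset.sum_le_sum fun m _ => mass_length_le_Czz p m
      _ = _ := by rw [Finset.sum_const, Finset.card_range, nsmul_eq_mul]
  calc _ ≤ ∑ J ∈ range (k + 1), ENNReal.ofReal (Real.exp (a * c₁)) *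
        (ENNReal.ofReal (2 * Real.exp (-(2 * c * k))) *
        (((k + 1 : ℕ) * Czz p) * ENNReal.ofReal (Real.exp a))) := by
        apply Finset.sum_le_sum
        intro J _
        by_cases hJ : (speed p - ε') * k ≤ ((J : ℝ) + 1) * h
        · simp only [ic_pos hJ]
          rw [ENNReal.tsum_mul_left]
          gcongr
          rw [ENNReal.tsum_prod (f := fun (P : List (List Bool)) (r : List Bool) =>
            ic (P.length = J) (wl (wp p a c₁ ε h) P) *
            (ic (r.length ≤ k) (W p r) * ENNReal.ofReal (Real.exp a))), tsum_tsum_mul,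
            ENNReal.tsum_mul_right, tsum_wl_length]
          have h5 : (∑' q, wp p a c₁ ε h q) ^ J ≤
              ENNReal.ofReal (2 * Real.exp (-(2 * c * k))) := by
            calc (∑' q, wp p a c₁ ε h q) ^ J ≤ (1 / 2 : ℝ≥0∞) ^ J := by gcongr
              _ = ENNReal.ofReal ((1 / 2 : ℝ) ^ J) := by
                  rw [ENNReal.ofReal_pow (by norm_num)]
                  congr 1
                  rw [ENNReal.ofReal_div_of_pos (by norm_num)]; simp
              _ ≤ _ := by
                  apply ENNReal.ofReal_le_ofReal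
                  have h6 : (1 / 2 : ℝ) ^ J = 2 * Real.exp (-(((J : ℝ) + 1) * Real.log 2)) := by
                    have h7 : Real.exp (-(((J : ℝ) + 1) * Real.log 2)) = (1 / 2 : ℝ) ^ (J + 1) := by
                      rw [Real.exp_neg]
                      have : Real.exp (((J : ℝ) + 1) * Real.log 2) = 2 ^ (J + 1) := by
                        have h8 : ((J : ℝ) + 1) * Real.log 2 = ((J + 1 : ℕ) : ℝ) * Real.log 2 := by
                          push_cast; ring
                        rw [h8, Real.exp_nat_mul, Real.exp_log (by norm_num)]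
                      rw [this, one_div, inv_pow]
                    rw [h7, pow_succ]; ring
                  rw [h6]
                  apply mul_le_mul_of_nonneg_left _ (by norm_num)
                  apply Real.exp_le_exp.2
                  apply neg_le_neg
                  have h9 : (speed p - ε') * k / h ≤ (J : ℝ) + 1 := by
                    rw [div_le_iff₀ hh0]; exact hJ
                  calc 2 * c * k = ((speed p - ε') * k / h) * Real.log 2 := by
                        rw [hcdef]; field_simp
                    _ ≤ _ := by gcongr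
          gcongr
        · simp only [ic_neg hJ]; simp
    _ = ENNReal.ofReal (((k : ℝ) + 1) ^ 2 * (Real.exp (a * c₁) * (2 * Real.exp (-(2 * c * k))) *
        Real.exp a)) * Czz p := by
        rw [Finset.sum_const, Finset.card_range, nsmul_eq_mul]
        have e1 : ((k + 1 : ℕ) : ℝ≥0∞) = ENNReal.ofReal ((k : ℝ) + 1) := by
          rw [← ENNReal.ofReal_natCast]; push_cast; rfl
        rw [e1, ofReal_mul3 (by positivity) (by positivity) (by positivity) (by positivity)]
        ring
    _ ≤ ENNReal.ofReal (((k : ℝ) + 1) ^ 2 * (Real.exp (a * c₁) * (2 * Real.exp (-(2 * c * k))) *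
        Real.exp a)) * ENNReal.ofReal CZ := by gcongr
    _ ≤ _ := by
        rw [← ENNReal.ofReal_mul (by positivity)]
        apply ENNReal.ofReal_le_ofReal
        calc ((k : ℝ) + 1) ^ 2 * (Real.exp (a * c₁) * (2 * Real.exp (-(2 * c * k))) *
              Real.exp a) * CZ
            ≤ (1 / (CZ * Real.exp a * Real.exp (a * c₁) * 2) * Real.exp (c * k)) *
              (Real.exp (a * c₁) * (2 * Real.exp (-(2 * c * k))) * Real.exp a) * CZ := by
              gcongr
          _ = Real.exp (c * k) * Real.exp (-(2 * c * k)) := by field_simp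
          _ = _ := by rw [← Real.exp_add]; congr 1; ring

end Pool.Agent.Helper98.Elastic
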