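import Mathlib
import Pool.Agent.Helper98.Elastic.Joint2

/-!
# First passage identities
-/

open Finset Filter Topology
open scoped ENNReal

namespace Pool.Agent.Helper98.Elastic

/-- first passage over `n` -/
def fpp (n : ℕ) (B : List IB) (b : IB) : Prop := sl len B ≤ n ∧ n < sl len B + len b

/-- first passage sums -/
noncomputable def FP (p : Par) (n : ℕ) (g : List IB → IB → ℝ≥0∞) : ℝ≥0∞ :=
  ∑' B : List IB, ∑' b : IB, ic (fpp n B b) (wl (wI p) B * wI p b) * g B b

/-- renewal function -/
noncomputable def VV (p : Par) (n : ℕ) : ℝ≥0∞ := ∑' B : List IB, ic (sl len B ≤ n) (wl (wI p) B)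

lemma FP_mono (p : Par) (n : ℕ) {g g' : List IB → IB → ℝ≥0∞}
    (h : ∀ B b, fpp n B b → g B b ≤ g' B b) : FP p n g ≤ FP p n g' := by
  unfold FP
  apply ENNReal.tsum_le_tsum
  intro B
  apply ENNReal.tsum_le_tsum
  intro b
  by_cases hf : fpp n B b
  · gcongr
    exact h B b hf
  · rw [ic_neg hf, zero_mul]; exact zero_le

lemma FP_add (p : Par) (n : ℕ) (g g' : List IB → IB → ℝ≥0∞) :
    FP p n (fun B b => g B b + g' B b) = FP p n g + FP p n g' := by
  unfold FP
  rw [← ENNReal.tsum_add]
  refine tsum_congr fun B => ?_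
  rw [← ENNReal.tsum_add]
  refine tsum_congr fun b => ?_
  rw [mul_add]

lemma FP_mul (p : Par) (n : ℕ) (c : ℝ≥0∞) (g : List IB → IB → ℝ≥0∞) :
    FP p n (fun B b => c * g B b) = c * FP p n g := by
  unfold FP
  rw [← ENNReal.tsum_mul_left]
  refine tsum_congr fun B => ?_
  rw [← ENNReal.tsum_mul_left]
  refine tsum_congr fun b => ?_
  ring

lemma FP_rec (p : Par) (n : ℕ) (g : List IB → IB → ℝ≥0∞) :
    FP p n g = ∑' b, ic (n < len b) (wI p b) * g [] b +
      ∑' a, ic (len a ≤ n) (wI p a) * FP p (n - len a) (fun B b => g (a :: B) b) := by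
  unfold FP
  rw [tsum_list_cons]
  congr 1
  · refine tsum_congr fun b => ?_
    rw [wl_nil, one_mul]
    congr 1
    apply ic_congr
    unfold fpp
    simp
  · refine tsum_congr fun a => ?_
    rw [← ENNReal.tsum_mul_left]
    refine tsum_congr fun B => ?_
    rw [← ENNReal.tsum_mul_left]
    refine tsum_congr fun b => ?_
    rw [wl_cons, ← mul_assoc]
    congr 1
    by_cases ha : len a ≤ n
    · have h1 : fpp n (a :: B) b ↔ fpp (n - len a) B b := by
        unfold fpp
        rw [sl_cons]
        omega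
      rw [ic_pos ha, ic_congr h1, mul_assoc, ic_mul]
    · have h1 : ¬ fpp n (a :: B) b := by
        unfold fpp
        rw [sl_cons]
        omega
      rw [ic_neg ha, ic_neg h1, zero_mul]

lemma ic_split (p : Par) (n : ℕ) (t : IB → ℝ≥0∞) :
    ∑' b, ic (n < len b) (wI p b) * t b + ∑' b, ic (len b ≤ n) (wI p b) * t b =
      ∑' b, wI p b * t b := by
  rw [← ENNReal.tsum_add]
  refine tsum_congr fun b => ?_
  by_cases h : n < len b
  · rw [ic_pos h, ic_neg (by omega)]; simp
  · rw [ic_neg h, ic_pos (by omega)]; simp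

lemma FP_one (p : Par) (n : ℕ) : FP p n (fun _ _ => 1) = 1 := by
  induction n using Nat.strong_induction_on with
  | _ n ih =>
    rw [FP_rec]
    have h1 : ∀ a, ic (len a ≤ n) (wI p a) * FP p (n - len a) (fun _ _ => 1) =
        ic (len a ≤ n) (wI p a) * 1 := by
      intro a
      by_cases ha : len a ≤ n
      · rw [ih (n - len a) (by have := len_pos a; omega)]
      · rw [ic_neg ha]; simp
    simp_rw [h1]
    rw [ic_split p n (fun _ => 1)]
    simp only [mul_one]
    exact tsum_wI p

lemma VV_rec (p : Par) (n : ℕ) :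
    VV p n = 1 + ∑' a, ic (len a ≤ n) (wI p a) * VV p (n - len a) := by
  unfold VV
  rw [tsum_list_cons]
  congr 1
  · rw [ic_pos (by simp), wl_nil]
  · refine tsum_congr fun a => ?_
    rw [← ENNReal.tsum_mul_left]
    refine tsum_congr fun B => ?_
    rw [wl_cons]
    by_cases ha : len a ≤ n
    · have h1 : sl len (a :: B) ≤ n ↔ sl len B ≤ n - len a := by
        rw [sl_cons]; omega
      rw [ic_pos ha, ic_congr h1, ic_mul]
    · rw [ic_neg ha, zero_mul, ic_neg]
      rw [sl_cons]; omega

lemma FP_additive (p : Par) (t : IB → ℝ≥0∞) (n : ℕ) :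
    FP p n (fun B b => sl t B + t b) = (∑' b, wI p b * t b) * VV p n := by
  induction n using Nat.strong_induction_on with
  | _ n ih =>
    rw [FP_rec]
    have h1 : ∀ a, ic (len a ≤ n) (wI p a) * FP p (n - len a)
        (fun B b => sl t (a :: B) + t b) =
        ic (len a ≤ n) (wI p a) * t a +
          (∑' b, wI p b * t b) * (ic (len a ≤ n) (wI p a) * VV p (n - len a)) := by
      intro a
      by_cases ha : len a ≤ n
      · have h2 : (fun (B : List IB) (b : IB) => sl t (a :: B) + t b) =
          fun B b => t a * 1 + (sl t B + t b) := by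
          funext B b
          rw [sl_cons, mul_one, add_assoc]
        rw [h2, FP_add, FP_mul, FP_one, ih (n - len a) (by have := len_pos a; omega)]
        ring
      · rw [ic_neg ha]; simp
    simp_rw [h1]
    rw [ENNReal.tsum_add, ENNReal.tsum_mul_left, ← add_assoc]
    have h3 : ∑' b, ic (n < len b) (wI p b) * (sl t [] + t b) =
        ∑' b, ic (n < len b) (wI p b) * t b := by
      refine tsum_congr fun b => ?_
      rw [sl_nil, zero_add]
    rw [h3, ic_split p n t, VV_rec p n]
    ring

lemma VV_eq (p : Par) (n : ℕ) : VV p n = ∑ m ∈ range (n + 1), uu p m := by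
  have h1 : ∀ B : List IB, ic (sl len B ≤ n) (wl (wI p) B) =
      ∑ m ∈ range (n + 1), ic (sl len B = m) (wl (wI p) B) := by
    intro B
    by_cases hB : sl len B ≤ n
    · rw [ic_pos hB, Finset.sum_eq_single (sl len B)]
      · rw [ic_pos rfl]
      · intro m _ hm; exact ic_neg (fun h => hm h.symm) _
      · intro h; exfalso; apply h; rw [Finset.mem_range]; omega
    · rw [ic_neg hB, Finset.sum_eq_zero]
      intro m hm
      rw [Finset.mem_range] at hm
      exact ic_neg (by omega) _
  unfold VV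
  simp_rw [h1]
  rw [ennreal_tsum_finset_sum]
  refine Finset.sum_congr rfl fun m _ => ?_
  rw [uu_eq_Uw]
  unfold Uw
  refine tsum_congr fun B => ?_
  rw [ic_ite]

lemma VV_ne_top (p : Par) (n : ℕ) : VV p n ≠ ∞ := by
  rw [VV_eq, ENNReal.sum_ne_top]
  intro m _
  exact uu_ne_top p m

/-- excess of a first passage pair -/
noncomputable def Xc (p : Par) (B : List IB) (b : IB) : ℝ :=
  ((sl span B + span b : ℕ) : ℝ) - speed p * ((sl len B + len b : ℕ) : ℝ)

lemma Xc_identity (p : Par) (B : List IB) (b : IB) :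
    ((sl span B + span b : ℕ) : ℝ≥0∞) + ENNReal.ofReal (-Xc p B b) =
      ENNReal.ofReal (speed p) * ((sl len B + len b : ℕ) : ℝ≥0∞) + ENNReal.ofReal (Xc p B b) := by
  have hs := speed_pos p
  rw [← ENNReal.ofReal_natCast, ← ENNReal.ofReal_natCast, ← ENNReal.ofReal_mul hs.le]
  rcases le_total 0 (Xc p B b) with h | h
  · rw [ENNReal.ofReal_of_nonpos (by linarith : -Xc p B b ≤ 0), add_zero,
      ← ENNReal.ofReal_add (by positivity) h]
    congr 1
    unfold Xc; ring
  · rw [ENNReal.ofReal_of_nonpos h, add_zero, ← ENNReal.ofReal_add (by positivity) (by linarith)]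
    congr 1
    unfold Xc; ring

lemma speed_mu (p : Par) : ENNReal.ofReal (speed p) * mu p = nu p := by
  have h1 : mu p = ENNReal.ofReal (mur p) := (ENNReal.ofReal_toReal (mu_ne_top p)).symm
  have h2 : nu p = ENNReal.ofReal (nur p) := (ENNReal.ofReal_toReal (nu_ne_top p)).symm
  rw [h1, h2, ← ENNReal.ofReal_mul (speed_pos p).le]
  congr 1
  unfold speed
  have := mur_pos p
  field_simp

/-- the positive and the negative excess balance -/
lemma FP_balance (p : Par) (n : ℕ) :
    FP p n (fun B b => ENNReal.ofReal (-Xc p B b)) = FP p n (fun B b => ENNReal.ofReal (Xc p B b)) := by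
  have h1 : FP p n (fun B b => ((sl span B + span b : ℕ) : ℝ≥0∞) +
      ENNReal.ofReal (-Xc p B b)) = FP p n (fun B b =>
      ENNReal.ofReal (speed p) * ((sl len B + len b : ℕ) : ℝ≥0∞) +
        ENNReal.ofReal (Xc p B b)) := by
    congr 1
    funext B b
    exact Xc_identity p B b
  rw [FP_add, FP_add, FP_mul] at h1
  have h2 : FP p n (fun B b => ((sl span B + span b : ℕ) : ℝ≥0∞)) = nu p * VV p n := by
    have := FP_additive p (fun b => (span b : ℝ≥0∞)) n
    rw [← (show (∑' b, wI p b * (span b : ℝ≥0∞)) = nu p from rfl), ← this]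
    congr 1
    funext B b
    rw [sl_cast]; push_cast; rfl
  have h3 : FP p n (fun B b => ((sl len B + len b : ℕ) : ℝ≥0∞)) = mu p * VV p n := by
    have := FP_additive p (fun b => (len b : ℝ≥0∞)) n
    rw [← (show (∑' b, wI p b * (len b : ℝ≥0∞)) = mu p from rfl), ← this]
    congr 1
    funext B b
    rw [sl_cast]; push_cast; rfl
  rw [h2, h3, ← mul_assoc, speed_mu] at h1
  have h4 : nu p * VV p n ≠ ∞ := ENNReal.mul_ne_top (nu_ne_top p) (VV_ne_top p n)
  exact (ENNReal.add_right_inj h4).1 h1

lemma span_le_sum (B : List IB) : sl span B ≤ sl len B := by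
  induction B with
  | nil => simp
  | cons b B ih => rw [sl_cons, sl_cons]; have := span_le_len b; omega

lemma Xc_le (p : Par) (B : List IB) (b : IB) : Xc p B b ≤ ((sl len B + len b : ℕ) : ℝ) := by
  have hs := speed_pos p
  have h1 := span_le_sum B
  have h2 := span_le_len b
  have h3 : ((sl span B + span b : ℕ) : ℝ) ≤ ((sl len B + len b : ℕ) : ℝ) := by
    exact_mod_cast add_le_add h1 h2
  unfold Xc
  have : 0 ≤ speed p * ((sl len B + len b : ℕ) : ℝ) := by positivity
  linarith

/-- the basic inequality -/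
lemma FP_basic (p : Par) {δ : ℝ} (hδ1 : δ ≤ 1) (n : ℕ) :
    1 ≤ ((2 * n + 1 : ℕ) : ℝ≥0∞) * FP p n (fun B b => ic (-1 ≤ Xc p B b ∧ (len b : ℝ) ≤ δ * n) 1) +
      (FP p n (fun _ b => ic (δ * n < len b) 1) +
        FP p n (fun B b => ic (δ * n < len b) (ENNReal.ofReal (Xc p B b)))) := by
  have hneg : FP p n (fun B b => ic (Xc p B b < -1) 1) ≤
      FP p n (fun B b => ENNReal.ofReal (Xc p B b)) := by
    rw [← FP_balance]
    apply FP_mono
    intro B b _
    by_cases h : Xc p B b < -1
    · rw [ic_pos h, ← ENNReal.ofReal_one]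
      apply ENNReal.ofReal_le_ofReal
      linarith
    · rw [ic_neg h]; exact zero_le
  have hpos : FP p n (fun B b => ENNReal.ofReal (Xc p B b)) ≤
      ((2 * n : ℕ) : ℝ≥0∞) * FP p n (fun B b => ic (-1 ≤ Xc p B b ∧ (len b : ℝ) ≤ δ * n) 1) +
        FP p n (fun B b => ic (δ * n < len b) (ENNReal.ofReal (Xc p B b))) := by
    rw [← FP_mul, ← FP_add]
    apply FP_mono
    intro B b hf
    by_cases h1 : δ * n < len b
    · rw [ic_pos h1]; exact le_add_self
    · refine le_trans ?_ le_self_add
      rcases le_total (Xc p B b) 0 with h2 | h2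
      · rw [ENNReal.ofReal_of_nonpos h2]; exact zero_le
      · rw [ic_pos ⟨by linarith, not_lt.1 h1⟩, mul_one, ← ENNReal.ofReal_natCast]
        apply ENNReal.ofReal_le_ofReal
        refine (Xc_le p B b).trans ?_
        rw [not_lt] at h1
        have h3 : ((sl len B : ℕ) : ℝ) ≤ n := by exact_mod_cast hf.1
        have h4 : δ * (n : ℝ) ≤ 1 * n := by gcongr
        push_cast
        linarith
  have htot : (1 : ℝ≥0∞) ≤ FP p n (fun B b => ic (Xc p B b < -1) 1) +
      (FP p n (fun B b => ic (-1 ≤ Xc p B b ∧ (len b : ℝ) ≤ δ * n) 1) +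
        FP p n (fun _ b => ic (δ * n < len b) 1)) := by
    rw [← FP_add, ← FP_add]
    conv_lhs => rw [← FP_one p n]
    apply FP_mono
    intro B b _
    by_cases h1 : Xc p B b < -1
    · rw [ic_pos h1]; exact le_self_add
    · refine le_trans ?_ le_add_self
      by_cases h2 : δ * n < len b
      · rw [ic_pos h2]; exact le_add_self
      · rw [ic_pos (⟨not_lt.1 h1, not_lt.1 h2⟩ : -1 ≤ Xc p B b ∧ (len b : ℝ) ≤ δ * n)]
        exact le_self_add
  calc (1 : ℝ≥0∞) ≤ _ := htot
    _ ≤ (((2 * n : ℕ) : ℝ≥0∞) *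
        FP p n (fun B b => ic (-1 ≤ Xc p B b ∧ (len b : ℝ) ≤ δ * n) 1) +
        FP p n (fun B b => ic (δ * n < len b) (ENNReal.ofReal (Xc p B b)))) +
      (FP p n (fun B b => ic (-1 ≤ Xc p B b ∧ (len b : ℝ) ≤ δ * n) 1) +
        FP p n (fun _ b => ic (δ * n < len b) 1)) := by
        gcongr
        exact hneg.trans hpos
    _ = _ := by push_cast; ring

end Pool.Agent.Helper98.Elastic
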