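import Mathlib
import Pool.Agent.Helper98.Elastic.End4
import Pool.Agent.Helper98.Elastic.End3
import Pool.Agent.Helper98.Elastic.PartIII

/-!
# Existence of fast bridges with polynomial weight
-/

open Finset Filter Topology
open scoped ENNReal

namespace Pool.Agent.Helper98.Elastic

lemma fp_B (p : Par) (n : ℕ) (b : IB) :
    ∑' B : List IB, ic (fpp n B b) (wl (wI p) B) ≤ (len b : ℝ≥0∞) := by
  calc ∑' B : List IB, ic (fpp n B b) (wl (wI p) B)
      ≤ ∑' B : List IB, ∑ m ∈ Ico (n + 1 - len b) (n + 1), ic (sl len B = m) (wl (wI p) B) := by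
        apply ENNReal.tsum_le_tsum
        intro B
        by_cases hf : fpp n B b
        · rw [ic_pos hf]
          obtain ⟨h1, h2⟩ := hf
          refine le_trans ?_ (Finset.single_le_sum (f := fun m : ℕ =>
            ic (sl len B = m) (wl (wI p) B)) (fun _ _ => zero_le)
            (Finset.mem_Ico.2 (show n + 1 - len b ≤ sl len B ∧ sl len B < n + 1 by omega)))
          rw [ic_pos rfl]
        · rw [ic_neg hf]; exact zero_le
    _ = ∑ m ∈ Ico (n + 1 - len b) (n + 1), uu p m := by
        rw [ennreal_tsum_finset_sum]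
        refine Finset.sum_congr rfl fun m _ => ?_
        rw [uu_eq_Uw]
        unfold Uw
        refine tsum_congr fun B => ?_
        rw [ic_ite]
    _ ≤ ∑ m ∈ Ico (n + 1 - len b) (n + 1), 1 := Finset.sum_le_sum fun m _ => uu_le_one p m
    _ ≤ (len b : ℝ≥0∞) := by
        rw [Finset.sum_const, Nat.card_Ico, nsmul_eq_mul, mul_one]
        have : n + 1 - (n + 1 - len b) ≤ len b := by omega
        exact_mod_cast this

lemma FP_le_b (p : Par) (n : ℕ) (g : IB → ℝ≥0∞) :
    FP p n (fun _ b => g b) ≤ ∑' b, wI p b * ((len b : ℝ≥0∞) * g b) := by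
  unfold FP
  rw [ENNReal.tsum_comm]
  apply ENNReal.tsum_le_tsum
  intro b
  calc ∑' B : List IB, ic (fpp n B b) (wl (wI p) B * wI p b) * g b
      = (∑' B : List IB, ic (fpp n B b) (wl (wI p) B)) * (wI p b * g b) := by
        rw [← ENNReal.tsum_mul_right]
        refine tsum_congr fun B => ?_
        rw [mul_comm (wl (wI p) B), ic_mul]; ring
    _ ≤ (len b : ℝ≥0∞) * (wI p b * g b) := by gcongr; exact fp_B p n b
    _ = _ := by ring

lemma FP_le_B (p : Par) (n : ℕ) (g : List IB → ℝ≥0∞) :
    FP p n (fun B _ => g B) ≤ ∑' B : List IB, ic (sl len B ≤ n) (wl (wI p) B) * g B := by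
  unfold FP
  apply ENNReal.tsum_le_tsum
  intro B
  calc ∑' b, ic (fpp n B b) (wl (wI p) B * wI p b) * g B
      ≤ ∑' b, (ic (sl len B ≤ n) (wl (wI p) B) * g B) * wI p b := by
        apply ENNReal.tsum_le_tsum
        intro b
        by_cases hf : fpp n B b
        · rw [ic_pos hf, ic_pos hf.1]
          apply le_of_eq; ring
        · rw [ic_neg hf, zero_mul]; exact zero_le
    _ = _ := by rw [ENNReal.tsum_mul_left, tsum_wI, mul_one]

lemma eventually_div_lt {δ : ℝ} (hδ : 0 < δ) (m : ℕ) : ∀ᶠ n : ℕ in atTop, (m : ℝ) ≤ δ * n := by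
  have : Tendsto (fun n : ℕ => δ * (n : ℝ)) atTop atTop :=
    tendsto_natCast_atTop_atTop.const_mul_atTop hδ
  exact this.eventually_ge_atTop _

/-- first passages with a long last letter are unlikely -/
lemma long_mass (p : Par) {δ : ℝ} (hδ : 0 < δ) :
    Tendsto (fun n : ℕ => FP p n (fun _ b => ic (δ * n < len b) 1)) atTop (𝓝 0) := by
  have h1 : Tendsto (fun n : ℕ => ∑' b, wI p b * ((len b : ℝ≥0∞) * ic (δ * n < len b) 1)) atTop
      (𝓝 0) := by
    apply ennreal_tannery_zero _ (fun b : IB => wI p b * (len b : ℝ≥0∞))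
    · exact mu_ne_top p
    · intro n b
      gcongr
      calc (len b : ℝ≥0∞) * ic (δ * n < len b) 1 ≤ (len b : ℝ≥0∞) * 1 := by
            gcongr; exact ic_le _ _
        _ = _ := mul_one _
    · intro b
      apply tendsto_const_nhds.congr'
      filter_upwards [eventually_div_lt hδ (len b)] with n hn
      rw [ic_neg (not_lt.2 hn)]; simp
  exact tendsto_of_tendsto_of_tendsto_of_le_of_le tendsto_const_nhds h1 (fun _ => zero_le)
    (fun n => FP_le_b p n _)

/-- fast irreducible bridges have a finite second moment -/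
lemma fast_second_moment (p : Par) {ε' c : ℝ} (hc : 0 < c) (h : ∀ᶠ k : ℕ in atTop,
    mass p (fun b => bfac.Irr b ∧ b.length = k ∧ (speed p - ε') * k ≤ (ed b : ℝ)) ≤
      ENNReal.ofReal (Real.exp (-(c * k)))) :
    ∑' b : IB, ic ((speed p - ε') * len b ≤ span b) (wI p b * (len b : ℝ≥0∞) ^ 2) ≠ ∞ := by
  obtain ⟨k0, hk0⟩ := eventually_atTop.1 h
  have h1 : ∑' b : IB, ic ((speed p - ε') * len b ≤ span b) (wI p b * (len b : ℝ≥0∞) ^ 2) ≤
      ∑' k : ℕ, ENNReal.ofReal (Real.exp (c * k0) * ((k : ℝ) ^ 2 * Real.exp (-(c * k)))) := by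
    rw [← tsum_fiber (fun b : IB => ic ((speed p - ε') * len b ≤ span b)
      (wI p b * (len b : ℝ≥0∞) ^ 2)) len]
    apply ENNReal.tsum_le_tsum
    intro k
    have h2 : (∑' b : IB, if len b = k then ic ((speed p - ε') * len b ≤ span b)
        (wI p b * (len b : ℝ≥0∞) ^ 2) else 0) ≤ (k : ℝ≥0∞) ^ 2 *
        mass p (fun b => bfac.Irr b ∧ b.length = k ∧ (speed p - ε') * k ≤ (ed b : ℝ)) := by
      rw [mass_eq_ic, ← ENNReal.tsum_mul_left]
      apply tsum_le_of_inj _ _ (fun b : IB => b.1)
      · intro x y _ _ hxy; exact Subtype.ext hxy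
      · intro b _
        split_ifs with hb
        · by_cases hf : (speed p - ε') * len b ≤ span b
          · rw [ic_pos hf, ic_pos, ← hb]
            · apply le_of_eq; unfold wI; ring
            · refine ⟨b.2, hb, ?_⟩
              have h3 : ((ed b.1 : ℤ) : ℝ) = span b := by rw [← span_eq]; simp
              rw [h3, ← hb]; exact hf
          · rw [ic_neg hf]; exact zero_le
        · exact zero_le
    refine h2.trans ?_
    have h3 : mass p (fun b => bfac.Irr b ∧ b.length = k ∧ (speed p - ε') * k ≤ (ed b : ℝ)) ≤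
        ENNReal.ofReal (Real.exp (c * k0) * Real.exp (-(c * k))) := by
      rcases Nat.lt_or_ge k k0 with hk | hk
      · calc mass p (fun b => bfac.Irr b ∧ b.length = k ∧ (speed p - ε') * k ≤ (ed b : ℝ))
            ≤ uu p k := mass_mono p fun l hl => ⟨hl.1.1, hl.2.1⟩
          _ ≤ 1 := uu_le_one p k
          _ ≤ _ := by
              rw [← Real.exp_add, ← ENNReal.ofReal_one]
              apply ENNReal.ofReal_le_ofReal
              apply Real.one_le_exp
              have : (k : ℝ) ≤ k0 := by exact_mod_cast hk.le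
              nlinarith
      · refine (hk0 k hk).trans ?_
        apply ENNReal.ofReal_le_ofReal
        have h4 : 1 ≤ Real.exp (c * k0) := Real.one_le_exp (by positivity)
        have h5 := Real.exp_pos (-(c * k))
        nlinarith
    calc (k : ℝ≥0∞) ^ 2 *
        mass p (fun b => bfac.Irr b ∧ b.length = k ∧ (speed p - ε') * k ≤ (ed b : ℝ))
        ≤ (k : ℝ≥0∞) ^ 2 * ENNReal.ofReal (Real.exp (c * k0) * Real.exp (-(c * k))) := by gcongr
      _ = _ := by
          rw [← ENNReal.ofReal_natCast, ← ENNReal.ofReal_pow (by positivity),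
            ← ENNReal.ofReal_mul (by positivity)]
          congr 1; ring
  refine ne_top_of_le_ne_top ?_ h1
  have h2 := summable_pow_exp 2 hc one_pos
  simp only [Real.rpow_one] at h2
  have h3 := h2.mul_left (Real.exp (c * k0))
  rw [← ENNReal.ofReal_tsum_of_nonneg (fun k => by positivity) h3]
  exact ENNReal.ofReal_ne_top

/-- too fast bridges -/
lemma fast_bri (p : Par) {η : ℝ} (hη : 0 < η) : ∃ c : ℝ, 0 < c ∧ ∀ᶠ n : ℕ in atTop, ∀ m ≤ n,
    mass p (fun l => Bri l ∧ l.length = m ∧ η * n < (ed l : ℝ) - speed p * m) ≤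
      ENNReal.ofReal (Real.exp (-(c * n))) := by
  have hs := speed_pos p
  obtain ⟨c, hc, h⟩ := exp_cost p (speed p + η) (by linarith)
  obtain ⟨m0, hm0⟩ := eventually_atTop.1 h
  refine ⟨c * η, by positivity, ?_⟩
  filter_upwards [eventually_div_lt hη m0] with n hn m hm
  rcases le_or_gt (m : ℝ) (η * n) with h1 | h1
  · have : mass p (fun l => Bri l ∧ l.length = m ∧ η * n < (ed l : ℝ) - speed p * m) = 0 := by
      rw [mass_eq_ic, ENNReal.tsum_eq_zero]
      intro l
      apply ic_neg
      rintro ⟨_, h3, h4⟩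
      have h5 : ((ed l : ℤ) : ℝ) ≤ m := by
        have := ed_le_length l
        rw [h3] at this
        exact_mod_cast this
      have : 0 ≤ speed p * (m : ℝ) := by positivity
      linarith
    rw [this]; exact zero_le
  · have h2 : m0 ≤ m := by
      have : (m0 : ℝ) ≤ m := by linarith
      exact_mod_cast this
    calc mass p (fun l => Bri l ∧ l.length = m ∧ η * n < (ed l : ℝ) - speed p * m)
        ≤ mass p (fun l => l.length = m ∧ (speed p + η) * m ≤ |(ed l : ℝ)|) := by
          apply mass_mono
          rintro l ⟨_, h3, h4⟩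
          refine ⟨h3, ?_⟩
          refine le_trans ?_ (le_abs_self _)
          have h5 : (m : ℝ) ≤ n := by exact_mod_cast hm
          have h6 : η * (m : ℝ) ≤ η * n := by gcongr
          linarith
      _ ≤ ENNReal.ofReal (Real.exp (-(c * m))) := hm0 m h2
      _ ≤ _ := by
          apply ENNReal.ofReal_le_ofReal
          apply Real.exp_le_exp.2
          have : c * (η * n) ≤ c * m := by gcongr
          linarith

lemma tendsto_poly_exp (j : ℕ) {c : ℝ} (hc : 0 < c) :
    Tendsto (fun n : ℕ => ENNReal.ofReal (((n : ℝ) + 1) ^ j * Real.exp (-(c * n)))) atTop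
      (𝓝 0) := by
  have h1 : Tendsto (fun n : ℕ => ((n : ℝ) + 1) ^ j * Real.exp (-(c * n))) atTop (𝓝 0) := by
    rw [Metric.tendsto_atTop]
    intro ε hε
    have h2 := poly_le_exp j (B := c / 2) (a := 1) (c := 1) (by positivity) one_pos one_pos
    have h3 : Tendsto (fun n : ℕ => Real.exp (-(c / 2 * n))) atTop (𝓝 0) := by
      apply Real.tendsto_exp_neg_atTop_nhds_zero.comp
      exact tendsto_natCast_atTop_atTop.const_mul_atTop (by positivity)
    obtain ⟨N, hN⟩ := eventually_atTop.1 (h2.and (h3.eventually (gt_mem_nhds hε)))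
    refine ⟨N, fun n hn => ?_⟩
    obtain ⟨g1, g2⟩ := hN n hn
    rw [Real.rpow_one, one_mul] at g1
    rw [Real.dist_eq, sub_zero, abs_of_nonneg (by positivity)]
    calc ((n : ℝ) + 1) ^ j * Real.exp (-(c * n)) ≤ Real.exp (c / 2 * n) * Real.exp (-(c * n)) := by
          gcongr
      _ = Real.exp (-(c / 2 * n)) := by rw [← Real.exp_add]; congr 1; ring
      _ < ε := g2
  have h4 := ENNReal.tendsto_ofReal h1
  rwa [ENNReal.ofReal_zero] at h4

/-- the positive excess with a long last letter is negligible -/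
lemma long_excess (p : Par) {δ : ℝ} (hδ : 0 < δ) (hδ1 : δ ≤ 1) :
    Tendsto (fun n : ℕ => FP p n (fun B b => ic (δ * n < len b) (ENNReal.ofReal (Xc p B b))))
      atTop (𝓝 0) := by
  have hs := speed_pos p
  obtain ⟨ε', c, hε', hεs, hc, hirr⟩ := irr_fast p
  have hsm := fast_second_moment p hc hirr
  set Q : ℝ := 1 / δ + 1 with hQ
  have hQ0 : 0 < Q := by positivity
  -- fast letters
  have h1 : Tendsto (fun n : ℕ => ∑' b : IB, ENNReal.ofReal Q *
      ic (δ * n < len b ∧ (speed p - ε') * len b ≤ span b) (wI p b * (len b : ℝ≥0∞) ^ 2)) atTop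
      (𝓝 0) := by
    apply ennreal_tannery_zero _ (fun b : IB => ENNReal.ofReal Q *
      ic ((speed p - ε') * len b ≤ span b) (wI p b * (len b : ℝ≥0∞) ^ 2))
    · rw [ENNReal.tsum_mul_left]
      exact ENNReal.mul_ne_top ENNReal.ofReal_ne_top hsm
    · intro n b
      gcongr
      exact ic_mono (fun h => h.2) le_rfl
    · intro b
      apply tendsto_const_nhds.congr'
      filter_upwards [eventually_div_lt hδ (len b)] with n hn
      rw [ic_neg (fun h => absurd h.1 (not_lt.2 hn)), mul_zero]
  -- slow letters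
  obtain ⟨c', hc', hfb⟩ := fast_bri p (show 0 < ε' * δ by positivity)
  have h2 := tendsto_poly_exp 2 hc'
  have h3 := h1.add h2
  rw [add_zero] at h3
  refine tendsto_of_tendsto_of_tendsto_of_le_of_le' tendsto_const_nhds h3
    (Eventually.of_forall fun _ => zero_le) ?_
  filter_upwards [hfb] with n hn
  have hsplit : FP p n (fun B b => ic (δ * n < len b) (ENNReal.ofReal (Xc p B b))) ≤
      FP p n (fun _ b => ENNReal.ofReal Q *
        ic (δ * n < len b ∧ (speed p - ε') * len b ≤ span b) (len b : ℝ≥0∞)) +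
      FP p n (fun B _ => ic (ε' * δ * n < ((sl span B : ℕ) : ℝ) - speed p * (sl len B : ℕ))
        (n : ℝ≥0∞)) := by
    rw [← FP_add]
    apply FP_mono
    intro B b hf
    by_cases hl : δ * n < len b
    · rw [ic_pos hl]
      by_cases hfast : (speed p - ε') * len b ≤ span b
      · refine le_trans ?_ le_self_add
        rw [ic_pos ⟨hl, hfast⟩, ← ENNReal.ofReal_natCast, ← ENNReal.ofReal_mul hQ0.le]
        apply ENNReal.ofReal_le_ofReal
        refine (Xc_le p B b).trans ?_
        have h4 : ((sl len B : ℕ) : ℝ) ≤ n := by exact_mod_cast hf.1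
        have h5 : (n : ℝ) ≤ 1 / δ * len b := by
          rw [div_mul_eq_mul_div, one_mul, le_div_iff₀ hδ]; linarith
        push_cast
        rw [hQ]
        linarith
      · refine le_trans ?_ le_add_self
        rw [not_le] at hfast
        have h4 : ((sl len B : ℕ) : ℝ) ≤ n := by exact_mod_cast hf.1
        have h5 : Xc p B b ≤ (((sl span B : ℕ) : ℝ) - speed p * (sl len B : ℕ)) - ε' * δ * n := by
          unfold Xc
          push_cast
          have h6 : ε' * (δ * n) ≤ ε' * len b := by gcongr
          nlinarith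
        have h7 : ((sl span B : ℕ) : ℝ) ≤ (sl len B : ℕ) := by exact_mod_cast span_le_sum B
        by_cases h8 : ε' * δ * n < ((sl span B : ℕ) : ℝ) - speed p * (sl len B : ℕ)
        · rw [ic_pos h8, ← ENNReal.ofReal_natCast]
          apply ENNReal.ofReal_le_ofReal
          have h9 : 0 ≤ speed p * ((sl len B : ℕ) : ℝ) := by positivity
          have h10 : 0 ≤ ε' * δ * (n : ℝ) := by positivity
          linarith
        · rw [not_lt] at h8
          rw [ENNReal.ofReal_of_nonpos (by linarith)]; exact zero_le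
    · rw [ic_neg hl]; exact zero_le
  refine hsplit.trans (add_le_add ?_ ?_)
  · refine (FP_le_b p n _).trans (le_of_eq ?_)
    refine tsum_congr fun b => ?_
    by_cases hb : δ * n < len b ∧ (speed p - ε') * len b ≤ span b
    · rw [ic_pos hb, ic_pos hb]; ring
    · rw [ic_neg hb, ic_neg hb]; simp
  · refine (FP_le_B p n _).trans ?_
    calc ∑' B : List IB, ic (sl len B ≤ n) (wl (wI p) B) *
          ic (ε' * δ * n < ((sl span B : ℕ) : ℝ) - speed p * (sl len B : ℕ)) (n : ℝ≥0∞)
        ≤ ∑' B : List IB, ∑ m ∈ range (n + 1), (n : ℝ≥0∞) *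
          ic ((bfac.pr B).length = m ∧ ε' * δ * n < (ed (bfac.pr B) : ℝ) - speed p * m)
            (wl (wI p) B) := by
          apply ENNReal.tsum_le_tsum
          intro B
          by_cases hB : sl len B ≤ n
          · by_cases hX : ε' * δ * n < ((sl span B : ℕ) : ℝ) - speed p * (sl len B : ℕ)
            · rw [ic_pos hB, ic_pos hX]
              refine le_trans ?_ (Finset.single_le_sum (f := fun m : ℕ => (n : ℝ≥0∞) *
                ic ((bfac.pr B).length = m ∧ ε' * δ * n < (ed (bfac.pr B) : ℝ) - speed p * m)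
                (wl (wI p) B)) (fun _ _ => zero_le)
                (Finset.mem_range.2 (Nat.lt_succ_of_le hB)))
              rw [ic_pos ⟨pr_length B, by rw [pr_ed]; push_cast; exact hX⟩, mul_comm]
            · rw [ic_neg hX, mul_zero]; exact zero_le
          · rw [ic_neg hB, zero_mul]; exact zero_le
      _ = ∑ m ∈ range (n + 1), (n : ℝ≥0∞) * mass p (fun l => Bri l ∧
          (l.length = m ∧ ε' * δ * n < (ed l : ℝ) - speed p * m)) := by
          rw [ennreal_tsum_finset_sum]
          refine Finset.sum_congr rfl fun m _ => ?_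
          rw [ENNReal.tsum_mul_left, mass_bri]
          rfl
      _ ≤ ∑ m ∈ range (n + 1), ((n + 1 : ℕ) : ℝ≥0∞) * ENNReal.ofReal (Real.exp (-(c' * n))) := by
          apply Finset.sum_le_sum
          intro m hm
          rw [Finset.mem_range] at hm
          gcongr
          · omega
          · exact hn m (by omega)
      _ = _ := by
          rw [Finset.sum_const, Finset.card_range, nsmul_eq_mul]
          have e1 : ((n + 1 : ℕ) : ℝ≥0∞) = ENNReal.ofReal ((n : ℝ) + 1) := by
            rw [← ENNReal.ofReal_natCast]; push_cast; rfl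
          rw [e1, ENNReal.ofReal_mul (by positivity), ENNReal.ofReal_pow (by positivity)]
          ring

end Pool.Agent.Helper98.Elastic
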