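import Pool.Agent.Helper98.Elastic.End5

/-!
# Fast bridges and the lower bound at the typical speed
-/

open Finset Filter Topology
open scoped ENNReal

namespace Pool.Agent.Helper98.Elastic

lemma FP_short_le (p : Par) {δ : ℝ} (n : ℕ) :
    FP p n (fun B b => ic (-1 ≤ Xc p B b ∧ (len b : ℝ) ≤ δ * n) 1) ≤
      mass p (fun l => Bri l ∧ n < l.length ∧ (l.length : ℝ) ≤ (1 + δ) * n ∧
        speed p * l.length - 1 ≤ (ed l : ℝ)) := by
  unfold FP
  rw [← ENNReal.tsum_prod (f := fun (B : List IB) (b : IB) =>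
    ic (fpp n B b) (wl (wI p) B * wI p b) * ic (-1 ≤ Xc p B b ∧ (len b : ℝ) ≤ δ * n) 1),
    mass_eq_ic]
  apply tsum_le_of_inj _ _ (fun x : List IB × IB => bfac.pr (x.1 ++ [x.2]))
  · rintro ⟨B, b⟩ ⟨B', b'⟩ _ _ hxy
    have h1 := bfac.pr_inj _ _ hxy
    have h2 := List.append_inj' h1 rfl
    simp only at h2
    obtain ⟨h3, h4⟩ := h2
    rw [List.cons.injEq] at h4
    exact Prod.ext h3 h4.1
  · rintro ⟨B, b⟩ hne
    simp only at hne ⊢
    have c1 : fpp n B b := by by_contra h; apply hne; rw [ic_neg h, zero_mul]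
    have c2 : -1 ≤ Xc p B b ∧ (len b : ℝ) ≤ δ * n := by
      by_contra h; apply hne; rw [ic_neg h, mul_zero]
    rw [ic_pos c1, ic_pos c2, mul_one, ic_pos, pr_W, wl_append, wl_cons, wl_nil, mul_one]
    refine ⟨bfac.pr_B _, ?_, ?_, ?_⟩
    · rw [pr_length, sl_append, sl_cons, sl_nil, add_zero]; exact c1.2
    · rw [pr_length, sl_append, sl_cons, sl_nil, add_zero]
      have h1 : ((sl len B : ℕ) : ℝ) ≤ n := by exact_mod_cast c1.1
      push_cast
      linarith [c2.2]
    · rw [pr_length, sl_append, sl_cons, sl_nil, add_zero, pr_ed, sl_append, sl_cons, sl_nil,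
        add_zero]
      have := c2.1
      unfold Xc at this
      push_cast at this ⊢
      linarith

lemma exists_fast (p : Par) {δ δ₂ : ℝ} (hδ : 0 < δ) (hδ1 : δ ≤ 1) (hδ₂ : 0 < δ₂) :
    ∀ᶠ n : ℕ in atTop, ∃ N y : ℕ, n < N ∧ (N : ℝ) ≤ (1 + δ) * n ∧ speed p * N - 1 ≤ y ∧
      (y : ℝ) ≤ (speed p + δ₂) * N ∧ ENNReal.ofReal (1 / ((n : ℝ) + 1) ^ 4) ≤
        mass p (fun l => Bri l ∧ l.length = N ∧ ed l = y) := by
  have hs := speed_pos p
  obtain ⟨c, hc, hcost⟩ := exp_cost p (speed p + δ₂) (by linarith)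
  obtain ⟨m0, hm0⟩ := eventually_atTop.1 hcost
  have t1 : Tendsto (fun n : ℕ => ENNReal.ofReal (8 * (1 / ((n : ℝ) + 1)))) atTop (𝓝 0) := by
    have h1 : Tendsto (fun n : ℕ => 8 * (1 / ((n : ℝ) + 1))) atTop (𝓝 (8 * 0)) :=
      tendsto_one_div_add_atTop_nhds_zero_nat.const_mul 8
    rw [mul_zero] at h1
    have h2 := ENNReal.tendsto_ofReal h1
    rwa [ENNReal.ofReal_zero] at h2
  have t2 : Tendsto (fun n : ℕ => 4 * ENNReal.ofReal (((n : ℝ) + 1) ^ 2 * Real.exp (-(c * n))))
      atTop (𝓝 0) := by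
    have := ENNReal.Tendsto.const_mul (tendsto_poly_exp 2 hc) (a := 4) (Or.inr (by norm_num))
    rwa [mul_zero] at this
  have t3 := (t1.add t2).add ((long_mass p hδ).add (long_excess p hδ hδ1))
  simp only [add_zero] at t3
  filter_upwards [t3.eventually (gt_mem_nhds one_pos), eventually_ge_atTop m0] with n hn hnm
  by_contra hcon
  push Not at hcon
  have hcon' : ∀ N y : ℕ, (n < N ∧ (N : ℝ) ≤ (1 + δ) * n ∧ speed p * N - 1 ≤ y ∧
      (y : ℝ) ≤ (speed p + δ₂) * N) → mass p (fun l => Bri l ∧ l.length = N ∧ ed l = y) ≤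
      ENNReal.ofReal (1 / ((n : ℝ) + 1) ^ 4) := by
    rintro N y ⟨h1, h2, h3, h4⟩
    exact (hcon N y h1 h2 h3 h4).le
  have e1 : ((n + 1 : ℕ) : ℝ≥0∞) = ENNReal.ofReal ((n : ℝ) + 1) := by
    rw [← ENNReal.ofReal_natCast]; push_cast; rfl
  have hF : mass p (fun l => Bri l ∧ n < l.length ∧ (l.length : ℝ) ≤ (1 + δ) * n ∧
        speed p * l.length - 1 ≤ (ed l : ℝ)) ≤
      ((2 * n + 1 : ℕ) : ℝ≥0∞) ^ 2 * ENNReal.ofReal (1 / ((n : ℝ) + 1) ^ 4) +
      ((2 * n + 1 : ℕ) : ℝ≥0∞) * ENNReal.ofReal (Real.exp (-(c * n))) := by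
    have h1 : mass p (fun l => Bri l ∧ n < l.length ∧ (l.length : ℝ) ≤ (1 + δ) * n ∧
        speed p * l.length - 1 ≤ (ed l : ℝ)) ≤
        ∑' l : List Bool, (∑ N ∈ range (2 * n + 1), ∑ y ∈ range (2 * n + 1),
          ic (n < N ∧ (N : ℝ) ≤ (1 + δ) * n ∧ speed p * N - 1 ≤ y ∧
            (y : ℝ) ≤ (speed p + δ₂) * N) (ic (Bri l ∧ l.length = N ∧ ed l = y) (W p l)) +
          ∑ N ∈ range (2 * n + 1), ic (n < N) (ic (l.length = N ∧
            (speed p + δ₂) * N ≤ |(ed l : ℝ)|) (W p l))) := by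
      rw [mass_eq_ic]
      apply ENNReal.tsum_le_tsum
      intro l
      by_cases hl : Bri l ∧ n < l.length ∧ (l.length : ℝ) ≤ (1 + δ) * n ∧
        speed p * l.length - 1 ≤ (ed l : ℝ)
      · rw [ic_pos hl]
        obtain ⟨g1, g2, g3, g4⟩ := hl
        have g5 : l.length < 2 * n + 1 := by
          have : (l.length : ℝ) ≤ 2 * n := by
            refine g3.trans ?_
            have : δ * (n : ℝ) ≤ 1 * n := by gcongr
            linarith
          have : l.length ≤ 2 * n := by exact_mod_cast this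
          omega
        have g6 := g1.ed_nonneg
        have g7 := ed_le_length l
        have g8 : (((ed l).toNat : ℕ) : ℤ) = ed l := Int.toNat_of_nonneg g6
        have g8r : (((ed l).toNat : ℕ) : ℝ) = (ed l : ℝ) := by exact_mod_cast g8
        by_cases g9 : (ed l : ℝ) ≤ (speed p + δ₂) * l.length
        · refine le_trans ?_ le_self_add
          refine le_trans ?_ (Finset.single_le_sum (f := fun N : ℕ => ∑ y ∈ range (2 * n + 1),
            ic (n < N ∧ (N : ℝ) ≤ (1 + δ) * n ∧ speed p * N - 1 ≤ y ∧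
            (y : ℝ) ≤ (speed p + δ₂) * N) (ic (Bri l ∧ l.length = N ∧ ed l = y) (W p l)))
            (fun _ _ => zero_le) (Finset.mem_range.2 g5))
          refine le_trans ?_ (Finset.single_le_sum (f := fun y : ℕ =>
            ic (n < l.length ∧ (l.length : ℝ) ≤ (1 + δ) * n ∧ speed p * l.length - 1 ≤ y ∧
            (y : ℝ) ≤ (speed p + δ₂) * l.length) (ic (Bri l ∧ l.length = l.length ∧ ed l = y)
            (W p l))) (fun _ _ => zero_le)
            (Finset.mem_range.2 (show (ed l).toNat < 2 * n + 1 by omega)))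
          rw [ic_pos ⟨g2, g3, by rw [g8r]; exact g4, by rw [g8r]; exact g9⟩,
            ic_pos ⟨g1, rfl, g8.symm⟩]
        · refine le_trans ?_ le_add_self
          rw [not_le] at g9
          refine le_trans ?_ (Finset.single_le_sum (f := fun N : ℕ =>
            ic (n < N) (ic (l.length = N ∧ (speed p + δ₂) * N ≤ |(ed l : ℝ)|) (W p l)))
            (fun _ _ => zero_le) (Finset.mem_range.2 g5))
          rw [ic_pos g2, ic_pos ⟨rfl, g9.le.trans (le_abs_self _)⟩]
      · rw [ic_neg hl]; exact zero_le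
    refine h1.trans ?_
    rw [ENNReal.tsum_add, ennreal_tsum_finset_sum, ennreal_tsum_finset_sum]
    apply add_le_add
    · calc ∑ N ∈ range (2 * n + 1), ∑' l : List Bool, ∑ y ∈ range (2 * n + 1),
            ic (n < N ∧ (N : ℝ) ≤ (1 + δ) * n ∧ speed p * N - 1 ≤ y ∧
            (y : ℝ) ≤ (speed p + δ₂) * N) (ic (Bri l ∧ l.length = N ∧ ed l = y) (W p l))
          ≤ ∑ N ∈ range (2 * n + 1), ∑ y ∈ range (2 * n + 1),
            ENNReal.ofReal (1 / ((n : ℝ) + 1) ^ 4) := by
            apply Finset.sum_le_sum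
            intro N _
            rw [ennreal_tsum_finset_sum]
            apply Finset.sum_le_sum
            intro y _
            by_cases hc' : n < N ∧ (N : ℝ) ≤ (1 + δ) * n ∧ speed p * N - 1 ≤ y ∧
              (y : ℝ) ≤ (speed p + δ₂) * N
            · simp only [ic_pos hc']
              exact hcon' N y hc'
            · simp only [ic_neg hc']
              simp
        _ = _ := by
            rw [Finset.sum_const, Finset.sum_const, Finset.card_range, nsmul_eq_mul,
              nsmul_eq_mul]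
            ring
    · calc ∑ N ∈ range (2 * n + 1), ∑' l : List Bool, ic (n < N) (ic (l.length = N ∧
            (speed p + δ₂) * N ≤ |(ed l : ℝ)|) (W p l))
          ≤ ∑ N ∈ range (2 * n + 1), ENNReal.ofReal (Real.exp (-(c * n))) := by
            apply Finset.sum_le_sum
            intro N _
            by_cases hN : n < N
            · simp only [ic_pos hN]
              refine (hm0 N (by omega)).trans ?_
              apply ENNReal.ofReal_le_ofReal
              apply Real.exp_le_exp.2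
              have : (n : ℝ) ≤ N := by exact_mod_cast hN.le
              nlinarith
            · simp only [ic_neg hN]; simp
        _ = _ := by rw [Finset.sum_const, Finset.card_range, nsmul_eq_mul]
  have hb := FP_basic p hδ1 n
  have h2n : ((2 * n + 1 : ℕ) : ℝ≥0∞) ≤ 2 * ((n + 1 : ℕ) : ℝ≥0∞) := by
    have : 2 * n + 1 ≤ 2 * (n + 1) := by omega
    exact_mod_cast this
  have hfin : (1 : ℝ≥0∞) ≤ (ENNReal.ofReal (8 * (1 / ((n : ℝ) + 1))) +
      4 * ENNReal.ofReal (((n : ℝ) + 1) ^ 2 * Real.exp (-(c * n)))) +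
      (FP p n (fun _ b => ic (δ * n < len b) 1) +
        FP p n (fun B b => ic (δ * n < len b) (ENNReal.ofReal (Xc p B b)))) := by
    refine hb.trans ?_
    gcongr
    calc ((2 * n + 1 : ℕ) : ℝ≥0∞) *
          FP p n (fun B b => ic (-1 ≤ Xc p B b ∧ (len b : ℝ) ≤ δ * n) 1)
        ≤ (2 * ((n + 1 : ℕ) : ℝ≥0∞)) * ((2 * ((n + 1 : ℕ) : ℝ≥0∞)) ^ 2 *
          ENNReal.ofReal (1 / ((n : ℝ) + 1) ^ 4) +
          (2 * ((n + 1 : ℕ) : ℝ≥0∞)) * ENNReal.ofReal (Real.exp (-(c * n)))) := by
          gcongr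
          refine (FP_short_le p n).trans (hF.trans ?_)
          gcongr
      _ = 8 * (((n + 1 : ℕ) : ℝ≥0∞) ^ 3 * ENNReal.ofReal (1 / ((n : ℝ) + 1) ^ 4)) +
          4 * (((n + 1 : ℕ) : ℝ≥0∞) ^ 2 * ENNReal.ofReal (Real.exp (-(c * n)))) := by ring
      _ = _ := by
          rw [e1, ← ENNReal.ofReal_pow (by positivity), ← ENNReal.ofReal_pow (by positivity),
            ← ENNReal.ofReal_mul (by positivity), ← ENNReal.ofReal_mul (by positivity)]
          congr 1
          have h8 : (8 : ℝ≥0∞) = ENNReal.ofReal 8 := by simp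
          rw [h8, ← ENNReal.ofReal_mul (by norm_num)]
          congr 1
          field_simp
  exact absurd hn (not_lt.2 hfin)

end Pool.Agent.Helper98.Elastic
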