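import Mathlib
import Pool.Agent.Helper98.Elastic.End6
import Pool.Agent.Helper98.Elastic.Upper8

/-!
# Lower bound for half-space walks up to the typical speed
-/

open Finset Filter Topology
open scoped ENNReal

namespace Pool.Agent.Helper98.Elastic

/-- mass of the half-space walks of length `n` ending at `x` -/
noncomputable def Hm (p : Par) (n : ℕ) (x : ℤ) : ℝ≥0∞ :=
  mass p (fun l => Half l ∧ l.length = n ∧ ed l = x)

/-- mass of the bridges of length `n` ending at `x` -/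
noncomputable def Bm (p : Par) (n : ℕ) (x : ℤ) : ℝ≥0∞ :=
  mass p (fun l => Bri l ∧ l.length = n ∧ ed l = x)

lemma Hm_mul (p : Par) (N m : ℕ) (y z : ℤ) : Bm p N y * Hm p m z ≤ Hm p (N + m) (y + z) := by
  unfold Bm Hm
  rw [mass_eq_ic, mass_eq_ic, ← tsum_tsum_mul, ← ENNReal.tsum_prod (f := fun a b : List Bool =>
    ic (Bri a ∧ a.length = N ∧ ed a = y) (W p a) * ic (Half b ∧ b.length = m ∧ ed b = z) (W p b)),
    mass_eq_ic]
  apply tsum_le_of_inj _ _ (fun x : List Bool × List Bool => x.1 ++ x.2)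
  · rintro ⟨a, b⟩ ⟨a', b'⟩ h1 h2 h3
    simp only at h1 h2 h3
    have ha : Bri a ∧ a.length = N ∧ ed a = y := by
      by_contra h; apply h1; rw [ic_neg h, zero_mul]
    have ha' : Bri a' ∧ a'.length = N ∧ ed a' = y := by
      by_contra h; apply h2; rw [ic_neg h, zero_mul]
    have := List.append_inj h3 (by rw [ha.2.1, ha'.2.1])
    exact Prod.ext this.1 this.2
  · rintro ⟨a, b⟩ h1
    simp only at h1 ⊢
    have ha : Bri a ∧ a.length = N ∧ ed a = y := by
      by_contra h; apply h1; rw [ic_neg h, zero_mul]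
    have hb : Half b ∧ b.length = m ∧ ed b = z := by
      by_contra h; apply h1; rw [ic_neg h, mul_zero]
    rw [ic_pos ha, ic_pos hb, ic_pos, W_bri_append p ha.1.2 hb.1]
    exact ⟨Half.append ha.1 hb.1, by rw [List.length_append, ha.2.1, hb.2.1],
      by rw [ed_append, ha.2.2, hb.2.2]⟩

lemma Bm_mul (p : Par) (N m : ℕ) (y z : ℤ) : Bm p N y * Bm p m z ≤ Bm p (N + m) (y + z) := by
  unfold Bm
  rw [mass_eq_ic, mass_eq_ic, ← tsum_tsum_mul, ← ENNReal.tsum_prod (f := fun a b : List Bool =>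
    ic (Bri a ∧ a.length = N ∧ ed a = y) (W p a) * ic (Bri b ∧ b.length = m ∧ ed b = z) (W p b)),
    mass_eq_ic]
  apply tsum_le_of_inj _ _ (fun x : List Bool × List Bool => x.1 ++ x.2)
  · rintro ⟨a, b⟩ ⟨a', b'⟩ h1 h2 h3
    simp only at h1 h2 h3
    have ha : Bri a ∧ a.length = N ∧ ed a = y := by
      by_contra h; apply h1; rw [ic_neg h, zero_mul]
    have ha' : Bri a' ∧ a'.length = N ∧ ed a' = y := by
      by_contra h; apply h2; rw [ic_neg h, zero_mul]
    have := List.append_inj h3 (by rw [ha.2.1, ha'.2.1])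
    exact Prod.ext this.1 this.2
  · rintro ⟨a, b⟩ h1
    simp only at h1 ⊢
    have ha : Bri a ∧ a.length = N ∧ ed a = y := by
      by_contra h; apply h1; rw [ic_neg h, zero_mul]
    have hb : Bri b ∧ b.length = m ∧ ed b = z := by
      by_contra h; apply h1; rw [ic_neg h, mul_zero]
    rw [ic_pos ha, ic_pos hb, ic_pos, W_bri_append p ha.1.2 hb.1.1]
    exact ⟨Bri.append ha.1 hb.1, by rw [List.length_append, ha.2.1, hb.2.1],
      by rw [ed_append, ha.2.2, hb.2.2]⟩

lemma Bm_str (p : Par) (q : ℕ) : ENNReal.ofReal (zz p ^ q) ≤ Bm p q q := by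
  unfold Bm
  refine le_trans (le_of_eq ?_) (W_le_mass p (l := str q) ⟨bri_str q, length_str q, ed_str q⟩)
  rw [W_str, ze, ENNReal.ofReal_pow (zz_pos p).le]

lemma Bm_parity (p : Par) {N : ℕ} {y : ℤ} (h : 0 < Bm p N y) : (N + y) % 2 = 0 := by
  by_contra hne
  have : Bm p N y = 0 := by
    unfold Bm
    rw [mass_eq_ic, ENNReal.tsum_eq_zero]
    intro l
    rw [ic_neg]
    rintro ⟨_, h1, h2⟩
    have h3 := pos_parity l l.length le_rfl
    rw [pos_length] at h3
    omega
  rw [this] at h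
  exact lt_irrefl _ h

lemma exists_fast' (p : Par) {δ : ℝ} (hδ : 0 < δ) (hδ1 : δ ≤ 1) :
    ∀ᶠ n : ℕ in atTop, ∃ N y : ℕ, n < N ∧ (N : ℝ) ≤ (1 + δ) * n ∧ speed p * N + 1 ≤ y ∧
      (y : ℝ) ≤ (speed p + δ) * N ∧ ENNReal.ofReal (1 / ((n : ℝ) + 1) ^ 5) ≤ Bm p N y := by
  have hs := speed_pos p
  have hs1 := speed_lt_one p
  obtain ⟨q, hq⟩ := exists_nat_ge (2 / (1 - speed p))
  have hq' : 2 ≤ q * (1 - speed p) := by rwa [div_le_iff₀ (by linarith)] at hq
  have h1 := exists_fast p (δ := δ / 2) (δ₂ := δ / 2) (by positivity) (by linarith) (by positivity)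
  have h2 := eventually_div_lt (δ := δ / 2) (by positivity) q
  have hz : 0 < zz p ^ q := pow_pos (zz_pos p) q
  have h3 : ∀ᶠ n : ℕ in atTop, 1 ≤ zz p ^ q * ((n : ℝ) + 1) := by
    have := (tendsto_natCast_atTop_atTop (R := ℝ)).const_mul_atTop hz
    filter_upwards [this.eventually_ge_atTop 1] with n hn
    linarith
  filter_upwards [h1, h2, h3] with n hn g6 g7
  obtain ⟨N, y, g1, g2, g3, g4, g5⟩ := hn
  have hnN : (n : ℝ) ≤ N := by exact_mod_cast g1.le
  have hq0 : (0 : ℝ) ≤ q := Nat.cast_nonneg q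
  have hN0 : (0 : ℝ) ≤ N := Nat.cast_nonneg N
  refine ⟨q + N, q + y, by omega, ?_, ?_, ?_, ?_⟩
  · push_cast; linarith only [g6, g2]
  · push_cast; linarith only [hq', g3]
  · push_cast
    have h4 : (q : ℝ) ≤ δ / 2 * N := g6.trans (by gcongr)
    nlinarith only [g4, h4, hδ, hs]
  · calc ENNReal.ofReal (1 / ((n : ℝ) + 1) ^ 5)
        ≤ ENNReal.ofReal (zz p ^ q * (1 / ((n : ℝ) + 1) ^ 4)) := by
          apply ENNReal.ofReal_le_ofReal
          have hn1 : (0 : ℝ) < (n : ℝ) + 1 := by positivity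
          rw [div_le_iff₀ (by positivity)]
          have : zz p ^ q * (1 / ((n : ℝ) + 1) ^ 4) * ((n : ℝ) + 1) ^ 5 =
            zz p ^ q * ((n : ℝ) + 1) := by field_simp
          rw [this]; exact g7
      _ = ENNReal.ofReal (zz p ^ q) * ENNReal.ofReal (1 / ((n : ℝ) + 1) ^ 4) :=
          ENNReal.ofReal_mul hz.le
      _ ≤ Bm p q q * Bm p N y := mul_le_mul' (Bm_str p q) g5
      _ ≤ Bm p (q + N) (q + y) := Bm_mul p q N q y
      _ = _ := by push_cast; rfl

/-! ### An explicit walk -/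

lemma xc_le_mul {κ : ℝ} (hκ : 0 ≤ κ) (a b : List Bool) : xc κ a b ≤ a.length * b.length := by
  unfold xc
  calc ∑ i ∈ Icc 1 a.length, ∑ j ∈ Icc 1 b.length, (if pos a i = pos b j then kr κ (i + j) else 0)
      ≤ ∑ i ∈ Icc 1 a.length, ∑ j ∈ Icc 1 b.length, (1 : ℝ) := by
        apply Finset.sum_le_sum
        intro i hi
        apply Finset.sum_le_sum
        intro j hj
        rw [Finset.mem_Icc] at hi hj
        split_ifs
        · rw [show i + j = (i + j - 1) + 1 by omega]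
          exact kr_le_one hκ _
        · norm_num
    _ = _ := by simp

lemma half_tent {a b : ℕ} (h : b < a) : Half (str a ++ neg (str b)) := by
  intro i hi1 hi2
  rw [List.length_append, length_neg, length_str, length_str] at hi2
  rcases le_or_gt i a with h1 | h1
  · rw [pos_append_left _ _ (by rw [length_str]; exact h1), pos_str _ _ h1]
    exact_mod_cast hi1
  · have h2 : i = (str a).length + (i - a) := by rw [length_str]; omega
    rw [h2, pos_append_right, ed_str, pos_neg, pos_str _ _ (by omega)]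
    omega

lemma Hm_explicit (p : Par) {n x : ℕ} (hx1 : 1 ≤ x) (hxn : x ≤ n) (hpar : (n + x) % 2 = 0) :
    ENNReal.ofReal (Real.exp (-(p.β * (n : ℝ) ^ 2)) * zz p ^ n) ≤ Hm p n x := by
  obtain ⟨a, b, h1, h2⟩ : ∃ a b : ℕ, a + b = n ∧ a = b + x :=
    ⟨(n + x) / 2, (n - x) / 2, by omega, by omega⟩
  have hβ := p.hβ
  have hlen : (str a ++ neg (str b)).length = n := by
    rw [List.length_append, length_neg, length_str, length_str, h1]
  refine le_trans ?_ (W_le_mass p (l := str a ++ neg (str b)) ⟨half_tent (by omega), hlen, ?_⟩)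
  · unfold W
    apply ENNReal.ofReal_le_ofReal
    rw [hlen]
    have hz : 0 ≤ zz p ^ n := pow_nonneg (zz_pos p).le n
    apply mul_le_mul_of_nonneg_right _ hz
    unfold wt
    apply Real.exp_le_exp.2
    rw [eng_top, eng_str, eng_str]
    have h3 := xc_le_mul p.hκ0.le (str a).reverse (str b)
    rw [List.length_reverse, length_str, length_str] at h3
    have h4 : (a : ℝ) * b ≤ (n : ℝ) ^ 2 := by
      rw [sq]
      have ha : (a : ℝ) ≤ n := by exact_mod_cast (by omega : a ≤ n)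
      have hb : (b : ℝ) ≤ n := by exact_mod_cast (by omega : b ≤ n)
      have : (0 : ℝ) ≤ a := Nat.cast_nonneg a
      gcongr
    have h5 : p.β * (0 + 0 + xc p.κ (str a).reverse (str b)) ≤ p.β * (n : ℝ) ^ 2 := by
      apply mul_le_mul_of_nonneg_left _ hβ.le
      linarith only [h3, h4]
    linarith
  · rw [ed_append, ed_neg, ed_str, ed_str]
    omega

/-! ### The crude bound -/

lemma crude (p : Par) : ∃ C : ℝ, 0 < C ∧ ∀ n : ℕ, ∀ x : ℕ, 1 ≤ x → (x : ℝ) ≤ speed p * n →
    (n + x) % 2 = 0 → ENNReal.ofReal (Real.exp (-(C * (n : ℝ) ^ (1 - p.κ)))) ≤ Hm p n x := by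
  have hs := speed_pos p
  have hs1 := speed_lt_one p
  have hβ := p.hβ
  have hκ0 := p.hκ0
  have hκ1 := p.hκ1
  have h1κ : 0 < 1 - p.κ := by linarith
  have hz := zz_pos p
  have hz1 := zz_le_one p
  have hlz : Real.log (zz p) ≤ 0 := Real.log_nonpos hz.le hz1
  obtain ⟨N1, hN1⟩ := lower_unif p (speed p / 16) 1 (by positivity) one_pos
  have hB : 0 < 1 - (2 : ℝ) ^ (-(1 - p.κ)) := by
    have : (2 : ℝ) ^ (-(1 - p.κ)) < 1 := Real.rpow_lt_one_of_one_lt_of_neg (by norm_num) (by linarith)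
    linarith
  have e1 := poly_le_exp 5 (B := 1 - (2 : ℝ) ^ (-(1 - p.κ))) (a := 1 - p.κ) (c := 1) hB h1κ one_pos
  have e2 := exists_fast' p (δ := speed p / 16) (by positivity) (by linarith)
  have e3 : Tendsto (fun n : ℕ => n / 2) atTop atTop := by
    apply tendsto_atTop_atTop.2
    intro b
    exact ⟨2 * b, fun a ha => by omega⟩
  have e4 := eventually_div_lt (δ := 191 / 512 * speed p) (by positivity) 1
  obtain ⟨N2, hN2⟩ := eventually_atTop.1 (e1.and ((e3.eventually e2).and e4))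
  set N0 := max (max N1 N2) 1 with hN0
  set C : ℝ := 1 + (p.β * (N0 : ℝ) ^ 2 + N0 * (-Real.log (zz p))) + 2 * cth p 0 with hC
  have hc0 : 0 ≤ cth p 0 := cth_nonneg p hs.le
  have hN0' : (0 : ℝ) ≤ N0 := Nat.cast_nonneg N0
  have hC1 : 0 ≤ p.β * (N0 : ℝ) ^ 2 + N0 * (-Real.log (zz p)) := by
    have : 0 ≤ -Real.log (zz p) := by linarith
    positivity
  have hC0 : 1 ≤ C := by linarith
  refine ⟨C, by linarith, ?_⟩
  intro n
  induction n using Nat.strong_induction_on with
  | _ n ih =>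
  intro x hx1 hxs hpar
  have hn1 : 1 ≤ n := by
    by_contra h
    have : n = 0 := by omega
    subst this
    have : (1 : ℝ) ≤ x := by exact_mod_cast hx1
    simp at hxs
    omega
  have hn1' : (1 : ℝ) ≤ n := by exact_mod_cast hn1
  have hpow1 : 1 ≤ (n : ℝ) ^ (1 - p.κ) := Real.one_le_rpow hn1' h1κ.le
  have hxn : x ≤ n := by
    have : (x : ℝ) ≤ n := by nlinarith only [hxs, hs1]
    exact_mod_cast this
  by_cases hcA : n < N0
  · refine le_trans ?_ (Hm_explicit p hx1 hxn hpar)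
    apply ENNReal.ofReal_le_ofReal
    have h1 : zz p ^ n = Real.exp (n * Real.log (zz p)) := by
      rw [← Real.log_pow, Real.exp_log (pow_pos hz n)]
    rw [h1, ← Real.exp_add]
    apply Real.exp_le_exp.2
    have h2 : (n : ℝ) ≤ N0 := by exact_mod_cast hcA.le
    have h3 : p.β * (n : ℝ) ^ 2 ≤ p.β * (N0 : ℝ) ^ 2 := by gcongr
    have h4 : (n : ℝ) * (-Real.log (zz p)) ≤ N0 * (-Real.log (zz p)) := by
      apply mul_le_mul_of_nonneg_right h2; linarith only [hlz]
    have h5 : C * 1 ≤ C * (n : ℝ) ^ (1 - p.κ) := by gcongr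
    linarith only [hs, hs1, hc0, h3, h4, h5]
  · rw [not_lt] at hcA
    have hnN1 : N1 ≤ n := by omega
    obtain ⟨f1, f2, f3⟩ := hN2 n (by omega)
    by_cases hcB : (x : ℝ) ≤ 15 / 16 * speed p * n
    · have h1 := hN1 n hnN1 (x - 1) (by omega) (by
        have : ((x - 1 : ℕ) : ℝ) ≤ x := by exact_mod_cast Nat.sub_le x 1
        linarith only [hcB, this])
      have h2 : (((x - 1 : ℕ) : ℤ) + 1) = (x : ℤ) := by omega
      rw [h2] at h1
      refine le_trans ?_ h1
      apply ENNReal.ofReal_le_ofReal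
      apply Real.exp_le_exp.2
      have h3 : rate p n ((x - 1 : ℕ) : ℝ) ≤ cth p 0 * (n : ℝ) ^ (1 - p.κ) := by
        have h4 : rate p n 0 = cth p 0 * (n : ℝ) ^ (1 - p.κ) := by
          have := rate_eq p (n := n) (θ := 0) (by positivity) hs.le
          rw [zero_mul] at this
          exact this
        rw [← h4]
        unfold rate
        have h5 : SS p.κ (((n : ℝ) - ((x - 1 : ℕ) : ℝ) / speed p) / 2) ≤
            SS p.κ (((n : ℝ) - 0 / speed p) / 2) := by
          apply SS_mono hκ1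
          · have h6 : ((x - 1 : ℕ) : ℝ) ≤ x := by exact_mod_cast Nat.sub_le x 1
            have h7 : ((x - 1 : ℕ) : ℝ) / speed p ≤ n := by
              rw [div_le_iff₀ hs]; linarith only [hs, hs1, f3, hcB, h6]
            linarith only [h7]
          · have h6 : 0 ≤ ((x - 1 : ℕ) : ℝ) / speed p := by positivity
            rw [zero_div]
            linarith only [h6]
        gcongr
      have h5 : 2 * cth p 0 * (n : ℝ) ^ (1 - p.κ) ≤ C * (n : ℝ) ^ (1 - p.κ) := by
        gcongr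
        linarith only [hs, hs1, hC1]
      linarith only [h3, h5]
    · rw [not_le] at hcB
      obtain ⟨N, y, g1, g2, g3, g4, g5⟩ := f2
      have hm : ((n / 2 : ℕ) : ℝ) ≤ n / 2 := Nat.cast_div_le
      have hNn : (N : ℝ) ≤ 17 / 32 * n := by
        have h1 : (1 + speed p / 16) * ((n / 2 : ℕ) : ℝ) ≤ 17 / 16 * (n / 2) := by
          gcongr
          linarith only [hs1]
        linarith only [g2, h1]
      have hNn' : N ≤ n := by
        have : (N : ℝ) ≤ n := by linarith only [hs, hs1, hn1', hNn]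
        exact_mod_cast this
      have hN0r : (0 : ℝ) ≤ N := Nat.cast_nonneg N
      have hyx : (1 : ℝ) ≤ x - y := by
        have h1 : (y : ℝ) ≤ 289 / 512 * speed p * n := by
          calc (y : ℝ) ≤ (speed p + speed p / 16) * N := g4
            _ ≤ (speed p + speed p / 16) * (17 / 32 * n) := by gcongr
            _ = _ := by ring
        push_cast at f3
        linarith only [hs, hs1, hcB, g3, g4, h1]
      have hyx' : y + 1 ≤ x := by
        have : ((y + 1 : ℕ) : ℝ) ≤ x := by push_cast; linarith only [hyx]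
        exact_mod_cast this
      have hBpos : 0 < Bm p N y := lt_of_lt_of_le (ENNReal.ofReal_pos.2 (by positivity)) g5
      have hpar2 := Bm_parity p hBpos
      have hcast1 : ((n - N : ℕ) : ℝ) = n - N := Nat.cast_sub hNn'
      have hcast2 : ((x - y : ℕ) : ℝ) = x - y := Nat.cast_sub (by omega)
      have hih := ih (n - N) (by omega) (x - y) (by omega) (by
        rw [hcast1, hcast2]; linarith only [hs, hs1, hxs, g3]) (by omega)
      have h6 := Hm_mul p N (n - N) y ((x - y : ℕ) : ℤ)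
      have h7 : N + (n - N) = n := by omega
      have h8 : (y : ℤ) + ((x - y : ℕ) : ℤ) = x := by omega
      rw [h7, h8] at h6
      refine le_trans ?_ h6
      refine le_trans ?_ (mul_le_mul' g5 hih)
      rw [← ENNReal.ofReal_mul (by positivity)]
      apply ENNReal.ofReal_le_ofReal
      have h9 : ((n - N : ℕ) : ℝ) ≤ n / 2 := by
        have : 2 * (n - N) ≤ n := by omega
        have : (2 : ℝ) * ((n - N : ℕ) : ℝ) ≤ n := by exact_mod_cast this
        linarith only [this]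
      have h10 : ((n - N : ℕ) : ℝ) ^ (1 - p.κ) ≤ 2 ^ (-(1 - p.κ)) * (n : ℝ) ^ (1 - p.κ) := by
        calc ((n - N : ℕ) : ℝ) ^ (1 - p.κ) ≤ ((n : ℝ) / 2) ^ (1 - p.κ) := by gcongr
          _ = _ := by
            rw [Real.div_rpow (by positivity) (by norm_num), Real.rpow_neg (by norm_num)]
            ring
      have h11 : ((n / 2 : ℕ) : ℝ) + 1 ≤ n + 1 := by linarith only [hs, hs1, hn1', hm]
      calc Real.exp (-(C * (n : ℝ) ^ (1 - p.κ)))
          = Real.exp (-(C * (1 - 2 ^ (-(1 - p.κ))) * (n : ℝ) ^ (1 - p.κ))) *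
            Real.exp (-(C * (2 ^ (-(1 - p.κ)) * (n : ℝ) ^ (1 - p.κ)))) := by
            rw [← Real.exp_add]; congr 1; ring
        _ ≤ Real.exp (-((1 - 2 ^ (-(1 - p.κ))) * (n : ℝ) ^ (1 - p.κ))) *
            Real.exp (-(C * ((n - N : ℕ) : ℝ) ^ (1 - p.κ))) := by
            have h12 : 0 ≤ (1 - (2 : ℝ) ^ (-(1 - p.κ))) * (n : ℝ) ^ (1 - p.κ) := by positivity
            gcongr
            · nlinarith only [hs, hs1, hB, hc0, hC1]
        _ ≤ _ := by
            gcongr
            rw [Real.exp_neg, ← one_div]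
            apply one_div_le_one_div_of_le (by positivity)
            calc (((n / 2 : ℕ) : ℝ) + 1) ^ 5 ≤ ((n : ℝ) + 1) ^ 5 := by gcongr
              _ ≤ _ := by rw [one_mul] at f1; exact f1

/-- the lower bound at the typical speed -/
lemma endpoint (p : Par) {ε : ℝ} (hε : 0 < ε) : ∀ᶠ n : ℕ in atTop, ∀ x : ℕ, (n + x) % 2 = 0 →
    speed p * n - 1 ≤ x → (x : ℝ) ≤ speed p * n + 1 →
    ENNReal.ofReal (Real.exp (-(ε * (n : ℝ) ^ (1 - p.κ)))) ≤ Hm p n x := by
  have hs := speed_pos p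
  have hs1 := speed_lt_one p
  have hβ := p.hβ
  have hκ0 := p.hκ0
  have hκ1 := p.hκ1
  have h1κ : 0 < 1 - p.κ := by linarith
  obtain ⟨C, hC, hcr⟩ := crude p
  set t : ℝ := min (1 / 4) ((ε / (2 * C)) ^ (1 / (1 - p.κ))) with ht
  have ht0 : 0 < t := lt_min (by norm_num) (by positivity)
  have ht1 : t ≤ 1 / 4 := min_le_left _ _
  have ht2 : t ≤ (ε / (2 * C)) ^ (1 / (1 - p.κ)) := min_le_right _ _
  have ht3 : t ^ (1 - p.κ) ≤ ε / (2 * C) := by
    calc t ^ (1 - p.κ) ≤ ((ε / (2 * C)) ^ (1 / (1 - p.κ))) ^ (1 - p.κ) := by gcongr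
      _ = ε / (2 * C) := by
        rw [← Real.rpow_mul (by positivity), one_div, inv_mul_cancel₀ h1κ.ne', Real.rpow_one]
  set δ : ℝ := t / 2 with hδ
  have hδ0 : 0 < δ := by positivity
  have hδ1 : δ ≤ 1 / 8 := by linarith
  have e1 := poly_le_exp 5 (B := ε / 2) (a := 1 - p.κ) (c := 1) (by positivity) h1κ one_pos
  have e2 := exists_fast' p (δ := speed p * δ / 2) (by positivity) (by nlinarith only [hs1, ht1, hδ, hδ0, hs])
  have e3 : Tendsto (fun n : ℕ => ⌊(1 - 2 * δ) * (n : ℝ)⌋₊) atTop atTop :=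
    tendsto_nat_floor_atTop.comp (tendsto_natCast_atTop_atTop.const_mul_atTop (by linarith only [ht0, ht1, hδ]))
  have e4 := eventually_div_lt (δ := speed p * δ) (by positivity) 2
  filter_upwards [e1, e3.eventually e2, e4, eventually_ge_atTop 1] with n f1 f2 f3 hn1
  intro x hpar hx1 hx2
  have hn1' : (1 : ℝ) ≤ n := by exact_mod_cast hn1
  obtain ⟨N, y, g1, g2, g3, g4, g5⟩ := f2
  set m := ⌊(1 - 2 * δ) * (n : ℝ)⌋₊ with hm
  have hm1 : (m : ℝ) ≤ (1 - 2 * δ) * n := Nat.floor_le (by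
    have : 0 ≤ 1 - 2 * δ := by linarith only [ht0, ht1, hδ]
    positivity)
  have hm2 : (1 - 2 * δ) * n < m + 1 := Nat.lt_floor_add_one _
  have hN1 : (1 - 2 * δ) * n ≤ N := by
    have : (m : ℝ) + 1 ≤ N := by exact_mod_cast g1
    linarith only [hm2, this]
  have hNn : (N : ℝ) ≤ (1 - 3 / 2 * δ) * n := by
    calc (N : ℝ) ≤ (1 + speed p * δ / 2) * m := g2
      _ ≤ (1 + δ / 2) * ((1 - 2 * δ) * n) := by
          gcongr
          nlinarith only [hδ, hs, hs1, ht0]
      _ = ((1 + δ / 2) * (1 - 2 * δ)) * n := by ring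
      _ ≤ _ := by
          gcongr
          nlinarith only [ht0, hδ, hδ0, ht1]
  have hN0r : (0 : ℝ) ≤ N := Nat.cast_nonneg N
  have hNn' : (N : ℝ) ≤ n := by
    refine hNn.trans ?_
    calc (1 - 3 / 2 * δ) * (n : ℝ) ≤ 1 * n := by
          gcongr
          linarith only [hδ0]
      _ = n := one_mul _
  have hNn'' : N ≤ n := by exact_mod_cast hNn'
  have hyx : (1 : ℝ) ≤ x - y := by
    have h1 : (y : ℝ) ≤ speed p * ((1 - 3 / 2 * δ) * n) + speed p * δ / 2 * n := by
      calc (y : ℝ) ≤ (speed p + speed p * δ / 2) * N := g4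
        _ = speed p * N + speed p * δ / 2 * N := by ring
        _ ≤ _ := by gcongr
    push_cast at f3
    have h2 : speed p * ((1 - 3 / 2 * δ) * n) + speed p * δ / 2 * n = speed p * n - speed p * δ * n := by
      ring
    linarith only [f3, hx1, h1]
  have hyx' : y + 1 ≤ x := by
    have : ((y + 1 : ℕ) : ℝ) ≤ x := by push_cast; linarith only [hyx]
    exact_mod_cast this
  have hBpos : 0 < Bm p N y := lt_of_lt_of_le (ENNReal.ofReal_pos.2 (by positivity)) g5
  have hpar2 := Bm_parity p hBpos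
  have hcast1 : ((n - N : ℕ) : ℝ) = n - N := Nat.cast_sub hNn''
  have hcast2 : ((x - y : ℕ) : ℝ) = x - y := Nat.cast_sub (by omega)
  have hih := hcr (n - N) (x - y) (by omega) (by
    rw [hcast1, hcast2]; linarith only [hx2, g3]) (by omega)
  have h6 := Hm_mul p N (n - N) y ((x - y : ℕ) : ℤ)
  have h7 : N + (n - N) = n := by omega
  have h8 : (y : ℤ) + ((x - y : ℕ) : ℤ) = x := by omega
  rw [h7, h8] at h6
  refine le_trans ?_ h6
  refine le_trans ?_ (mul_le_mul' g5 hih)
  rw [← ENNReal.ofReal_mul (by positivity)]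
  apply ENNReal.ofReal_le_ofReal
  have h9 : ((n - N : ℕ) : ℝ) ≤ t * n := by
    rw [hcast1]
    have : t = 2 * δ := by rw [hδ]; ring
    rw [this]
    linarith only [hN1]
  have h10 : C * ((n - N : ℕ) : ℝ) ^ (1 - p.κ) ≤ ε / 2 * (n : ℝ) ^ (1 - p.κ) := by
    calc C * ((n - N : ℕ) : ℝ) ^ (1 - p.κ) ≤ C * (t * (n : ℝ)) ^ (1 - p.κ) := by gcongr
      _ = C * (t ^ (1 - p.κ) * (n : ℝ) ^ (1 - p.κ)) := by
        rw [Real.mul_rpow ht0.le (by positivity)]
      _ ≤ C * (ε / (2 * C) * (n : ℝ) ^ (1 - p.κ)) := by gcongr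
      _ = _ := by field_simp
  have h11 : (m : ℝ) ≤ n := by
    refine hm1.trans ?_
    calc (1 - 2 * δ) * (n : ℝ) ≤ 1 * n := by
          gcongr
          linarith only [hδ0]
      _ = n := one_mul _
  calc Real.exp (-(ε * (n : ℝ) ^ (1 - p.κ)))
      = Real.exp (-(ε / 2 * (n : ℝ) ^ (1 - p.κ))) *
        Real.exp (-(ε / 2 * (n : ℝ) ^ (1 - p.κ))) := by
        rw [← Real.exp_add]; congr 1; ring
    _ ≤ 1 / ((m : ℝ) + 1) ^ 5 * Real.exp (-(C * ((n - N : ℕ) : ℝ) ^ (1 - p.κ))) := by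
        gcongr
        rw [Real.exp_neg, ← one_div]
        apply one_div_le_one_div_of_le (by positivity)
        calc ((m : ℝ) + 1) ^ 5 ≤ ((n : ℝ) + 1) ^ 5 := by gcongr
          _ ≤ _ := by rw [one_mul] at f1; exact f1

end Pool.Agent.Helper98.Elastic
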