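import Pool.Agent.Helper98.Elastic.Span

/-!
# Pairs of bridges with the same span
-/

open Finset Filter Topology
open scoped ENNReal

namespace Pool.Agent.Helper98.Elastic

lemma bri_eq_nil {c : List Bool} (h : Bri c) (h0 : ed c = 0) : c = [] := by
  by_contra hne
  have := h.ed_pos hne
  omega

/-- pairs of words -/
abbrev PM : Type := List Bool × List Bool

/-- factorisation structure of pairs of bridges with the same span -/
def jfac : Fac PM where
  op := fun x y => (x.1 ++ y.1, x.2 ++ y.2)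
  e := ([], [])
  B := fun x => Bri x.1 ∧ Bri x.2 ∧ ed x.1 = ed x.2
  sz := fun x => (ed x.1).toNat
  op_assoc := fun a b c => by simp
  e_op := fun a => by simp
  op_e := fun a => by simp
  B_e := ⟨bri_nil, bri_nil, rfl⟩
  B_op := fun a b ha hb => ⟨ha.1.append hb.1, ha.2.1.append hb.2.1, by
    simp only [ed_append]; rw [ha.2.2, hb.2.2]⟩
  cancel := fun a b c h => by
    simp only [Prod.mk.injEq, List.append_cancel_left_eq] at h
    exact Prod.ext h.1 h.2
  comp := by
    rintro ⟨a, b⟩ ⟨a', b'⟩ ⟨x, y⟩ ⟨x', y'⟩ ⟨ha, hb, hab⟩ ⟨ha', hb', hab'⟩ ⟨hx, hy, hxy⟩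
      ⟨hx', hy', hxy'⟩ h
    simp only [Prod.mk.injEq] at h
    simp only at ha hb hab ha' hb' hab' hx hy hxy hx' hy' hxy'
    obtain ⟨h1, h2⟩ := h
    rcases List.append_eq_append_iff.1 h1 with ⟨c, hc1, hc2⟩ | ⟨c, hc1, hc2⟩
    · have hc : Bri c := bri_mid (a := a) (b' := x') (by rw [← hc1]; exact ha')
        (by rw [← hc2]; exact hx.1)
      have hec : ed a' = ed a + ed c := by rw [hc1, ed_append]
      rcases List.append_eq_append_iff.1 h2 with ⟨d, hd1, hd2⟩ | ⟨d, hd1, hd2⟩
      · have hd : Bri d := bri_mid (a := b) (b' := y') (by rw [← hd1]; exact hb')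
          (by rw [← hd2]; exact hy.1)
        have hed : ed b' = ed b + ed d := by rw [hd1, ed_append]
        left
        exact ⟨(c, d), ⟨hc, hd, by simp only; omega⟩, Prod.ext hc1 hd1⟩
      · have hd : Bri d := bri_mid (a := b') (b' := y) (by rw [← hd1]; exact hb)
          (by rw [← hd2]; exact hy'.1)
        have hed : ed b = ed b' + ed d := by rw [hd1, ed_append]
        have hc0 := hc.ed_nonneg
        have hd0 := hd.ed_nonneg
        have hcn : c = [] := bri_eq_nil hc (by omega)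
        have hdn : d = [] := bri_eq_nil hd (by omega)
        left
        refine ⟨([], []), ⟨bri_nil, bri_nil, rfl⟩, Prod.ext ?_ ?_⟩
        · simp only [List.append_nil]; rw [hc1, hcn, List.append_nil]
        · simp only [List.append_nil]; rw [hd1, hdn, List.append_nil]
    · have hc : Bri c := bri_mid (a := a') (b' := x) (by rw [← hc1]; exact ha)
        (by rw [← hc2]; exact hx'.1)
      have hec : ed a = ed a' + ed c := by rw [hc1, ed_append]
      rcases List.append_eq_append_iff.1 h2 with ⟨d, hd1, hd2⟩ | ⟨d, hd1, hd2⟩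
      · have hd : Bri d := bri_mid (a := b) (b' := y') (by rw [← hd1]; exact hb')
          (by rw [← hd2]; exact hy.1)
        have hed : ed b' = ed b + ed d := by rw [hd1, ed_append]
        have hc0 := hc.ed_nonneg
        have hd0 := hd.ed_nonneg
        have hcn : c = [] := bri_eq_nil hc (by omega)
        have hdn : d = [] := bri_eq_nil hd (by omega)
        left
        refine ⟨([], []), ⟨bri_nil, bri_nil, rfl⟩, Prod.ext ?_ ?_⟩
        · simp only [List.append_nil]; rw [hc1, hcn, List.append_nil]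
        · simp only [List.append_nil]; rw [hd1, hdn, List.append_nil]
      · have hd : Bri d := bri_mid (a := b') (b' := y) (by rw [← hd1]; exact hb)
          (by rw [← hd2]; exact hy'.1)
        have hed : ed b = ed b' + ed d := by rw [hd1, ed_append]
        right
        exact ⟨(c, d), ⟨hc, hd, by simp only; omega⟩, Prod.ext hc1 hd1⟩
  sz_op := fun a b ha hb => by
    have h1 := ha.1.ed_nonneg
    have h2 := hb.1.ed_nonneg
    simp only [ed_append]
    omega
  sz_pos := fun a ha hne => by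
    have h1 := ha.1.ed_nonneg
    have h3 := ha.2.2
    by_contra h
    have h4 : ed a.1 = 0 := by omega
    apply hne
    exact Prod.ext (bri_eq_nil ha.1 h4) (bri_eq_nil ha.2.1 (by omega))

/-- irreducible pairs -/
abbrev JB : Type := jfac.P

/-- span of an irreducible pair -/
def spanJ (x : JB) : ℕ := (ed x.1.1).toNat

/-- weight of an irreducible pair -/
noncomputable def wJ (p : Par) (x : JB) : ℝ≥0∞ := W p x.1.1 * W p x.1.2

/-- number of coincidences of two strands -/
def Nc (a b : List Bool) : ℕ :=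
  ∑ i ∈ Icc 1 a.length, ∑ j ∈ Icc 1 b.length, if pos a i = pos b j then 1 else 0

/-- number of coincidences in an irreducible pair -/
def nJ (x : JB) : ℕ := Nc x.1.1 x.1.2

/-- half of the total length of an irreducible pair -/
def hl (x : JB) : ℕ := (x.1.1.length + x.1.2.length) / 2

lemma spanJ_pos (x : JB) : 0 < spanJ x := jfac.sz_pos x.1 x.2.1 x.2.2.1

lemma spanJ_eq (x : JB) : (spanJ x : ℤ) = ed x.1.1 := by
  have := x.2.1.1.ed_nonneg
  unfold spanJ; omega

lemma sum_Icc_add {M : Type*} [AddCommMonoid M] (f : ℕ → M) (m n : ℕ) :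
    ∑ i ∈ Icc 1 (m + n), f i = ∑ i ∈ Icc 1 m, f i + ∑ i ∈ Icc 1 n, f (m + i) := by
  have h1 : Icc 1 (m + n) = Icc 1 m ∪ (Icc 1 n).image (fun i => m + i) := by
    ext i
    simp only [Finset.mem_union, Finset.mem_image, Finset.mem_Icc]
    constructor
    · intro h
      by_cases h2 : i ≤ m
      · left; omega
      · right; exact ⟨i - m, by omega, by omega⟩
    · rintro (h | ⟨j, h, rfl⟩) <;> omega
  rw [h1, Finset.sum_union, Finset.sum_image]
  · intro a _ b _ h; simpa using h
  · rw [Finset.disjoint_left]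
    intro i hi hi'
    simp only [Finset.mem_image, Finset.mem_Icc] at *
    obtain ⟨j, h, rfl⟩ := hi'
    omega

/-- double sums over coincidences split along concatenations -/
lemma sum_coinc_append {M : Type*} [AddCommMonoid M] {a b a' b' : List Bool}
    (ha : Bri a) (hb : Bri b) (hab : ed a = ed b) (ha' : Half a') (hb' : Half b')
    (f : ℕ → ℕ → M) :
    (∑ i ∈ Icc 1 (a ++ a').length, ∑ j ∈ Icc 1 (b ++ b').length,
      if pos (a ++ a') i = pos (b ++ b') j then f i j else 0) =
    (∑ i ∈ Icc 1 a.length, ∑ j ∈ Icc 1 b.length, if pos a i = pos b j then f i j else 0) +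
    ∑ i ∈ Icc 1 a'.length, ∑ j ∈ Icc 1 b'.length,
      if pos a' i = pos b' j then f (a.length + i) (b.length + j) else 0 := by
  rw [List.length_append, List.length_append, sum_Icc_add]
  congr 1
  · refine Finset.sum_congr rfl fun i hi => ?_
    rw [Finset.mem_Icc] at hi
    rw [sum_Icc_add]
    have h1 : ∑ j ∈ Icc 1 b'.length, (if pos (a ++ a') i = pos (b ++ b') (b.length + j) then
        f i (b.length + j) else 0) = 0 := by
      apply Finset.sum_eq_zero
      intro j hj
      rw [Finset.mem_Icc] at hj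
      rw [if_neg]
      rw [pos_append_left _ _ hi.2, pos_append_right]
      have h2 := ha.2 i hi.2
      have h3 := hb' j hj.1 hj.2
      omega
    rw [h1, add_zero]
    refine Finset.sum_congr rfl fun j hj => ?_
    rw [Finset.mem_Icc] at hj
    rw [pos_append_left _ _ hi.2, pos_append_left _ _ hj.2]
  · refine Finset.sum_congr rfl fun i hi => ?_
    rw [Finset.mem_Icc] at hi
    rw [sum_Icc_add]
    have h1 : ∑ j ∈ Icc 1 b.length, (if pos (a ++ a') (a.length + i) = pos (b ++ b') j then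
        f (a.length + i) j else 0) = 0 := by
      apply Finset.sum_eq_zero
      intro j hj
      rw [Finset.mem_Icc] at hj
      rw [if_neg]
      rw [pos_append_left _ _ hj.2, pos_append_right]
      have h2 := hb.2 j hj.2
      have h3 := ha' i hi.1 hi.2
      omega
    rw [h1, zero_add]
    refine Finset.sum_congr rfl fun j hj => ?_
    rw [pos_append_right, pos_append_right, hab]
    by_cases h : pos a' i = pos b' j
    · rw [if_pos h, if_pos (by rw [h])]
    · rw [if_neg h, if_neg (fun h' => h (by linarith))]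

lemma Nc_append {a b a' b' : List Bool} (ha : Bri a) (hb : Bri b) (hab : ed a = ed b)
    (ha' : Half a') (hb' : Half b') : Nc (a ++ a') (b ++ b') = Nc a b + Nc a' b' := by
  unfold Nc
  exact sum_coinc_append ha hb hab ha' hb' (fun _ _ => 1)

lemma parity_pair {x : PM} (hx : ed x.1 = ed x.2) : (x.1.length + x.2.length) % 2 = 0 := by
  have h1 := pos_parity x.1 x.1.length le_rfl
  have h2 := pos_parity x.2 x.2.length le_rfl
  rw [pos_length] at h1 h2
  rw [hx] at h1
  omega

lemma jpr_B (L : List JB) : Bri (jfac.pr L).1 ∧ Bri (jfac.pr L).2 ∧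
    ed (jfac.pr L).1 = ed (jfac.pr L).2 := jfac.pr_B L

lemma jpr_cons (a : JB) (L : List JB) :
    jfac.pr (a :: L) = (a.1.1 ++ (jfac.pr L).1, a.1.2 ++ (jfac.pr L).2) := rfl

lemma jpr_W (p : Par) (L : List JB) :
    W p (jfac.pr L).1 * W p (jfac.pr L).2 = wl (wJ p) L := by
  induction L with
  | nil =>
    change W p [] * W p [] = _
    rw [W_nil]; simp
  | cons a L ih =>
    rw [jpr_cons, wl_cons, ← ih]
    simp only
    rw [W_bri_append p a.2.1.1.2 (jpr_B L).1.1, W_bri_append p a.2.1.2.1.2 (jpr_B L).2.1.1]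
    unfold wJ
    ring

lemma jpr_ed (L : List JB) : ed (jfac.pr L).1 = (sl spanJ L : ℕ) := by
  induction L with
  | nil => rfl
  | cons a L ih =>
    rw [jpr_cons, sl_cons]
    simp only
    rw [ed_append, ih, ← spanJ_eq]
    push_cast; rfl

lemma jpr_len1 (L : List JB) : (jfac.pr L).1.length = sl (fun x : JB => x.1.1.length) L := by
  induction L with
  | nil => rfl
  | cons a L ih => rw [jpr_cons, sl_cons, ← ih]; exact List.length_append

lemma jpr_len2 (L : List JB) : (jfac.pr L).2.length = sl (fun x : JB => x.1.2.length) L := by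
  induction L with
  | nil => rfl
  | cons a L ih => rw [jpr_cons, sl_cons, ← ih]; exact List.length_append

lemma jpr_hl (L : List JB) : (jfac.pr L).1.length + (jfac.pr L).2.length = 2 * sl hl L := by
  induction L with
  | nil => rfl
  | cons a L ih =>
    rw [jpr_cons, sl_cons]
    simp only [List.length_append]
    have := parity_pair a.2.1.2.2
    unfold hl at *
    omega

lemma jpr_N (L : List JB) : Nc (jfac.pr L).1 (jfac.pr L).2 = sl nJ L := by
  induction L with
  | nil => rfl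
  | cons a L ih =>
    rw [jpr_cons, sl_cons]
    simp only
    rw [Nc_append a.2.1.1 a.2.1.2.1 a.2.1.2.2 (jpr_B L).1.1 (jpr_B L).2.1.1, ih]
    rfl

lemma tsum_jB (G : PM → ℝ≥0∞) :
    ∑' L : List JB, G (jfac.pr L) = ∑' a, ∑' b, ic (Bri a ∧ Bri b ∧ ed a = ed b) (G (a, b)) := by
  classical
  rw [← jfac.tsum_B G, ENNReal.tsum_prod']
  refine tsum_congr fun a => tsum_congr fun b => ?_
  rw [ic_ite]
  rfl

lemma tsum_jB_span (p : Par) (Y : ℕ) (G : PM → ℝ≥0∞) :
    (∑' L : List JB, if sl spanJ L = Y then wl (wJ p) L * G (jfac.pr L) else 0) =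
      ∑' a, ∑' b, ic (Bri a ∧ ed a = Y) (W p a) * ic (Bri b ∧ ed b = Y) (W p b) * G (a, b) := by
  have h1 : ∀ L : List JB, (if sl spanJ L = Y then wl (wJ p) L * G (jfac.pr L) else 0) =
      (fun x : PM => ic (ed x.1 = Y) (W p x.1 * W p x.2 * G x)) (jfac.pr L) := by
    intro L
    simp only
    rw [ic_ite, jpr_W, jpr_ed]
    exact ic_congr (by exact_mod_cast Iff.rfl) _
  rw [tsum_congr h1, tsum_jB (fun x : PM => ic (ed x.1 = Y) (W p x.1 * W p x.2 * G x))]
  refine tsum_congr fun a => tsum_congr fun b => ?_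
  simp only
  rw [← ic_and]
  by_cases h2 : Bri a ∧ ed a = Y
  · by_cases h3 : Bri b ∧ ed b = Y
    · rw [ic_pos h2, ic_pos h3, ic_pos ⟨⟨h2.1, h3.1, by rw [h2.2, h3.2]⟩, h2.2⟩]
    · rw [ic_neg h3, mul_zero, zero_mul, ic_neg]
      rintro ⟨⟨_, h4, h5⟩, h6⟩
      exact h3 ⟨h4, by rw [← h5, h6]⟩
  · rw [ic_neg h2, zero_mul, zero_mul, ic_neg]
    rintro ⟨⟨h4, _, _⟩, h6⟩
    exact h2 ⟨h4, h6⟩

lemma UwJ_eq (p : Par) (Y : ℕ) : Uw (wJ p) spanJ Y = ub p Y * ub p Y := by
  have h := tsum_jB_span p Y (fun _ => 1)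
  simp only [mul_one] at h
  unfold Uw
  rw [h, tsum_tsum_mul]
  rfl

lemma UwJ_le_one (p : Par) (Y : ℕ) : Uw (wJ p) spanJ Y ≤ 1 := by
  rw [UwJ_eq]
  calc ub p Y * ub p Y ≤ 1 * 1 := mul_le_mul' (ub_le_one p Y) (ub_le_one p Y)
    _ = 1 := one_mul _

lemma exists_UwJ_lower (p : Par) : ∃ c : ℝ, 0 < c ∧ ∀ n, ENNReal.ofReal c ≤ Uw (wJ p) spanJ n := by
  obtain ⟨c, hc, h⟩ := exists_ub_lower p
  refine ⟨c * c, by positivity, fun n => ?_⟩
  rw [UwJ_eq, ENNReal.ofReal_mul hc.le]
  exact mul_le_mul' (h n) (h n)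

lemma tsum_wJ (p : Par) : ∑' x, wJ p x = 1 := by
  obtain ⟨c, hc, h⟩ := exists_UwJ_lower p
  exact tsum_w_eq_one spanJ_pos (UwJ_le_one p) (ENNReal.ofReal_pos.2 hc) h

/-- mean joint span -/
noncomputable def nuJ (p : Par) : ℝ≥0∞ := ∑' x, wJ p x * (spanJ x : ℝ≥0∞)

lemma nuJ_ne_top (p : Par) : nuJ p ≠ ∞ := by
  obtain ⟨c, hc, h⟩ := exists_UwJ_lower p
  have hR := ren_words spanJ_pos (UwJ_le_one p)
  have hcu' : ∀ n, c ≤ (Uw (wJ p) spanJ n).toReal := fun n => by
    rw [← ENNReal.ofReal_le_iff_le_toReal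
      (ne_top_of_le_ne_top ENNReal.one_ne_top (UwJ_le_one p n))]
    exact h n
  have := tsum_mul_eq_tl spanJ_pos (UwJ_le_one p) (tsum_wJ p) (hR.summable_tl hc hcu')
  unfold nuJ
  rw [this]
  exact ENNReal.ofReal_ne_top

lemma irrJ_single : jfac.Irr ([true], [true]) := by
  refine ⟨⟨bri_str 1, bri_str 1, rfl⟩, by simp [jfac], ?_⟩
  rintro ⟨b1, b2⟩ ⟨c1, c2⟩ ⟨hb1, hb2, hb3⟩ ⟨hc1, hc2, hc3⟩ h
  simp only at hb1 hb2 hb3 hc1 hc2 hc3
  have h' : (([true], [true]) : PM) = (b1 ++ c1, b2 ++ c2) := h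
  simp only [Prod.mk.injEq] at h'
  have h1 : b1.length + c1.length = 1 := by rw [← List.length_append, ← h'.1]; rfl
  rcases Nat.eq_zero_or_pos b1.length with h2 | h2
  · left
    have h3 : b1 = [] := List.length_eq_zero_iff.1 h2
    have h4 : b2 = [] := bri_eq_nil hb2 (by rw [← hb3, h3]; rfl)
    exact Prod.ext h3 h4
  · right
    have h3 : c1 = [] := List.length_eq_zero_iff.1 (by omega)
    have h4 : c2 = [] := bri_eq_nil hc2 (by rw [← hc3, h3]; rfl)
    exact Prod.ext h3 h4

/-- the one-step pair -/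
def oneJ : JB := ⟨([true], [true]), irrJ_single⟩

lemma spanJ_one : spanJ oneJ = 1 := by unfold spanJ oneJ; simp [ed, st]

lemma hl_one : hl oneJ = 1 := by unfold hl oneJ; simp

lemma wJ_ne_zero (p : Par) (x : JB) : wJ p x ≠ 0 :=
  mul_ne_zero (W_pos p _).ne' (W_pos p _).ne'

lemma fw_oneJ (p : Par) {s : JB → ℕ} (h : s oneJ = 1) : fw (wJ p) s 1 ≠ 0 := by
  have h1 : wJ p oneJ ≤ fw (wJ p) s 1 := by
    unfold fw
    calc wJ p oneJ = if s oneJ = 1 then wJ p oneJ else 0 := by rw [if_pos h]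
      _ ≤ _ := ENNReal.le_tsum (f := fun a => if s a = 1 then wJ p a else 0) oneJ
  intro h2
  rw [h2] at h1
  exact wJ_ne_zero p oneJ (nonpos_iff_eq_zero.1 h1)

lemma tendsto_UwJ (p : Par) :
    Tendsto (fun n => (Uw (wJ p) spanJ n).toReal) atTop (𝓝 (al p ^ 2)) := by
  have := (tendsto_ub_toReal p).mul (tendsto_ub_toReal p)
  rw [← pow_two] at this
  refine this.congr fun n => ?_
  rw [UwJ_eq, ENNReal.toReal_mul]

lemma nuJ_eq (p : Par) : (nuJ p).toReal = nur p ^ 2 := by
  have h1 := tendsto_Uw spanJ_pos (tsum_wJ p) (nuJ_ne_top p) (fw_oneJ p spanJ_one)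
  have h2 := tendsto_nhds_unique h1 (tendsto_UwJ p)
  have h3 : 0 < nur p := by linarith [one_le_nur p]
  have h4 : 1 / (nuJ p).toReal = (1 / nur p) ^ 2 := h2
  have h5 : (nuJ p).toReal = 1 / (1 / nur p) ^ 2 := by rw [← h4, one_div_one_div]
  rw [h5]
  field_simp

end Pool.Agent.Helper98.Elastic
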