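import Pool.Agent.Helper98.Elastic.Walk

/-!
# Two strands issued from a common point have a large cross energy
-/

open Finset

namespace Pool.Agent.Helper98.Elastic

lemma ivt (w : ℕ → ℤ) (y : ℤ) (t : ℕ) (hstep : ∀ i < t, w (i + 1) ≤ w i + 1)
    (h0 : w 0 ≤ y) (ht : y ≤ w t) : ∃ j ≤ t, w j = y := by
  induction t with
  | zero => exact ⟨0, le_rfl, le_antisymm h0 ht⟩
  | succ t ih =>
    by_cases h : y ≤ w t
    · obtain ⟨j, hj, hj'⟩ := ih (fun i hi => hstep i (by omega)) h
      exact ⟨j, by omega, hj'⟩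
    · refine ⟨t + 1, le_rfl, ?_⟩
      have := hstep t (by omega)
      omega

lemma pos_step_le (l : List Bool) (i : ℕ) : pos l (i + 1) ≤ pos l i + 1 := by
  by_cases h : i < l.length
  · have := abs_pos_succ l h
    have := (abs_le.1 this.le).2
    omega
  · rw [pos_ge l (by omega : l.length ≤ i + 1), pos_ge l (by omega : l.length ≤ i)]
    omega

lemma pos_step_ge (l : List Bool) (i : ℕ) : pos l i - 1 ≤ pos l (i + 1) := by
  by_cases h : i < l.length
  · have := abs_pos_succ l h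
    have := (abs_le.1 this.le).1
    omega
  · rw [pos_ge l (by omega : l.length ≤ i + 1), pos_ge l (by omega : l.length ≤ i)]
    omega

lemma ivt_pos (l : List Bool) (y : ℤ) (t : ℕ) (h0 : 0 ≤ y) (ht : y ≤ pos l t) :
    ∃ j ≤ t, pos l j = y :=
  ivt (pos l) y t (fun i _ => pos_step_le l i) (by simpa using h0) ht

lemma pos_parity (l : List Bool) (i : ℕ) (h : i ≤ l.length) : (pos l i - i) % 2 = 0 := by
  induction i with
  | zero => simp
  | succ i ih =>
    have h1 := ih (by omega)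
    rw [pos_succ l (by omega)]
    push_cast
    rcases st_cases l[i] with h2 | h2 <;> rw [h2] <;> omega

lemma kr_anti {κ : ℝ} (hκ : 0 ≤ κ) {i j : ℕ} (hi : 0 < i) (h : i ≤ j) : kr κ j ≤ kr κ i := by
  unfold kr
  apply Real.rpow_le_rpow_of_nonpos (by exact_mod_cast hi) (by exact_mod_cast h) (by linarith)

lemma xc_count {κ : ℝ} (hκ0 : 0 ≤ κ) (hκ1 : κ < 1) (a b : List Bool) (s : ℕ) (hs : s ≤ a.length)
    (h : ∀ i, i % 2 = 1 → i ≤ s → ∃ j, 1 ≤ j ∧ j ≤ b.length ∧ j ≤ s ∧ pos a i = pos b j) :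
    (s : ℝ) ^ (1 - κ) / 4 ≤ xc κ a b := by
  rcases Nat.eq_zero_or_pos s with rfl | hspos
  · rw [Nat.cast_zero, Real.zero_rpow (by intro h'; linarith)]
    simpa using xc_nonneg κ a b
  have hsub : (Icc 1 s).filter (fun i => i % 2 = 1) ⊆ Icc 1 a.length := by
    intro i hi
    simp only [Finset.mem_filter, Finset.mem_Icc] at *
    omega
  have hcard : (s : ℝ) / 2 ≤ (((Icc 1 s).filter (fun i => i % 2 = 1)).card : ℝ) := by
    have hinj : s ≤ 2 * ((Icc 1 s).filter (fun i => i % 2 = 1)).card := by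
      have : (Icc 1 s) ⊆ ((Icc 1 s).filter (fun i => i % 2 = 1)) ∪
          ((Icc 1 s).filter (fun i => i % 2 = 1)).image (fun i => i + 1) := by
        intro i hi
        simp only [Finset.mem_union, Finset.mem_filter, Finset.mem_image, Finset.mem_Icc] at *
        rcases Nat.mod_two_eq_zero_or_one i with h2 | h2
        · right; exact ⟨i - 1, by omega, by omega⟩
        · left; exact ⟨hi, h2⟩
      have h3 := Finset.card_le_card this
      have h4 := Finset.card_union_le ((Icc 1 s).filter (fun i => i % 2 = 1))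
        (((Icc 1 s).filter (fun i => i % 2 = 1)).image (fun i => i + 1))
      have h5 := Finset.card_image_le (s := (Icc 1 s).filter (fun i => i % 2 = 1))
        (f := fun i => i + 1)
      simp only [Nat.card_Icc, Nat.add_sub_cancel] at h3
      omega
    have : (s : ℝ) ≤ 2 * (((Icc 1 s).filter (fun i => i % 2 = 1)).card : ℝ) := by exact_mod_cast hinj
    linarith
  have hterm : ∀ i ∈ (Icc 1 s).filter (fun i => i % 2 = 1), kr κ (2 * s) ≤
      ∑ j ∈ Icc 1 b.length, if pos a i = pos b j then kr κ (i + j) else 0 := by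
    intro i hi
    simp only [Finset.mem_filter, Finset.mem_Icc] at hi
    obtain ⟨j, hj1, hj2, hj3, hj4⟩ := h i hi.2 hi.1.2
    calc kr κ (2 * s) ≤ kr κ (i + j) := kr_anti hκ0 (by omega) (by omega)
      _ = if pos a i = pos b j then kr κ (i + j) else 0 := by rw [if_pos hj4]
      _ ≤ _ := Finset.single_le_sum (f := fun j => if pos a i = pos b j then kr κ (i + j) else 0)
          (fun j _ => by split_ifs; exacts [kr_nonneg _ _, le_rfl])
          (Finset.mem_Icc.2 ⟨hj1, hj2⟩)
  have hmain : (s : ℝ) / 2 * kr κ (2 * s) ≤ xc κ a b := by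
    calc (s : ℝ) / 2 * kr κ (2 * s)
        ≤ (((Icc 1 s).filter (fun i => i % 2 = 1)).card : ℝ) * kr κ (2 * s) :=
          mul_le_mul_of_nonneg_right hcard (kr_nonneg _ _)
      _ = ∑ i ∈ (Icc 1 s).filter (fun i => i % 2 = 1), kr κ (2 * s) := by simp
      _ ≤ ∑ i ∈ (Icc 1 s).filter (fun i => i % 2 = 1),
            ∑ j ∈ Icc 1 b.length, (if pos a i = pos b j then kr κ (i + j) else 0) :=
          Finset.sum_le_sum hterm
      _ ≤ xc κ a b := by
          unfold xc
          apply Finset.sum_le_sum_of_subset_of_nonneg hsub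
          intro i _ _
          exact Finset.sum_nonneg fun j _ => by split_ifs; exacts [kr_nonneg _ _, le_rfl]
  refine le_trans ?_ hmain
  have hs' : (0 : ℝ) < s := by exact_mod_cast hspos
  unfold kr
  push_cast
  rw [Real.mul_rpow (by norm_num) hs'.le, sub_eq_add_neg, Real.rpow_add hs', Real.rpow_one]
  have h2 : (1 : ℝ) / 2 ≤ 2 ^ (-κ) := by
    calc (1 : ℝ) / 2 = 2 ^ (-1 : ℝ) := by rw [Real.rpow_neg_one]; norm_num
      _ ≤ 2 ^ (-κ) := Real.rpow_le_rpow_of_exponent_le (by norm_num) (by linarith)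
  have h3 : 0 < (s : ℝ) ^ (-κ) := Real.rpow_pos_of_pos hs' _
  have h4 : 0 < (s : ℝ) * (s : ℝ) ^ (-κ) := by positivity
  nlinarith

/-- **Lemma C.** -/
lemma lemmaC {κ : ℝ} (hκ0 : 0 ≤ κ) (hκ1 : κ < 1) (a b : List Bool)
    (ha : ∀ i ≤ a.length, 0 ≤ pos a i) (hb : ∀ j ≤ b.length, 0 ≤ pos b j)
    (hab : ∀ i ≤ a.length, ∃ j ≤ b.length, pos a i ≤ pos b j) :
    (a.length : ℝ) ^ (1 - κ) / 4 ≤ xc κ a b := by
  by_cases hcase : ∀ i ≤ a.length, ∃ j ≤ min a.length b.length, pos a i ≤ pos b j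
  · apply xc_count hκ0 hκ1 a b a.length le_rfl
    intro i hi1 hi2
    obtain ⟨j, hj1, hj2⟩ := hcase i hi2
    obtain ⟨j', hj', hj''⟩ := ivt_pos b (pos a i) j (ha i hi2) hj2
    have hpar := pos_parity a i hi2
    have hne : pos a i ≠ 0 := by intro h0; rw [h0] at hpar; omega
    have hj0 : j' ≠ 0 := by rintro rfl; apply hne; rw [← hj'']; simp
    exact ⟨j', by omega, by omega, by omega, hj''.symm⟩
  · push Not at hcase
    obtain ⟨i₀, hi₀, hlt⟩ := hcase
    have hlen : a.length ≤ b.length := by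
      by_contra hlt'
      obtain ⟨j, hj1, hj2⟩ := hab i₀ hi₀
      have := hlt j (by omega)
      omega
    rw [xc_comm]
    apply xc_count hκ0 hκ1 b a a.length hlen
    intro i hi1 hi2
    have hi3 := hlt i (by omega)
    obtain ⟨j', hj', hj''⟩ := ivt_pos a (pos b i) i₀ (hb i (by omega)) hi3.le
    have hpar := pos_parity b i (by omega)
    have hne : pos b i ≠ 0 := by intro h0; rw [h0] at hpar; omega
    have hj0 : j' ≠ 0 := by rintro rfl; apply hne; rw [← hj'']; simp
    exact ⟨j', by omega, by omega, by omega, hj''.symm⟩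

end Pool.Agent.Helper98.Elastic
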