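import Mathlib
import Pool.Agent.Helper98.Elastic.Joint

/-!
# Pairs of bridges weighted by their interaction
-/

open Finset Filter Topology
open scoped ENNReal

namespace Pool.Agent.Helper98.Elastic

/-! ### Sums of the kernel -/

lemma rpow_diff_ge {κ t : ℝ} (hκ0 : 0 < κ) (hκ1 : κ < 1) (ht : 1 ≤ t) :
    (1 - κ) * t ^ (-κ) ≤ t ^ (1 - κ) - (t - 1) ^ (1 - κ) := by
  have ht0 : 0 < t := by linarith
  have h1 : t - 1 = t * (1 + -(1 / t)) := by field_simp; ring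
  have h2 : -1 ≤ -(1 / t) := by
    rw [neg_le_neg_iff, div_le_one ht0]; exact ht
  have h3 := rpow_one_add_le_one_add_mul_self h2 (p := 1 - κ) (by linarith) (by linarith)
  rw [h1, Real.mul_rpow ht0.le (by linarith)]
  have h4 : t ^ (1 - κ) = t * t ^ (-κ) := by
    rw [sub_eq_add_neg, Real.rpow_add ht0, Real.rpow_one]
  have h5 : 0 < t ^ (1 - κ) := Real.rpow_pos_of_pos ht0 _
  have h6 : t ^ (1 - κ) * (1 + -(1 / t)) ^ (1 - κ) ≤
      t ^ (1 - κ) * (1 + (1 - κ) * -(1 / t)) := by gcongr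
  have h7 : t ^ (1 - κ) * (1 + (1 - κ) * -(1 / t)) = t ^ (1 - κ) - (1 - κ) * t ^ (-κ) := by
    rw [h4]; field_simp; ring
  linarith

lemma rpow_diff_le {κ t : ℝ} (hκ0 : 0 < κ) (hκ1 : κ < 1) (ht0 : 0 < t) :
    (t + 1) ^ (1 - κ) - t ^ (1 - κ) ≤ (1 - κ) * t ^ (-κ) := by
  have h1 : t + 1 = t * (1 + 1 / t) := by field_simp
  have h2 : -1 ≤ 1 / t := by have : 0 < 1 / t := by positivity
                             linarith
  have h3 := rpow_one_add_le_one_add_mul_self h2 (p := 1 - κ) (by linarith) (by linarith)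
  rw [h1, Real.mul_rpow ht0.le (by positivity)]
  have h4 : t ^ (1 - κ) = t * t ^ (-κ) := by
    rw [sub_eq_add_neg, Real.rpow_add ht0, Real.rpow_one]
  have h5 : 0 < t ^ (1 - κ) := Real.rpow_pos_of_pos ht0 _
  have h6 : t ^ (1 - κ) * (1 + 1 / t) ^ (1 - κ) ≤
      t ^ (1 - κ) * (1 + (1 - κ) * (1 / t)) := by gcongr
  have h7 : t ^ (1 - κ) * (1 + (1 - κ) * (1 / t)) = t ^ (1 - κ) + (1 - κ) * t ^ (-κ) := by
    rw [h4]; field_simp
  linarith

/-- the integral of the kernel -/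
noncomputable def SS (κ t : ℝ) : ℝ := 2 ^ (-κ) * (t ^ (1 - κ) / (1 - κ))

lemma SS_mono {κ s t : ℝ} (hκ1 : κ < 1) (hs : 0 ≤ s) (h : s ≤ t) : SS κ s ≤ SS κ t := by
  unfold SS
  have h1 : s ^ (1 - κ) ≤ t ^ (1 - κ) := Real.rpow_le_rpow hs h (by linarith)
  have h2 : 0 < 1 - κ := by linarith
  gcongr

lemma SS_pos {κ t : ℝ} (hκ1 : κ < 1) (ht : 0 < t) : 0 < SS κ t := by
  unfold SS
  have h2 : 0 < 1 - κ := by linarith
  positivity

lemma SS_nonneg {κ t : ℝ} (hκ1 : κ < 1) (ht : 0 ≤ t) : 0 ≤ SS κ t := by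
  unfold SS
  have h2 : 0 < 1 - κ := by linarith
  positivity

lemma SS_mul {κ c t : ℝ} (hc : 0 ≤ c) (ht : 0 ≤ t) : SS κ (c * t) = c ^ (1 - κ) * SS κ t := by
  unfold SS
  rw [Real.mul_rpow hc ht]; ring

lemma kr_even (κ : ℝ) (i : ℕ) : kr κ (2 * i + 2) = 2 ^ (-κ) * ((i : ℝ) + 1) ^ (-κ) := by
  unfold kr
  rw [← Real.mul_rpow (by norm_num) (by positivity)]
  congr 1
  push_cast; ring

lemma kr_le_one {κ : ℝ} (hκ0 : 0 ≤ κ) (k : ℕ) : kr κ (k + 1) ≤ 1 := by
  unfold kr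
  apply Real.rpow_le_one_of_one_le_of_nonpos
  · push_cast; linarith [Nat.cast_nonneg (α := ℝ) k]
  · linarith

lemma sum_kr_le {κ : ℝ} (hκ0 : 0 < κ) (hκ1 : κ < 1) (n : ℕ) :
    ∑ i ∈ range n, kr κ (2 * i + 2) ≤ SS κ n := by
  induction n with
  | zero =>
    simp only [Finset.range_zero, Finset.sum_empty, Nat.cast_zero]
    exact SS_nonneg hκ1 le_rfl
  | succ n ih =>
    rw [Finset.sum_range_succ, kr_even]
    have h1 := rpow_diff_ge hκ0 hκ1 (t := (n : ℝ) + 1) (by linarith [Nat.cast_nonneg (α := ℝ) n])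
    have h2 : (n : ℝ) + 1 - 1 = n := by ring
    rw [h2] at h1
    have h3 : 0 < 1 - κ := by linarith
    have h4 : ((n : ℝ) + 1) ^ (-κ) ≤ ((n : ℝ) + 1) ^ (1 - κ) / (1 - κ) -
        (n : ℝ) ^ (1 - κ) / (1 - κ) := by
      rw [← sub_div, le_div_iff₀ h3]; linarith
    have h5 : (0 : ℝ) < 2 ^ (-κ) := by positivity
    have h6 := mul_le_mul_of_nonneg_left h4 h5.le
    unfold SS at *
    push_cast
    linarith

lemma sum_kr_ge {κ : ℝ} (hκ0 : 0 < κ) (hκ1 : κ < 1) (n : ℕ) :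
    SS κ (n + 1) - SS κ 1 ≤ ∑ i ∈ range n, kr κ (2 * i + 2) := by
  induction n with
  | zero => simp
  | succ n ih =>
    rw [Finset.sum_range_succ, kr_even]
    have h1 := rpow_diff_le hκ0 hκ1 (t := (n : ℝ) + 1) (by positivity)
    have h3 : 0 < 1 - κ := by linarith
    have h4 : ((n : ℝ) + 1 + 1) ^ (1 - κ) / (1 - κ) -
        ((n : ℝ) + 1) ^ (1 - κ) / (1 - κ) ≤ ((n : ℝ) + 1) ^ (-κ) := by
      rw [← sub_div, div_le_iff₀ h3]; linarith
    have h5 : (0 : ℝ) < 2 ^ (-κ) := by positivity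
    have h6 := mul_le_mul_of_nonneg_left h4 h5.le
    unfold SS at *
    push_cast
    linarith

lemma tendsto_SS {κ : ℝ} (hκ1 : κ < 1) : Tendsto (fun n : ℕ => SS κ n) atTop atTop := by
  have h3 : 0 < 1 - κ := by linarith
  have h1 : Tendsto (fun n : ℕ => (n : ℝ) ^ (1 - κ)) atTop atTop :=
    (tendsto_rpow_atTop h3).comp tendsto_natCast_atTop_atTop
  unfold SS
  apply Tendsto.const_mul_atTop (by positivity)
  exact h1.atTop_div_const h3

lemma tendsto_SS_shift {κ : ℝ} (hκ1 : κ < 1) (c : ℝ) (hc : 0 ≤ c) :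
    Tendsto (fun n : ℕ => SS κ ((n : ℝ) + c) / SS κ n) atTop (𝓝 1) := by
  have h1 : Tendsto (fun n : ℕ => (1 + c / (n : ℝ)) ^ (1 - κ)) atTop (𝓝 ((1 + 0) ^ (1 - κ))) := by
    apply Tendsto.rpow_const
    · exact tendsto_const_nhds.add (tendsto_const_nhds.div_atTop tendsto_natCast_atTop_atTop)
    · left; norm_num
  rw [add_zero, Real.one_rpow] at h1
  refine h1.congr' ?_
  filter_upwards [eventually_ge_atTop 1] with n hn
  have hn0 : (0 : ℝ) < n := by exact_mod_cast hn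
  have h2 : (n : ℝ) + c = (1 + c / n) * n := by field_simp
  rw [h2, SS_mul (by positivity) hn0.le, mul_div_assoc, div_self (SS_pos hκ1 hn0).ne', mul_one]

lemma tendsto_sum_kr {κ : ℝ} (hκ0 : 0 < κ) (hκ1 : κ < 1) :
    Tendsto (fun n : ℕ => (∑ i ∈ range (n + 1), kr κ (2 * i + 2)) / SS κ n) atTop (𝓝 1) := by
  have h1 := tendsto_SS_shift hκ1 1 (by norm_num)
  have h2 := tendsto_SS_shift hκ1 2 (by norm_num)
  have h3 : Tendsto (fun n : ℕ => SS κ 1 / SS κ n) atTop (𝓝 0) :=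
    tendsto_const_nhds.div_atTop (tendsto_SS hκ1)
  have h4 := h2.sub h3
  rw [sub_zero] at h4
  refine tendsto_of_tendsto_of_tendsto_of_le_of_le' h4 h1 ?_ ?_
  · filter_upwards [eventually_ge_atTop 1] with n hn
    have hn0 : (0 : ℝ) < n := by exact_mod_cast hn
    have h5 := SS_pos hκ1 hn0
    rw [← sub_div]
    gcongr
    have h6 := sum_kr_ge hκ0 hκ1 (n + 1)
    push_cast at h6
    rw [show (n : ℝ) + 1 + 1 = n + 2 by ring] at h6
    exact h6
  · filter_upwards [eventually_ge_atTop 1] with n hn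
    have hn0 : (0 : ℝ) < n := by exact_mod_cast hn
    have h5 := SS_pos hκ1 hn0
    gcongr
    have h6 := sum_kr_le hκ0 hκ1 (n + 1)
    push_cast at h6
    exact h6

lemma tendsto_end_kr {κ : ℝ} (hκ0 : 0 < κ) (hκ1 : κ < 1) (J : ℕ) :
    Tendsto (fun n : ℕ => (∑ i ∈ Ico (n + 1 - J) (n + 1), kr κ (2 * i + 2)) / SS κ n) atTop
      (𝓝 0) := by
  have h3 : Tendsto (fun n : ℕ => (J : ℝ) / SS κ n) atTop (𝓝 0) :=
    tendsto_const_nhds.div_atTop (tendsto_SS hκ1)
  refine tendsto_of_tendsto_of_tendsto_of_le_of_le' tendsto_const_nhds h3 ?_ ?_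
  · filter_upwards [eventually_ge_atTop 1] with n hn
    have hn0 : (0 : ℝ) < n := by exact_mod_cast hn
    have h5 := SS_pos hκ1 hn0
    apply div_nonneg _ h5.le
    exact Finset.sum_nonneg fun i _ => kr_nonneg _ _
  · filter_upwards [eventually_ge_atTop 1] with n hn
    have hn0 : (0 : ℝ) < n := by exact_mod_cast hn
    have h5 := SS_pos hκ1 hn0
    gcongr
    calc ∑ i ∈ Ico (n + 1 - J) (n + 1), kr κ (2 * i + 2)
        ≤ ∑ i ∈ Ico (n + 1 - J) (n + 1), (1 : ℝ) :=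
          Finset.sum_le_sum fun i _ => kr_le_one hκ0.le _
      _ = ((n + 1 - (n + 1 - J) : ℕ) : ℝ) := by simp
      _ ≤ J := by
          have : n + 1 - (n + 1 - J) ≤ J := by omega
          exact_mod_cast this

/-! ### The interaction of a pair -/

/-- shifted cross energy -/
noncomputable def sxc (κ : ℝ) (s : ℕ) (a b : List Bool) : ℝ :=
  ∑ i ∈ Icc 1 a.length, ∑ j ∈ Icc 1 b.length, if pos a i = pos b j then kr κ (s + i + j) else 0

lemma sxc_zero (κ : ℝ) (a b : List Bool) : sxc κ 0 a b = xc κ a b := by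
  unfold sxc xc; simp only [zero_add]

lemma sxc_nonneg (κ : ℝ) (s : ℕ) (a b : List Bool) : 0 ≤ sxc κ s a b := by
  unfold sxc
  refine Finset.sum_nonneg fun i _ => Finset.sum_nonneg fun j _ => ?_
  split_ifs
  · exact kr_nonneg _ _
  · exact le_rfl

lemma sxc_append (κ : ℝ) (s : ℕ) {a b a' b' : List Bool} (ha : Bri a) (hb : Bri b)
    (hab : ed a = ed b) (ha' : Half a') (hb' : Half b') :
    sxc κ s (a ++ a') (b ++ b') = sxc κ s a b + sxc κ (s + (a.length + b.length)) a' b' := by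
  unfold sxc
  rw [sum_coinc_append ha hb hab ha' hb' (fun i j => kr κ (s + i + j))]
  congr 1
  refine Finset.sum_congr rfl fun i _ => Finset.sum_congr rfl fun j _ => ?_
  have : s + (a.length + i) + (b.length + j) = s + (a.length + b.length) + i + j := by ring
  rw [this]

lemma sxc_le {κ : ℝ} (hκ : 0 ≤ κ) (s : ℕ) (a b : List Bool) :
    sxc κ s a b ≤ kr κ (s + 2) * (Nc a b : ℝ) := by
  unfold sxc Nc
  push_cast
  rw [Finset.mul_sum]
  refine Finset.sum_le_sum fun i hi => ?_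
  rw [Finset.mul_sum]
  refine Finset.sum_le_sum fun j hj => ?_
  rw [Finset.mem_Icc] at hi hj
  split_ifs
  · rw [mul_one]
    exact kr_anti hκ (by omega) (by omega)
  · simp

lemma le_sxc {κ : ℝ} (hκ : 0 ≤ κ) (s M : ℕ) (a b : List Bool) (hM : s + a.length + b.length ≤ M) :
    kr κ M * (Nc a b : ℝ) ≤ sxc κ s a b := by
  unfold sxc Nc
  push_cast
  rw [Finset.mul_sum]
  refine Finset.sum_le_sum fun i hi => ?_
  rw [Finset.mul_sum]
  refine Finset.sum_le_sum fun j hj => ?_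
  rw [Finset.mem_Icc] at hi hj
  split_ifs
  · rw [mul_one]
    exact kr_anti hκ (by omega) (by omega)
  · simp

lemma jpr_half (L : List JB) : Half (jfac.pr L).1 ∧ Half (jfac.pr L).2 :=
  ⟨(jpr_B L).1.1, (jpr_B L).2.1.1⟩

lemma sxc_pr_le {κ : ℝ} (hκ : 0 ≤ κ) (L : List JB) : ∀ s : ℕ,
    ENNReal.ofReal (sxc κ s (jfac.pr L).1 (jfac.pr L).2) ≤
      Mk (fun B b _ => ENNReal.ofReal (kr κ (s + 2 * sl hl B + 2)) * (nJ b : ℝ≥0∞)) L := by
  induction L with
  | nil =>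
    intro s
    have h : sxc κ s (jfac.pr []).1 (jfac.pr []).2 = 0 := by
      have h1 : jfac.pr [] = ([], []) := rfl
      rw [h1]; unfold sxc; simp
    rw [h]; simp
  | cons x L ih =>
    intro s
    rw [jpr_cons, Mk_cons]
    simp only
    have hx := x.2.1
    rw [sxc_append κ s hx.1 hx.2.1 hx.2.2 (jpr_half L).1 (jpr_half L).2,
      ENNReal.ofReal_add (sxc_nonneg _ _ _ _) (sxc_nonneg _ _ _ _)]
    apply add_le_add
    · simp only [sl_nil, mul_zero, add_zero]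
      calc ENNReal.ofReal (sxc κ s x.1.1 x.1.2)
          ≤ ENNReal.ofReal (kr κ (s + 2) * (Nc x.1.1 x.1.2 : ℝ)) :=
            ENNReal.ofReal_le_ofReal (sxc_le hκ s _ _)
        _ = _ := by
            rw [ENNReal.ofReal_mul (kr_nonneg _ _), ENNReal.ofReal_natCast]; rfl
    · have h1 := parity_pair hx.2.2
      have h2 : x.1.1.length + x.1.2.length = 2 * hl x := by unfold hl; omega
      rw [h2]
      refine (ih (s + 2 * hl x)).trans (le_of_eq ?_)
      apply Mk_congr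
      intro B b C _
      rw [sl_cons]
      congr 4
      ring

end Pool.Agent.Helper98.Elastic
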