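import Mathlib
import Pool.Agent.Helper98.Elastic.Lower1
import Pool.Agent.Helper98.Elastic.Joint2

/-!
# Lower bound for the weight of pairs of bridges with their interaction
-/

open Finset Filter Topology
open scoped ENNReal

namespace Pool.Agent.Helper98.Elastic

lemma hl_pos (x : JB) : 0 < hl x := by
  have h1 := spanJ_pos x
  have h2 := spanJ_eq x
  have hx := x.2.1
  have h3 := abs_ed_le x.1.1
  have h4 := abs_ed_le x.1.2
  have h5 : ed x.1.1 = ed x.1.2 := hx.2.2
  have h6 : (0 : ℤ) < ed x.1.1 := by omega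
  rw [abs_of_pos h6] at h3
  rw [← h5, abs_of_pos h6] at h4
  unfold hl
  omega

lemma UwH_le_one (p : Par) (m : ℕ) : Uw (wJ p) hl m ≤ 1 := Uw_le_one hl_pos (tsum_wJ p).le m

/-- limit mass of pairs by half length -/
noncomputable def amh (p : Par) : ℝ := 1 / (mur p * nur p)

lemma nur_pos (p : Par) : 0 < nur p := by linarith [one_le_nur p]

lemma amh_pos (p : Par) : 0 < amh p := by
  have := mur_pos p; have := nur_pos p; unfold amh; positivity

lemma tendsto_UwH (p : Par) :
    Tendsto (fun n => (Uw (wJ p) hl n).toReal) atTop (𝓝 (amh p)) := by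
  have := tendsto_Uw (w := wJ p) (s := hl) hl_pos (tsum_wJ p) (mhl_ne_top p) (fw_oneJ p hl_one)
  have h : (∑' a, wJ p a * (hl a : ℝ≥0∞)).toReal = mur p * nur p := mhl_eq p
  rw [h] at this
  exact this

lemma tendsto_UwH' (p : Par) :
    Tendsto (fun n => Uw (wJ p) hl n) atTop (𝓝 (ENNReal.ofReal (amh p))) := by
  have := ENNReal.tendsto_ofReal (tendsto_UwH p)
  refine this.congr fun n => ENNReal.ofReal_toReal
    (ne_top_of_le_ne_top ENNReal.one_ne_top (UwH_le_one p n))

/-- coincidence masses by half length -/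
noncomputable def gH (p : Par) (k : ℕ) : ℝ≥0∞ := gw (wJ p) hl (fun x => (nJ x : ℝ≥0∞)) k

lemma tsum_gH (p : Par) : ∑' k, gH p k = eta p := tsum_gw _

/-- the bound for the mean interaction -/
noncomputable def XB (p : Par) (m : ℕ) : ℝ≥0∞ :=
  ∑ x ∈ antidiagonal m, ENNReal.ofReal (kr p.κ (2 * x.1 + 2)) *
    (Uw (wJ p) hl x.1 * ∑ y ∈ antidiagonal x.2, gH p y.1 * Uw (wJ p) hl y.2)

lemma EX_le (p : Par) (m : ℕ) :
    (∑' L : List JB, if sl hl L = m then
      wl (wJ p) L * ENNReal.ofReal (xc p.κ (jfac.pr L).1 (jfac.pr L).2) else 0) ≤ XB p m := by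
  have h := campbell_size (wJ p) hl (fun x => (nJ x : ℝ≥0∞))
    (fun N => ENNReal.ofReal (kr p.κ (2 * N + 2))) m
  have h2 : XB p m = ∑ x ∈ antidiagonal m, ∑ y ∈ antidiagonal x.2,
        ENNReal.ofReal (kr p.κ (2 * x.1 + 2)) * Uw (wJ p) hl x.1 *
          (gw (wJ p) hl (fun x => (nJ x : ℝ≥0∞)) y.1 * Uw (wJ p) hl y.2) := by
    unfold XB
    refine Finset.sum_congr rfl fun x _ => ?_
    rw [← mul_assoc, Finset.mul_sum]
    rfl
  rw [h2, ← h]
  apply ENNReal.tsum_le_tsum
  intro L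
  split_ifs
  · gcongr
    have h3 := sxc_pr_le p.hκ0.le L 0
    rw [sxc_zero] at h3
    simpa using h3
  · exact le_rfl

lemma convH_le (p : Par) (z : ℕ) :
    ∑ y ∈ antidiagonal z, gH p y.1 * Uw (wJ p) hl y.2 ≤ eta p := by
  rw [← tsum_gH]
  exact conv_le (gH p) (Uw (wJ p) hl) (UwH_le_one p) z

lemma tendsto_XB (p : Par) :
    Tendsto (fun m : ℕ => (XB p m).toReal / SS p.κ m) atTop
      (𝓝 (amh p * ((eta p).toReal * amh p))) := by
  set G : ℕ → ℕ → ℝ := fun x z =>
    (Uw (wJ p) hl x * ∑ y ∈ antidiagonal z, gH p y.1 * Uw (wJ p) hl y.2).toReal with hG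
  have hfin : ∀ z, ∑ y ∈ antidiagonal z, gH p y.1 * Uw (wJ p) hl y.2 ≠ ∞ := fun z =>
    ne_top_of_le_ne_top (eta_ne_top p) (convH_le p z)
  have hU : ∀ x, Uw (wJ p) hl x ≠ ∞ := fun x =>
    ne_top_of_le_ne_top ENNReal.one_ne_top (UwH_le_one p x)
  have h := wcesaro G (fun i => kr p.κ (2 * i + 2)) (eta p).toReal
    (amh p * ((eta p).toReal * amh p)) (fun i => kr_nonneg _ _) ?_ ?_ (fun n => SS p.κ n)
    (tendsto_sum_kr p.hκ0 p.hκ1) ?_ (tendsto_SS p.hκ1) (tendsto_end_kr p.hκ0 p.hκ1)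
  · refine h.congr fun m => ?_
    congr 1
    unfold XB
    rw [ENNReal.toReal_sum]
    · refine Finset.sum_congr rfl fun x _ => ?_
      rw [ENNReal.toReal_mul, ENNReal.toReal_ofReal (kr_nonneg _ _)]
    · intro x _
      exact ENNReal.mul_ne_top ENNReal.ofReal_ne_top (ENNReal.mul_ne_top (hU _) (hfin _))
  · intro x y
    rw [abs_of_nonneg ENNReal.toReal_nonneg]
    apply ENNReal.toReal_mono (eta_ne_top p)
    calc Uw (wJ p) hl x * ∑ y ∈ antidiagonal y, gH p y.1 * Uw (wJ p) hl y.2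
        ≤ 1 * eta p := by
          gcongr
          · exact UwH_le_one p _
          · exact convH_le p _
      _ = _ := one_mul _
  · have h1 := conv_tendsto (gH p) (Uw (wJ p) hl) (ENNReal.ofReal (amh p))
      (by rw [tsum_gH]; exact eta_ne_top p) (UwH_le_one p) (tendsto_UwH' p)
    rw [tsum_gH] at h1
    have h2 := (ENNReal.tendsto_toReal (ENNReal.mul_ne_top (eta_ne_top p)
      ENNReal.ofReal_ne_top)).comp h1
    rw [ENNReal.toReal_mul, ENNReal.toReal_ofReal (amh_pos p).le] at h2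
    rw [← prod_atTop_atTop_eq]
    have h3 := ((tendsto_UwH p).comp (tendsto_fst (f := (atTop : Filter ℕ))
      (g := (atTop : Filter ℕ)))).mul (h2.comp tendsto_snd)
    refine h3.congr fun x => ?_
    rw [hG]
    simp only [Function.comp, ENNReal.toReal_mul]
  · filter_upwards [eventually_ge_atTop 1] with n hn
    exact SS_pos p.hκ1 (by exact_mod_cast hn)

/-- Jensen's inequality -/
lemma jensen {A : Type*} (w : A → ℝ≥0∞) (X : A → ℝ) (hX : ∀ i, 0 ≤ X i) (a : ℝ) (ha : 0 ≤ a)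
    (hP : ∑' i, w i ≠ ∞)
    (hE : ∑' i, w i * ENNReal.ofReal (X i) ≤ ENNReal.ofReal a * ∑' i, w i) :
    ENNReal.ofReal (Real.exp (-a)) * ∑' i, w i ≤
      ∑' i, w i * ENNReal.ofReal (Real.exp (-X i)) := by
  have h1 : ∀ i, w i * (ENNReal.ofReal (Real.exp (-a)) * (1 + ENNReal.ofReal a)) ≤
      w i * ENNReal.ofReal (Real.exp (-X i)) +
        ENNReal.ofReal (Real.exp (-a)) * (w i * ENNReal.ofReal (X i)) := by
    intro i
    have h2 : ENNReal.ofReal (Real.exp (-a)) * (1 + ENNReal.ofReal a) ≤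
        ENNReal.ofReal (Real.exp (-X i)) +
          ENNReal.ofReal (Real.exp (-a)) * ENNReal.ofReal (X i) := by
      rw [← ENNReal.ofReal_one, ← ENNReal.ofReal_add zero_le_one ha,
        ← ENNReal.ofReal_mul (Real.exp_pos _).le, ← ENNReal.ofReal_mul (Real.exp_pos _).le,
        ← ENNReal.ofReal_add (Real.exp_pos _).le (mul_nonneg (Real.exp_pos _).le (hX i))]
      apply ENNReal.ofReal_le_ofReal
      have h3 : Real.exp (-X i) = Real.exp (-a) * Real.exp (a - X i) := by
        rw [← Real.exp_add]; congr 1; ring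
      have h4 := Real.add_one_le_exp (a - X i)
      have h5 := Real.exp_pos (-a)
      rw [h3]
      nlinarith
    calc w i * (ENNReal.ofReal (Real.exp (-a)) * (1 + ENNReal.ofReal a))
        ≤ w i * (ENNReal.ofReal (Real.exp (-X i)) +
          ENNReal.ofReal (Real.exp (-a)) * ENNReal.ofReal (X i)) := by gcongr
      _ = _ := by ring
  have h6 := ENNReal.tsum_le_tsum h1
  rw [ENNReal.tsum_mul_right, ENNReal.tsum_add, ENNReal.tsum_mul_left] at h6
  have h7 : ENNReal.ofReal (Real.exp (-a)) * ∑' i, w i * ENNReal.ofReal (X i) ≤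
      ENNReal.ofReal (Real.exp (-a)) * (ENNReal.ofReal a * ∑' i, w i) := by gcongr
  have h8 := h6.trans (add_le_add_right h7 _)
  have h9 : ENNReal.ofReal (Real.exp (-a)) * (ENNReal.ofReal a * ∑' i, w i) ≠ ∞ :=
    ENNReal.mul_ne_top ENNReal.ofReal_ne_top (ENNReal.mul_ne_top ENNReal.ofReal_ne_top hP)
  have h10 : (∑' i, w i) * (ENNReal.ofReal (Real.exp (-a)) * (1 + ENNReal.ofReal a)) =
      ENNReal.ofReal (Real.exp (-a)) * (∑' i, w i) +
        ENNReal.ofReal (Real.exp (-a)) * (ENNReal.ofReal a * ∑' i, w i) := by ring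
  rw [h10] at h8
  exact (ENNReal.add_le_add_iff_right h9).1 h8

/-- pairs of half length `m` with their interaction -/
noncomputable def FX (p : Par) (m : ℕ) : ℝ≥0∞ :=
  ∑' L : List JB, if sl hl L = m then
    wl (wJ p) L * ENNReal.ofReal (Real.exp (-(p.β * xc p.κ (jfac.pr L).1 (jfac.pr L).2))) else 0

lemma FX_ge (p : Par) (ε : ℝ) (hε : 0 < ε) : ∀ᶠ m : ℕ in atTop,
    ENNReal.ofReal (Real.exp (-(p.β * ((1 + ε) / speed p) * SS p.κ m))) * Uw (wJ p) hl m ≤
      FX p m := by
  have hmur := mur_pos p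
  have hnur := nur_pos p
  have h1 : amh p * ((eta p).toReal * amh p) < (1 + ε) / speed p * amh p := by
    rw [eta_eq]
    have h2 : amh p * (mur p ^ 2 * amh p) = (1 / speed p) * amh p := by
      unfold speed amh; field_simp
    rw [h2]
    have h3 := speed_pos p
    have h4 := amh_pos p
    gcongr
    linarith
  have h2 := (tendsto_XB p).eventually_lt ((tendsto_UwH p).const_mul ((1 + ε) / speed p)) h1
  filter_upwards [h2, eventually_ge_atTop 1] with m hm hm1
  have hS := SS_pos p.hκ1 (show (0 : ℝ) < m by exact_mod_cast hm1)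
  rw [div_lt_iff₀ hS] at hm
  have hβ := p.hβ
  have hsp := speed_pos p
  have hXB : XB p m ≠ ∞ := by
    unfold XB
    rw [ENNReal.sum_ne_top]
    intro x _
    refine ENNReal.mul_ne_top ENNReal.ofReal_ne_top (ENNReal.mul_ne_top ?_ ?_)
    · exact ne_top_of_le_ne_top ENNReal.one_ne_top (UwH_le_one p _)
    · exact ne_top_of_le_ne_top (eta_ne_top p) (convH_le p _)
  have hU : Uw (wJ p) hl m ≠ ∞ := ne_top_of_le_ne_top ENNReal.one_ne_top (UwH_le_one p m)
  have h3 := jensen (fun L : List JB => if sl hl L = m then wl (wJ p) L else 0)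
    (fun L => p.β * xc p.κ (jfac.pr L).1 (jfac.pr L).2)
    (fun L => mul_nonneg hβ.le (xc_nonneg _ _ _)) (p.β * ((1 + ε) / speed p) * SS p.κ m)
    (by positivity) (by exact hU) ?_
  · refine le_trans (le_of_eq ?_) (h3.trans (le_of_eq ?_))
    · rfl
    · unfold FX
      refine tsum_congr fun L => ?_
      split_ifs
      · rfl
      · rw [zero_mul]
  · have h4 : ∀ L : List JB, (if sl hl L = m then wl (wJ p) L else 0) *
        ENNReal.ofReal (p.β * xc p.κ (jfac.pr L).1 (jfac.pr L).2) =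
        ENNReal.ofReal p.β * (if sl hl L = m then
      wl (wJ p) L * ENNReal.ofReal (xc p.κ (jfac.pr L).1 (jfac.pr L).2) else 0) := by
      intro L
      rw [ENNReal.ofReal_mul hβ.le]
      split_ifs
      · ring
      · simp
    simp_rw [h4]
    rw [ENNReal.tsum_mul_left]
    calc ENNReal.ofReal p.β * _ ≤ ENNReal.ofReal p.β * XB p m := by
          gcongr
          exact EX_le p m
      _ = ENNReal.ofReal (p.β * (XB p m).toReal) := by
          rw [ENNReal.ofReal_mul hβ.le, ENNReal.ofReal_toReal hXB]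
      _ ≤ ENNReal.ofReal (p.β * ((1 + ε) / speed p) * SS p.κ m * (Uw (wJ p) hl m).toReal) := by
          apply ENNReal.ofReal_le_ofReal
          have := mul_le_mul_of_nonneg_left hm.le hβ.le
          linarith
      _ = _ := by
          rw [ENNReal.ofReal_mul (by positivity), ENNReal.ofReal_toReal hU]
          rfl

lemma FX_pos (p : Par) (m : ℕ) : 0 < FX p m := by
  unfold FX
  rw [pos_iff_ne_zero]
  intro h
  rw [ENNReal.tsum_eq_zero] at h
  have h1 := h (List.replicate m oneJ)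
  have h2 : sl hl (List.replicate m oneJ) = m := by
    unfold sl
    rw [List.map_replicate, List.sum_replicate, hl_one]; simp
  rw [if_pos h2, mul_eq_zero] at h1
  rcases h1 with h1 | h1
  · unfold wl at h1
    rw [List.map_replicate, List.prod_replicate] at h1
    exact (pow_ne_zero m (wJ_ne_zero p oneJ)) h1
  · rw [ENNReal.ofReal_eq_zero] at h1
    exact absurd (Real.exp_pos _) (not_lt.2 h1)

lemma exists_lower_of_eventually {f : ℕ → ℝ≥0∞} (hf : ∀ n, 0 < f n) {c : ℝ} (hc : 0 < c)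
    (h : ∀ᶠ n in atTop, ENNReal.ofReal c ≤ f n) :
    ∃ c' : ℝ, 0 < c' ∧ ∀ n, ENNReal.ofReal c' ≤ f n := by
  obtain ⟨N, hN⟩ := eventually_atTop.1 h
  have key : ∀ M : ℕ, ∃ c' : ℝ, 0 < c' ∧ ∀ n < M, ENNReal.ofReal c' ≤ f n := by
    intro M
    induction M with
    | zero => exact ⟨1, one_pos, fun n hn => absurd hn (by omega)⟩
    | succ M ih =>
      obtain ⟨c1, hc1, h1⟩ := ih
      obtain ⟨c2, hc2, h2⟩ : ∃ c2 : ℝ, 0 < c2 ∧ ENNReal.ofReal c2 ≤ f M := by
        by_cases htop : f M = ∞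
        · exact ⟨1, one_pos, by rw [htop]; exact le_top⟩
        · exact ⟨(f M).toReal, ENNReal.toReal_pos (hf M).ne' htop, by
            rw [ENNReal.ofReal_toReal htop]⟩
      refine ⟨min c1 c2, lt_min hc1 hc2, fun n hn => ?_⟩
      rcases Nat.lt_succ_iff_lt_or_eq.1 hn with h | rfl
      · exact (ENNReal.ofReal_le_ofReal (min_le_left _ _)).trans (h1 n h)
      · exact (ENNReal.ofReal_le_ofReal (min_le_right _ _)).trans h2
  obtain ⟨c1, hc1, h1⟩ := key N
  refine ⟨min c1 c, lt_min hc1 hc, fun n => ?_⟩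
  rcases lt_or_ge n N with h2 | h2
  · exact (ENNReal.ofReal_le_ofReal (min_le_left _ _)).trans (h1 n h2)
  · exact (ENNReal.ofReal_le_ofReal (min_le_right _ _)).trans (hN n h2)

lemma FX_lower (p : Par) (ε : ℝ) (hε : 0 < ε) : ∃ c : ℝ, 0 < c ∧ ∀ m : ℕ,
    ENNReal.ofReal (c * Real.exp (-(p.β * ((1 + ε) / speed p) * SS p.κ m))) ≤ FX p m := by
  have h1 : ∀ᶠ m : ℕ in atTop, ENNReal.ofReal (amh p / 2) ≤
      FX p m * ENNReal.ofReal (Real.exp (p.β * ((1 + ε) / speed p) * SS p.κ m)) := by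
    have h2 : amh p / 2 < amh p := by linarith [amh_pos p]
    filter_upwards [FX_ge p ε hε, (tendsto_UwH p).eventually (lt_mem_nhds h2)] with m hm1 hm2
    calc ENNReal.ofReal (amh p / 2) ≤ ENNReal.ofReal (Uw (wJ p) hl m).toReal :=
          ENNReal.ofReal_le_ofReal hm2.le
      _ = Uw (wJ p) hl m := ENNReal.ofReal_toReal
          (ne_top_of_le_ne_top ENNReal.one_ne_top (UwH_le_one p m))
      _ = ENNReal.ofReal (Real.exp (-(p.β * ((1 + ε) / speed p) * SS p.κ m))) *
          Uw (wJ p) hl m * ENNReal.ofReal (Real.exp (p.β * ((1 + ε) / speed p) * SS p.κ m)) := by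
          rw [mul_right_comm, ← ENNReal.ofReal_mul (Real.exp_pos _).le, ← Real.exp_add]
          simp
      _ ≤ _ := by gcongr
  obtain ⟨c, hc, h⟩ := exists_lower_of_eventually (f := fun m : ℕ =>
    FX p m * ENNReal.ofReal (Real.exp (p.β * ((1 + ε) / speed p) * SS p.κ m)))
    (fun m => ENNReal.mul_pos (FX_pos p m).ne' (by
      rw [Ne, ENNReal.ofReal_eq_zero, not_le]; exact Real.exp_pos _))
    (by linarith [amh_pos p]) h1
  refine ⟨c, hc, fun m => ?_⟩
  rw [ENNReal.ofReal_mul hc.le]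
  calc ENNReal.ofReal c * ENNReal.ofReal (Real.exp (-(p.β * ((1 + ε) / speed p) * SS p.κ m)))
      ≤ FX p m * ENNReal.ofReal (Real.exp (p.β * ((1 + ε) / speed p) * SS p.κ m)) *
        ENNReal.ofReal (Real.exp (-(p.β * ((1 + ε) / speed p) * SS p.κ m))) := by
        gcongr
        exact h m
    _ = FX p m := by
        rw [mul_assoc, ← ENNReal.ofReal_mul (Real.exp_pos _).le, ← Real.exp_add]
        simp

end Pool.Agent.Helper98.Elastic
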