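import Pool.Agent.Helper98.Elastic.Basic

/-!
# Normalised masses of sets of walks
-/

open Finset Filter Topology
open scoped ENNReal

namespace Pool.Agent.Helper98.Elastic

/-! ### Sums in `ℝ≥0∞` -/

lemma tsum_le_of_cover {α γ : Type*} (f : α → ℝ≥0∞) (F : γ → ℝ≥0∞) (φ : γ → α)
    (h : ∀ a, f a ≠ 0 → ∃ x, φ x = a ∧ f a ≤ F x) : ∑' a, f a ≤ ∑' x, F x := by
  classical
  have h1 : ∑' a, f a = ∑' a : Function.support f, f a :=
    (tsum_subtype_eq_of_support_subset (fun a ha => ha)).symm
  rw [h1]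
  choose g hg1 hg2 using (fun a : Function.support f => h a.1 a.2)
  have hinj : Function.Injective g := by
    intro a b hab
    apply Subtype.ext
    rw [← hg1 a, ← hg1 b, hab]
  calc ∑' a : Function.support f, f a ≤ ∑' a : Function.support f, F (g a) :=
        ENNReal.tsum_le_tsum hg2
    _ ≤ ∑' x, F x := ENNReal.tsum_comp_le_tsum_of_injective hinj F

lemma tsum_le_of_inj {α γ : Type*} (f : α → ℝ≥0∞) (F : γ → ℝ≥0∞) (φ : γ → α)
    (hinj : ∀ x y, F x ≠ 0 → F y ≠ 0 → φ x = φ y → x = y)
    (h : ∀ x, F x ≠ 0 → F x ≤ f (φ x)) : ∑' x, F x ≤ ∑' a, f a := by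
  classical
  have h1 : ∑' x, F x = ∑' x : Function.support F, F x :=
    (tsum_subtype_eq_of_support_subset (fun a ha => ha)).symm
  rw [h1]
  have hinj' : Function.Injective (fun x : Function.support F => φ x) := by
    intro a b hab
    exact Subtype.ext (hinj a.1 b.1 a.2 b.2 hab)
  calc ∑' x : Function.support F, F x ≤ ∑' x : Function.support F, f (φ x) :=
        ENNReal.tsum_le_tsum fun x => h x.1 x.2
    _ ≤ ∑' a, f a := ENNReal.tsum_comp_le_tsum_of_injective hinj' f

lemma ennreal_tsum_finset_sum {α γ : Type*} (s : Finset γ) (f : γ → α → ℝ≥0∞) :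
    ∑' a, ∑ i ∈ s, f i a = ∑ i ∈ s, ∑' a, f i a :=
  Summable.tsum_finsetSum fun _ _ => ENNReal.summable

/-- a sum over pairs graded by two functions with values in `ℕ` -/
lemma tsum_prod_antidiagonal {α γ : Type*} (s : α → ℕ) (t : γ → ℕ) (n : ℕ)
    (F : α → γ → ℝ≥0∞) :
    (∑' x : α × γ, if s x.1 + t x.2 = n then F x.1 x.2 else 0) =
      ∑ x ∈ antidiagonal n, ∑' a, ∑' b, if s a = x.1 ∧ t b = x.2 then F a b else 0 := by
  classical
  rw [ENNReal.tsum_prod (f := fun a b => if s a + t b = n then F a b else 0)]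
  have h1 : ∀ a b, (if s a + t b = n then F a b else 0) =
      ∑ x ∈ antidiagonal n, if s a = x.1 ∧ t b = x.2 then F a b else 0 := by
    intro a b
    by_cases h : s a + t b = n
    · rw [if_pos h, Finset.sum_eq_single (s a, t b)]
      · simp
      · intro x _ hx
        rw [if_neg]
        rintro ⟨h2, h3⟩
        exact hx (Prod.ext h2.symm h3.symm)
      · intro h2
        exact absurd (Finset.HasAntidiagonal.mem_antidiagonal.2 h) h2
    · rw [if_neg h, Finset.sum_eq_zero]
      intro x hx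
      rw [if_neg]
      rintro ⟨h2, h3⟩
      rw [Finset.HasAntidiagonal.mem_antidiagonal] at hx
      omega
  simp_rw [h1]
  simp_rw [ennreal_tsum_finset_sum]

/-! ### Weights -/

lemma W_ne_top (p : Par) (l : List Bool) : W p l ≠ ∞ := ENNReal.ofReal_ne_top

lemma W_pos (p : Par) (l : List Bool) : 0 < W p l :=
  ENNReal.ofReal_pos.2 (mul_pos (wt_pos p l) (pow_pos (zz_pos p) _))

lemma W_append_le (p : Par) (a b : List Bool) : W p (a ++ b) ≤ W p a * W p b := by
  unfold W
  rw [← ENNReal.ofReal_mul (by have := wt_pos p a; have := zz_pos p; positivity)]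
  apply ENNReal.ofReal_le_ofReal
  rw [List.length_append, pow_add]
  have := wt_append_le p a b
  have h1 := zz_pos p
  calc wt p (a ++ b) * (zz p ^ a.length * zz p ^ b.length)
      ≤ (wt p a * wt p b) * (zz p ^ a.length * zz p ^ b.length) :=
        mul_le_mul_of_nonneg_right this (by positivity)
    _ = _ := by ring

lemma W_bri_append (p : Par) {a b : List Bool} (ha : ∀ i ≤ a.length, pos a i ≤ ed a)
    (hb : Half b) : W p (a ++ b) = W p a * W p b := by
  unfold W
  rw [← ENNReal.ofReal_mul (by have := wt_pos p a; have := zz_pos p; positivity)]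
  rw [List.length_append, pow_add, wt_bri_append p ha hb]
  congr 1; ring

lemma W_neg (p : Par) (a : List Bool) : W p (neg a) = W p a := by
  unfold W; rw [wt_neg, length_neg]

lemma W_reverse (p : Par) (a : List Bool) : W p a.reverse = W p a := by
  unfold W; rw [wt_reverse, List.length_reverse]

/-- the critical parameter as an extended nonnegative real -/
noncomputable def ze (p : Par) : ℝ≥0∞ := ENNReal.ofReal (zz p)

lemma ze_pos (p : Par) : 0 < ze p := ENNReal.ofReal_pos.2 (zz_pos p)

lemma ze_ne_zero (p : Par) : ze p ≠ 0 := (ze_pos p).ne'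

lemma ze_ne_top (p : Par) : ze p ≠ ∞ := ENNReal.ofReal_ne_top

lemma ze_le_one (p : Par) : ze p ≤ 1 := by
  unfold ze; exact ENNReal.ofReal_le_one.2 (zz_le_one p)

lemma W_cons_true (p : Par) {v : List Bool} (hv : NN v) : W p (true :: v) = ze p * W p v := by
  unfold W ze
  rw [← ENNReal.ofReal_mul (zz_pos p).le, wt_cons_true p hv, List.length_cons, pow_succ]
  congr 1; ring

lemma W_nil (p : Par) : W p [] = 1 := by
  have := wt_str p 0
  simp only [str, List.replicate_zero] at this
  unfold W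
  rw [this]; simp

lemma W_str (p : Par) (n : ℕ) : W p (str n) = ze p ^ n := by
  unfold W ze
  rw [wt_str, length_str, one_mul, ENNReal.ofReal_pow (zz_pos p).le]

/-- the factor gained from a strand of length `k` -/
noncomputable def Eb (p : Par) (k : ℕ) : ℝ≥0∞ :=
  ENNReal.ofReal (Real.exp (-(p.β * ((k : ℝ) ^ (1 - p.κ) / 4))))

lemma Eb_le_one (p : Par) (k : ℕ) : Eb p k ≤ 1 := by
  unfold Eb
  rw [ENNReal.ofReal_le_one, Real.exp_le_one_iff]
  have := p.hβ
  have : 0 ≤ p.β * ((k : ℝ) ^ (1 - p.κ) / 4) := by positivity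
  linarith

/-- the general formula for the weight of a concatenation -/
lemma W_append_eq (p : Par) (a b : List Bool) :
    W p (a ++ b) = W p a * W p b * ENNReal.ofReal (Real.exp (-(p.β * xc p.κ a.reverse (neg b)))) := by
  have h0 := zz_pos p
  unfold W wt
  rw [← ENNReal.ofReal_mul (by positivity), ← ENNReal.ofReal_mul (by positivity),
    List.length_append, pow_add, eng_append]
  congr 1
  rw [show -(p.β * (eng p.κ a + eng p.κ b + xc p.κ a.reverse (neg b))) =
    -(p.β * eng p.κ a) + -(p.β * eng p.κ b) + -(p.β * xc p.κ a.reverse (neg b)) by ring,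
    Real.exp_add, Real.exp_add]
  ring

lemma exp_xc_le (p : Par) {a b : List Bool} {x : ℝ} (h : x ≤ xc p.κ a b) :
    ENNReal.ofReal (Real.exp (-(p.β * xc p.κ a b))) ≤ ENNReal.ofReal (Real.exp (-(p.β * x))) := by
  apply ENNReal.ofReal_le_ofReal
  apply Real.exp_le_exp.2
  have := mul_le_mul_of_nonneg_left h p.hβ.le
  linarith

/-- `v` stays below the maximum of `r` -/
def Low (v r : List Bool) : Prop := ∀ i ≤ v.length, ∃ j ≤ r.length, pos v i ≤ pos r j

lemma low_total (v r : List Bool) : Low v r ∨ Low r v := by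
  by_contra h
  push Not at h
  obtain ⟨h1, h2⟩ := h
  unfold Low at h1 h2
  push Not at h1 h2
  obtain ⟨i, hi, hi'⟩ := h1
  obtain ⟨j, hj, hj'⟩ := h2
  have h3 := hi' j hj
  have h4 := hj' i hi
  omega

lemma W_valley_le (p : Par) {v r : List Bool} (hv : NN v) (hr : NN r) (h : Low v r) :
    W p (neg v.reverse ++ r) ≤ W p v * Eb p v.length * W p r := by
  rw [W_append_eq, W_neg, W_reverse, neg_reverse, List.reverse_reverse, xc_neg]
  have h1 := lemmaC p.hκ0.le p.hκ1 v r hv hr h
  have h2 := exp_xc_le p h1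
  calc W p v * W p r * ENNReal.ofReal (Real.exp (-(p.β * xc p.κ v r)))
      ≤ W p v * W p r * Eb p v.length := by gcongr; exact h2
    _ = _ := by ring

lemma W_valley_le' (p : Par) {v r : List Bool} (hv : NN v) (hr : NN r) (h : Low r v) :
    W p (neg v.reverse ++ r) ≤ W p v * (W p r * Eb p r.length) := by
  rw [W_append_eq, W_neg, W_reverse, neg_reverse, List.reverse_reverse, xc_neg, xc_comm]
  have h1 := lemmaC p.hκ0.le p.hκ1 r v hr hv h
  have h2 := exp_xc_le p h1
  calc W p v * W p r * ENNReal.ofReal (Real.exp (-(p.β * xc p.κ r v)))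
      ≤ W p v * W p r * Eb p r.length := by gcongr; exact h2
    _ = _ := by ring

open Classical in
/-- total normalised weight of the walks satisfying `P` -/
noncomputable def mass (p : Par) (P : List Bool → Prop) : ℝ≥0∞ := ∑' l, if P l then W p l else 0

lemma mass_mono (p : Par) {P Q : List Bool → Prop} (h : ∀ l, P l → Q l) : mass p P ≤ mass p Q := by
  classical
  unfold mass
  apply ENNReal.tsum_le_tsum
  intro l
  by_cases h1 : P l
  · rw [if_pos h1, if_pos (h l h1)]
  · rw [if_neg h1]; exact zero_le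

lemma mass_congr (p : Par) {P Q : List Bool → Prop} (h : ∀ l, P l ↔ Q l) : mass p P = mass p Q := by
  congr 1; funext l; exact propext (h l)

open Classical in
lemma cover_half (p : Par) (P : List Bool → Prop) (Q : List Bool → List Bool → Prop)
    (hPQ : ∀ l₁ l₂, Bri l₁ → Half l₂ → (l₁ ++ neg l₂ ≠ [] → l₁ ≠ []) → P (l₁ ++ neg l₂) → Q l₁ l₂) :
    mass p (fun l => Half l ∧ P l) ≤ ∑' x : List Bool × List Bool,
      if Bri x.1 ∧ Half x.2 ∧ Q x.1 x.2 then W p x.1 * (W p x.2 * Eb p x.2.length) else 0 := by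
  unfold mass
  apply tsum_le_of_cover _ _ (fun x => x.1 ++ neg x.2)
  intro a ha
  have ha' : Half a ∧ P a := by by_contra h; simp [h] at ha
  obtain ⟨l₁, l₂, h1, h2, h3, h4, h5, h6⟩ := decomp_half p.hκ0.le p.hκ1 a ha'.1
  refine ⟨(l₁, l₂), h1.symm, ?_⟩
  have hQ : Q l₁ l₂ := hPQ l₁ l₂ h2 h3 (by rw [← h1]; exact h5) (by rw [← h1]; exact ha'.2)
  simp only
  rw [if_pos ha', if_pos ⟨h2, h3, hQ⟩, h1, W_append_eq, W_neg, neg_neg', mul_assoc]
  gcongr
  exact exp_xc_le p h6

open Classical in
lemma cover_all (p : Par) (P : List Bool → Prop) (Q : List Bool → List Bool → Prop)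
    (hPQ : ∀ v r, NN v → Half r → P (neg v.reverse ++ r) → Q v r) :
    mass p P ≤ (∑' x : List Bool × List Bool,
      if NN x.1 ∧ Half x.2 ∧ Q x.1 x.2 then W p x.1 * Eb p x.1.length * W p x.2 else 0) +
      (∑' x : List Bool × List Bool,
      if NN x.1 ∧ Half x.2 ∧ Q x.1 x.2 then W p x.1 * (W p x.2 * Eb p x.2.length) else 0) := by
  rw [← ENNReal.tsum_add]
  unfold mass
  apply tsum_le_of_cover _ _ (fun x => neg x.1.reverse ++ x.2)
  intro a ha
  have ha' : P a := by by_contra h; simp [h] at ha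
  obtain ⟨v, r, h1, h2, h3⟩ := decomp_all a
  refine ⟨(v, r), h1.symm, ?_⟩
  have hQ : Q v r := hPQ v r h2 h3 (by rw [← h1]; exact ha')
  simp only
  rw [if_pos ha', if_pos ⟨h2, h3, hQ⟩, if_pos ⟨h2, h3, hQ⟩, h1]
  rcases low_total v r with h | h
  · exact (W_valley_le p h2 h3.nn h).trans le_self_add
  · exact (W_valley_le' p h2 h3.nn h).trans le_add_self

end Pool.Agent.Helper98.Elastic
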