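import Pool.Agent.Helper98.Elastic.Mass

/-!
# Bounds on the masses of bridges, half-space walks and walks
-/

open Finset Filter Topology
open scoped ENNReal

namespace Pool.Agent.Helper98.Elastic

lemma tsum_tsum_mul {α γ : Type*} (f : α → ℝ≥0∞) (g : γ → ℝ≥0∞) :
    ∑' a, ∑' b, f a * g b = (∑' a, f a) * ∑' b, g b := by
  simp_rw [ENNReal.tsum_mul_left, ENNReal.tsum_mul_right]

lemma tsum_antidiagonal (F : ℕ × ℕ → ℝ≥0∞) :
    ∑' n, ∑ x ∈ antidiagonal n, F x = ∑' x : ℕ × ℕ, F x := by
  rw [← (Finset.HasAntidiagonal.sigmaAntidiagonalEquivProd (A := ℕ)).tsum_eq F,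
    ENNReal.tsum_sigma']
  refine tsum_congr fun n => ?_
  rw [tsum_fintype]
  exact (Finset.sum_coe_sort (antidiagonal n) F).symm

lemma tsum_conv (f g : ℕ → ℝ≥0∞) :
    ∑' n, ∑ x ∈ antidiagonal n, f x.1 * g x.2 = (∑' n, f n) * ∑' n, g n := by
  rw [tsum_antidiagonal (fun x => f x.1 * g x.2), ENNReal.tsum_prod (f := fun a b => f a * g b),
    tsum_tsum_mul]

lemma abs_ed_le (l : List Bool) : |ed l| ≤ l.length := by
  induction l with
  | nil => simp
  | cons b l ih =>
    rw [ed_cons]
    calc |st b + ed l| ≤ |st b| + |ed l| := abs_add_le _ _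
      _ ≤ 1 + l.length := by rw [abs_st]; omega
      _ = _ := by simp [add_comm]

/-! ### summability -/

lemma summable_pow_exp (j : ℕ) {c a : ℝ} (hc : 0 < c) (ha : 0 < a) :
    Summable (fun k : ℕ => (k : ℝ) ^ j * Real.exp (-(c * (k : ℝ) ^ a))) := by
  obtain ⟨m, hm⟩ := exists_nat_gt (((j : ℝ) + 2) / a)
  have hm' : (j : ℝ) + 2 < a * m := by
    rw [div_lt_iff₀ ha] at hm; linarith
  rw [← summable_nat_add_iff 1]
  have hsum : Summable (fun k : ℕ => ((m.factorial : ℝ) / c ^ m) * (1 / ((k : ℝ) + 1) ^ 2)) := by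
    apply Summable.mul_left
    have := (summable_nat_add_iff 1).2 (Real.summable_one_div_nat_pow.2 (by norm_num : 1 < 2))
    simpa using this
  refine Summable.of_nonneg_of_le (fun k => by positivity) (fun k => ?_) hsum
  have hk : (0 : ℝ) < ((k + 1 : ℕ) : ℝ) := by positivity
  have hk1 : (1 : ℝ) ≤ ((k + 1 : ℕ) : ℝ) := by exact_mod_cast Nat.le_add_left 1 k
  have h1 := Real.pow_div_factorial_le_exp (c * ((k + 1 : ℕ) : ℝ) ^ a) (by positivity) m
  have hf : (0 : ℝ) < m.factorial := by exact_mod_cast Nat.factorial_pos m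
  have h3 : (((k + 1 : ℕ) : ℝ)) ^ ((j : ℝ) + 2) ≤ (((k + 1 : ℕ) : ℝ) ^ a) ^ m := by
    rw [← Real.rpow_natCast (((k + 1 : ℕ) : ℝ) ^ a) m, ← Real.rpow_mul hk.le]
    exact Real.rpow_le_rpow_of_exponent_le hk1 hm'.le
  have h4 : (((k + 1 : ℕ) : ℝ)) ^ ((j : ℝ) + 2) = ((k + 1 : ℕ) : ℝ) ^ j * ((k : ℝ) + 1) ^ 2 := by
    rw [Real.rpow_add hk, Real.rpow_natCast]
    congr 1
    rw [show (2 : ℝ) = ((2 : ℕ) : ℝ) by norm_num, Real.rpow_natCast]
    push_cast; ring
  rw [Real.exp_neg]
  rw [mul_pow] at h1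
  have hX : 0 < Real.exp (c * ((k + 1 : ℕ) : ℝ) ^ a) := Real.exp_pos _
  rw [← div_eq_mul_inv, div_le_iff₀ hX]
  calc ((k + 1 : ℕ) : ℝ) ^ j
      = (m.factorial : ℝ) / c ^ m * (1 / ((k : ℝ) + 1) ^ 2) *
        (c ^ m * (((k + 1 : ℕ) : ℝ) ^ j * ((k : ℝ) + 1) ^ 2) / m.factorial) := by
        field_simp
    _ ≤ (m.factorial : ℝ) / c ^ m * (1 / ((k : ℝ) + 1) ^ 2) *
        (c ^ m * (((k + 1 : ℕ) : ℝ) ^ a) ^ m / m.factorial) := by
        rw [h4] at h3
        gcongr
    _ ≤ _ := by gcongr

/-- real version of the gain factor -/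
noncomputable def ebr (p : Par) (k : ℕ) : ℝ := Real.exp (-(p.β * ((k : ℝ) ^ (1 - p.κ) / 4)))

lemma summable_ebr (p : Par) : Summable (ebr p) := by
  have := summable_pow_exp 0 (c := p.β / 4) (a := 1 - p.κ) (by have := p.hβ; positivity)
    (by have := p.hκ1; linarith)
  refine this.congr fun k => ?_
  unfold ebr
  rw [pow_zero, one_mul]
  congr 1; ring

lemma Eb_eq (p : Par) (k : ℕ) : Eb p k = ENNReal.ofReal (ebr p k) := rfl

lemma ebr_pos (p : Par) (k : ℕ) : 0 < ebr p k := Real.exp_pos _

lemma tsum_Eb_ne_top (p : Par) : ∑' k, Eb p k ≠ ∞ := by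
  have : ∑' k, Eb p k = ENNReal.ofReal (∑' k, ebr p k) := by
    rw [ENNReal.ofReal_tsum_of_nonneg (fun k => (ebr_pos p k).le) (summable_ebr p)]; rfl
  rw [this]; exact ENNReal.ofReal_ne_top

/-! ### masses by length -/

/-- half-space walks of length `n` with end in `E` -/
noncomputable def hhE (p : Par) (n : ℕ) (E : Set ℤ) : ℝ≥0∞ :=
  mass p (fun l => Half l ∧ l.length = n ∧ ed l ∈ E)

/-- bridges of length `n` with end in `E` -/
noncomputable def uuE (p : Par) (n : ℕ) (E : Set ℤ) : ℝ≥0∞ :=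
  mass p (fun l => Bri l ∧ l.length = n ∧ ed l ∈ E)

/-- mass of half-space walks of length `n` -/
noncomputable def hh (p : Par) (n : ℕ) : ℝ≥0∞ := mass p (fun l => Half l ∧ l.length = n)

/-- mass of bridges of length `n` -/
noncomputable def uu (p : Par) (n : ℕ) : ℝ≥0∞ := mass p (fun l => Bri l ∧ l.length = n)

/-- mass of walks of length `n` with `|end|` in `E` -/
noncomputable def ZE (p : Par) (n : ℕ) (E : Set ℤ) : ℝ≥0∞ :=
  mass p (fun l => l.length = n ∧ |ed l| ∈ E)

/-- points at distance at most `r` from `E` -/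
def thick (E : Set ℤ) (r : ℕ) : Set ℤ := {x | ∃ e ∈ E, |x - e| ≤ r}

lemma uuE_le_uu (p : Par) (n : ℕ) (E : Set ℤ) : uuE p n E ≤ uu p n :=
  mass_mono p fun _ h => ⟨h.1, h.2.1⟩

lemma hhE_univ (p : Par) (n : ℕ) : hhE p n Set.univ = hh p n := by
  apply mass_congr; simp

lemma uuE_univ (p : Par) (n : ℕ) : uuE p n Set.univ = uu p n := by
  apply mass_congr; simp

open Classical in
lemma mass_length (p : Par) (P : List Bool → Prop) (n : ℕ) :
    mass p (fun l => P l ∧ l.length = n) =
      ENNReal.ofReal ((∑ l ∈ (words n).filter P, wt p l) * zz p ^ n) := by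
  unfold mass
  rw [tsum_eq_sum (s := words n)]
  · rw [Finset.sum_mul, ENNReal.ofReal_sum_of_nonneg, Finset.sum_filter]
    · refine Finset.sum_congr rfl fun l hl => ?_
      rw [mem_words] at hl
      by_cases h : P l
      · rw [if_pos ⟨h, hl⟩, if_pos h, W, hl]
      · rw [if_neg (fun h' => h h'.1), if_neg h]
    · intro l _
      exact mul_nonneg (wt_pos p l).le (pow_nonneg (zz_pos p).le _)
  · intro l hl
    rw [mem_words] at hl
    rw [if_neg (fun h => hl h.2)]

lemma uu_eq (p : Par) (n : ℕ) : uu p n = ENNReal.ofReal (bb p n * zz p ^ n) := by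
  classical
  unfold uu bb
  rw [mass_length]

lemma uu_le_one (p : Par) (n : ℕ) : uu p n ≤ 1 := by
  rw [uu_eq]; exact ENNReal.ofReal_le_one.2 (bb_zz_le p n)

lemma uu_ne_top (p : Par) (n : ℕ) : uu p n ≠ ∞ :=
  ne_top_of_le_ne_top ENNReal.one_ne_top (uu_le_one p n)

lemma uu_mul_le (p : Par) (m n : ℕ) : uu p m * uu p n ≤ uu p (m + n) := by
  have h0 := zz_pos p
  have h1 := one_le_bb p m
  rw [uu_eq, uu_eq, uu_eq, ← ENNReal.ofReal_mul (by positivity)]
  apply ENNReal.ofReal_le_ofReal
  rw [pow_add]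
  have := bb_mul_le p m n
  calc bb p m * zz p ^ m * (bb p n * zz p ^ n) = (bb p m * bb p n) * (zz p ^ m * zz p ^ n) := by ring
    _ ≤ _ := mul_le_mul_of_nonneg_right this (by positivity)

lemma ze_pow_le_uu (p : Par) (n : ℕ) : ze p ^ n ≤ uu p n := by
  have h0 := zz_pos p
  rw [uu_eq, ze, ← ENNReal.ofReal_pow h0.le]
  apply ENNReal.ofReal_le_ofReal
  have := one_le_bb p n
  have h2 : 0 < zz p ^ n := by positivity
  nlinarith

lemma uu_zero (p : Par) : uu p 0 = 1 := by
  apply le_antisymm (uu_le_one p 0)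
  simpa using ze_pow_le_uu p 0

lemma one_le_Z (p : Par) (n : ℕ) : 1 ≤ mass p (fun l => l.length = n) := by
  classical
  have h1 : mass p (fun l => l.length = n) = ENNReal.ofReal (ZZ p n * zz p ^ n) := by
    have := mass_length p (fun _ => True) n
    simp only [true_and, Finset.filter_true] at this
    rw [this]; rfl
  rw [h1, ← ENNReal.ofReal_one]
  exact ENNReal.ofReal_le_ofReal (one_le_ZZ_zz p n)

open Classical in
lemma tsum_ite_mul_ite (p : Par) (P Q : List Bool → Prop) (c : ℝ≥0∞) :
    ∑' a, ∑' b, (if P a ∧ Q b then W p a * (W p b * c) else 0) = mass p P * (mass p Q * c) := by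
  unfold mass
  rw [← ENNReal.tsum_mul_right (a := c), ← tsum_tsum_mul]
  refine tsum_congr fun a => tsum_congr fun b => ?_
  by_cases h1 : P a <;> by_cases h2 : Q b <;> simp [h1, h2]

lemma transfer_half (p : Par) (n : ℕ) (E : Set ℤ) :
    hhE p n E ≤ ∑ x ∈ antidiagonal n, uuE p x.1 (thick E x.2) * (hh p x.2 * Eb p x.2) := by
  classical
  have h1 := cover_half p (fun l => l.length = n ∧ ed l ∈ E)
    (fun a b => a.length + b.length = n ∧ ed a ∈ thick E b.length) (by
      intro a b _ _ _ ⟨h1, h2⟩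
      rw [List.length_append, length_neg] at h1
      refine ⟨h1, ed (a ++ neg b), h2, ?_⟩
      rw [ed_append, ed_neg]
      have := abs_ed_le b
      simpa using this)
  refine h1.trans (le_of_eq ?_)
  refine (tsum_congr fun x => ?_).trans ((tsum_prod_antidiagonal List.length List.length n
    (fun a b => if Bri a ∧ Half b ∧ ed a ∈ thick E b.length then
        W p a * (W p b * Eb p b.length) else 0)).trans ?_)
  · by_cases h : x.1.length + x.2.length = n
    · simp [h]
    · simp [h]
  refine Finset.sum_congr rfl fun x _ => ?_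
  unfold uuE hh
  rw [← tsum_ite_mul_ite]
  refine tsum_congr fun a => tsum_congr fun b => ?_
  by_cases hb : b.length = x.2
  · by_cases ha : a.length = x.1
    · simp only [ha, hb, and_self, if_true]
      by_cases h5 : Bri a <;> by_cases h6 : Half b <;> by_cases h7 : ed a ∈ thick E x.2 <;>
        simp [h5, h6, h7]
    · simp [ha]
  · simp [hb]

lemma hh_le_conv (p : Par) (n : ℕ) :
    hh p n ≤ ∑ x ∈ antidiagonal n, uu p x.1 * (hh p x.2 * Eb p x.2) := by
  rw [← hhE_univ]
  refine (transfer_half p n Set.univ).trans ?_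
  apply Finset.sum_le_sum
  intro x _
  gcongr
  exact uuE_le_uu p _ _

/-- the same with a nonempty bridge -/
lemma hh_le_range (p : Par) (n : ℕ) (hn : n ≠ 0) :
    hh p n ≤ ∑ k ∈ range n, hh p k * Eb p k := by
  classical
  have h1 := cover_half p (fun l => l.length = n)
    (fun a b => a.length + b.length = n ∧ a ≠ []) (by
      intro a b _ _ h0 h1
      rw [List.length_append, length_neg] at h1
      refine ⟨h1, h0 ?_⟩
      intro h
      have : (a ++ neg b).length = 0 := by rw [h]; rfl
      rw [List.length_append, length_neg] at this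
      omega)
  refine h1.trans ?_
  refine le_trans (le_of_eq ((tsum_congr fun x => ?_).trans
    (tsum_prod_antidiagonal List.length List.length n
    (fun a b => if Bri a ∧ Half b ∧ a ≠ [] then
        W p a * (W p b * Eb p b.length) else 0)))) ?_
  · by_cases h : x.1.length + x.2.length = n
    · simp [h]
    · simp [h]
  calc ∑ x ∈ antidiagonal n, ∑' a : List Bool, ∑' b : List Bool,
        (if a.length = x.1 ∧ b.length = x.2 then
          (if Bri a ∧ Half b ∧ a ≠ [] then W p a * (W p b * Eb p b.length) else 0) else 0)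
      ≤ ∑ x ∈ antidiagonal n, if x.1 = 0 then 0 else hh p x.2 * Eb p x.2 := by
        apply Finset.sum_le_sum
        intro x _
        by_cases hx : x.1 = 0
        · rw [if_pos hx]
          rw [nonpos_iff_eq_zero, ENNReal.tsum_eq_zero]
          intro a
          rw [ENNReal.tsum_eq_zero]
          intro b
          by_cases ha : a.length = x.1
          · have : a = [] := List.length_eq_zero_iff.1 (by omega)
            simp [this]
          · simp [ha]
        · rw [if_neg hx]
          have h5 : hh p x.2 * Eb p x.2 = 1 * (hh p x.2 * Eb p x.2) := by rw [one_mul]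
          rw [h5]
          refine le_trans ?_ (mul_le_mul_left (uu_le_one p x.1) _)
          unfold uu hh
          rw [← tsum_ite_mul_ite]
          apply ENNReal.tsum_le_tsum
          intro a
          apply ENNReal.tsum_le_tsum
          intro b
          by_cases hb : b.length = x.2
          · by_cases ha : a.length = x.1
            · simp only [ha, hb, and_self, if_true]
              by_cases h5 : Bri a <;> by_cases h6 : Half b <;> by_cases h7 : a = [] <;>
                simp [h5, h6, h7]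
            · simp [ha]
          · simp [hb]
    _ = ∑ k ∈ range n, hh p k * Eb p k := by
        rw [Finset.Nat.sum_antidiagonal_eq_sum_range_succ_mk, Finset.sum_range_succ', if_pos rfl,
          add_zero]
        rw [← Finset.sum_range_reflect]
        refine Finset.sum_congr rfl fun k hk => ?_
        rw [Finset.mem_range] at hk
        simp only
        rw [if_neg (by omega)]
        have : n - (n - 1 - k + 1) = k := by omega
        rw [this]

lemma half_nil : Half [] := by
  intro i h1 h2; simp at h2; omega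

lemma bri_nil : Bri [] := ⟨half_nil, by intro i hi; simp⟩

lemma hh_zero (p : Par) : hh p 0 = 1 := by
  classical
  unfold hh mass
  rw [tsum_eq_single []]
  · rw [if_pos ⟨half_nil, rfl⟩, W_nil]
  · intro l hl
    rw [if_neg]
    rintro ⟨_, h⟩
    exact hl (List.length_eq_zero_iff.1 h)

lemma Eb_zero (p : Par) : Eb p 0 = 1 := by
  unfold Eb
  rw [Nat.cast_zero, Real.zero_rpow (by have := p.hκ1; linarith)]
  simp

lemma sum_hh_le (p : Par) (n : ℕ) :
    ∑ k ∈ range (n + 1), hh p k * Eb p k ≤
      ENNReal.ofReal (Real.exp (∑ k ∈ range (n + 1), ebr p k)) := by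
  induction n with
  | zero =>
    rw [Finset.sum_range_one, Finset.sum_range_one, hh_zero, Eb_zero, one_mul, ← ENNReal.ofReal_one]
    apply ENNReal.ofReal_le_ofReal
    rw [Real.one_le_exp_iff]
    exact (ebr_pos p 0).le
  | succ n ih =>
    rw [Finset.sum_range_succ, Finset.sum_range_succ _ (n + 1), Real.exp_add,
      ENNReal.ofReal_mul (Real.exp_pos _).le]
    have h1 := hh_le_range p (n + 1) (by omega)
    set S := ∑ k ∈ range (n + 1), hh p k * Eb p k
    calc S + hh p (n + 1) * Eb p (n + 1) ≤ S + S * Eb p (n + 1) := by gcongr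
      _ = S * (1 + Eb p (n + 1)) := by ring
      _ ≤ ENNReal.ofReal (Real.exp (∑ k ∈ range (n + 1), ebr p k)) *
            ENNReal.ofReal (Real.exp (ebr p (n + 1))) := by
          gcongr
          rw [Eb_eq, ← ENNReal.ofReal_one, ← ENNReal.ofReal_add (by norm_num) (ebr_pos p _).le]
          apply ENNReal.ofReal_le_ofReal
          have := Real.add_one_le_exp (ebr p (n + 1))
          linarith

/-- the uniform bound on half-space masses -/
noncomputable def Gam (p : Par) : ℝ≥0∞ := ENNReal.ofReal (Real.exp (∑' k, ebr p k))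

lemma Gam_ne_top (p : Par) : Gam p ≠ ∞ := ENNReal.ofReal_ne_top

lemma one_le_Gam (p : Par) : 1 ≤ Gam p := by
  unfold Gam
  rw [← ENNReal.ofReal_one]
  apply ENNReal.ofReal_le_ofReal
  rw [Real.one_le_exp_iff]
  exact tsum_nonneg fun k => (ebr_pos p k).le

lemma hh_le_Gam (p : Par) (n : ℕ) : hh p n ≤ Gam p := by
  rcases Nat.eq_zero_or_pos n with rfl | hn
  · rw [hh_zero]; exact one_le_Gam p
  · obtain ⟨m, rfl⟩ : ∃ m, n = m + 1 := ⟨n - 1, by omega⟩
    refine (hh_le_range p (m + 1) (by omega)).trans ((sum_hh_le p m).trans ?_)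
    unfold Gam
    apply ENNReal.ofReal_le_ofReal
    apply Real.exp_le_exp.2
    exact (summable_ebr p).sum_le_tsum _ fun k _ => (ebr_pos p k).le

/-- nonnegative walks of length `n` -/
noncomputable def nn (p : Par) (n : ℕ) : ℝ≥0∞ := mass p (fun l => NN l ∧ l.length = n)

lemma ze_nn_le (p : Par) (n : ℕ) : ze p * nn p n ≤ hh p (n + 1) := by
  classical
  unfold nn hh mass
  rw [← ENNReal.tsum_mul_left]
  apply tsum_le_of_inj _ _ (fun l => true :: l)
  · intro x y _ _ h; simpa using h
  · intro x hx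
    have hx' : NN x ∧ x.length = n := by by_contra h; simp [h] at hx
    rw [if_pos hx', if_pos ⟨half_cons_true hx'.1, by simp [hx'.2]⟩, W_cons_true p hx'.1]

lemma nn_le (p : Par) (n : ℕ) : nn p n ≤ (ze p)⁻¹ * hh p (n + 1) := by
  rw [← ENNReal.div_eq_inv_mul, ENNReal.le_div_iff_mul_le (Or.inl (ze_ne_zero p))
    (Or.inl (ze_ne_top p)), mul_comm]
  exact ze_nn_le p n

lemma nn_le_Gam (p : Par) (n : ℕ) : nn p n ≤ (ze p)⁻¹ * Gam p := by
  refine (nn_le p n).trans ?_
  gcongr
  exact hh_le_Gam p _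

end Pool.Agent.Helper98.Elastic
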