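import Pool.Agent.Helper98.Elastic.PartI

/-!
# Walks are dominated by bridges; lower bound on the mass of bridges
-/

open Finset Filter Topology
open scoped ENNReal

namespace Pool.Agent.Helper98.Elastic

lemma thick_thick (E : Set ℤ) (i k : ℕ) : thick (thick E i) k ⊆ thick E (i + k) := by
  rintro x ⟨y, ⟨e, he, h1⟩, h2⟩
  refine ⟨e, he, ?_⟩
  calc |x - e| = |(x - y) + (y - e)| := by rw [sub_add_sub_cancel]
    _ ≤ |x - y| + |y - e| := abs_add_le _ _
    _ ≤ _ := by push_cast; omega

lemma thick_mono (E : Set ℤ) {i k : ℕ} (h : i ≤ k) : thick E i ⊆ thick E k := by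
  rintro x ⟨e, he, h1⟩
  exact ⟨e, he, h1.trans (by exact_mod_cast h)⟩

lemma uuE_mono (p : Par) (n : ℕ) {E F : Set ℤ} (h : E ⊆ F) : uuE p n E ≤ uuE p n F :=
  mass_mono p fun _ h' => ⟨h'.1, h'.2.1, h h'.2.2⟩

/-- nonnegative walks of length `n` with end in `E` -/
noncomputable def nnE (p : Par) (n : ℕ) (E : Set ℤ) : ℝ≥0∞ :=
  mass p (fun l => NN l ∧ l.length = n ∧ ed l ∈ E)

lemma nnE_le (p : Par) (n : ℕ) (E : Set ℤ) : nnE p n E ≤ (ze p)⁻¹ * hhE p (n + 1) (thick E 1) := by
  classical
  rw [← ENNReal.div_eq_inv_mul, ENNReal.le_div_iff_mul_le (Or.inl (ze_ne_zero p))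
    (Or.inl (ze_ne_top p)), mul_comm]
  unfold nnE hhE mass
  rw [← ENNReal.tsum_mul_left]
  apply tsum_le_of_inj _ _ (fun l => true :: l)
  · intro x y _ _ h; simpa using h
  · intro x hx
    have hx' : NN x ∧ x.length = n ∧ ed x ∈ E := by by_contra h; simp [h] at hx
    have hx'' : Half (true :: x) ∧ (true :: x).length = n + 1 ∧ ed (true :: x) ∈ thick E 1 :=
      ⟨half_cons_true hx'.1, by simp [hx'.2.1], ⟨ed x, hx'.2.2, by simp [st]⟩⟩
    rw [if_pos hx', if_pos hx'', W_cons_true p hx'.1]

lemma sum_triple {M : Type*} [AddCommMonoid M] (n : ℕ) (F : ℕ → ℕ → ℕ → M) :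
    ∑ x ∈ antidiagonal n, ∑ y ∈ antidiagonal x.2, F x.1 y.1 y.2 =
      ∑ x ∈ antidiagonal n, ∑ y ∈ antidiagonal x.2, F y.1 x.1 y.2 := by
  rw [Finset.sum_sigma', Finset.sum_sigma']
  refine Finset.sum_nbij' (fun z => ⟨(z.2.1, z.1.1 + z.2.2), (z.1.1, z.2.2)⟩)
    (fun z => ⟨(z.2.1, z.1.1 + z.2.2), (z.1.1, z.2.2)⟩) ?_ ?_ ?_ ?_ ?_
  · rintro ⟨⟨a, b⟩, ⟨c, d⟩⟩ h
    simp only [Finset.mem_sigma, Finset.HasAntidiagonal.mem_antidiagonal, and_true] at h ⊢
    omega
  · rintro ⟨⟨a, b⟩, ⟨c, d⟩⟩ h
    simp only [Finset.mem_sigma, Finset.HasAntidiagonal.mem_antidiagonal, and_true] at h ⊢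
    omega
  · rintro ⟨⟨a, b⟩, ⟨c, d⟩⟩ h
    simp only [Finset.mem_sigma, Finset.HasAntidiagonal.mem_antidiagonal] at h
    obtain ⟨h1, h2⟩ := h
    subst h2
    rfl
  · rintro ⟨⟨a, b⟩, ⟨c, d⟩⟩ h
    simp only [Finset.mem_sigma, Finset.HasAntidiagonal.mem_antidiagonal] at h
    obtain ⟨h1, h2⟩ := h
    subst h2
    rfl
  · rintro ⟨⟨a, b⟩, ⟨c, d⟩⟩ h
    rfl

open Classical in
lemma tsum_ite_mul_ite' (p : Par) (P Q : List Bool → Prop) (c : ℝ≥0∞) :
    ∑' a, ∑' b, (if P a ∧ Q b then W p a * c * W p b else 0) = mass p P * c * mass p Q := by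
  unfold mass
  rw [← ENNReal.tsum_mul_right (a := c), ← tsum_tsum_mul]
  refine tsum_congr fun a => tsum_congr fun b => ?_
  by_cases h1 : P a <;> by_cases h2 : Q b <;> simp [h1, h2]

lemma transfer_all_aux (p : Par) (n : ℕ) (E : Set ℤ) :
    ZE p n E ≤ (∑ x ∈ antidiagonal n, nn p x.1 * Eb p x.1 * hhE p x.2 (thick E x.1)) +
      ∑ x ∈ antidiagonal n, nnE p x.1 (thick E x.2) * (hh p x.2 * Eb p x.2) := by
  classical
  have h1 := cover_all p (fun l => l.length = n ∧ |ed l| ∈ E)
    (fun v r => v.length + r.length = n ∧ ed r ∈ thick E v.length ∧ ed v ∈ thick E r.length) (by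
      intro v r hv hr ⟨h1, h2⟩
      rw [List.length_append, length_neg, List.length_reverse] at h1
      have h3 : ed (neg v.reverse ++ r) = ed r - ed v := by
        rw [ed_append, ed_neg, ed_reverse]; ring
      have h4 : 0 ≤ ed v := by have := hv v.length le_rfl; rwa [pos_length] at this
      have h5 : 0 ≤ ed r := by have := hr.nn r.length le_rfl; rwa [pos_length] at this
      have h6 := (abs_le.1 (abs_ed_le v)).2
      have h7 := (abs_le.1 (abs_ed_le r)).2
      refine ⟨h1, ⟨_, h2, ?_⟩, ⟨_, h2, ?_⟩⟩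
      · rw [h3, abs_le]
        rcases abs_cases (ed r - ed v) with h8 | h8 <;> constructor <;> omega
      · rw [h3, abs_le]
        rcases abs_cases (ed r - ed v) with h8 | h8 <;> constructor <;> omega)
  refine h1.trans (add_le_add ?_ ?_)
  · refine le_trans (le_of_eq ((tsum_congr fun x => ?_).trans
      (tsum_prod_antidiagonal List.length List.length n
      (fun a b => if NN a ∧ Half b ∧ ed b ∈ thick E a.length ∧ ed a ∈ thick E b.length then
        W p a * Eb p a.length * W p b else 0)))) ?_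
    · by_cases h : x.1.length + x.2.length = n
      · simp [h]
      · simp [h]
    apply Finset.sum_le_sum
    intro x _
    unfold nn hhE
    rw [← tsum_ite_mul_ite']
    refine ENNReal.tsum_le_tsum fun a => ENNReal.tsum_le_tsum fun b => ?_
    by_cases hb : b.length = x.2
    · by_cases ha : a.length = x.1
      · simp only [ha, hb, and_self, if_true]
        by_cases h5 : NN a <;> by_cases h6 : Half b <;> by_cases h7 : ed b ∈ thick E x.1 <;>
          by_cases h8 : ed a ∈ thick E x.2 <;> simp [h5, h6, h7, h8]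
      · simp [ha]
    · simp [hb]
  · refine le_trans (le_of_eq ((tsum_congr fun x => ?_).trans
      (tsum_prod_antidiagonal List.length List.length n
      (fun a b => if NN a ∧ Half b ∧ ed b ∈ thick E a.length ∧ ed a ∈ thick E b.length then
        W p a * (W p b * Eb p b.length) else 0)))) ?_
    · by_cases h : x.1.length + x.2.length = n
      · simp [h]
      · simp [h]
    apply Finset.sum_le_sum
    intro x _
    unfold nnE hh
    rw [← tsum_ite_mul_ite]
    refine ENNReal.tsum_le_tsum fun a => ENNReal.tsum_le_tsum fun b => ?_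
    by_cases hb : b.length = x.2
    · by_cases ha : a.length = x.1
      · simp only [ha, hb, and_self, if_true]
        by_cases h5 : NN a <;> by_cases h6 : Half b <;> by_cases h7 : ed b ∈ thick E x.1 <;>
          by_cases h8 : ed a ∈ thick E x.2 <;> simp [h5, h6, h7, h8]
      · simp [ha]
    · simp [hb]

/-- the summable weights of the remainders -/
noncomputable def zet (p : Par) (r : ℕ) : ℝ≥0∞ :=
  (ze p)⁻¹ * Gam p ^ 2 * ∑ y ∈ antidiagonal r, Eb p y.1 * Eb p y.2

lemma inv_ze_ne_top (p : Par) : (ze p)⁻¹ ≠ ∞ := ENNReal.inv_ne_top.2 (ze_ne_zero p)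

lemma tsum_zet_ne_top (p : Par) : ∑' r, zet p r ≠ ∞ := by
  unfold zet
  rw [ENNReal.tsum_mul_left, tsum_conv]
  exact ENNReal.mul_ne_top (ENNReal.mul_ne_top (inv_ze_ne_top p) (ENNReal.pow_ne_top (Gam_ne_top p)))
    (ENNReal.mul_ne_top (tsum_Eb_ne_top p) (tsum_Eb_ne_top p))

/-- **transfer lemma**: walks are dominated by bridges plus a small remainder -/
lemma transfer_all (p : Par) (n : ℕ) (E : Set ℤ) :
    ZE p n E ≤ (∑ x ∈ antidiagonal n, uuE p x.1 (thick E x.2) * zet p x.2) +
      ∑ x ∈ antidiagonal (n + 1), uuE p x.1 (thick E (x.2 + 1)) * zet p x.2 := by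
  refine (transfer_all_aux p n E).trans (add_le_add ?_ ?_)
  · calc ∑ x ∈ antidiagonal n, nn p x.1 * Eb p x.1 * hhE p x.2 (thick E x.1)
        ≤ ∑ x ∈ antidiagonal n, (ze p)⁻¹ * Gam p * Eb p x.1 *
            ∑ y ∈ antidiagonal x.2, uuE p y.1 (thick E (x.1 + y.2)) * (Gam p * Eb p y.2) := by
          apply Finset.sum_le_sum
          intro x _
          gcongr
          · exact nn_le_Gam p _
          · refine (transfer_half p _ _).trans ?_
            apply Finset.sum_le_sum
            intro y _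
            gcongr
            · exact uuE_mono p _ (thick_thick E _ _)
            · exact hh_le_Gam p _
      _ = ∑ x ∈ antidiagonal n, ∑ y ∈ antidiagonal x.2,
            (ze p)⁻¹ * Gam p * Eb p x.1 * (uuE p y.1 (thick E (x.1 + y.2)) * (Gam p * Eb p y.2)) := by
          simp_rw [Finset.mul_sum]
      _ = ∑ x ∈ antidiagonal n, ∑ y ∈ antidiagonal x.2,
            (ze p)⁻¹ * Gam p * Eb p y.1 * (uuE p x.1 (thick E (y.1 + y.2)) * (Gam p * Eb p y.2)) :=
          sum_triple n (fun i m k => (ze p)⁻¹ * Gam p * Eb p i *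
            (uuE p m (thick E (i + k)) * (Gam p * Eb p k)))
      _ = _ := by
          refine Finset.sum_congr rfl fun x _ => ?_
          unfold zet
          rw [Finset.mul_sum, Finset.mul_sum]
          refine Finset.sum_congr rfl fun y hy => ?_
          rw [Finset.HasAntidiagonal.mem_antidiagonal] at hy
          rw [hy]; ring
  · calc ∑ x ∈ antidiagonal n, nnE p x.1 (thick E x.2) * (hh p x.2 * Eb p x.2)
        ≤ ∑ x ∈ antidiagonal n, ((ze p)⁻¹ *
            ∑ y ∈ antidiagonal (x.1 + 1), uuE p y.1 (thick E (x.2 + y.2 + 1)) * (Gam p * Eb p y.2)) *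
              (Gam p * Eb p x.2) := by
          apply Finset.sum_le_sum
          intro x _
          gcongr
          · refine (nnE_le p _ _).trans ?_
            gcongr
            refine (transfer_half p _ _).trans ?_
            apply Finset.sum_le_sum
            intro y _
            gcongr
            · refine uuE_mono p _ ?_
              refine (thick_thick (thick E x.2) 1 y.2).trans ((thick_thick _ _ _).trans ?_)
              exact thick_mono E (by omega)
            · exact hh_le_Gam p _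
          · exact hh_le_Gam p _
      _ = ∑ x ∈ antidiagonal n, ∑ y ∈ antidiagonal (x.1 + 1), (ze p)⁻¹ * Gam p ^ 2 *
            (Eb p x.2 * Eb p y.2) * uuE p y.1 (thick E (x.2 + y.2 + 1)) := by
          refine Finset.sum_congr rfl fun x _ => ?_
          rw [Finset.mul_sum, Finset.sum_mul]
          refine Finset.sum_congr rfl fun y _ => ?_
          ring
      _ ≤ ∑ x ∈ antidiagonal (n + 1), ∑ y ∈ antidiagonal x.2, (ze p)⁻¹ * Gam p ^ 2 *
            (Eb p y.1 * Eb p y.2) * uuE p x.1 (thick E (y.1 + y.2 + 1)) := by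
          rw [← sum_triple (n + 1) (fun i m k => (ze p)⁻¹ * Gam p ^ 2 *
            (Eb p i * Eb p k) * uuE p m (thick E (i + k + 1)))]
          rw [Finset.sum_sigma', Finset.sum_sigma']
          have hinj : Set.InjOn (fun z : (_ : ℕ × ℕ) × (ℕ × ℕ) =>
              (⟨(z.1.2, z.1.1 + 1), z.2⟩ : (_ : ℕ × ℕ) × (ℕ × ℕ)))
              ((antidiagonal n).sigma fun x => antidiagonal (x.1 + 1) :
                Finset ((_ : ℕ × ℕ) × (ℕ × ℕ))) := by
            rintro ⟨⟨a, b⟩, ⟨c, d⟩⟩ _ ⟨⟨a', b'⟩, ⟨c', d'⟩⟩ _ h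
            simp only [Sigma.mk.injEq, Prod.mk.injEq, heq_eq_eq] at h
            obtain ⟨⟨h1, h2⟩, h3, h4⟩ := h
            subst h1; subst h3; subst h4
            have : a = a' := by omega
            subst this
            rfl
          rw [← Finset.sum_image (f := fun z : (_ : ℕ × ℕ) × (ℕ × ℕ) =>
            (ze p)⁻¹ * Gam p ^ 2 * (Eb p z.1.1 * Eb p z.2.2) *
              uuE p z.2.1 (thick E (z.1.1 + z.2.2 + 1))) (g := fun z : (_ : ℕ × ℕ) × (ℕ × ℕ) =>
              (⟨(z.1.2, z.1.1 + 1), z.2⟩ : (_ : ℕ × ℕ) × (ℕ × ℕ))) hinj]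
          apply Finset.sum_le_sum_of_subset
          intro z hz
          rw [Finset.mem_image] at hz
          obtain ⟨⟨⟨a, b⟩, ⟨c, d⟩⟩, hz1, rfl⟩ := hz
          simp only [Finset.mem_sigma, Finset.HasAntidiagonal.mem_antidiagonal] at *
          omega
      _ = _ := by
          refine Finset.sum_congr rfl fun x _ => ?_
          unfold zet
          rw [Finset.mul_sum, Finset.mul_sum]
          refine Finset.sum_congr rfl fun y hy => ?_
          rw [Finset.HasAntidiagonal.mem_antidiagonal] at hy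
          rw [hy]; ring

/-- uniform bound on the mass of all walks -/
noncomputable def Czz (p : Par) : ℝ≥0∞ := 2 * ∑' r, zet p r

lemma Czz_ne_top (p : Par) : Czz p ≠ ∞ := ENNReal.mul_ne_top (by norm_num) (tsum_zet_ne_top p)

lemma sum_antidiagonal_snd_le (f : ℕ → ℝ≥0∞) (n : ℕ) :
    ∑ x ∈ antidiagonal n, f x.2 ≤ ∑' r, f r := by
  rw [Finset.Nat.sum_antidiagonal_eq_sum_range_succ_mk]
  rw [← Finset.sum_range_reflect]
  refine le_trans (le_of_eq (Finset.sum_congr rfl fun k hk => ?_)) (ENNReal.sum_le_tsum (range (n + 1)))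
  rw [Finset.mem_range] at hk
  simp only
  congr 1; omega

lemma mass_length_le_Czz (p : Par) (n : ℕ) : mass p (fun l => l.length = n) ≤ Czz p := by
  have h0 : mass p (fun l => l.length = n) = ZE p n Set.univ := by
    apply mass_congr; simp
  rw [h0]
  refine (transfer_all p n Set.univ).trans ?_
  unfold Czz
  rw [two_mul]
  apply add_le_add
  · calc ∑ x ∈ antidiagonal n, uuE p x.1 (thick Set.univ x.2) * zet p x.2
        ≤ ∑ x ∈ antidiagonal n, zet p x.2 := by
          apply Finset.sum_le_sum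
          intro x _
          calc _ ≤ 1 * zet p x.2 := by
                gcongr
                exact (uuE_le_uu p _ _).trans (uu_le_one p _)
            _ = _ := one_mul _
      _ ≤ _ := sum_antidiagonal_snd_le _ _
  · calc ∑ x ∈ antidiagonal (n + 1), uuE p x.1 (thick Set.univ (x.2 + 1)) * zet p x.2
        ≤ ∑ x ∈ antidiagonal (n + 1), zet p x.2 := by
          apply Finset.sum_le_sum
          intro x _
          calc _ ≤ 1 * zet p x.2 := by
                gcongr
                exact (uuE_le_uu p _ _).trans (uu_le_one p _)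
            _ = _ := one_mul _
      _ ≤ _ := sum_antidiagonal_snd_le _ _

lemma uu_shift (p : Par) (m k : ℕ) : uu p m * ze p ^ k ≤ uu p (m + k) := by
  calc uu p m * ze p ^ k ≤ uu p m * uu p k := by gcongr; exact ze_pow_le_uu p k
    _ ≤ _ := uu_mul_le p m k

lemma tsum_ite_tail (f : ℕ → ℝ≥0∞) (R : ℕ) :
    ∑' r, (if R ≤ r then f r else 0) = ∑' k, f (k + R) := by
  have h := Summable.sum_add_tsum_nat_add' (f := fun r => if R ≤ r then f r else 0) (k := R)
    ENNReal.summable
  rw [← h]
  have h1 : ∑ i ∈ range R, (if R ≤ i then f i else 0) = 0 := by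
    apply Finset.sum_eq_zero
    intro i hi
    rw [Finset.mem_range] at hi
    rw [if_neg (by omega)]
  rw [h1, zero_add]
  refine tsum_congr fun k => ?_
  rw [if_pos (by omega)]

lemma conv_bound (p : Par) (R n : ℕ) :
    ze p ^ R * ∑ x ∈ antidiagonal n, uu p x.1 * zet p x.2 ≤
      uu p n * (∑' r, zet p r) + ze p ^ R * ∑' k, zet p (k + R) := by
  calc ze p ^ R * ∑ x ∈ antidiagonal n, uu p x.1 * zet p x.2
      = ∑ x ∈ antidiagonal n, ze p ^ R * (uu p x.1 * zet p x.2) := Finset.mul_sum _ _ _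
    _ ≤ ∑ x ∈ antidiagonal n, (uu p n * zet p x.2 +
          ze p ^ R * (if R ≤ x.2 then zet p x.2 else 0)) := by
        apply Finset.sum_le_sum
        intro x hx
        rw [Finset.HasAntidiagonal.mem_antidiagonal] at hx
        by_cases h : R ≤ x.2
        · rw [if_pos h]
          refine le_trans ?_ le_add_self
          gcongr
          calc uu p x.1 * zet p x.2 ≤ 1 * zet p x.2 := by gcongr; exact uu_le_one p _
            _ = _ := one_mul _
        · rw [if_neg h, mul_zero, add_zero, ← mul_assoc]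
          gcongr
          calc ze p ^ R * uu p x.1 ≤ ze p ^ x.2 * uu p x.1 := by
                gcongr ?_ * _
                exact pow_le_pow_right_of_le_one' (ze_le_one p) (by omega)
            _ = uu p x.1 * ze p ^ x.2 := mul_comm _ _
            _ ≤ uu p (x.1 + x.2) := uu_shift p _ _
            _ = uu p n := by rw [hx]
    _ = uu p n * (∑ x ∈ antidiagonal n, zet p x.2) + ze p ^ R *
          ∑ x ∈ antidiagonal n, (if R ≤ x.2 then zet p x.2 else 0) := by
        rw [Finset.sum_add_distrib, Finset.mul_sum, Finset.mul_sum]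
    _ ≤ _ := by
        gcongr
        · exact sum_antidiagonal_snd_le _ _
        · refine (sum_antidiagonal_snd_le (fun r => if R ≤ r then zet p r else 0) n).trans ?_
          rw [tsum_ite_tail]

/-- **the mass of bridges is bounded below** -/
lemma exists_uu_lower (p : Par) : ∃ c : ℝ≥0∞, 0 < c ∧ ∀ n, c ≤ uu p n := by
  have h1 := ENNReal.tendsto_sum_nat_add (zet p) (tsum_zet_ne_top p)
  have h2 : ∀ᶠ R in atTop, ∑' k, zet p (k + R) < 1 / 4 :=
    h1.eventually (gt_mem_nhds (by norm_num))
  obtain ⟨R, hR⟩ := h2.exists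
  set Zt := ∑' r, zet p r with hZt
  have hZtop : Zt ≠ ∞ := tsum_zet_ne_top p
  have hzR : ze p ^ R ≠ 0 := pow_ne_zero _ (ze_ne_zero p)
  have hzRt : ze p ^ R ≠ ∞ := ENNReal.pow_ne_top (ze_ne_top p)
  have key : ∀ n, ze p ^ R / 2 ≤ (uu p n + uu p (n + 1)) * Zt := by
    intro n
    have h3 : 1 ≤ (∑ x ∈ antidiagonal n, uu p x.1 * zet p x.2) +
        ∑ x ∈ antidiagonal (n + 1), uu p x.1 * zet p x.2 := by
      have h0 : mass p (fun l => l.length = n) = ZE p n Set.univ := by
        apply mass_congr; simp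
      refine (one_le_Z p n).trans ?_
      rw [h0]
      refine (transfer_all p n Set.univ).trans (add_le_add ?_ ?_)
      · apply Finset.sum_le_sum; intro x _; gcongr; exact uuE_le_uu p _ _
      · apply Finset.sum_le_sum; intro x _; gcongr; exact uuE_le_uu p _ _
    have h4 : ze p ^ R ≤ (uu p n + uu p (n + 1)) * Zt + ze p ^ R / 2 := by
      calc ze p ^ R = ze p ^ R * 1 := (mul_one _).symm
        _ ≤ ze p ^ R * ((∑ x ∈ antidiagonal n, uu p x.1 * zet p x.2) +
              ∑ x ∈ antidiagonal (n + 1), uu p x.1 * zet p x.2) := by gcongr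
        _ = ze p ^ R * (∑ x ∈ antidiagonal n, uu p x.1 * zet p x.2) +
              ze p ^ R * ∑ x ∈ antidiagonal (n + 1), uu p x.1 * zet p x.2 := mul_add _ _ _
        _ ≤ (uu p n * Zt + ze p ^ R * ∑' k, zet p (k + R)) +
              (uu p (n + 1) * Zt + ze p ^ R * ∑' k, zet p (k + R)) :=
            add_le_add (conv_bound p R n) (conv_bound p R (n + 1))
        _ ≤ (uu p n * Zt + ze p ^ R * (1 / 4)) + (uu p (n + 1) * Zt + ze p ^ R * (1 / 4)) := by
            gcongr
        _ = (uu p n + uu p (n + 1)) * Zt + ze p ^ R * (1 / 4 + 1 / 4) := by ring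
        _ = _ := by
            congr 1
            rw [div_eq_mul_inv]
            congr 1
            rw [← ENNReal.toReal_eq_toReal_iff' (by finiteness) (by finiteness)]
            rw [ENNReal.toReal_add (by finiteness) (by finiteness)]
            norm_num
    have h5 : ze p ^ R / 2 + ze p ^ R / 2 ≤ (uu p n + uu p (n + 1)) * Zt + ze p ^ R / 2 := by
      rw [ENNReal.add_halves]; exact h4
    exact (ENNReal.add_le_add_iff_right (ENNReal.div_ne_top hzRt (by norm_num))).1 h5
  have key2 : ∀ n, ze p ^ (R + 1) / 2 ≤ uu p (n + 1) * (2 * Zt) := by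
    intro n
    calc ze p ^ (R + 1) / 2 = (ze p ^ R / 2) * ze p := by
          rw [pow_succ, div_eq_mul_inv, div_eq_mul_inv]; ring
      _ ≤ ((uu p n + uu p (n + 1)) * Zt) * ze p := by gcongr; exact key n
      _ = (uu p n * ze p ^ 1 + uu p (n + 1) * ze p) * Zt := by ring
      _ ≤ (uu p (n + 1) + uu p (n + 1) * 1) * Zt := by
          gcongr
          · exact uu_shift p n 1
          · exact ze_le_one p
      _ = _ := by ring
  refine ⟨min 1 (ze p ^ (R + 1) / 2 / (2 * Zt)), ?_, ?_⟩
  · rw [lt_min_iff]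
    refine ⟨by norm_num, ?_⟩
    apply ENNReal.div_pos
    · exact (ENNReal.div_pos (pow_ne_zero _ (ze_ne_zero p)) (by norm_num)).ne'
    · exact ENNReal.mul_ne_top (by norm_num) hZtop
  · intro n
    rcases Nat.eq_zero_or_pos n with rfl | hn
    · rw [uu_zero]; exact min_le_left _ _
    · obtain ⟨m, rfl⟩ : ∃ m, n = m + 1 := ⟨n - 1, by omega⟩
      refine (min_le_right _ _).trans ?_
      exact ENNReal.div_le_of_le_mul (key2 m)

end Pool.Agent.Helper98.Elastic
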