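import Pool.Agent.Helper98.Elastic.Bridges

/-!
# The law of large numbers for walks
-/

open Finset Filter Topology
open scoped ENNReal

namespace Pool.Agent.Helper98.Elastic

/-- dominated convergence for sums in `ℝ≥0∞` -/
lemma ennreal_tannery {ι α : Type*} {l : Filter ι} (F : ι → α → ℝ≥0∞) (g b : α → ℝ≥0∞)
    (hb : ∑' a, b a ≠ ∞) (hF : ∀ n a, F n a ≤ b a) (hg : ∀ a, g a ≤ b a)
    (h : ∀ a, Tendsto (fun n => F n a) l (𝓝 (g a))) :
    Tendsto (fun n => ∑' a, F n a) l (𝓝 (∑' a, g a)) := by
  have hbt : ∀ a, b a ≠ ∞ := ENNReal.ne_top_of_tsum_ne_top hb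
  have hFt : ∀ n a, F n a ≠ ∞ := fun n a => ne_top_of_le_ne_top (hbt a) (hF n a)
  have hgt : ∀ a, g a ≠ ∞ := fun a => ne_top_of_le_ne_top (hbt a) (hg a)
  have hsum : Summable fun a => (b a).toReal := ENNReal.summable_toReal hb
  have key : ∀ f : α → ℝ≥0∞, (∀ a, f a ≤ b a) →
      ∑' a, f a = ENNReal.ofReal (∑' a, (f a).toReal) := by
    intro f hf
    have hft : ∀ a, f a ≠ ∞ := fun a => ne_top_of_le_ne_top (hbt a) (hf a)
    rw [ENNReal.ofReal_tsum_of_nonneg (fun a => ENNReal.toReal_nonneg)]
    · exact tsum_congr fun a => (ENNReal.ofReal_toReal (hft a)).symm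
    · exact Summable.of_nonneg_of_le (fun a => ENNReal.toReal_nonneg)
        (fun a => ENNReal.toReal_mono (hbt a) (hf a)) hsum
  rw [key g hg]
  simp_rw [fun n => key (F n) (hF n)]
  apply ENNReal.tendsto_ofReal
  apply tendsto_tsum_of_dominated_convergence hsum
  · intro a
    exact (ENNReal.tendsto_toReal (hgt a)).comp (h a)
  · refine Eventually.of_forall fun n a => ?_
    rw [Real.norm_eq_abs, abs_of_nonneg ENNReal.toReal_nonneg]
    exact ENNReal.toReal_mono (hbt a) (hF n a)

lemma ennreal_tannery_zero {ι α : Type*} {l : Filter ι} (F : ι → α → ℝ≥0∞) (b : α → ℝ≥0∞)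
    (hb : ∑' a, b a ≠ ∞) (hF : ∀ n a, F n a ≤ b a)
    (h : ∀ a, Tendsto (fun n => F n a) l (𝓝 0)) :
    Tendsto (fun n => ∑' a, F n a) l (𝓝 0) := by
  have := ennreal_tannery F (fun _ => 0) b hb hF (fun _ => zero_le) h
  simpa using this

/-- lengths whose distance to the law of large numbers is large -/
def badset (v ε : ℝ) (n : ℕ) : Set ℤ := {x | ε * n < |(x : ℝ) - v * n|}

lemma badset_thick {v ε : ℝ} (hv0 : 0 ≤ v) (hv1 : v ≤ 1) (hε : 0 < ε) {n m r s : ℕ}
    (hnm : m + r = n + s) (hn : 2 * (r + s : ℝ) ≤ ε / 2 * n - ε / 2 * s) :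
    thick (badset v ε n) (r + s) ⊆ badset v (ε / 2) m := by
  rintro x ⟨e, he, h1⟩
  unfold badset at *
  simp only [Set.mem_ofPred_eq] at *
  have h2 : (m : ℝ) + r = n + s := by exact_mod_cast hnm
  have h3 : |(x : ℝ) - e| ≤ r + s := by exact_mod_cast h1
  have h4 : |(e : ℝ) - v * n| ≤ |(x : ℝ) - v * m| + (r + s) + (r + s) := by
    have h5 : (e : ℝ) - v * n = ((x : ℝ) - v * m) + ((e : ℝ) - x) + v * (m - n) := by ring
    rw [h5]
    calc |((x : ℝ) - v * m) + ((e : ℝ) - x) + v * (m - n)|
        ≤ |((x : ℝ) - v * m) + ((e : ℝ) - x)| + |v * (m - n)| := abs_add_le _ _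
      _ ≤ |(x : ℝ) - v * m| + |(e : ℝ) - x| + |v * (m - n)| := by
          gcongr; exact abs_add_le _ _
      _ ≤ _ := by
          gcongr
          · rw [abs_sub_comm]; exact h3
          · rw [abs_mul, abs_of_nonneg hv0]
            have h6 : |(m : ℝ) - n| ≤ r + s := by
              rw [abs_le]; constructor <;> [skip; skip] <;>
              [have := (Nat.cast_nonneg s : (0:ℝ) ≤ s); have := (Nat.cast_nonneg r : (0:ℝ) ≤ r)] <;>
              linarith
            calc v * |(m : ℝ) - n| ≤ 1 * |(m : ℝ) - n| := by gcongr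
              _ ≤ _ := by rw [one_mul]; exact h6
  have h7 : (m : ℝ) ≤ n + s := by
    have := (Nat.cast_nonneg r : (0:ℝ) ≤ r); linarith
  have h8 : ε / 2 * m ≤ ε / 2 * (n + s) := by gcongr
  linarith

lemma tendsto_badset_aux (p : Par) (ε : ℝ) (hε : 0 < ε) (s r : ℕ) :
    Tendsto (fun n : ℕ => if r ≤ n + s then
      uuE p (n + s - r) (thick (badset (speed p) ε n) (r + s)) else 0) atTop (𝓝 0) := by
  have h1 := lln_bridge_length p (ε / 2) (by positivity)
  have h2 : Tendsto (fun n : ℕ => n + s - r) atTop atTop := by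
    apply tendsto_atTop_atTop.2
    intro b
    exact ⟨b + r, fun a ha => by omega⟩
  have h3 := h1.comp h2
  refine tendsto_of_tendsto_of_tendsto_of_le_of_le' tendsto_const_nhds h3
    (Eventually.of_forall fun _ => zero_le) ?_
  have h4 : ∀ᶠ n : ℕ in atTop, 2 * (r + s : ℝ) ≤ ε / 2 * n - ε / 2 * s := by
    have h5 : Tendsto (fun n : ℕ => ε / 2 * (n : ℝ) - ε / 2 * s) atTop atTop := by
      apply tendsto_atTop_add_const_right
      exact tendsto_natCast_atTop_atTop.const_mul_atTop (by positivity)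
    exact h5.eventually_ge_atTop _
  filter_upwards [h4, eventually_ge_atTop r] with n hn hnr
  rw [if_pos (by omega)]
  apply mass_mono
  intro l hl
  refine ⟨hl.1, hl.2.1, ?_⟩
  exact badset_thick (speed_pos p).le (speed_lt_one p).le hε (m := n + s - r) (by omega) hn hl.2.2

/-- **law of large numbers for walks** -/
theorem lln_walk (p : Par) (ε : ℝ) (hε : 0 < ε) :
    Tendsto (fun n : ℕ => ZE p n (badset (speed p) ε n)) atTop (𝓝 0) := by
  have hF : ∀ s : ℕ, Tendsto (fun n : ℕ => ∑ x ∈ antidiagonal (n + s),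
      uuE p x.1 (thick (badset (speed p) ε n) (x.2 + s)) * zet p x.2) atTop (𝓝 0) := by
    intro s
    have h1 : ∀ n : ℕ, ∑ x ∈ antidiagonal (n + s),
        uuE p x.1 (thick (badset (speed p) ε n) (x.2 + s)) * zet p x.2 =
        ∑' r, (if r ≤ n + s then
          uuE p (n + s - r) (thick (badset (speed p) ε n) (r + s)) else 0) * zet p r := by
      intro n
      rw [tsum_eq_sum (s := range (n + s + 1))]
      · rw [Finset.Nat.sum_antidiagonal_eq_sum_range_succ_mk, ← Finset.sum_range_reflect]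
        refine Finset.sum_congr rfl fun k hk => ?_
        rw [Finset.mem_range] at hk
        simp only
        rw [if_pos (by omega), show n + s + 1 - 1 - k = n + s - k by omega,
          show n + s - (n + s - k) = k by omega]
      · intro r hr
        rw [Finset.mem_range] at hr
        rw [if_neg (by omega), zero_mul]
    simp_rw [h1]
    apply ennreal_tannery_zero _ (zet p) (tsum_zet_ne_top p)
    · intro n r
      split_ifs
      · calc _ ≤ 1 * zet p r := by
              gcongr
              exact (uuE_le_uu p _ _).trans (uu_le_one p _)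
          _ = _ := one_mul _
      · simp
    · intro r
      have h2 := ENNReal.Tendsto.mul_const (tendsto_badset_aux p ε hε s r)
        (b := zet p r) (Or.inr (ENNReal.ne_top_of_tsum_ne_top (tsum_zet_ne_top p) r))
      rw [zero_mul] at h2
      exact h2
  have h0 := hF 0
  have h1 := hF 1
  have h2 := h0.add h1
  rw [add_zero] at h2
  refine tendsto_of_tendsto_of_tendsto_of_le_of_le tendsto_const_nhds h2
    (fun n => zero_le) (fun n => ?_)
  refine (transfer_all p n (badset (speed p) ε n)).trans (le_of_eq ?_)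
  simp

end Pool.Agent.Helper98.Elastic
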