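import Mathlib

/-!
# Renewal sequences
-/

open Finset Filter Topology
open scoped ENNReal

namespace Pool.Agent.Helper98.Elastic

/-- `u` is the renewal sequence of `f` -/
structure Ren (f u : ℕ → ℝ) : Prop where
  f_nonneg : ∀ n, 0 ≤ f n
  f_zero : f 0 = 0
  u_zero : u 0 = 1
  u_nonneg : ∀ n, 0 ≤ u n
  u_le : ∀ n, u n ≤ 1
  ren : ∀ n, u (n + 1) = ∑ j ∈ range (n + 1), f (j + 1) * u (n - j)

/-- tail of `f` -/
noncomputable def tl (f : ℕ → ℝ) (j : ℕ) : ℝ := 1 - ∑ k ∈ range (j + 1), f k

namespace Ren

variable {f u : ℕ → ℝ} (h : Ren f u)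

include h

lemma tl_zero : tl f 0 = 1 := by simp [tl, h.f_zero]

omit h in
lemma tl_succ (j : ℕ) : tl f (j + 1) = tl f j - f (j + 1) := by
  unfold tl; rw [Finset.sum_range_succ _ (j + 1)]; ring

lemma D_eq (n : ℕ) : ∑ j ∈ range (n + 1), tl f j * u (n - j) = 1 := by
  induction n with
  | zero => simp [h.tl_zero, h.u_zero]
  | succ n ih =>
    rw [Finset.sum_range_succ', Nat.sub_zero, h.tl_zero, one_mul, h.ren n]
    have : ∑ k ∈ range (n + 1), tl f (k + 1) * u (n + 1 - (k + 1)) =
        ∑ k ∈ range (n + 1), tl f k * u (n - k) - ∑ k ∈ range (n + 1), f (k + 1) * u (n - k) := by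
      rw [← Finset.sum_sub_distrib]
      refine Finset.sum_congr rfl fun k _ => ?_
      rw [tl_succ, show n + 1 - (k + 1) = n - k by omega]; ring
    rw [this, ih]; ring

lemma sum_le_one {c : ℝ} (hc : 0 < c) (hcu : ∀ n, c ≤ u n) (K : ℕ) :
    ∑ k ∈ range (K + 1), f k ≤ 1 := by
  by_contra hcon
  push Not at hcon
  set S := ∑ k ∈ range (K + 1), f k with hS
  have hS' : S = ∑ k ∈ range K, f (k + 1) := by
    rw [hS, Finset.sum_range_succ', h.f_zero, add_zero]
  have hKpos : 0 < K := by
    rcases Nat.eq_zero_or_pos K with h0 | h0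
    · rw [h0] at hS'; simp at hS'; linarith
    · exact h0
  have key : ∀ j n, j * K ≤ n → c * S ^ j ≤ u n := by
    intro j
    induction j with
    | zero => intro n _; simpa using hcu n
    | succ j ih =>
      intro n hn
      have hn' : j * K + K ≤ n := by rw [Nat.succ_mul] at hn; exact hn
      obtain ⟨m, rfl⟩ : ∃ m, n = m + 1 := ⟨n - 1, by omega⟩
      rw [h.ren m]
      calc c * S ^ (j + 1) = ∑ k ∈ range K, f (k + 1) * (c * S ^ j) := by
            rw [← Finset.sum_mul, ← hS']; ring
        _ ≤ ∑ k ∈ range K, f (k + 1) * u (m - k) := by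
            apply Finset.sum_le_sum
            intro k hk
            rw [Finset.mem_range] at hk
            exact mul_le_mul_of_nonneg_left (ih (m - k) (by omega)) (h.f_nonneg _)
        _ ≤ _ := by
            apply Finset.sum_le_sum_of_subset_of_nonneg
            · intro k hk
              rw [Finset.mem_range] at *
              have : K ≤ m + 1 := by omega
              omega
            · intro k _ _
              exact mul_nonneg (h.f_nonneg _) (h.u_nonneg _)
  obtain ⟨j, hj⟩ := (tendsto_pow_atTop_atTop_of_one_lt hcon).eventually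
    (eventually_gt_atTop (1 / c)) |>.exists
  have h1 := key j (j * K) le_rfl
  have h2 := h.u_le (j * K)
  rw [div_lt_iff₀ hc] at hj
  linarith

lemma tl_nonneg {c : ℝ} (hc : 0 < c) (hcu : ∀ n, c ≤ u n) (j : ℕ) : 0 ≤ tl f j := by
  unfold tl
  linarith [h.sum_le_one hc hcu j]

lemma summable_tl {c : ℝ} (hc : 0 < c) (hcu : ∀ n, c ≤ u n) : Summable (tl f) := by
  apply summable_of_sum_range_le (c := 1 / c) (h.tl_nonneg hc hcu)
  intro n
  rcases Nat.eq_zero_or_pos n with rfl | hn
  · simp only [Finset.range_zero, Finset.sum_empty]; positivity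
  obtain ⟨m, rfl⟩ : ∃ m, n = m + 1 := ⟨n - 1, by omega⟩
  rw [le_div_iff₀ hc, Finset.sum_mul, ← h.D_eq m]
  apply Finset.sum_le_sum
  intro j _
  exact mul_le_mul_of_nonneg_left (hcu _) (h.tl_nonneg hc hcu j)

lemma tsum_tl_le {c : ℝ} (hc : 0 < c) (hcu : ∀ n, c ≤ u n) : ∑' j, tl f j ≤ 1 / c := by
  apply Real.tsum_le_of_sum_range_le (h.tl_nonneg hc hcu)
  intro n
  rcases Nat.eq_zero_or_pos n with rfl | hn
  · simp only [Finset.range_zero, Finset.sum_empty]; positivity
  obtain ⟨m, rfl⟩ : ∃ m, n = m + 1 := ⟨n - 1, by omega⟩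
  rw [le_div_iff₀ hc, Finset.sum_mul, ← h.D_eq m]
  apply Finset.sum_le_sum
  intro j _
  exact mul_le_mul_of_nonneg_left (hcu _) (h.tl_nonneg hc hcu j)

lemma hasSum_f_of_summable_tl (hs : Summable (tl f)) : HasSum f 1 := by
  rw [hasSum_iff_tendsto_nat_of_nonneg h.f_nonneg]
  have h1 := hs.tendsto_atTop_zero
  have h2 : Tendsto (fun n => 1 - tl f n) atTop (𝓝 1) := by simpa using h1.const_sub 1
  have h3 : Tendsto (fun n => ∑ k ∈ range (n + 1), f k) atTop (𝓝 1) := by
    refine h2.congr fun n => ?_
    unfold tl; ring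
  exact (tendsto_add_atTop_iff_nat 1).1 h3

omit h in
lemma tl_nonneg_of_hasSum (hf : ∀ n, 0 ≤ f n) (hs : HasSum f 1) (j : ℕ) : 0 ≤ tl f j := by
  unfold tl
  have := sum_le_hasSum (range (j + 1)) (fun k _ => hf k) hs
  linarith

/-- lower bound on the renewal sequence from a finite mean -/
lemma exists_lower (hs : HasSum f 1) (ht : Summable (tl f)) (h1 : 0 < f 1) :
    ∃ c, 0 < c ∧ ∀ n, c ≤ u n := by
  have htl := tl_nonneg_of_hasSum h.f_nonneg hs
  have hf1 : f 1 ≤ 1 := by
    have := sum_le_hasSum {1} (fun k _ => h.f_nonneg k) hs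
    simpa using this
  have hshift : ∀ n j, u n * f 1 ^ j ≤ u (n + j) := by
    intro n j
    induction j with
    | zero => simp
    | succ j ih =>
      rw [← add_assoc, h.ren (n + j)]
      calc u n * f 1 ^ (j + 1) = f 1 * (u n * f 1 ^ j) := by ring
        _ ≤ f 1 * u (n + j) := mul_le_mul_of_nonneg_left ih h1.le
        _ = f (0 + 1) * u (n + j - 0) := by simp
        _ ≤ _ := Finset.single_le_sum (f := fun j_1 => f (j_1 + 1) * u (n + j - j_1))
            (fun k _ => mul_nonneg (h.f_nonneg _) (h.u_nonneg _)) (by simp)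
  obtain ⟨K, hK⟩ : ∃ K, ∑' k, tl f (k + K) < 1 / 2 := by
    have := (tendsto_sum_nat_add (tl f)).eventually (gt_mem_nhds (show (0 : ℝ) < 1 / 2 by norm_num))
    exact this.exists
  set A := ∑ j ∈ range K, tl f j with hA
  have hA0 : 0 ≤ A := Finset.sum_nonneg fun j _ => htl j
  refine ⟨f 1 ^ K / (2 * (A + 1)), by positivity, ?_⟩
  intro n
  rw [div_le_iff₀ (by positivity)]
  have h2 := h.D_eq n
  have h3 : ∑ j ∈ range (n + 1), tl f j * u (n - j) ≤
      ∑ j ∈ range (n + 1), (if j < K then tl f j * u (n - j) else 0) +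
      ∑ j ∈ range (n + 1), (if j < K then 0 else tl f j) := by
    rw [← Finset.sum_add_distrib]
    apply Finset.sum_le_sum
    intro j _
    by_cases hj : j < K
    · simp [hj]
    · simp only [hj, if_false, zero_add]
      calc tl f j * u (n - j) ≤ tl f j * 1 := mul_le_mul_of_nonneg_left (h.u_le _) (htl j)
        _ = _ := mul_one _
  have h4 : ∑ j ∈ range (n + 1), (if j < K then 0 else tl f j) ≤ 1 / 2 := by
    refine le_trans ?_ hK.le
    have hsum : Summable (fun j => if j < K then 0 else tl f j) := by
      refine Summable.of_nonneg_of_le (fun j => ?_) (fun j => ?_) ht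
      · split_ifs; exacts [le_rfl, htl j]
      · split_ifs; exacts [htl j, le_rfl]
    have h5 := hsum.sum_le_tsum (range (n + 1)) (fun j _ => by split_ifs; exacts [le_rfl, htl j])
    refine h5.trans (le_of_eq ?_)
    rw [← hsum.sum_add_tsum_nat_add K]
    have h6 : ∑ i ∈ range K, (if i < K then 0 else tl f i) = 0 := by
      apply Finset.sum_eq_zero
      intro i hi
      rw [Finset.mem_range] at hi
      rw [if_pos hi]
    rw [h6, zero_add]
    refine tsum_congr fun k => ?_
    rw [if_neg (by omega)]
  have h7 : (∑ j ∈ range (n + 1), (if j < K then tl f j * u (n - j) else 0)) * f 1 ^ K ≤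
      A * u n := by
    rw [Finset.sum_mul, hA, Finset.sum_mul]
    calc ∑ j ∈ range (n + 1), (if j < K then tl f j * u (n - j) else 0) * f 1 ^ K
        ≤ ∑ j ∈ range (n + 1), (if j < K then tl f j * u n else 0) := by
          apply Finset.sum_le_sum
          intro j hj
          rw [Finset.mem_range] at hj
          by_cases hjK : j < K
          · simp only [hjK, if_true]
            rw [mul_assoc]
            apply mul_le_mul_of_nonneg_left _ (htl j)
            calc u (n - j) * f 1 ^ K ≤ u (n - j) * f 1 ^ j :=
                  mul_le_mul_of_nonneg_left (pow_le_pow_of_le_one h1.le hf1 hjK.le) (h.u_nonneg _)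
              _ ≤ u (n - j + j) := hshift _ _
              _ = u n := by congr 1; omega
          · simp [hjK]
      _ ≤ ∑ j ∈ range K, tl f j * u n := by
          rw [← Finset.sum_filter]
          apply Finset.sum_le_sum_of_subset_of_nonneg
          · intro j hj
            simp only [Finset.mem_filter, Finset.mem_range] at *
            exact hj.2
          · intro j _ _
            exact mul_nonneg (htl j) (h.u_nonneg _)
  have h8 : 1 / 2 ≤ ∑ j ∈ range (n + 1), (if j < K then tl f j * u (n - j) else 0) := by linarith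
  have h9 : 0 < f 1 ^ K := by positivity
  have h10 := h.u_nonneg n
  nlinarith

/-- **renewal theorem** -/
lemma tendsto (hs : HasSum f 1) (ht : Summable (tl f)) (h1 : 0 < f 1) :
    Tendsto u atTop (𝓝 (1 / ∑' j, tl f j)) := by
  have htl := tl_nonneg_of_hasSum h.f_nonneg hs
  have hf1 : f 1 ≤ 1 := by
    have := sum_le_hasSum {1} (fun k _ => h.f_nonneg k) hs
    simpa using this
  set μ := ∑' j, tl f j with hμ
  have hμ1 : 1 ≤ μ := by
    have := ht.sum_le_tsum {0} (fun j _ => htl j)
    simpa [h.tl_zero] using this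
  have hb1 : BddAbove (Set.range u) := ⟨1, by rintro _ ⟨n, rfl⟩; exact h.u_le n⟩
  have hb2 : BddBelow (Set.range u) := ⟨0, by rintro _ ⟨n, rfl⟩; exact h.u_nonneg n⟩
  have hbu : IsBoundedUnder (· ≤ ·) atTop u := hb1.isBoundedUnder_of_range
  have hbl : IsBoundedUnder (· ≥ ·) atTop u := hb2.isBoundedUnder_of_range
  -- one step estimates
  have hstep : ∀ δ > 0, ∃ K, ∀ n, ∀ lam : ℝ, 0 ≤ lam → K ≤ n →
      ((∀ k, n - K ≤ k → k ≤ n → u k ≤ lam) → u (n + 1) ≤ f 1 * u n + (1 - f 1) * lam + δ) ∧
      ((∀ k, n - K ≤ k → k ≤ n → lam ≤ u k) → lam ≤ 1 →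
        f 1 * u n + (1 - f 1) * lam - δ ≤ u (n + 1)) := by
    intro δ hδ
    have h2 : ∀ᶠ K in atTop, tl f K < δ := ht.tendsto_atTop_zero.eventually (gt_mem_nhds hδ)
    obtain ⟨K, hK⟩ := h2.exists
    refine ⟨K, ?_⟩
    intro n lam hlam hKn
    have hsplit : u (n + 1) = f 1 * u n + ∑ j ∈ range n, f (j + 2) * u (n - (j + 1)) := by
      rw [h.ren n, Finset.sum_range_succ']
      simp only [zero_add, Nat.sub_zero]
      rw [add_comm]
    have hfs : ∑ j ∈ range n, f (j + 2) ≤ 1 - f 1 := by
      have := sum_le_hasSum (range (n + 2)) (fun k _ => h.f_nonneg k) hs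
      rw [Finset.sum_range_succ', Finset.sum_range_succ', h.f_zero] at this
      simp only [add_zero, zero_add] at this
      linarith
    have hfK : 1 - f 1 - δ ≤ ∑ j ∈ range (K - 1), f (j + 2) := by
      rcases Nat.eq_zero_or_pos K with h0 | h0
      · subst h0
        rw [h.tl_zero] at hK
        simp only [Nat.zero_sub, Finset.range_zero, Finset.sum_empty]
        linarith
      · have h3 : tl f K = 1 - f 1 - ∑ j ∈ range (K - 1), f (j + 2) := by
          unfold tl
          obtain ⟨m, rfl⟩ : ∃ m, K = m + 1 := ⟨K - 1, by omega⟩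
          rw [Finset.sum_range_succ', Finset.sum_range_succ', h.f_zero]
          simp only [add_zero, zero_add, Nat.add_sub_cancel]
          ring
        linarith
    constructor
    · intro hu
      rw [hsplit]
      have h4 : ∑ j ∈ range n, f (j + 2) * u (n - (j + 1)) ≤
          ∑ j ∈ range n, (f (j + 2) * lam + (if j < K - 1 then 0 else f (j + 2))) := by
        apply Finset.sum_le_sum
        intro j hj
        rw [Finset.mem_range] at hj
        by_cases hjK : j < K - 1
        · rw [if_pos hjK, add_zero]
          exact mul_le_mul_of_nonneg_left (hu _ (by omega) (by omega)) (h.f_nonneg _)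
        · rw [if_neg hjK]
          have := mul_le_mul_of_nonneg_left (h.u_le (n - (j + 1))) (h.f_nonneg (j + 2))
          have h5 := mul_nonneg (h.f_nonneg (j + 2)) hlam
          linarith
      rw [Finset.sum_add_distrib, ← Finset.sum_mul] at h4
      have h5 : ∑ j ∈ range n, (if j < K - 1 then 0 else f (j + 2)) ≤ δ := by
        have h6 : ∑ j ∈ range n, f (j + 2) = ∑ j ∈ range n, (if j < K - 1 then f (j + 2) else 0) +
            ∑ j ∈ range n, (if j < K - 1 then 0 else f (j + 2)) := by
          rw [← Finset.sum_add_distrib]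
          refine Finset.sum_congr rfl fun j _ => ?_
          split_ifs <;> ring
        have h7 : ∑ j ∈ range (K - 1), f (j + 2) ≤
            ∑ j ∈ range n, (if j < K - 1 then f (j + 2) else 0) := by
          rw [← Finset.sum_filter]
          apply Finset.sum_le_sum_of_subset_of_nonneg
          · intro j hj
            simp only [Finset.mem_filter, Finset.mem_range] at *
            omega
          · intro j _ _; exact h.f_nonneg _
        linarith
      nlinarith
    · intro hu hlam1
      rw [hsplit]
      have h4 : ∑ j ∈ range (K - 1), f (j + 2) * lam ≤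
          ∑ j ∈ range n, f (j + 2) * u (n - (j + 1)) := by
        calc ∑ j ∈ range (K - 1), f (j + 2) * lam
            ≤ ∑ j ∈ range (K - 1), f (j + 2) * u (n - (j + 1)) := by
              apply Finset.sum_le_sum
              intro j hj
              rw [Finset.mem_range] at hj
              exact mul_le_mul_of_nonneg_left (hu _ (by omega) (by omega)) (h.f_nonneg _)
          _ ≤ _ := by
              apply Finset.sum_le_sum_of_subset_of_nonneg
              · intro j hj
                rw [Finset.mem_range] at *
                omega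
              · intro j _ _; exact mul_nonneg (h.f_nonneg _) (h.u_nonneg _)
      rw [← Finset.sum_mul] at h4
      nlinarith
  -- limsup
  have hsup : limsup u atTop ≤ 1 / μ := by
    set lam := limsup u atTop with hlam
    have hlam0 : 0 ≤ lam := by
      apply le_limsup_of_frequently_le _ hbu
      exact (Eventually.of_forall fun n => h.u_nonneg n).frequently
    have hJ : ∀ J : ℕ, ∀ ε > 0, ∃ᶠ N in atTop, J ≤ N ∧ ∀ j ≤ J, lam - ε ≤ u (N - j) := by
      intro J
      induction J with
      | zero =>
        intro ε hε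
        have h2 : ∃ᶠ n in atTop, lam - ε < u n :=
          frequently_lt_of_lt_limsup hbl.isCoboundedUnder_le (by linarith)
        refine h2.mono fun n hn => ⟨Nat.zero_le _, fun j hj => ?_⟩
        rw [Nat.le_zero.1 hj]; exact hn.le
      | succ J ih =>
        intro ε hε
        set δ := ε * f 1 / 4 with hδ
        have hδ0 : 0 < δ := by positivity
        have hδε : δ ≤ ε := by rw [hδ]; nlinarith
        obtain ⟨K, hK⟩ := hstep δ hδ0
        have h2 : ∀ᶠ n in atTop, u n < lam + δ :=
          eventually_lt_of_limsup_lt (by linarith) hbu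
        obtain ⟨M, hM⟩ := eventually_atTop.1 h2
        refine ((ih δ hδ0).and_eventually (eventually_ge_atTop (M + K + J + 1))).mono ?_
        rintro N ⟨⟨hN1, hN2⟩, hN3⟩
        refine ⟨by omega, fun j hj => ?_⟩
        rcases Nat.lt_or_ge j (J + 1) with hj1 | hj1
        · exact le_trans (by linarith) (hN2 j (by omega))
        · have hj2 : j = J + 1 := by omega
          subst hj2
          have h3 := hN2 J le_rfl
          have h4 := (hK (N - (J + 1)) (lam + δ) (by linarith) (by omega)).1
            (fun k hk1 hk2 => (hM k (by omega)).le)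
          rw [show N - (J + 1) + 1 = N - J by omega] at h4
          have h5 : f 1 * (lam - ε) ≤ f 1 * u (N - (J + 1)) := by
            have : (1 - f 1) * δ ≤ δ := by nlinarith
            have : f 1 * ε = 4 * δ := by rw [hδ]; ring
            nlinarith
          exact le_of_mul_le_mul_left h5 h1
    -- conclusion
    have hfin : ∀ J : ℕ, ∀ ε > 0, (lam - ε) * ∑ j ∈ range (J + 1), tl f j ≤ 1 := by
      intro J ε hε
      obtain ⟨N, hN1, hN2⟩ := (hJ J ε hε).exists
      rw [← h.D_eq N, mul_comm, Finset.sum_mul]
      calc ∑ j ∈ range (J + 1), tl f j * (lam - ε)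
          ≤ ∑ j ∈ range (J + 1), tl f j * u (N - j) := by
            apply Finset.sum_le_sum
            intro j hj
            rw [Finset.mem_range] at hj
            exact mul_le_mul_of_nonneg_left (hN2 j (by omega)) (htl j)
        _ ≤ _ := by
            apply Finset.sum_le_sum_of_subset_of_nonneg
            · intro j hj; rw [Finset.mem_range] at *; omega
            · intro j _ _; exact mul_nonneg (htl j) (h.u_nonneg _)
    have hfin2 : ∀ ε > 0, (lam - ε) * μ ≤ 1 := by
      intro ε hε
      have h2 : Tendsto (fun J => (lam - ε) * ∑ j ∈ range (J + 1), tl f j) atTop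
          (𝓝 ((lam - ε) * μ)) :=
        ((tendsto_add_atTop_iff_nat 1).2 ht.hasSum.tendsto_sum_nat).const_mul _
      exact le_of_tendsto' h2 fun J => hfin J ε hε
    rw [le_div_iff₀ (by linarith)]
    apply le_of_forall_pos_le_add
    intro ε hε
    have h3 := hfin2 (ε / μ) (by positivity)
    have h4 : ε / μ * μ = ε := by field_simp
    nlinarith
  have hinf : 1 / μ ≤ liminf u atTop := by
    set lam := liminf u atTop with hlam
    have hlam1 : lam ≤ 1 := by
      apply liminf_le_of_frequently_le _ hbl
      exact (Eventually.of_forall fun n => h.u_le n).frequently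
    have hlam0 : 0 ≤ lam := by
      apply le_liminf_of_le hbu.isCoboundedUnder_ge
      exact Eventually.of_forall fun n => h.u_nonneg n
    have hJ : ∀ J : ℕ, ∀ ε > 0, ∃ᶠ N in atTop, J ≤ N ∧ ∀ j ≤ J, u (N - j) ≤ lam + ε := by
      intro J
      induction J with
      | zero =>
        intro ε hε
        have h2 : ∃ᶠ n in atTop, u n < lam + ε :=
          frequently_lt_of_liminf_lt hbu.isCoboundedUnder_ge (by linarith)
        refine h2.mono fun n hn => ⟨Nat.zero_le _, fun j hj => ?_⟩
        rw [Nat.le_zero.1 hj]; exact hn.le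
      | succ J ih =>
        intro ε hε
        set δ := ε * f 1 / 4 with hδ
        have hδ0 : 0 < δ := by positivity
        have hδε : δ ≤ ε := by rw [hδ]; nlinarith
        obtain ⟨K, hK⟩ := hstep δ hδ0
        have h2 : ∀ᶠ n in atTop, lam - δ < u n :=
          eventually_lt_of_lt_liminf (by linarith) hbl
        obtain ⟨M, hM⟩ := eventually_atTop.1 h2
        refine ((ih δ hδ0).and_eventually (eventually_ge_atTop (M + K + J + 1))).mono ?_
        rintro N ⟨⟨hN1, hN2⟩, hN3⟩
        refine ⟨by omega, fun j hj => ?_⟩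
        rcases Nat.lt_or_ge j (J + 1) with hj1 | hj1
        · exact le_trans (hN2 j (by omega)) (by linarith)
        · have hj2 : j = J + 1 := by omega
          subst hj2
          have h3 := hN2 J le_rfl
          have h4 := (hK (N - (J + 1)) (max 0 (lam - δ)) (le_max_left _ _) (by omega)).2
            (fun k hk1 hk2 => max_le (h.u_nonneg k) (hM k (by omega)).le)
            (max_le (by norm_num) (by linarith))
          rw [show N - (J + 1) + 1 = N - J by omega] at h4
          have h6 : lam - δ ≤ max 0 (lam - δ) := le_max_right _ _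
          have h5 : f 1 * u (N - (J + 1)) ≤ f 1 * (lam + ε) := by
            have : (1 - f 1) * δ ≤ δ := by nlinarith
            have : (1 - f 1) * (lam - δ) ≤ (1 - f 1) * max 0 (lam - δ) :=
              mul_le_mul_of_nonneg_left h6 (by linarith)
            have : f 1 * ε = 4 * δ := by rw [hδ]; ring
            nlinarith
          exact le_of_mul_le_mul_left h5 h1
    have hfin : ∀ J : ℕ, ∀ ε > 0, 1 ≤ (lam + ε) * μ + ∑' k, tl f (k + (J + 1)) := by
      intro J ε hε
      obtain ⟨N, hN1, hN2⟩ := (hJ J ε hε).exists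
      rw [← h.D_eq N]
      have h3 : ∑ j ∈ range (N + 1), tl f j * u (N - j) ≤
          ∑ j ∈ range (N + 1), (tl f j * (lam + ε) + if j < J + 1 then 0 else tl f j) := by
        apply Finset.sum_le_sum
        intro j hj
        by_cases hjJ : j < J + 1
        · rw [if_pos hjJ, add_zero]
          exact mul_le_mul_of_nonneg_left (hN2 j (by omega)) (htl j)
        · rw [if_neg hjJ]
          have h4 := mul_le_mul_of_nonneg_left (h.u_le (N - j)) (htl j)
          have h5 := mul_nonneg (htl j) (show 0 ≤ lam + ε by linarith)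
          linarith
      rw [Finset.sum_add_distrib, ← Finset.sum_mul] at h3
      have h4 : ∑ j ∈ range (N + 1), tl f j ≤ μ := ht.sum_le_tsum _ (fun j _ => htl j)
      have h5 : ∑ j ∈ range (N + 1), (if j < J + 1 then 0 else tl f j) ≤
          ∑' k, tl f (k + (J + 1)) := by
        have hsum : Summable (fun j => if j < J + 1 then 0 else tl f j) := by
          refine Summable.of_nonneg_of_le (fun j => ?_) (fun j => ?_) ht
          · split_ifs; exacts [le_rfl, htl j]
          · split_ifs; exacts [htl j, le_rfl]
        have h5 := hsum.sum_le_tsum (range (N + 1))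
          (fun j _ => by split_ifs; exacts [le_rfl, htl j])
        refine h5.trans (le_of_eq ?_)
        rw [← hsum.sum_add_tsum_nat_add (J + 1)]
        have h6 : ∑ i ∈ range (J + 1), (if i < J + 1 then 0 else tl f i) = 0 := by
          apply Finset.sum_eq_zero
          intro i hi
          rw [Finset.mem_range] at hi
          rw [if_pos hi]
        rw [h6, zero_add]
        refine tsum_congr fun k => ?_
        rw [if_neg (by omega)]
      have h6 : (∑ j ∈ range (N + 1), tl f j) * (lam + ε) ≤ μ * (lam + ε) :=
        mul_le_mul_of_nonneg_right h4 (by linarith)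
      nlinarith
    have hfin2 : ∀ ε > 0, 1 ≤ (lam + ε) * μ := by
      intro ε hε
      have h2 : Tendsto (fun J => (lam + ε) * μ + ∑' k, tl f (k + (J + 1))) atTop
          (𝓝 ((lam + ε) * μ + 0)) :=
        ((tendsto_add_atTop_iff_nat 1).2 (tendsto_sum_nat_add (tl f))).const_add _
      rw [add_zero] at h2
      exact ge_of_tendsto' h2 fun J => hfin J ε hε
    rw [div_le_iff₀ (by linarith)]
    apply le_of_forall_pos_le_add
    intro ε hε
    have h3 := hfin2 (ε / μ) (by positivity)
    have h4 : ε / μ * μ = ε := by field_simp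
    nlinarith
  exact tendsto_of_le_liminf_of_limsup_le hinf hsup hbu hbl

end Ren

end Pool.Agent.Helper98.Elastic
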