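import Mathlib
import Pool.Agent.Helper98.Elastic.Link
import Pool.Agent.Helper98.Elastic.Lower3

/-!
# Sanity checks: the limits are over infinitely many `n`, and the probabilities are positive
-/

open Finset Filter Topology
open scoped ENNReal

namespace Pool.Agent.Helper98.Elastic

/-- there are infinitely many `n` with `⌈θ n⌉ ≡ n (mod 2)` -/
lemma frequently_parity {θ : ℝ} (h0 : 0 ≤ θ) (h1 : θ ≤ 1) :
    ∃ᶠ n : ℕ in atTop, (⌈θ * n⌉ - (n : ℤ)) % 2 = 0 := by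
  rw [frequently_atTop]
  intro a
  rcases h1.eq_or_lt with rfl | h2
  · exact ⟨a, le_rfl, by rw [one_mul, Int.ceil_natCast]; omega⟩
  by_contra hcon
  push Not at hcon
  have key : ∀ k : ℕ, ⌈θ * ((a + k : ℕ) : ℝ)⌉ - ((a + k : ℕ) : ℤ) = ⌈θ * (a : ℝ)⌉ - (a : ℤ) := by
    intro k
    induction k with
    | zero => simp
    | succ k ih =>
      rw [← ih]
      have h3 := hcon (a + k) (by omega)
      have h4 := hcon (a + (k + 1)) (by omega)
      have h5 : ⌈θ * ((a + k : ℕ) : ℝ)⌉ ≤ ⌈θ * ((a + (k + 1) : ℕ) : ℝ)⌉ := by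
        apply Int.ceil_le_ceil
        push_cast
        linarith
      have h6 : ⌈θ * ((a + (k + 1) : ℕ) : ℝ)⌉ ≤ ⌈θ * ((a + k : ℕ) : ℝ)⌉ + 1 := by
        rw [← Int.ceil_add_one]
        apply Int.ceil_le_ceil
        push_cast
        linarith
      have h7 : (((a + (k + 1) : ℕ) : ℤ)) = ((a + k : ℕ) : ℤ) + 1 := by push_cast; ring
      rw [h7] at h4 ⊢
      omega
  obtain ⟨k, hk⟩ := exists_nat_gt (2 / (1 - θ))
  have h3 : 2 < k * (1 - θ) := by rwa [div_lt_iff₀ (by linarith)] at hk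
  have h4 := key k
  have h5 := Int.ceil_lt_add_one (θ * ((a + k : ℕ) : ℝ))
  have h6 := Int.le_ceil (θ * (a : ℝ))
  have h7 : ((⌈θ * ((a + k : ℕ) : ℝ)⌉ : ℤ) : ℝ) - ((a + k : ℕ) : ℝ) = (⌈θ * (a : ℝ)⌉ : ℝ) - a := by
    exact_mod_cast h4
  push_cast at h5 h7
  linarith

lemma parity_neBot {θ : ℝ} (h0 : 0 ≤ θ) (h1 : θ ≤ 1) :
    (atTop ⊓ 𝓟 {n : ℕ | (⌈θ * n⌉ - (n : ℤ)) % 2 = 0}).NeBot := by
  rw [← frequently_mem_iff_neBot]
  exact frequently_parity h0 h1

/-- every point of the right parity is reached with positive probability -/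
lemma prob_pos (p : Par) {n : ℕ} {x : ℤ} (hx : |x| ≤ n) (hpar : (x - n) % 2 = 0) :
    0 < prob p.β p.κ n {w | w (Fin.last n) = x} := by
  rw [prob_eq_mass p n (fun y => y = x)]
  have h1 : 1 ≤ (mass p (fun l => l.length = n)).toReal := by
    rw [← ENNReal.toReal_one]
    exact ENNReal.toReal_mono (ne_top_of_le_ne_top (Czz_ne_top p) (mass_length_le_Czz p n))
      (one_le_Z p n)
  apply div_pos _ (by linarith)
  obtain ⟨h2, h3⟩ := abs_le.1 hx
  obtain ⟨a, b, h4, h5⟩ : ∃ a b : ℕ, a + b = n ∧ (a : ℤ) - b = x :=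
    ⟨((n + x) / 2).toNat, ((n - x) / 2).toNat, by omega, by omega⟩
  apply ENNReal.toReal_pos _ (mass_ne_top p n _)
  apply ne_of_gt
  refine lt_of_lt_of_le (W_pos p (str a ++ neg (str b))) (W_le_mass p ⟨?_, ?_⟩)
  · rw [List.length_append, length_neg, length_str, length_str, h4]
  · rw [ed_append, ed_neg, ed_str, ed_str]; omega

end Pool.Agent.Helper98.Elastic
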