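import Pool.Agent.Helper98.Elastic.PartI
import Pool.Agent.Helper98.Elastic.Renewal

/-!
# Sums over words in a weighted alphabet
-/

open Finset Filter Topology
open scoped ENNReal

namespace Pool.Agent.Helper98.Elastic

section

variable {A : Type*}

lemma tsum_list_cons (F : List A → ℝ≥0∞) :
    ∑' L, F L = F [] + ∑' a, ∑' L, F (a :: L) := by
  classical
  rw [ENNReal.tsum_eq_add_tsum_ite ([] : List A)]
  congr 1
  rw [← ENNReal.tsum_prod (f := fun a L => F (a :: L))]
  apply le_antisymm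
  · apply tsum_le_of_cover _ _ (fun x : A × List A => x.1 :: x.2)
    intro L hL
    cases L with
    | nil => simp at hL
    | cons a L => exact ⟨(a, L), rfl, by simp⟩
  · apply tsum_le_of_inj _ _ (fun x : A × List A => x.1 :: x.2)
    · rintro ⟨a, L⟩ ⟨b, M⟩ _ _ h
      simp only [List.cons.injEq] at h
      rw [h.1, h.2]
    · intro x _; simp

/-- weight of a word -/
noncomputable def wl (w : A → ℝ≥0∞) (L : List A) : ℝ≥0∞ := (L.map w).prod

/-- size of a word -/
def sl {M : Type*} [AddMonoid M] (s : A → M) (L : List A) : M := (L.map s).sum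

@[simp] lemma wl_nil (w : A → ℝ≥0∞) : wl w [] = 1 := by simp [wl]
@[simp] lemma wl_cons (w : A → ℝ≥0∞) (a : A) (L : List A) : wl w (a :: L) = w a * wl w L := by
  simp [wl]
lemma wl_append (w : A → ℝ≥0∞) (L L' : List A) : wl w (L ++ L') = wl w L * wl w L' := by
  simp [wl]
@[simp] lemma sl_nil {M : Type*} [AddMonoid M] (s : A → M) : sl s [] = 0 := by simp [sl]
@[simp] lemma sl_cons {M : Type*} [AddMonoid M] (s : A → M) (a : A) (L : List A) :
    sl s (a :: L) = s a + sl s L := by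
  simp [sl]
lemma sl_append {M : Type*} [AddMonoid M] (s : A → M) (L L' : List A) :
    sl s (L ++ L') = sl s L + sl s L' := by
  simp [sl]

/-- mass of words of size `n` -/
noncomputable def Uw (w : A → ℝ≥0∞) (s : A → ℕ) (n : ℕ) : ℝ≥0∞ :=
  ∑' L : List A, if sl s L = n then wl w L else 0

/-- mass of letters of size `n` -/
noncomputable def fw (w : A → ℝ≥0∞) (s : A → ℕ) (n : ℕ) : ℝ≥0∞ :=
  ∑' a : A, if s a = n then w a else 0

lemma tsum_fiber {B : Type*} (F : A → ℝ≥0∞) (s : A → B) [DecidableEq B] :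
    ∑' b, ∑' a, (if s a = b then F a else 0) = ∑' a, F a := by
  rw [ENNReal.tsum_comm]
  refine tsum_congr fun a => ?_
  rw [tsum_eq_single (s a)]
  · simp
  · intro b hb; rw [if_neg (fun h => hb h.symm)]

lemma tsum_fw (w : A → ℝ≥0∞) (s : A → ℕ) : ∑' n, fw w s n = ∑' a, w a := tsum_fiber w s

lemma fw_zero {w : A → ℝ≥0∞} {s : A → ℕ} (hs : ∀ a, 0 < s a) : fw w s 0 = 0 := by
  unfold fw
  rw [ENNReal.tsum_eq_zero]
  intro a
  rw [if_neg (hs a).ne']

lemma Uw_zero {w : A → ℝ≥0∞} {s : A → ℕ} (hs : ∀ a, 0 < s a) : Uw w s 0 = 1 := by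
  unfold Uw
  rw [tsum_list_cons]
  simp only [sl_nil, if_true, wl_nil]
  have : ∑' a : A, ∑' L : List A, (if sl s (a :: L) = 0 then wl w (a :: L) else 0) = 0 := by
    rw [ENNReal.tsum_eq_zero]
    intro a
    rw [ENNReal.tsum_eq_zero]
    intro L
    rw [if_neg]
    have := hs a
    simp only [sl_cons]
    omega
  rw [this, add_zero]

lemma Uw_succ (w : A → ℝ≥0∞) (s : A → ℕ) (n : ℕ) :
    Uw w s (n + 1) = ∑ x ∈ antidiagonal (n + 1), fw w s x.1 * Uw w s x.2 := by
  have h0 : Uw w s (n + 1) = ∑' L : List A, if sl s L = n + 1 then wl w L else 0 := rfl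
  rw [h0, tsum_list_cons]
  simp only [sl_nil, sl_cons, wl_cons]
  rw [if_neg (by omega), zero_add]
  rw [← ENNReal.tsum_prod (f := fun a L => if s a + sl s L = n + 1 then w a * wl w L else 0)]
  rw [tsum_prod_antidiagonal s (sl s) (n + 1) (fun a L => w a * wl w L)]
  refine Finset.sum_congr rfl fun x _ => ?_
  unfold fw Uw
  rw [← tsum_tsum_mul]
  refine tsum_congr fun a => tsum_congr fun L => ?_
  by_cases h1 : s a = x.1 <;> by_cases h2 : sl s L = x.2 <;> simp [h1, h2]

lemma fw_le_Uw (w : A → ℝ≥0∞) {s : A → ℕ} (hs : ∀ a, 0 < s a) (n : ℕ) (hn : n ≠ 0) :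
    fw w s n ≤ Uw w s n := by
  obtain ⟨m, rfl⟩ : ∃ m, n = m + 1 := ⟨n - 1, by omega⟩
  rw [Uw_succ]
  calc fw w s (m + 1) = fw w s (m + 1) * Uw w s 0 := by rw [Uw_zero hs, mul_one]
    _ ≤ _ := Finset.single_le_sum (f := fun x : ℕ × ℕ => fw w s x.1 * Uw w s x.2)
        (fun _ _ => zero_le) (a := (m + 1, 0)) (by simp)

/-- the real sequences form a renewal pair -/
lemma ren_words {w : A → ℝ≥0∞} {s : A → ℕ} (hs : ∀ a, 0 < s a) (hU : ∀ n, Uw w s n ≤ 1) :
    Ren (fun n => (fw w s n).toReal) (fun n => (Uw w s n).toReal) := by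
  have hUt : ∀ n, Uw w s n ≠ ∞ := fun n => ne_top_of_le_ne_top ENNReal.one_ne_top (hU n)
  have hft : ∀ n, fw w s n ≠ ∞ := by
    intro n
    rcases Nat.eq_zero_or_pos n with rfl | hn
    · rw [fw_zero hs]; simp
    · exact ne_top_of_le_ne_top (hUt n) (fw_le_Uw w hs n (by omega))
  refine ⟨fun n => ENNReal.toReal_nonneg, by rw [fw_zero hs]; simp, by rw [Uw_zero hs]; simp,
    fun n => ENNReal.toReal_nonneg, fun n => ?_, fun n => ?_⟩
  · have := ENNReal.toReal_mono ENNReal.one_ne_top (hU n)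
    simpa using this
  · rw [Uw_succ, ENNReal.toReal_sum (fun x _ => ENNReal.mul_ne_top (hft _) (hUt _)),
      Finset.Nat.sum_antidiagonal_eq_sum_range_succ_mk, Finset.sum_range_succ']
    simp only [fw_zero hs, zero_mul, ENNReal.toReal_zero, add_zero, ENNReal.toReal_mul]
    refine Finset.sum_congr rfl fun j hj => ?_
    congr 3; omega

lemma fw_ne_top {w : A → ℝ≥0∞} {s : A → ℕ} (hs : ∀ a, 0 < s a) (hU : ∀ n, Uw w s n ≤ 1) (n : ℕ) :
    fw w s n ≠ ∞ := by
  rcases Nat.eq_zero_or_pos n with rfl | hn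
  · rw [fw_zero hs]; simp
  · exact ne_top_of_le_ne_top ENNReal.one_ne_top ((fw_le_Uw w hs n (by omega)).trans (hU n))

/-- if the mass of words is bounded below then the letters form a probability distribution -/
lemma tsum_w_eq_one {w : A → ℝ≥0∞} {s : A → ℕ} (hs : ∀ a, 0 < s a) (hU : ∀ n, Uw w s n ≤ 1)
    {c : ℝ≥0∞} (hc : 0 < c) (hcU : ∀ n, c ≤ Uw w s n) : ∑' a, w a = 1 := by
  have hR := ren_words hs hU
  have hct : c ≠ ∞ := ne_top_of_le_ne_top ENNReal.one_ne_top ((hcU 0).trans (hU 0))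
  have hc' : 0 < c.toReal := ENNReal.toReal_pos hc.ne' hct
  have hcu : ∀ n, c.toReal ≤ (Uw w s n).toReal := fun n =>
    ENNReal.toReal_mono (ne_top_of_le_ne_top ENNReal.one_ne_top (hU n)) (hcU n)
  have h1 := hR.hasSum_f_of_summable_tl (hR.summable_tl hc' hcu)
  rw [← tsum_fw w s]
  have h2 : ∀ n, fw w s n = ENNReal.ofReal ((fw w s n).toReal) := fun n =>
    (ENNReal.ofReal_toReal (fw_ne_top hs hU n)).symm
  rw [tsum_congr h2, ← ENNReal.ofReal_tsum_of_nonneg (fun n => ENNReal.toReal_nonneg) h1.summable,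
    h1.tsum_eq, ENNReal.ofReal_one]

/-- the mean size of a letter is finite, in terms of the tail sums -/
lemma tsum_mul_eq_tl {w : A → ℝ≥0∞} {s : A → ℕ} (hs : ∀ a, 0 < s a) (hU : ∀ n, Uw w s n ≤ 1)
    (h1 : ∑' a, w a = 1) (ht : Summable (tl fun n => (fw w s n).toReal)) :
    ∑' a, w a * (s a : ℝ≥0∞) = ENNReal.ofReal (∑' j, tl (fun n => (fw w s n).toReal) j) := by
  have hfs : HasSum (fun n => (fw w s n).toReal) 1 := by
    have h2 : ∑' n, fw w s n = 1 := by rw [tsum_fw, h1]
    have h3 : Summable fun n => (fw w s n).toReal :=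
      ENNReal.summable_toReal (by rw [h2]; simp)
    have h4 : ∑' n, (fw w s n).toReal = 1 := by
      rw [← ENNReal.tsum_toReal_eq (fw_ne_top hs hU), h2]; simp
    rw [← h4]; exact h3.hasSum
  have htl := Ren.tl_nonneg_of_hasSum (f := fun n => (fw w s n).toReal)
    (fun n => ENNReal.toReal_nonneg) hfs
  have h5 : ∀ j, ENNReal.ofReal (tl (fun n => (fw w s n).toReal) j) =
      ∑' a, if j < s a then w a else 0 := by
    intro j
    have h6 : tl (fun n => (fw w s n).toReal) j =
        ∑' k, (fw w s (k + (j + 1))).toReal := by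
      unfold tl
      rw [← hfs.tsum_eq, ← hfs.summable.sum_add_tsum_nat_add (j + 1)]; ring
    rw [h6]
    have h7 : Summable fun k => (fw w s (k + (j + 1))).toReal :=
      (summable_nat_add_iff (f := fun n => (fw w s n).toReal) (j + 1)).2 hfs.summable
    rw [ENNReal.ofReal_tsum_of_nonneg (f := fun k => (fw w s (k + (j + 1))).toReal)
      (fun k => ENNReal.toReal_nonneg) h7]
    have h8 : ∀ k, ENNReal.ofReal (fw w s (k + (j + 1))).toReal = fw w s (k + (j + 1)) :=
      fun k => ENNReal.ofReal_toReal (fw_ne_top hs hU _)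
    rw [tsum_congr h8]
    unfold fw
    rw [ENNReal.tsum_comm]
    refine tsum_congr fun a => ?_
    by_cases h9 : j < s a
    · rw [if_pos h9, tsum_eq_single (s a - (j + 1))]
      · rw [if_pos (by omega)]
      · intro k hk; rw [if_neg (by omega)]
    · rw [if_neg h9, ENNReal.tsum_eq_zero]
      intro k; rw [if_neg (by omega)]
  rw [ENNReal.ofReal_tsum_of_nonneg htl ht, tsum_congr h5, ENNReal.tsum_comm]
  refine tsum_congr fun a => ?_
  have h9 : ∑' j, (if j < s a then w a else 0) = ∑ j ∈ range (s a), (if j < s a then w a else 0) := by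
    apply tsum_eq_sum
    intro j hj
    rw [Finset.mem_range] at hj
    rw [if_neg hj]
  have h10 : ∑ j ∈ range (s a), (if j < s a then w a else 0) = ∑ j ∈ range (s a), w a := by
    apply Finset.sum_congr rfl
    intro j hj
    rw [Finset.mem_range] at hj
    rw [if_pos hj]
  rw [h9, h10, Finset.sum_const, Finset.card_range, nsmul_eq_mul, mul_comm]

/-- sum over marked letters of a word -/
noncomputable def Mk (G : List A → A → List A → ℝ≥0∞) (L : List A) : ℝ≥0∞ := by
  classical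
  exact ∑' x : List A × A × List A, if x.1 ++ x.2.1 :: x.2.2 = L then G x.1 x.2.1 x.2.2 else 0

lemma Mk_nil (G : List A → A → List A → ℝ≥0∞) : Mk G [] = 0 := by
  unfold Mk
  rw [ENNReal.tsum_eq_zero]
  intro x; rw [if_neg (by simp)]

lemma Mk_cons (G : List A → A → List A → ℝ≥0∞) (a : A) (L : List A) :
    Mk G (a :: L) = G [] a L + Mk (fun B b C => G (a :: B) b C) L := by
  classical
  unfold Mk
  have h1 : ∀ g : List A × A × List A → ℝ≥0∞, ∑' x, g x =
      (∑' y : A × List A, g ([], y)) + ∑' b, ∑' B, ∑' y : A × List A, g (b :: B, y) := by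
    intro g
    rw [ENNReal.tsum_prod', tsum_list_cons]
  rw [h1]
  congr 1
  · rw [tsum_eq_single (a, L)]
    · simp
    · intro y hy
      rw [if_neg]
      simp only [List.nil_append, List.cons.injEq]
      rintro ⟨h2, h3⟩
      exact hy (Prod.ext h2 h3)
  · rw [tsum_eq_single a]
    · rw [ENNReal.tsum_prod']
      refine tsum_congr fun B => tsum_congr fun y => ?_
      simp only [List.cons_append, List.cons.injEq, true_and]
    · intro b hb
      rw [ENNReal.tsum_eq_zero]
      intro B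
      rw [ENNReal.tsum_eq_zero]
      intro y
      rw [if_neg]
      simp only [List.cons_append, List.cons.injEq]
      rintro ⟨h2, _⟩
      exact hb h2

lemma tsum_Mk (G : List A → A → List A → ℝ≥0∞) :
    ∑' L, Mk G L = ∑' B, ∑' b, ∑' C, G B b C := by
  classical
  unfold Mk
  rw [ENNReal.tsum_comm]
  have : ∀ x : List A × A × List A,
      ∑' L, (if x.1 ++ x.2.1 :: x.2.2 = L then G x.1 x.2.1 x.2.2 else 0) = G x.1 x.2.1 x.2.2 := by
    intro x
    rw [tsum_eq_single (x.1 ++ x.2.1 :: x.2.2)]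
    · simp
    · intro L hL; rw [if_neg (fun h => hL h.symm)]
  rw [tsum_congr this, ENNReal.tsum_prod']
  refine tsum_congr fun B => ?_
  rw [ENNReal.tsum_prod']

lemma Mk_weight (w : A → ℝ≥0∞) (g : List A → A → List A → ℝ≥0∞) (L : List A) :
    Mk (fun B b C => wl w B * (w b * wl w C) * g B b C) L = wl w L * Mk g L := by
  classical
  unfold Mk
  rw [← ENNReal.tsum_mul_left]
  refine tsum_congr fun x => ?_
  by_cases h : x.1 ++ x.2.1 :: x.2.2 = L
  · rw [if_pos h, if_pos h, ← h, wl_append, wl_cons]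
  · rw [if_neg h, if_neg h, mul_zero]

/-- Campbell formula -/
lemma campbell (w : A → ℝ≥0∞) (g : List A → A → List A → ℝ≥0∞) :
    ∑' L, wl w L * Mk g L = ∑' B, ∑' b, ∑' C, wl w B * (w b * wl w C) * g B b C := by
  rw [← tsum_Mk]
  exact tsum_congr fun L => (Mk_weight w g L).symm

lemma Mk_congr {g g' : List A → A → List A → ℝ≥0∞} (L : List A)
    (h : ∀ B b C, B ++ b :: C = L → g B b C = g' B b C) : Mk g L = Mk g' L := by
  classical
  unfold Mk
  refine tsum_congr fun x => ?_
  by_cases hx : x.1 ++ x.2.1 :: x.2.2 = L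
  · rw [if_pos hx, if_pos hx, h _ _ _ hx]
  · rw [if_neg hx, if_neg hx]

lemma Mk_mono {g g' : List A → A → List A → ℝ≥0∞} (L : List A)
    (h : ∀ B b C, B ++ b :: C = L → g B b C ≤ g' B b C) : Mk g L ≤ Mk g' L := by
  classical
  unfold Mk
  refine ENNReal.tsum_le_tsum fun x => ?_
  by_cases hx : x.1 ++ x.2.1 :: x.2.2 = L
  · rw [if_pos hx, if_pos hx]; exact h _ _ _ hx
  · rw [if_neg hx, if_neg hx]

lemma Mk_additive (t : A → ℝ≥0∞) (L : List A) : Mk (fun _ b _ => t b) L = sl t L := by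
  induction L with
  | nil => simp [Mk_nil]
  | cons a L ih => rw [Mk_cons, sl_cons, ih]

lemma Mk_const_mul (c : ℝ≥0∞) (g : List A → A → List A → ℝ≥0∞) (L : List A) :
    Mk (fun B b C => c * g B b C) L = c * Mk g L := by
  classical
  unfold Mk
  rw [← ENNReal.tsum_mul_left]
  refine tsum_congr fun x => ?_
  by_cases hx : x.1 ++ x.2.1 :: x.2.2 = L
  · rw [if_pos hx, if_pos hx]
  · rw [if_neg hx, if_neg hx, mul_zero]

end

end Pool.Agent.Helper98.Elastic
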