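import Mathlib
import Pool.Agent.Helper98.Elastic.Words

/-!
# More on sums over words: renewal theorem for words, Cesaro limits
-/

open Finset Filter Topology
open scoped ENNReal

namespace Pool.Agent.Helper98.Elastic

section

variable {A : Type*}

lemma Uw_le_one {w : A → ℝ≥0∞} {s : A → ℕ} (hs : ∀ a, 0 < s a) (hw : ∑' a, w a ≤ 1) (n : ℕ) :
    Uw w s n ≤ 1 := by
  induction n using Nat.strong_induction_on with
  | _ n ih =>
    rcases Nat.eq_zero_or_pos n with rfl | hn
    · rw [Uw_zero hs]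
    · obtain ⟨m, rfl⟩ : ∃ m, n = m + 1 := ⟨n - 1, by omega⟩
      rw [Uw_succ]
      calc ∑ x ∈ antidiagonal (m + 1), fw w s x.1 * Uw w s x.2
          ≤ ∑ x ∈ antidiagonal (m + 1), fw w s x.1 := by
            apply Finset.sum_le_sum
            intro x hx
            rw [Finset.HasAntidiagonal.mem_antidiagonal] at hx
            rcases Nat.eq_zero_or_pos x.1 with h0 | h0
            · rw [h0, fw_zero hs, zero_mul]
            · calc fw w s x.1 * Uw w s x.2 ≤ fw w s x.1 * 1 := by
                    gcongr; exact ih x.2 (by omega)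
                _ = _ := mul_one _
        _ = ∑ k ∈ range (m + 1 + 1), fw w s k :=
            Finset.Nat.sum_antidiagonal_eq_sum_range_succ_mk _ _
        _ ≤ ∑' k, fw w s k := ENNReal.sum_le_tsum _
        _ ≤ 1 := by rw [tsum_fw]; exact hw

variable {w : A → ℝ≥0∞} {s : A → ℕ}

lemma hasSum_fw (hs : ∀ a, 0 < s a) (hw : ∑' a, w a = 1) :
    HasSum (fun n => (fw w s n).toReal) 1 := by
  have hU : ∀ n, Uw w s n ≤ 1 := Uw_le_one hs hw.le
  have h2 : ∑' n, fw w s n = 1 := by rw [tsum_fw, hw]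
  have h3 : Summable fun n => (fw w s n).toReal :=
    ENNReal.summable_toReal (by rw [h2]; simp)
  have h4 : ∑' n, (fw w s n).toReal = 1 := by
    rw [← ENNReal.tsum_toReal_eq (fw_ne_top hs hU), h2]; simp
  rw [← h4]; exact h3.hasSum

lemma ofReal_tl (hs : ∀ a, 0 < s a) (hw : ∑' a, w a = 1) (j : ℕ) :
    ENNReal.ofReal (tl (fun n => (fw w s n).toReal) j) = ∑' a, if j < s a then w a else 0 := by
  have hU : ∀ n, Uw w s n ≤ 1 := Uw_le_one hs hw.le
  have hfs := hasSum_fw hs hw
  have h6 : tl (fun n => (fw w s n).toReal) j = ∑' k, (fw w s (k + (j + 1))).toReal := by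
    unfold tl
    rw [← hfs.tsum_eq, ← hfs.summable.sum_add_tsum_nat_add (j + 1)]; ring
  rw [h6]
  have h7 : Summable fun k => (fw w s (k + (j + 1))).toReal :=
    (summable_nat_add_iff (f := fun n => (fw w s n).toReal) (j + 1)).2 hfs.summable
  rw [ENNReal.ofReal_tsum_of_nonneg (f := fun k => (fw w s (k + (j + 1))).toReal)
    (fun k => ENNReal.toReal_nonneg) h7]
  have h8 : ∀ k, ENNReal.ofReal (fw w s (k + (j + 1))).toReal = fw w s (k + (j + 1)) :=
    fun k => ENNReal.ofReal_toReal (fw_ne_top hs hU _)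
  rw [tsum_congr h8]
  unfold fw
  rw [ENNReal.tsum_comm]
  refine tsum_congr fun a => ?_
  by_cases h9 : j < s a
  · rw [if_pos h9, tsum_eq_single (s a - (j + 1))]
    · rw [if_pos (by omega)]
    · intro k hk; rw [if_neg (by omega)]
  · rw [if_neg h9, ENNReal.tsum_eq_zero]
    intro k; rw [if_neg (by omega)]

lemma tsum_ofReal_tl (hs : ∀ a, 0 < s a) (hw : ∑' a, w a = 1) :
    ∑' j, ENNReal.ofReal (tl (fun n => (fw w s n).toReal) j) = ∑' a, w a * (s a : ℝ≥0∞) := by
  rw [tsum_congr (ofReal_tl hs hw), ENNReal.tsum_comm]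
  refine tsum_congr fun a => ?_
  have h9 : ∑' j, (if j < s a then w a else 0) = ∑ j ∈ range (s a), (if j < s a then w a else 0) := by
    apply tsum_eq_sum
    intro j hj
    rw [Finset.mem_range] at hj
    rw [if_neg hj]
  have h10 : ∑ j ∈ range (s a), (if j < s a then w a else 0) = ∑ j ∈ range (s a), w a := by
    apply Finset.sum_congr rfl
    intro j hj
    rw [Finset.mem_range] at hj
    rw [if_pos hj]
  rw [h9, h10, Finset.sum_const, Finset.card_range, nsmul_eq_mul, mul_comm]

lemma summable_tl_of_mean (hs : ∀ a, 0 < s a) (hw : ∑' a, w a = 1)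
    (hm : ∑' a, w a * (s a : ℝ≥0∞) ≠ ∞) : Summable (tl fun n => (fw w s n).toReal) := by
  have htl := Ren.tl_nonneg_of_hasSum (f := fun n => (fw w s n).toReal)
    (fun n => ENNReal.toReal_nonneg) (hasSum_fw hs hw)
  have h1 := tsum_ofReal_tl hs hw
  have h2 := ENNReal.summable_toReal (f := fun j => ENNReal.ofReal
    (tl (fun n => (fw w s n).toReal) j)) (by rw [h1]; exact hm)
  refine h2.congr fun j => ?_
  rw [ENNReal.toReal_ofReal (htl j)]

lemma tsum_tl_of_mean (hs : ∀ a, 0 < s a) (hw : ∑' a, w a = 1) :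
    ∑' j, tl (fun n => (fw w s n).toReal) j = (∑' a, w a * (s a : ℝ≥0∞)).toReal := by
  have htl := Ren.tl_nonneg_of_hasSum (f := fun n => (fw w s n).toReal)
    (fun n => ENNReal.toReal_nonneg) (hasSum_fw hs hw)
  rw [← tsum_ofReal_tl hs hw, ENNReal.tsum_toReal_eq (fun _ => ENNReal.ofReal_ne_top)]
  refine tsum_congr fun j => ?_
  rw [ENNReal.toReal_ofReal (htl j)]

/-- **renewal theorem for words** -/
lemma tendsto_Uw (hs : ∀ a, 0 < s a) (hw : ∑' a, w a = 1)
    (hm : ∑' a, w a * (s a : ℝ≥0∞) ≠ ∞) (h1 : fw w s 1 ≠ 0) :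
    Tendsto (fun n => (Uw w s n).toReal) atTop
      (𝓝 (1 / (∑' a, w a * (s a : ℝ≥0∞)).toReal)) := by
  have hU : ∀ n, Uw w s n ≤ 1 := Uw_le_one hs hw.le
  have := (ren_words hs hU).tendsto (hasSum_fw hs hw) (summable_tl_of_mean hs hw hm)
    (ENNReal.toReal_pos h1 (fw_ne_top hs hU 1))
  rwa [tsum_tl_of_mean hs hw] at this

/-- lower bound for the mass of words -/
lemma exists_Uw_lower (hs : ∀ a, 0 < s a) (hw : ∑' a, w a = 1)
    (hm : ∑' a, w a * (s a : ℝ≥0∞) ≠ ∞) (h1 : fw w s 1 ≠ 0) :
    ∃ c : ℝ, 0 < c ∧ ∀ n, ENNReal.ofReal c ≤ Uw w s n := by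
  have hU : ∀ n, Uw w s n ≤ 1 := Uw_le_one hs hw.le
  obtain ⟨c, hc, hcu⟩ := (ren_words hs hU).exists_lower (hasSum_fw hs hw)
    (summable_tl_of_mean hs hw hm) (ENNReal.toReal_pos h1 (fw_ne_top hs hU 1))
  refine ⟨c, hc, fun n => ?_⟩
  rw [ENNReal.ofReal_le_iff_le_toReal (ne_top_of_le_ne_top ENNReal.one_ne_top (hU n))]
  exact hcu n

/-- mass-weighted additive statistics by size -/
noncomputable def gw (w : A → ℝ≥0∞) (s : A → ℕ) (t : A → ℝ≥0∞) (n : ℕ) : ℝ≥0∞ :=
  ∑' a : A, if s a = n then w a * t a else 0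

lemma tsum_gw (t : A → ℝ≥0∞) : ∑' n, gw w s t n = ∑' a, w a * t a := tsum_fiber _ s

lemma tsum_triple_antidiagonal {B C : Type*} (s : A → ℕ) (t : B → ℕ) (u : C → ℕ) (n : ℕ)
    (F : A → ℝ≥0∞) (G : B → ℝ≥0∞) (H : C → ℝ≥0∞) :
    (∑' a, ∑' b, ∑' c, if s a + (t b + u c) = n then F a * (G b * H c) else 0) =
      ∑ x ∈ antidiagonal n, ∑ y ∈ antidiagonal x.2,
        (∑' a, if s a = x.1 then F a else 0) * ((∑' b, if t b = y.1 then G b else 0) *
          ∑' c, if u c = y.2 then H c else 0) := by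
  have h1 : (∑' a, ∑' b, ∑' c, if s a + (t b + u c) = n then F a * (G b * H c) else 0) =
      ∑' x : A × (B × C), if s x.1 + (t x.2.1 + u x.2.2) = n then
        F x.1 * (G x.2.1 * H x.2.2) else 0 := by
    rw [ENNReal.tsum_prod']
    refine tsum_congr fun a => ?_
    rw [ENNReal.tsum_prod']
  rw [h1, tsum_prod_antidiagonal s (fun y : B × C => t y.1 + u y.2) n
    (fun a y => F a * (G y.1 * H y.2))]
  refine Finset.sum_congr rfl fun x _ => ?_
  have h2 : ∀ a, (∑' y : B × C, if s a = x.1 ∧ t y.1 + u y.2 = x.2 then F a * (G y.1 * H y.2) else 0)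
      = (if s a = x.1 then F a else 0) * ∑' y : B × C, if t y.1 + u y.2 = x.2 then G y.1 * H y.2
        else 0 := by
    intro a
    rw [← ENNReal.tsum_mul_left]
    refine tsum_congr fun y => ?_
    by_cases h3 : s a = x.1 <;> by_cases h4 : t y.1 + u y.2 = x.2 <;> simp [h3, h4]
  simp_rw [h2]
  rw [ENNReal.tsum_mul_right]
  rw [tsum_prod_antidiagonal t u x.2 (fun b c => G b * H c), Finset.mul_sum]
  refine Finset.sum_congr rfl fun y _ => ?_
  congr 1
  rw [← tsum_tsum_mul]
  refine tsum_congr fun b => tsum_congr fun c => ?_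
  by_cases h3 : t b = y.1 <;> by_cases h4 : u c = y.2 <;> simp [h3, h4]

lemma campbell_size (w : A → ℝ≥0∞) (s : A → ℕ) (t : A → ℝ≥0∞) (f : ℕ → ℝ≥0∞) (n : ℕ) :
    (∑' L : List A, if sl s L = n then wl w L * Mk (fun B b _ => f (sl s B) * t b) L else 0) =
      ∑ x ∈ antidiagonal n, ∑ y ∈ antidiagonal x.2,
        f x.1 * Uw w s x.1 * (gw w s t y.1 * Uw w s y.2) := by
  have h1 : ∀ L : List A, (if sl s L = n then wl w L * Mk (fun B b _ => f (sl s B) * t b) L else 0) =
      wl w L * Mk (fun B b C => (if sl s B + (s b + sl s C) = n then f (sl s B) * t b else 0)) L := by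
    intro L
    by_cases h : sl s L = n
    · rw [if_pos h]
      congr 1
      apply Mk_congr
      intro B b C hL
      rw [← hL, sl_append, sl_cons] at h
      rw [if_pos h]
    · rw [if_neg h]
      have : Mk (fun B b C => (if sl s B + (s b + sl s C) = n then f (sl s B) * t b else 0)) L =
          Mk (fun _ _ _ => 0) L := by
        apply Mk_congr
        intro B b C hL
        rw [← hL, sl_append, sl_cons] at h
        rw [if_neg h]
      rw [this]
      unfold Mk
      simp
  simp_rw [h1]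
  rw [campbell]
  have h2 : ∀ (B : List A) (b : A) (C : List A), wl w B * (w b * wl w C) *
      (if sl s B + (s b + sl s C) = n then f (sl s B) * t b else 0) =
      if sl s B + (s b + sl s C) = n then (f (sl s B) * wl w B) * ((w b * t b) * wl w C) else 0 := by
    intro B b C
    by_cases h : sl s B + (s b + sl s C) = n
    · rw [if_pos h, if_pos h]; ring
    · rw [if_neg h, if_neg h, mul_zero]
  simp_rw [h2]
  rw [tsum_triple_antidiagonal (sl s) s (sl s) n (fun B => f (sl s B) * wl w B)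
    (fun b => w b * t b) (fun C => wl w C)]
  refine Finset.sum_congr rfl fun x _ => Finset.sum_congr rfl fun y _ => ?_
  congr 1
  unfold Uw
  rw [← ENNReal.tsum_mul_left]
  refine tsum_congr fun B => ?_
  by_cases h : sl s B = x.1
  · rw [if_pos h, if_pos h, h]
  · rw [if_neg h, if_neg h, mul_zero]

lemma campbell_additive (w : A → ℝ≥0∞) (s : A → ℕ) (t : A → ℝ≥0∞) (n : ℕ) :
    (∑' L : List A, if sl s L = n then wl w L * sl t L else 0) =
      ∑ x ∈ antidiagonal n, ∑ y ∈ antidiagonal x.2,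
        Uw w s x.1 * (gw w s t y.1 * Uw w s y.2) := by
  have h := campbell_size w s t (fun _ => 1) n
  simp only [one_mul] at h
  rw [← h]
  refine tsum_congr fun L => ?_
  rw [Mk_additive]

end

/-! ### Cesaro limits -/

/-- double Cesaro limits with weights -/
lemma wcesaro (G : ℕ → ℕ → ℝ) (k : ℕ → ℝ) (K g : ℝ) (hk : ∀ n, 0 ≤ k n)
    (hG : ∀ x y, |G x y| ≤ K) (hg : Tendsto (fun x : ℕ × ℕ => G x.1 x.2) atTop (𝓝 g))
    (S : ℕ → ℝ) (hS : Tendsto (fun n => (∑ i ∈ range (n + 1), k i) / S n) atTop (𝓝 1))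
    (hS0 : ∀ᶠ n in atTop, 0 < S n)
    (hSinf : Tendsto S atTop atTop)
    (hend : ∀ J : ℕ, Tendsto (fun n => (∑ i ∈ Ico (n + 1 - J) (n + 1), k i) / S n) atTop (𝓝 0)) :
    Tendsto (fun n => (∑ x ∈ antidiagonal n, k x.1 * G x.1 x.2) / S n) atTop (𝓝 g) := by
  have hK : 0 ≤ K := (abs_nonneg _).trans (hG 0 0)
  have hgK : |g| ≤ K := le_of_tendsto hg.abs (Eventually.of_forall fun x => hG _ _)
  have hmain : Tendsto (fun n => (∑ x ∈ antidiagonal n, k x.1 * (G x.1 x.2 - g)) / S n) atTop
      (𝓝 0) := by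
    rw [Metric.tendsto_atTop]
    intro ε hε
    have hg' : ∀ᶠ x : ℕ × ℕ in atTop, |G x.1 x.2 - g| < ε / 4 := by
      have := (Metric.tendsto_nhds.1 hg) (ε / 4) (by positivity)
      simpa [Real.dist_eq] using this
    rw [eventually_atTop] at hg'
    obtain ⟨⟨J1, J2⟩, hJ⟩ := hg'
    set J := max J1 J2 with hJdef
    have hJ' : ∀ x y, J ≤ x → J ≤ y → |G x y - g| < ε / 4 := fun x y hx hy =>
      hJ (x, y) ⟨le_trans (le_max_left _ _) hx, le_trans (le_max_right _ _) hy⟩
    have h1 : ∀ᶠ n in atTop, (∑ i ∈ range (n + 1), k i) / S n < 2 :=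
      hS.eventually (gt_mem_nhds (by norm_num))
    have h2 : ∀ᶠ n in atTop, 2 * K * ((∑ i ∈ range J, k i) / S n) < ε / 4 := by
      have : Tendsto (fun n => 2 * K * ((∑ i ∈ range J, k i) / S n)) atTop (𝓝 (2 * K * 0)) :=
        (tendsto_const_nhds.div_atTop hSinf).const_mul _
      rw [mul_zero] at this
      exact this.eventually (gt_mem_nhds (by positivity))
    have h3 : ∀ᶠ n in atTop, 2 * K * ((∑ i ∈ Ico (n + 1 - J) (n + 1), k i) / S n) < ε / 4 := by
      have := (hend J).const_mul (2 * K)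
      rw [mul_zero] at this
      exact this.eventually (gt_mem_nhds (by positivity))
    obtain ⟨N, hN⟩ := eventually_atTop.1 (h1.and (h2.and (h3.and hS0)))
    refine ⟨N, fun n hn => ?_⟩
    obtain ⟨e1, e2, e3, e4⟩ := hN n hn
    rw [Real.dist_eq, sub_zero, abs_div, abs_of_pos e4]
    rw [div_lt_iff₀ e4]
    calc |∑ x ∈ antidiagonal n, k x.1 * (G x.1 x.2 - g)|
        ≤ ∑ x ∈ antidiagonal n, |k x.1 * (G x.1 x.2 - g)| := Finset.abs_sum_le_sum_abs _ _
      _ ≤ ∑ x ∈ antidiagonal n, (ε / 4 * k x.1 + (if x.1 < J then 2 * K * k x.1 else 0) +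
            (if n + 1 - J ≤ x.1 then 2 * K * k x.1 else 0)) := by
          apply Finset.sum_le_sum
          intro x hx
          rw [Finset.HasAntidiagonal.mem_antidiagonal] at hx
          rw [abs_mul, abs_of_nonneg (hk _)]
          have hb : |G x.1 x.2 - g| ≤ 2 * K := (abs_sub _ _).trans (by linarith [hG x.1 x.2])
          have hkk := hk x.1
          have hKk : 0 ≤ 2 * K * k x.1 := by positivity
          by_cases hx1 : x.1 < J
          · rw [if_pos hx1]
            have : k x.1 * |G x.1 x.2 - g| ≤ 2 * K * k x.1 := by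
              rw [mul_comm]; exact mul_le_mul_of_nonneg_right hb hkk
            split_ifs <;> nlinarith
          · rw [if_neg hx1]
            by_cases hx2 : n + 1 - J ≤ x.1
            · rw [if_pos hx2]
              have : k x.1 * |G x.1 x.2 - g| ≤ 2 * K * k x.1 := by
                rw [mul_comm]; exact mul_le_mul_of_nonneg_right hb hkk
              nlinarith
            · rw [if_neg hx2]
              have := hJ' x.1 x.2 (by omega) (by omega)
              have : k x.1 * |G x.1 x.2 - g| ≤ k x.1 * (ε / 4) :=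
                mul_le_mul_of_nonneg_left this.le hkk
              linarith
      _ = ε / 4 * (∑ i ∈ range (n + 1), k i) +
            (∑ i ∈ range (n + 1), if i < J then 2 * K * k i else 0) +
            (∑ i ∈ range (n + 1), if n + 1 - J ≤ i then 2 * K * k i else 0) := by
          rw [Finset.Nat.sum_antidiagonal_eq_sum_range_succ_mk, Finset.sum_add_distrib,
            Finset.sum_add_distrib, Finset.mul_sum]
      _ ≤ ε / 4 * (∑ i ∈ range (n + 1), k i) + 2 * K * (∑ i ∈ range J, k i) +
            2 * K * (∑ i ∈ Ico (n + 1 - J) (n + 1), k i) := by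
          gcongr
          · rw [← Finset.sum_filter, Finset.mul_sum]
            apply Finset.sum_le_sum_of_subset_of_nonneg
            · intro i hi
              simp only [Finset.mem_filter, Finset.mem_range] at *
              exact hi.2
            · intro i _ _; have := hk i; positivity
          · rw [← Finset.sum_filter, Finset.mul_sum]
            apply Finset.sum_le_sum_of_subset_of_nonneg
            · intro i hi
              simp only [Finset.mem_filter, Finset.mem_range, Finset.mem_Ico] at *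
              exact ⟨hi.2, hi.1⟩
            · intro i _ _; have := hk i; positivity
      _ < ε * S n := by
          rw [div_lt_iff₀ e4] at e1
          have e2' : 2 * K * (∑ i ∈ range J, k i) < ε / 4 * S n := by
            have := (mul_lt_mul_of_pos_right e2 e4)
            rwa [mul_assoc, div_mul_cancel₀ _ e4.ne'] at this
          have e3' : 2 * K * (∑ i ∈ Ico (n + 1 - J) (n + 1), k i) < ε / 4 * S n := by
            have := (mul_lt_mul_of_pos_right e3 e4)
            rwa [mul_assoc, div_mul_cancel₀ _ e4.ne'] at this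
          nlinarith
  have hlim := hmain.add (hS.const_mul g)
  rw [zero_add, mul_one] at hlim
  refine hlim.congr fun n => ?_
  rw [← mul_div_assoc, ← add_div]
  congr 1
  rw [Finset.mul_sum, ← Finset.Nat.sum_antidiagonal_eq_sum_range_succ_mk
    (f := fun x : ℕ × ℕ => g * k x.1), ← Finset.sum_add_distrib]
  refine Finset.sum_congr rfl fun x _ => ?_
  ring

/-- double Cesaro limits -/
lemma cesaro2 (G : ℕ → ℕ → ℝ) (K g : ℝ)
    (hG : ∀ x y, |G x y| ≤ K) (hg : Tendsto (fun x : ℕ × ℕ => G x.1 x.2) atTop (𝓝 g)) :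
    Tendsto (fun n : ℕ => (∑ x ∈ antidiagonal n, G x.1 x.2) / n) atTop (𝓝 g) := by
  have h := wcesaro G (fun _ => 1) K g (fun _ => by norm_num) hG hg (fun n => (n : ℝ)) ?_ ?_ ?_ ?_
  · simpa using h
  · have h1 : Tendsto (fun n : ℕ => 1 + 1 / (n : ℝ)) atTop (𝓝 (1 + 0)) :=
      tendsto_const_nhds.add tendsto_one_div_atTop_nhds_zero_nat
    rw [add_zero] at h1
    refine h1.congr' ?_
    filter_upwards [eventually_gt_atTop 0] with n hn
    have hn' : (0 : ℝ) < n := by exact_mod_cast hn
    simp only [Finset.sum_const, Finset.card_range, nsmul_eq_mul, mul_one]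
    push_cast
    field_simp
  · filter_upwards [eventually_gt_atTop 0] with n hn
    exact_mod_cast hn
  · exact tendsto_natCast_atTop_atTop
  · intro J
    have h1 : Tendsto (fun n : ℕ => (J : ℝ) * (1 / (n : ℝ))) atTop (𝓝 (J * 0)) :=
      tendsto_one_div_atTop_nhds_zero_nat.const_mul _
    rw [mul_zero] at h1
    refine squeeze_zero (fun n => ?_) (fun n => ?_) h1
    · apply div_nonneg _ (Nat.cast_nonneg n)
      exact Finset.sum_nonneg fun _ _ => by norm_num
    · simp only [Finset.sum_const, Nat.card_Ico, nsmul_eq_mul, mul_one]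
      rw [mul_one_div]
      apply div_le_div_of_nonneg_right _ (Nat.cast_nonneg n)
      have : n + 1 - (n + 1 - J) ≤ J := by omega
      exact_mod_cast this

end Pool.Agent.Helper98.Elastic
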