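import Mathlib
import Pool.Agent.Helper98.Elastic.Words2
import Pool.Agent.Helper98.Elastic.PartII

/-!
# Bridges graded by their span; record walks
-/

open Finset Filter Topology
open scoped ENNReal

namespace Pool.Agent.Helper98.Elastic

open Classical in
/-- `x` if `P` holds and `0` otherwise -/
noncomputable def ic (P : Prop) (x : ℝ≥0∞) : ℝ≥0∞ := if P then x else 0

lemma ic_pos {P : Prop} (h : P) (x : ℝ≥0∞) : ic P x = x := by unfold ic; rw [if_pos h]

lemma ic_neg {P : Prop} (h : ¬ P) (x : ℝ≥0∞) : ic P x = 0 := by unfold ic; rw [if_neg h]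

lemma ic_le (P : Prop) (x : ℝ≥0∞) : ic P x ≤ x := by
  by_cases h : P
  · rw [ic_pos h]
  · rw [ic_neg h]; exact zero_le

lemma ic_congr {P Q : Prop} (h : P ↔ Q) (x : ℝ≥0∞) : ic P x = ic Q x := by
  rw [propext h]

lemma ic_mono {P Q : Prop} (h : P → Q) {x y : ℝ≥0∞} (hxy : x ≤ y) : ic P x ≤ ic Q y := by
  by_cases h1 : P
  · rw [ic_pos h1, ic_pos (h h1)]; exact hxy
  · rw [ic_neg h1]; exact zero_le

lemma ic_mul (P : Prop) (c x : ℝ≥0∞) : ic P (c * x) = c * ic P x := by
  by_cases h : P
  · rw [ic_pos h, ic_pos h]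
  · rw [ic_neg h, ic_neg h, mul_zero]

lemma ic_and (P Q : Prop) (x : ℝ≥0∞) : ic (P ∧ Q) x = ic P (ic Q x) := by
  by_cases h : P
  · rw [ic_pos h]
    exact ic_congr ⟨fun h' => h'.2, fun h' => ⟨h, h'⟩⟩ x
  · rw [ic_neg h, ic_neg (fun h' => h h'.1)]

lemma mass_eq_ic (p : Par) (P : List Bool → Prop) : mass p P = ∑' l, ic (P l) (W p l) := rfl

lemma ic_ite (P : Prop) [Decidable P] (x : ℝ≥0∞) : (if P then x else 0) = ic P x := by
  by_cases h : P
  · rw [if_pos h, ic_pos h]
  · rw [if_neg h, ic_neg h]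

lemma conv_eq_tsum (g V : ℕ → ℝ≥0∞) (z : ℕ) :
    ∑ y ∈ antidiagonal z, g y.1 * V y.2 = ∑' k, g k * (if k ≤ z then V (z - k) else 0) := by
  rw [tsum_eq_sum (s := range (z + 1))]
  · rw [Finset.Nat.sum_antidiagonal_eq_sum_range_succ_mk]
    refine Finset.sum_congr rfl fun k hk => ?_
    rw [Finset.mem_range] at hk
    simp only
    rw [if_pos (by omega)]
  · intro k hk
    rw [Finset.mem_range] at hk
    rw [if_neg (by omega), mul_zero]

lemma tendsto_sub_atTop (k : ℕ) : Tendsto (fun n : ℕ => n - k) atTop atTop := by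
  apply tendsto_atTop_atTop.2
  intro b
  exact ⟨b + k, fun a ha => by omega⟩

lemma conv_tendsto (g V : ℕ → ℝ≥0∞) (b : ℝ≥0∞) (hg : ∑' k, g k ≠ ∞) (hV : ∀ n, V n ≤ 1)
    (hb : Tendsto V atTop (𝓝 b)) :
    Tendsto (fun z => ∑ y ∈ antidiagonal z, g y.1 * V y.2) atTop (𝓝 ((∑' k, g k) * b)) := by
  have hb1 : b ≤ 1 := le_of_tendsto hb (Eventually.of_forall hV)
  simp_rw [conv_eq_tsum]
  rw [← ENNReal.tsum_mul_right]
  apply ennreal_tannery _ _ g hg
  · intro n k
    split_ifs
    · calc g k * V (n - k) ≤ g k * 1 := by gcongr; exact hV _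
        _ = _ := mul_one _
    · simp
  · intro k
    calc g k * b ≤ g k * 1 := by gcongr
      _ = _ := mul_one _
  · intro k
    have h1 : Tendsto (fun n => g k * V (n - k)) atTop (𝓝 (g k * b)) :=
      ENNReal.Tendsto.const_mul (hb.comp (tendsto_sub_atTop k))
        (Or.inr (ENNReal.ne_top_of_tsum_ne_top hg k))
    refine h1.congr' ?_
    filter_upwards [eventually_ge_atTop k] with n hn
    rw [if_pos hn]

lemma conv_le (g V : ℕ → ℝ≥0∞) (hV : ∀ n, V n ≤ 1) (z : ℕ) :
    ∑ y ∈ antidiagonal z, g y.1 * V y.2 ≤ ∑' k, g k := by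
  rw [conv_eq_tsum]
  apply ENNReal.tsum_le_tsum
  intro k
  split_ifs
  · calc g k * V (z - k) ≤ g k * 1 := by gcongr; exact hV _
      _ = _ := mul_one _
  · simp

lemma triple_tendsto (U g V : ℕ → ℝ≥0∞) (a b : ℝ≥0∞) (hg : ∑' k, g k ≠ ∞) (hU : ∀ n, U n ≤ 1)
    (hV : ∀ n, V n ≤ 1) (ha : Tendsto U atTop (𝓝 a)) (hb : Tendsto V atTop (𝓝 b)) :
    Tendsto (fun n : ℕ => (∑ x ∈ antidiagonal n, ∑ y ∈ antidiagonal x.2,
      U x.1 * (g y.1 * V y.2)).toReal / n) atTop (𝓝 (a.toReal * ((∑' k, g k).toReal * b.toReal))) := by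
  have ha1 : a ≤ 1 := le_of_tendsto ha (Eventually.of_forall hU)
  have hb1 : b ≤ 1 := le_of_tendsto hb (Eventually.of_forall hV)
  have hat : a ≠ ∞ := ne_top_of_le_ne_top ENNReal.one_ne_top ha1
  have hbt : b ≠ ∞ := ne_top_of_le_ne_top ENNReal.one_ne_top hb1
  have hUt : ∀ n, U n ≠ ∞ := fun n => ne_top_of_le_ne_top ENNReal.one_ne_top (hU n)
  have hct : ∀ z, ∑ y ∈ antidiagonal z, g y.1 * V y.2 ≠ ∞ := fun z =>
    ne_top_of_le_ne_top hg (conv_le g V hV z)
  have h1 := cesaro2 (fun x z => (U x).toReal * (∑ y ∈ antidiagonal z, g y.1 * V y.2).toReal)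
    (∑' k, g k).toReal (a.toReal * ((∑' k, g k).toReal * b.toReal)) ?_ ?_
  · refine h1.congr fun n => ?_
    congr 1
    rw [ENNReal.toReal_sum]
    · refine Finset.sum_congr rfl fun x _ => ?_
      rw [← Finset.mul_sum, ENNReal.toReal_mul]
    · intro x _
      rw [← Finset.mul_sum]
      exact ENNReal.mul_ne_top (hUt _) (hct _)
  · intro x z
    rw [abs_of_nonneg (by positivity)]
    have h2 : (U x).toReal ≤ 1 := by
      have := ENNReal.toReal_mono ENNReal.one_ne_top (hU x); simpa using this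
    have h3 : (∑ y ∈ antidiagonal z, g y.1 * V y.2).toReal ≤ (∑' k, g k).toReal :=
      ENNReal.toReal_mono hg (conv_le g V hV z)
    calc (U x).toReal * (∑ y ∈ antidiagonal z, g y.1 * V y.2).toReal
        ≤ 1 * (∑' k, g k).toReal := by gcongr
      _ = _ := one_mul _
  · rw [← prod_atTop_atTop_eq]
    have h2 : Tendsto (fun n => (U n).toReal) atTop (𝓝 a.toReal) :=
      (ENNReal.tendsto_toReal hat).comp ha
    have h3 : Tendsto (fun z => (∑ y ∈ antidiagonal z, g y.1 * V y.2).toReal) atTop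
        (𝓝 ((∑' k, g k).toReal * b.toReal)) := by
      have := (ENNReal.tendsto_toReal (ENNReal.mul_ne_top hg hbt)).comp (conv_tendsto g V b hg hV hb)
      rwa [ENNReal.toReal_mul] at this
    exact (h2.comp tendsto_fst).mul (h3.comp tendsto_snd)

/-! ### bridges of given span -/

/-- mass of bridges of span `y` -/
noncomputable def ub (p : Par) (y : ℕ) : ℝ≥0∞ := mass p (fun l => Bri l ∧ ed l = y)

lemma ub_eq_Uw (p : Par) (n : ℕ) : ub p n = Uw (wI p) span n := by
  classical
  unfold ub Uw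
  rw [mass_bri p (fun l => ed l = n)]
  refine tsum_congr fun L => ?_
  have h1 : (ed (bfac.pr L) = n) ↔ (sl span L = n) := by
    rw [pr_ed]; exact_mod_cast Iff.rfl
  by_cases h : sl span L = n
  · rw [if_pos (h1.2 h), if_pos h]
  · rw [if_neg (fun h' => h (h1.1 h')), if_neg h]

lemma ub_le_one (p : Par) (n : ℕ) : ub p n ≤ 1 := by
  rw [ub_eq_Uw]; exact Uw_le_one span_pos (tsum_wI p).le n

lemma irr_single : bfac.Irr [true] := by
  refine ⟨bri_str 1, by simp [bfac], ?_⟩
  intro b c _ _ h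
  have h' : [true] = b ++ c := h
  have h1 : b.length + c.length = 1 := by rw [← List.length_append, ← h']; rfl
  rcases Nat.eq_zero_or_pos b.length with h2 | h2
  · left; exact List.length_eq_zero_iff.1 h2
  · right; exact List.length_eq_zero_iff.1 (by omega)

/-- the one-step bridge -/
def one : IB := ⟨[true], irr_single⟩

lemma span_one : span one = 1 := by
  unfold span one; simp [ed, st]

lemma fw_span_one (p : Par) : fw (wI p) span 1 ≠ 0 := by
  have h1 : wI p one ≤ fw (wI p) span 1 := by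
    unfold fw
    calc wI p one = if span one = 1 then wI p one else 0 := by rw [if_pos span_one]
      _ ≤ _ := ENNReal.le_tsum (f := fun a => if span a = 1 then wI p a else 0) one
  exact (lt_of_lt_of_le (W_pos p _) h1).ne'

lemma nu_def (p : Par) : ∑' a, wI p a * (span a : ℝ≥0∞) = nu p := rfl

/-- the asymptotic mass of bridges of given span -/
noncomputable def al (p : Par) : ℝ := 1 / nur p

lemma al_pos (p : Par) : 0 < al p := by
  unfold al; have := one_le_nur p; positivity

lemma tendsto_ub_toReal (p : Par) : Tendsto (fun n => (ub p n).toReal) atTop (𝓝 (al p)) := by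
  have := tendsto_Uw span_pos (tsum_wI p) (nu_ne_top p) (fw_span_one p)
  rw [nu_def] at this
  refine this.congr fun n => ?_
  rw [ub_eq_Uw]

lemma ub_ne_top (p : Par) (n : ℕ) : ub p n ≠ ∞ :=
  ne_top_of_le_ne_top ENNReal.one_ne_top (ub_le_one p n)

lemma tendsto_ub (p : Par) : Tendsto (ub p) atTop (𝓝 (ENNReal.ofReal (al p))) := by
  have := ENNReal.tendsto_ofReal (tendsto_ub_toReal p)
  refine this.congr fun n => ENNReal.ofReal_toReal (ub_ne_top p n)

lemma exists_ub_lower (p : Par) : ∃ c : ℝ, 0 < c ∧ ∀ n, ENNReal.ofReal c ≤ ub p n := by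
  obtain ⟨c, hc, h⟩ := exists_Uw_lower span_pos (tsum_wI p) (nu_ne_top p) (fw_span_one p)
  exact ⟨c, hc, fun n => by rw [ub_eq_Uw]; exact h n⟩

lemma one_div_speed (p : Par) : (mu p).toReal / (nu p).toReal = 1 / speed p := by
  unfold speed mur nur
  rw [one_div_div]

/-- **law of large numbers for the length of a bridge of given span** -/
lemma lln_bridge_span (p : Par) (ε : ℝ) (hε : 0 < ε) :
    Tendsto (fun n : ℕ => mass p (fun l => Bri l ∧ ed l = n ∧
      ε * n < |(l.length : ℝ) - 1 / speed p * n|)) atTop (𝓝 0) := by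
  classical
  have h := wordLLN (wI p) (tsum_wI p) span span_pos len (nu_ne_top p) (mu_ne_top p) ε hε
  refine h.congr fun n => ?_
  rw [mass_bri p (fun l => ed l = n ∧ ε * n < |(l.length : ℝ) - 1 / speed p * n|)]
  refine tsum_congr fun L => ?_
  have h1 : (ed (bfac.pr L) = n) ↔ (sl span L = n) := by
    rw [pr_ed]; exact_mod_cast Iff.rfl
  rw [ic_ite, ic_ite, h1, pr_length, ← one_div_speed]
  rfl

/-! ### record walks -/

/-- total weight of the left parts -/
noncomputable def CV (p : Par) : ℝ≥0∞ := ∑' n, nn p n * Eb p n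

lemma CV_ne_top (p : Par) : CV p ≠ ∞ := by
  have h1 : CV p ≤ (ze p)⁻¹ * Gam p * ∑' n, Eb p n := by
    unfold CV
    rw [← ENNReal.tsum_mul_left]
    apply ENNReal.tsum_le_tsum
    intro n
    gcongr
    exact nn_le_Gam p n
  refine ne_top_of_le_ne_top ?_ h1
  exact ENNReal.mul_ne_top (ENNReal.mul_ne_top (inv_ze_ne_top p) (Gam_ne_top p)) (tsum_Eb_ne_top p)

lemma CV_eq (p : Par) : CV p = ∑' v : List Bool, ic (NN v) (W p v * Eb p v.length) := by
  classical
  unfold CV nn mass
  rw [← tsum_fiber (fun v : List Bool => ic (NN v) (W p v * Eb p v.length)) List.length]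
  refine tsum_congr fun n => ?_
  rw [← ENNReal.tsum_mul_right]
  refine tsum_congr fun v => ?_
  by_cases h1 : v.length = n <;> by_cases h2 : NN v <;> simp [h1, h2, ic]

lemma cover_rec (p : Par) (a : ℤ) (ha : 0 < a) (Q : List Bool → Prop) :
    mass p (fun l => Rec l ∧ ed l = a ∧ Q l) ≤ ∑' v : List Bool, ∑' r : List Bool,
      ic (NN v ∧ (Bri r ∧ Rec r ∧ ed r = a + ed v ∧ Q (neg v.reverse ++ r)))
        (W p v * Eb p v.length * W p r) := by
  rw [← ENNReal.tsum_prod (f := fun v r : List Bool =>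
    ic (NN v ∧ (Bri r ∧ Rec r ∧ ed r = a + ed v ∧ Q (neg v.reverse ++ r)))
        (W p v * Eb p v.length * W p r))]
  rw [mass_eq_ic]
  apply tsum_le_of_cover _ _ (fun x : List Bool × List Bool => neg x.1.reverse ++ x.2)
  intro l hl
  have hl' : Rec l ∧ ed l = a ∧ Q l := by by_contra h; exact hl (ic_neg h _)
  obtain ⟨hrec, hed, hQ⟩ := hl'
  obtain ⟨v, r, h1, h2, h3⟩ := decomp_all l
  refine ⟨(v, r), h1.symm, ?_⟩
  have hlen : l.length = v.length + r.length := by rw [h1]; simp
  have hedv : 0 ≤ ed v := by have := h2 v.length le_rfl; rwa [pos_length] at this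
  have hedr : ed r = a + ed v := by
    have : ed l = ed r - ed v := by rw [h1, ed_append, ed_neg, ed_reverse]; ring
    omega
  have hr0 : 0 < r.length := by
    rcases Nat.eq_zero_or_pos r.length with h | h
    · have : r = [] := List.length_eq_zero_iff.1 h
      rw [this] at hedr
      simp at hedr
      omega
    · exact h
  have hrecr : Rec r := by
    intro i hi
    have h4 := hrec (v.length + i) (by omega)
    rw [h1] at h4
    have h5 := pos_append_right (neg v.reverse) r i
    rw [length_neg, List.length_reverse] at h5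
    rw [h5, ed_append] at h4
    linarith
  have hbri : Bri r := by
    refine ⟨h3, fun i hi => ?_⟩
    rcases Nat.lt_or_ge i r.length with h | h
    · exact (hrecr i h).le
    · rw [pos_ge r h]
  have hlow : Low v r := by
    intro i hi
    refine ⟨r.length, le_rfl, ?_⟩
    rw [pos_length]
    have h4 := hrec (v.length - i) (by omega)
    have h5 : pos l (v.length - i) = pos (neg v.reverse) (v.length - i) := by
      rw [h1]; exact pos_append_left _ _ (by simp)
    rw [pos_neg, pos_reverse _ (by omega)] at h5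
    rw [show v.length - (v.length - i) = i by omega] at h5
    omega
  simp only
  rw [ic_pos (⟨hrec, hed, hQ⟩ : Rec l ∧ ed l = a ∧ Q l),
    ic_pos ⟨h2, hbri, hrecr, hedr, by rw [← h1]; exact hQ⟩, h1]
  exact W_valley_le p h2 h3.nn hlow

lemma rec_mass_le (p : Par) (a : ℤ) (ha : 0 < a) :
    mass p (fun l => Rec l ∧ ed l = a) ≤ CV p := by
  have h1 : mass p (fun l => Rec l ∧ ed l = a) = mass p (fun l => Rec l ∧ ed l = a ∧ True) :=
    mass_congr p (fun l => by simp)
  rw [h1]
  refine (cover_rec p a ha (fun _ => True)).trans ?_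
  rw [CV_eq]
  apply ENNReal.tsum_le_tsum
  intro v
  by_cases hv : NN v
  · rw [ic_pos hv]
    have hedv : 0 ≤ ed v := by have := hv v.length le_rfl; rwa [pos_length] at this
    calc ∑' r : List Bool, ic (NN v ∧ (Bri r ∧ Rec r ∧ ed r = a + ed v ∧ True))
          (W p v * Eb p v.length * W p r)
        ≤ ∑' r : List Bool, W p v * Eb p v.length *
            ic (Bri r ∧ ed r = ((a + ed v).toNat : ℤ)) (W p r) := by
          apply ENNReal.tsum_le_tsum
          intro r
          rw [← ic_mul]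
          apply ic_mono _ le_rfl
          rintro ⟨_, h2, _, h4, _⟩
          exact ⟨h2, by rw [h4, Int.toNat_of_nonneg (by omega)]⟩
      _ = W p v * Eb p v.length * ub p (a + ed v).toNat := by
          rw [ENNReal.tsum_mul_left]; rfl
      _ ≤ W p v * Eb p v.length * 1 := by gcongr; exact ub_le_one p _
      _ = _ := mul_one _
  · rw [ic_neg hv]
    rw [nonpos_iff_eq_zero, ENNReal.tsum_eq_zero]
    intro r
    exact ic_neg (fun h => hv h.1) _

end Pool.Agent.Helper98.Elastic
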