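import Pool.Agent.Helper98.Elastic.Joint2

/-!
# Law of large numbers for the coincidences of two bridges
-/

open Finset Filter Topology
open scoped ENNReal

namespace Pool.Agent.Helper98.Elastic

/-- mass of pairs of bridges of span `Y` satisfying `Q` -/
noncomputable def pm (p : Par) (Y : ℕ) (Q : List Bool → List Bool → Prop) : ℝ≥0∞ :=
  ∑' a, ∑' b, ic (Bri a ∧ ed a = Y) (W p a) * ic (Bri b ∧ ed b = Y) (W p b) * ic (Q a b) 1

lemma pm_mono (p : Par) (Y : ℕ) {Q R : List Bool → List Bool → Prop}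
    (h : ∀ a b, Bri a → Bri b → ed a = Y → ed b = Y → Q a b → R a b) : pm p Y Q ≤ pm p Y R := by
  unfold pm
  apply ENNReal.tsum_le_tsum
  intro a
  apply ENNReal.tsum_le_tsum
  intro b
  by_cases ha : Bri a ∧ ed a = Y
  · by_cases hb : Bri b ∧ ed b = Y
    · gcongr
      exact ic_mono (h a b ha.1 hb.1 ha.2 hb.2) le_rfl
    · rw [ic_neg hb]; simp
  · rw [ic_neg ha]; simp

lemma ic_or_le {P Q R : Prop} (h : P → Q ∨ R) (x : ℝ≥0∞) : ic P x ≤ ic Q x + ic R x := by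
  by_cases hP : P
  · rw [ic_pos hP]
    rcases h hP with hQ | hR
    · rw [ic_pos hQ]; exact le_self_add
    · rw [ic_pos hR]; exact le_add_self
  · rw [ic_neg hP]; exact zero_le

lemma pm_or_le (p : Par) (Y : ℕ) {P Q R : List Bool → List Bool → Prop}
    (h : ∀ a b, P a b → Q a b ∨ R a b) : pm p Y P ≤ pm p Y Q + pm p Y R := by
  unfold pm
  rw [← ENNReal.tsum_add]
  apply ENNReal.tsum_le_tsum
  intro a
  rw [← ENNReal.tsum_add]
  apply ENNReal.tsum_le_tsum
  intro b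
  rw [← mul_add]
  gcongr
  exact ic_or_le (h a b) 1

lemma pm_le_one (p : Par) (Y : ℕ) (Q : List Bool → List Bool → Prop) : pm p Y Q ≤ 1 := by
  calc pm p Y Q ≤ ∑' a, ∑' b, ic (Bri a ∧ ed a = Y) (W p a) * ic (Bri b ∧ ed b = Y) (W p b) := by
        unfold pm
        apply ENNReal.tsum_le_tsum
        intro a
        apply ENNReal.tsum_le_tsum
        intro b
        calc _ ≤ ic (Bri a ∧ ed a = Y) (W p a) * ic (Bri b ∧ ed b = Y) (W p b) * 1 := by
              gcongr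
              exact ic_le _ _
          _ = _ := mul_one _
    _ = ub p Y * ub p Y := by rw [tsum_tsum_mul]; rfl
    _ ≤ 1 * 1 := by gcongr <;> exact ub_le_one p Y
    _ = 1 := one_mul 1

lemma joint_lln (p : Par) (ε : ℝ) (hε : 0 < ε) :
    Tendsto (fun Y : ℕ => pm p Y (fun a b => ε * Y < |(Nc a b : ℝ) - 1 / speed p ^ 2 * Y|))
      atTop (𝓝 0) := by
  have h := wordLLN (wJ p) (tsum_wJ p) spanJ spanJ_pos nJ (nuJ_ne_top p) (eta_ne_top p) ε hε
  refine h.congr fun Y => ?_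
  have h1 := tsum_jB_span p Y
    (fun x => ic (ε * Y < |(Nc x.1 x.2 : ℝ) - 1 / speed p ^ 2 * Y|) 1)
  unfold pm
  rw [← h1]
  refine tsum_congr fun L => ?_
  have h2 : (∑' a, wJ p a * (nJ a : ℝ≥0∞)).toReal / (∑' a, wJ p a * (spanJ a : ℝ≥0∞)).toReal =
      1 / speed p ^ 2 := by
    have e1 : (∑' a, wJ p a * (nJ a : ℝ≥0∞)).toReal = mur p ^ 2 := eta_eq p
    have e2 : (∑' a, wJ p a * (spanJ a : ℝ≥0∞)).toReal = nur p ^ 2 := nuJ_eq p
    have hmur := mur_pos p
    have hnur : 0 < nur p := by linarith [one_le_nur p]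
    rw [e1, e2]
    unfold speed; field_simp
  rw [h2, jpr_N]
  by_cases h3 : sl spanJ L = Y
  · rw [if_pos h3]
    by_cases h4 : ε * Y < |((sl nJ L : ℕ) : ℝ) - 1 / speed p ^ 2 * Y|
    · rw [if_pos ⟨h3, h4⟩, ic_pos h4, mul_one]
    · rw [if_neg (fun h => h4 h.2), ic_neg h4, mul_zero]
  · rw [if_neg (fun h => h3 h.1), if_neg h3]

/-! ### Markov for levels -/

lemma ed_le_length (a : List Bool) : ed a ≤ a.length := (le_abs_self _).trans (abs_ed_le a)

/-- expected visits to a fixed level are bounded -/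
lemma EY_lv_le (p : Par) (S k : ℕ) (hk : k ≤ S) :
    EY p S (fun a => ((lv a k : ℕ) : ℝ≥0∞)) ≤ mu p := by
  have h := EY_lv p k (S - k)
  rw [show k + (S - k) = S by omega] at h
  rw [h]
  exact lam_le p _ _

lemma markov_ic {x : ℝ≥0∞} {t : ℝ} (ht : 0 < t) (N : ℕ) :
    ic (t < (N : ℝ)) x ≤ ENNReal.ofReal (1 / t) * (x * (N : ℝ≥0∞)) := by
  by_cases h : t < (N : ℝ)
  · rw [ic_pos h]
    have h1 : (1 : ℝ≥0∞) ≤ ENNReal.ofReal (1 / t) * (N : ℝ≥0∞) := by
      rw [← ENNReal.ofReal_natCast, ← ENNReal.ofReal_mul (by positivity), ← ENNReal.ofReal_one]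
      apply ENNReal.ofReal_le_ofReal
      rw [div_mul_eq_mul_div, one_mul, le_div_iff₀ ht, one_mul]
      exact h.le
    calc x = x * 1 := (mul_one x).symm
      _ ≤ x * (ENNReal.ofReal (1 / t) * (N : ℝ≥0∞)) := by gcongr
      _ = _ := by ring
  · rw [ic_neg h]; exact zero_le

lemma level_markov (p : Par) (S : ℕ) (s : Finset ℕ) (hs : ∀ k ∈ s, k ≤ S) (t : ℝ) (ht : 0 < t) :
    ∑' a, ic (Bri a ∧ ed a = S) (W p a) * ic (t < ((∑ k ∈ s, lv a k : ℕ) : ℝ)) 1 ≤
      ENNReal.ofReal (1 / t) * (s.card * mu p) := by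
  calc ∑' a, ic (Bri a ∧ ed a = S) (W p a) * ic (t < ((∑ k ∈ s, lv a k : ℕ) : ℝ)) 1
      ≤ ∑' a, ENNReal.ofReal (1 / t) * (ic (Bri a ∧ ed a = S) (W p a) *
          ((∑ k ∈ s, lv a k : ℕ) : ℝ≥0∞)) := by
        apply ENNReal.tsum_le_tsum
        intro a
        rw [← ic_mul, mul_one]
        exact markov_ic ht _
    _ = ENNReal.ofReal (1 / t) * ∑ k ∈ s, EY p S (fun a => ((lv a k : ℕ) : ℝ≥0∞)) := by
        rw [ENNReal.tsum_mul_left]
        congr 1
        unfold EY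
        rw [← ennreal_tsum_finset_sum]
        refine tsum_congr fun a => ?_
        rw [← Finset.mul_sum]
        push_cast; rfl
    _ ≤ ENNReal.ofReal (1 / t) * ∑ k ∈ s, mu p := by
        gcongr with k hk
        exact EY_lv_le p S k (hs k hk)
    _ = _ := by rw [Finset.sum_const, nsmul_eq_mul]

lemma pm_left (p : Par) (Y : ℕ) (Q : List Bool → Prop) :
    pm p Y (fun a _ => Q a) ≤ ∑' a, ic (Bri a ∧ ed a = Y) (W p a) * ic (Q a) 1 := by
  unfold pm
  calc _ = ∑' a, ∑' b, (ic (Bri a ∧ ed a = Y) (W p a) * ic (Q a) 1) *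
        ic (Bri b ∧ ed b = Y) (W p b) := by
        refine tsum_congr fun a => tsum_congr fun b => ?_
        ring
    _ = (∑' a, ic (Bri a ∧ ed a = Y) (W p a) * ic (Q a) 1) * ub p Y := by
        rw [tsum_tsum_mul]; rfl
    _ ≤ (∑' a, ic (Bri a ∧ ed a = Y) (W p a) * ic (Q a) 1) * 1 := by
        gcongr; exact ub_le_one p Y
    _ = _ := mul_one _

lemma pm_right (p : Par) (Y : ℕ) (Q : List Bool → Prop) :
    pm p Y (fun _ b => Q b) ≤ ∑' a, ic (Bri a ∧ ed a = Y) (W p a) * ic (Q a) 1 := by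
  unfold pm
  calc _ = ∑' a, ∑' b, ic (Bri a ∧ ed a = Y) (W p a) * (ic (Bri b ∧ ed b = Y) (W p b) *
        ic (Q b) 1) := by
        refine tsum_congr fun a => tsum_congr fun b => ?_
        ring
    _ = ub p Y * (∑' a, ic (Bri a ∧ ed a = Y) (W p a) * ic (Q a) 1) := by
        rw [tsum_tsum_mul]; rfl
    _ ≤ 1 * (∑' a, ic (Bri a ∧ ed a = Y) (W p a) * ic (Q a) 1) := by
        gcongr; exact ub_le_one p Y
    _ = _ := one_mul _

/-- few coincidences, up to visits of the extreme levels, are unlikely -/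
lemma core_lln (p : Par) (ε : ℝ) (hε : 0 < ε) (A B : ℕ) :
    Tendsto (fun Y : ℕ => pm p Y (fun a b =>
      (Nc a b : ℝ) - ((∑ k ∈ Icc (Y + 1 - A) Y, lv a k : ℕ) : ℝ) -
        ((∑ k ∈ Icc 1 B, lv b k : ℕ) : ℝ) < (1 - ε) / speed p ^ 2 * Y)) atTop (𝓝 0) := by
  have hs := speed_pos p
  set e : ℝ := ε / speed p ^ 2 / 3 with he
  have he0 : 0 < e := by positivity
  have h1 := joint_lln p e he0
  have h2 : Tendsto (fun Y : ℕ => ENNReal.ofReal (1 / (e * Y)) * (A * mu p)) atTop (𝓝 0) := by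
    have h3 : Tendsto (fun Y : ℕ => 1 / (e * (Y : ℝ))) atTop (𝓝 0) :=
      tendsto_const_nhds.div_atTop (tendsto_natCast_atTop_atTop.const_mul_atTop he0)
    have h4 := ENNReal.tendsto_ofReal h3
    rw [ENNReal.ofReal_zero] at h4
    have h5 := ENNReal.Tendsto.mul_const h4 (b := (A * mu p))
      (Or.inr (ENNReal.mul_ne_top (ENNReal.natCast_ne_top A) (mu_ne_top p)))
    rwa [zero_mul] at h5
  have h3 : Tendsto (fun Y : ℕ => ENNReal.ofReal (1 / (e * Y)) * (B * mu p)) atTop (𝓝 0) := by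
    have h3 : Tendsto (fun Y : ℕ => 1 / (e * (Y : ℝ))) atTop (𝓝 0) :=
      tendsto_const_nhds.div_atTop (tendsto_natCast_atTop_atTop.const_mul_atTop he0)
    have h4 := ENNReal.tendsto_ofReal h3
    rw [ENNReal.ofReal_zero] at h4
    have h5 := ENNReal.Tendsto.mul_const h4 (b := (B * mu p))
      (Or.inr (ENNReal.mul_ne_top (ENNReal.natCast_ne_top B) (mu_ne_top p)))
    rwa [zero_mul] at h5
  have h4 := h1.add (h2.add h3)
  simp only [add_zero] at h4
  refine tendsto_of_tendsto_of_tendsto_of_le_of_le' tendsto_const_nhds h4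
    (Eventually.of_forall fun _ => zero_le) ?_
  filter_upwards [eventually_ge_atTop (max 1 (max A B))] with Y hY
  have hY1 : 1 ≤ Y := le_trans (le_max_left _ _) hY
  have hYA : A ≤ Y := le_trans (le_trans (le_max_left _ _) (le_max_right _ _)) hY
  have hYB : B ≤ Y := le_trans (le_trans (le_max_right _ _) (le_max_right _ _)) hY
  have hY0 : (0 : ℝ) < Y := by exact_mod_cast hY1
  have heY : 0 < e * Y := by positivity
  have k1 : pm p Y (fun a _ => e * Y < ((∑ k ∈ Icc (Y + 1 - A) Y, lv a k : ℕ) : ℝ)) ≤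
      ENNReal.ofReal (1 / (e * Y)) * (A * mu p) := by
    refine (pm_left p Y _).trans ((level_markov p Y _ ?_ _ heY).trans ?_)
    · intro k hk; rw [Finset.mem_Icc] at hk; exact hk.2
    · rw [Nat.card_Icc, show Y + 1 - (Y + 1 - A) = A by omega]
  have k2 : pm p Y (fun _ b => e * Y < ((∑ k ∈ Icc 1 B, lv b k : ℕ) : ℝ)) ≤
      ENNReal.ofReal (1 / (e * Y)) * (B * mu p) := by
    refine (pm_right p Y _).trans ((level_markov p Y _ ?_ _ heY).trans ?_)
    · intro k hk; rw [Finset.mem_Icc] at hk; omega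
    · rw [Nat.card_Icc, Nat.add_sub_cancel]
  refine le_trans (pm_or_le p Y (Q := fun a b => e * Y < |(Nc a b : ℝ) - 1 / speed p ^ 2 * Y|)
    (R := fun a b => e * Y < ((∑ k ∈ Icc (Y + 1 - A) Y, lv a k : ℕ) : ℝ) ∨
      e * Y < ((∑ k ∈ Icc 1 B, lv b k : ℕ) : ℝ)) ?_) ?_
  · intro a b hab
    by_contra hcon
    rw [not_or, not_or, not_lt, not_lt, not_lt] at hcon
    obtain ⟨c1, c2, c3⟩ := hcon
    have c4 := abs_le.1 c1
    have c5 : (1 - ε) / speed p ^ 2 * Y = 1 / speed p ^ 2 * Y - 3 * (e * Y) := by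
      rw [he]; field_simp
    linarith [c4.1]
  · gcongr
    refine le_trans (pm_or_le p Y
      (Q := fun a _ => e * Y < ((∑ k ∈ Icc (Y + 1 - A) Y, lv a k : ℕ) : ℝ))
      (R := fun _ b => e * Y < ((∑ k ∈ Icc 1 B, lv b k : ℕ) : ℝ)) (fun a b h => h)) ?_
    gcongr

end Pool.Agent.Helper98.Elastic
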