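import Pool.Agent.Helper98.Elastic.Upper2

/-!
# The bound for the interaction sum of two pieces
-/

open Finset Filter Topology
open scoped ENNReal

namespace Pool.Agent.Helper98.Elastic

lemma one_le_CV (p : Par) : 1 ≤ CV p := by
  rw [CV_eq]
  have h := ENNReal.le_tsum (f := fun v : List Bool => ic (NN v) (W p v * Eb p v.length)) []
  refine le_trans (le_of_eq ?_) h
  have h1 : NN [] := half_nil.nn
  rw [ic_pos h1, W_nil, List.length_nil, Eb_zero, one_mul]

/-- interaction sum of two pieces -/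
noncomputable def E2 (p : Par) (h : ℕ) (γ : ℝ) : ℝ≥0∞ :=
  ∑' l, ∑' q, ic (ExU h l) (W p l) * ic (ExU h q) (W p q) *
    ENNReal.ofReal (Real.exp (-(p.β * (γ * Nc l.reverse q))))

/-- remainder -/
noncomputable def Rr (p : Par) (c : ℝ) (h : ℕ) : ℝ≥0∞ :=
  ∑' x : List Bool × List Bool, ic (NN x.1) (W p x.1 * Eb p x.1.length) *
    ic (NN x.2) (W p x.2 * Eb p x.2.length) * bad2 p c h x.1 x.2

lemma exp_le_exp_add_ic {p : Par} {γ c : ℝ} (hγ : 0 ≤ γ) (h N : ℕ) :
    ENNReal.ofReal (Real.exp (-(p.β * (γ * N)))) ≤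
      ENNReal.ofReal (Real.exp (-(p.β * (γ * (c * h))))) + ic ((N : ℝ) < c * h) 1 := by
  have hβ := p.hβ
  by_cases hN : (N : ℝ) < c * h
  · rw [ic_pos hN]
    refine le_trans ?_ le_add_self
    rw [← ENNReal.ofReal_one]
    apply ENNReal.ofReal_le_ofReal
    rw [Real.exp_le_one_iff]
    have : 0 ≤ p.β * (γ * N) := by positivity
    linarith
  · refine le_trans ?_ le_self_add
    apply ENNReal.ofReal_le_ofReal
    rw [not_lt] at hN
    gcongr

lemma E2_le (p : Par) {c γ : ℝ} (hγ : 0 ≤ γ) {h : ℕ} (hh : 0 < h) :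
    E2 p h γ ≤ CV p * CV p * ENNReal.ofReal (Real.exp (-(p.β * (γ * (c * h))))) + Rr p c h := by
  unfold E2
  rw [← ENNReal.tsum_prod (f := fun l q : List Bool => ic (ExU h l) (W p l) *
    ic (ExU h q) (W p q) * ENNReal.ofReal (Real.exp (-(p.β * (γ * Nc l.reverse q)))))]
  calc _ ≤ ∑' x : (List Bool × List Bool) × (List Bool × List Bool),
        ic (NN x.1.1) (W p x.1.1 * Eb p x.1.1.length) *
        ic (NN x.1.2) (W p x.1.2 * Eb p x.1.2.length) *
        (ic (Bri x.2.1 ∧ Rec x.2.1 ∧ ed x.2.1 = h + ed x.1.1) (W p x.2.1) *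
        ic (Bri x.2.2 ∧ Rec x.2.2 ∧ ed x.2.2 = h + ed x.1.2) (W p x.2.2) *
        (ENNReal.ofReal (Real.exp (-(p.β * (γ * (c * h))))) +
        ic ((Nc (neg x.1.1.reverse ++ x.2.1).reverse (neg x.1.2.reverse ++ x.2.2) : ℝ) <
          c * h) 1)) := by
        apply tsum_le_of_cover _ _
          (fun x : (List Bool × List Bool) × (List Bool × List Bool) =>
            (neg x.1.1.reverse ++ x.2.1, neg x.1.2.reverse ++ x.2.2))
        rintro ⟨l, q⟩ hne
        simp only at hne
        have c1 : ExU h l := by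
          by_contra hcon; apply hne; rw [ic_neg hcon]; simp
        have c2 : ExU h q := by
          by_contra hcon; apply hne; rw [ic_neg hcon]; simp
        have hh' : (0 : ℤ) < h := by exact_mod_cast hh
        obtain ⟨v, r, e1, e2, e3, e4, e5, e6⟩ := rec_decomp p hh' c1.rec c1.1
        obtain ⟨v', r', f1, f2, f3, f4, f5, f6⟩ := rec_decomp p hh' c2.rec c2.1
        refine ⟨((v, v'), (r, r')), by simp only [← e1, ← f1], ?_⟩
        simp only
        rw [ic_pos c1, ic_pos c2, ic_pos e2, ic_pos f2, ic_pos ⟨e3, e4, e5⟩, ic_pos ⟨f3, f4, f5⟩,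
          ← e1, ← f1]
        calc W p l * W p q * ENNReal.ofReal (Real.exp (-(p.β * (γ * Nc l.reverse q))))
            ≤ (W p v * Eb p v.length * W p r) * (W p v' * Eb p v'.length * W p r') *
              (ENNReal.ofReal (Real.exp (-(p.β * (γ * (c * h))))) +
                ic ((Nc l.reverse q : ℝ) < c * h) 1) := by
              gcongr
              exact exp_le_exp_add_ic hγ h _
          _ = _ := by ring
    _ = ∑' x : List Bool × List Bool, ∑' y : List Bool × List Bool,
        ic (NN x.1) (W p x.1 * Eb p x.1.length) *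
        ic (NN x.2) (W p x.2 * Eb p x.2.length) *
        (ic (Bri y.1 ∧ Rec y.1 ∧ ed y.1 = h + ed x.1) (W p y.1) *
        ic (Bri y.2 ∧ Rec y.2 ∧ ed y.2 = h + ed x.2) (W p y.2) *
        (ENNReal.ofReal (Real.exp (-(p.β * (γ * (c * h))))) +
        ic ((Nc (neg x.1.reverse ++ y.1).reverse (neg x.2.reverse ++ y.2) : ℝ) <
          c * h) 1)) :=
        ENNReal.tsum_prod (f := fun x y : List Bool × List Bool =>
        ic (NN x.1) (W p x.1 * Eb p x.1.length) *
        ic (NN x.2) (W p x.2 * Eb p x.2.length) *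
        (ic (Bri y.1 ∧ Rec y.1 ∧ ed y.1 = h + ed x.1) (W p y.1) *
        ic (Bri y.2 ∧ Rec y.2 ∧ ed y.2 = h + ed x.2) (W p y.2) *
        (ENNReal.ofReal (Real.exp (-(p.β * (γ * (c * h))))) +
        ic ((Nc (neg x.1.reverse ++ y.1).reverse (neg x.2.reverse ++ y.2) : ℝ) <
          c * h) 1)))
    _ ≤ ∑' x : List Bool × List Bool, (ic (NN x.1) (W p x.1 * Eb p x.1.length) *
        ic (NN x.2) (W p x.2 * Eb p x.2.length) *
          ENNReal.ofReal (Real.exp (-(p.β * (γ * (c * h))))) +
        ic (NN x.1) (W p x.1 * Eb p x.1.length) *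
        ic (NN x.2) (W p x.2 * Eb p x.2.length) * bad2 p c h x.1 x.2) := by
        apply ENNReal.tsum_le_tsum
        intro x
        rw [ENNReal.tsum_mul_left, ← mul_add]
        by_cases h1 : NN x.1
        · by_cases h2 : NN x.2
          · gcongr
            simp_rw [mul_add]
            rw [ENNReal.tsum_add]
            apply add_le_add
            · rw [ENNReal.tsum_mul_right]
              rw [ENNReal.tsum_prod (f := fun r r' : List Bool =>
                ic (Bri r ∧ Rec r ∧ ed r = h + ed x.1) (W p r) *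
                ic (Bri r' ∧ Rec r' ∧ ed r' = h + ed x.2) (W p r')), tsum_tsum_mul]
              calc _ ≤ 1 * 1 * ENNReal.ofReal (Real.exp (-(p.β * (γ * (c * h))))) := by
                    gcongr
                    · exact bri_rec_mass_le p h x.1 h1
                    · exact bri_rec_mass_le p h x.2 h2
                _ = _ := by ring
            · rw [ENNReal.tsum_prod (f := fun r r' : List Bool =>
                ic (Bri r ∧ Rec r ∧ ed r = h + ed x.1) (W p r) *
                ic (Bri r' ∧ Rec r' ∧ ed r' = h + ed x.2) (W p r') *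
                ic ((Nc (neg x.1.reverse ++ r).reverse (neg x.2.reverse ++ r') : ℝ) < c * h) 1)]
              exact le_rfl
          · rw [ic_neg h2]; simp
        · rw [ic_neg h1]; simp
    _ = _ := by
        rw [ENNReal.tsum_add, ENNReal.tsum_mul_right]
        rw [ENNReal.tsum_prod (f := fun v v' : List Bool => ic (NN v) (W p v * Eb p v.length) *
          ic (NN v') (W p v' * Eb p v'.length)), tsum_tsum_mul, ← CV_eq]
        rfl

lemma tendsto_Rr (p : Par) (ε : ℝ) (hε : 0 < ε) (hε1 : ε ≤ 1) :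
    Tendsto (fun h : ℕ => Rr p ((1 - ε) / speed p ^ 2) h) atTop (𝓝 0) := by
  unfold Rr
  apply ennreal_tannery_zero _ (fun x : List Bool × List Bool =>
    ic (NN x.1) (W p x.1 * Eb p x.1.length) * ic (NN x.2) (W p x.2 * Eb p x.2.length))
  · rw [ENNReal.tsum_prod (f := fun v v' : List Bool => ic (NN v) (W p v * Eb p v.length) *
          ic (NN v') (W p v' * Eb p v'.length)), tsum_tsum_mul, ← CV_eq]
    exact ENNReal.mul_ne_top (CV_ne_top p) (CV_ne_top p)
  · intro h x
    by_cases h1 : NN x.1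
    · by_cases h2 : NN x.2
      · calc _ ≤ ic (NN x.1) (W p x.1 * Eb p x.1.length) *
              ic (NN x.2) (W p x.2 * Eb p x.2.length) * 1 := by
              gcongr
              exact bad2_le_one p _ h x.1 x.2 h1 h2
          _ = _ := mul_one _
      · rw [ic_neg h2]; simp
    · rw [ic_neg h1]; simp
  · intro x
    by_cases h1 : NN x.1
    · by_cases h2 : NN x.2
      · have h3 := tendsto_bad2 p ε hε hε1 x.1 x.2 h1 h2
        have h5 := ENNReal.Tendsto.const_mul h3 (a := ic (NN x.1) (W p x.1 * Eb p x.1.length) *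
              ic (NN x.2) (W p x.2 * Eb p x.2.length)) (Or.inr (by
              rw [ic_pos h1, ic_pos h2]
              exact ENNReal.mul_ne_top (ENNReal.mul_ne_top (W_ne_top p _) (ne_top_of_le_ne_top
                ENNReal.one_ne_top (Eb_le_one p _))) (ENNReal.mul_ne_top (W_ne_top p _)
                (ne_top_of_le_ne_top ENNReal.one_ne_top (Eb_le_one p _)))))
        rwa [mul_zero] at h5
      · rw [ic_neg h2]; simp
    · rw [ic_neg h1]; simp

/-- the bound for two facing pieces -/
lemma E2_bound (p : Par) (ε : ℝ) (hε : 0 < ε) (hε1 : ε ≤ 1) (K : ℝ) :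
    ∀ᶠ h : ℕ in atTop, ∀ γ : ℝ, 0 ≤ γ → γ * h ≤ K →
      E2 p h γ ≤ 2 * (CV p * CV p) *
        ENNReal.ofReal (Real.exp (-(p.β * ((1 - ε) / speed p ^ 2) * (γ * h)))) := by
  have hβ := p.hβ
  have hs := speed_pos p
  have h1 := (tendsto_Rr p ε hε hε1).eventually (gt_mem_nhds (ENNReal.ofReal_pos.2
    (Real.exp_pos (-(p.β * ((1 - ε) / speed p ^ 2) * K)))))
  filter_upwards [h1, eventually_gt_atTop 0] with h hR hh γ hγ hγK
  have hc : 0 ≤ (1 - ε) / speed p ^ 2 := div_nonneg (by linarith) (by positivity)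
  have h2 := E2_le p (c := (1 - ε) / speed p ^ 2) hγ hh
  have h3 : -(p.β * (γ * ((1 - ε) / speed p ^ 2 * h))) =
      -(p.β * ((1 - ε) / speed p ^ 2) * (γ * h)) := by ring
  rw [h3] at h2
  have h4 : Rr p ((1 - ε) / speed p ^ 2) h ≤ (CV p * CV p) *
      ENNReal.ofReal (Real.exp (-(p.β * ((1 - ε) / speed p ^ 2) * (γ * h)))) := by
    calc Rr p ((1 - ε) / speed p ^ 2) h ≤
          ENNReal.ofReal (Real.exp (-(p.β * ((1 - ε) / speed p ^ 2) * K))) := hR.le
      _ ≤ ENNReal.ofReal (Real.exp (-(p.β * ((1 - ε) / speed p ^ 2) * (γ * h)))) := by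
          apply ENNReal.ofReal_le_ofReal
          gcongr
      _ = (1 * 1) * ENNReal.ofReal (Real.exp (-(p.β * ((1 - ε) / speed p ^ 2) * (γ * h)))) := by
          ring
      _ ≤ _ := by
          gcongr
          · exact one_le_CV p
          · exact one_le_CV p
  calc E2 p h γ ≤ _ := h2
    _ ≤ CV p * CV p * ENNReal.ofReal (Real.exp (-(p.β * ((1 - ε) / speed p ^ 2) * (γ * h)))) +
        CV p * CV p * ENNReal.ofReal (Real.exp (-(p.β * ((1 - ε) / speed p ^ 2) * (γ * h)))) := by
        gcongr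
    _ = _ := by ring

end Pool.Agent.Helper98.Elastic
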