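import Mathlib
import Pool.Agent.Helper98.Elastic.Upper4
import Pool.Agent.Helper98.Elastic.Upper3

/-!
# Exponential weights of slow pieces
-/

open Finset Filter Topology
open scoped ENNReal

namespace Pool.Agent.Helper98.Elastic

/-- bound for the exponential weight of a long block -/
noncomputable def E0 (p : Par) (lam : ℝ) : ℝ≥0∞ :=
  ENNReal.ofReal (Real.exp (lam * (4 / speed p + 1)))

lemma one_le_E0 (p : Par) {lam : ℝ} (hlam : 0 ≤ lam) : 1 ≤ E0 p lam := by
  have hs := speed_pos p
  unfold E0
  rw [← ENNReal.ofReal_one]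
  apply ENNReal.ofReal_le_ofReal
  exact Real.one_le_exp (by positivity)

lemma E0_ne_top (p : Par) (lam : ℝ) : E0 p lam ≠ ∞ := ENNReal.ofReal_ne_top

lemma exp_weight_le (p : Par) {lam : ℝ} (hlam : 0 ≤ lam) {h : ℕ} (hh : 0 < h) {m j : ℕ}
    (hm : m ≤ j * Tm p h) :
    ENNReal.ofReal (Real.exp (lam * m / h)) ≤ E0 p lam ^ j := by
  unfold E0
  rw [← ENNReal.ofReal_pow (Real.exp_pos _).le, ← Real.exp_nat_mul]
  apply ENNReal.ofReal_le_ofReal
  apply Real.exp_le_exp.2
  have h0 : (0 : ℝ) < h := by exact_mod_cast hh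
  rw [div_le_iff₀ h0]
  have h1 : (m : ℝ) ≤ j * Tm p h := by exact_mod_cast hm
  have h2 := Tm_le p hh
  calc lam * (m : ℝ) ≤ lam * (j * ((4 / speed p + 1) * h)) := by
        gcongr
        exact h1.trans (by gcongr)
    _ = _ := by ring

lemma tendsto_E0_rho (p : Par) (lam : ℝ) :
    Tendsto (fun h : ℕ => E0 p lam * rho p h (Tm p h)) atTop (𝓝 0) := by
  have := ENNReal.Tendsto.const_mul (tendsto_rho p) (a := E0 p lam) (Or.inr (E0_ne_top p lam))
  rwa [mul_zero] at this

lemma exi_weight_long (p : Par) {lam : ℝ} (hlam : 0 ≤ lam) :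
    Tendsto (fun h : ℕ => ∑' l : List Bool, ic (Exi h h l ∧ Tm p h < l.length) (W p l) *
      ENNReal.ofReal (Real.exp (lam * l.length / h))) atTop (𝓝 0) := by
  have h1 : Tendsto (fun h : ℕ => 4 * CV p * E0 p lam * (E0 p lam * rho p h (Tm p h))) atTop
      (𝓝 0) := by
    have := ENNReal.Tendsto.const_mul (tendsto_E0_rho p lam) (a := 4 * CV p * E0 p lam)
      (Or.inr (ENNReal.mul_ne_top (ENNReal.mul_ne_top (by norm_num) (CV_ne_top p))
        (E0_ne_top p lam)))
    rwa [mul_zero] at this
  refine tendsto_of_tendsto_of_tendsto_of_le_of_le' tendsto_const_nhds h1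
    (Eventually.of_forall fun _ => zero_le) ?_
  have h2 := (tendsto_E0_rho p lam).eventually (gt_mem_nhds (show (0 : ℝ≥0∞) < 1 / 2 by simp))
  filter_upwards [h2, eventually_gt_atTop 0] with h hx hh
  set T := Tm p h with hT
  have hT0 : 0 < T := Tm_pos p hh
  set x := E0 p lam * rho p h T with hxdef
  have hh' : (0 : ℤ) < h := by exact_mod_cast hh
  calc ∑' l : List Bool, ic (Exi h h l ∧ T < l.length) (W p l) *
      ENNReal.ofReal (Real.exp (lam * l.length / h))
      ≤ ∑' l : List Bool, ∑' j : ℕ, ic (Exi h h l ∧ (j + 1 : ℕ) * T < l.length) (W p l) *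
        E0 p lam ^ (j + 2) := by
        apply ENNReal.tsum_le_tsum
        intro l
        by_cases hl : Exi h h l ∧ T < l.length
        · rw [ic_pos hl]
          set J := (l.length - 1) / T with hJ
          have e1 : J * T ≤ l.length - 1 := Nat.div_mul_le_self _ _
          have e2 : l.length - 1 < T * (J + 1) := Nat.lt_mul_div_succ _ hT0
          have e2' : T * (J + 1) = J * T + T := by ring
          have e3 : 1 ≤ J := (Nat.one_le_div_iff hT0).2 (by omega)
          have e4 : ((J - 1 + 1 : ℕ)) * T < l.length := by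
            rw [Nat.sub_add_cancel e3]; omega
          have e5 : l.length ≤ (J + 1) * T := by
            have : (J + 1) * T = J * T + T := by ring
            omega
          refine le_trans ?_ (ENNReal.le_tsum (J - 1))
          rw [ic_pos ⟨hl.1, e4⟩]
          gcongr
          rw [show J - 1 + 2 = J + 1 by omega]
          exact exp_weight_le p hlam hh e5
        · rw [ic_neg hl, zero_mul]; exact zero_le
    _ = ∑' j : ℕ, mass p (fun l => Exi h h l ∧ (j + 1 : ℕ) * T < l.length) *
        E0 p lam ^ (j + 2) := by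
        rw [ENNReal.tsum_comm]
        refine tsum_congr fun j => ?_
        rw [ENNReal.tsum_mul_right, mass_eq_ic]
    _ ≤ ∑' j : ℕ, (rho p h T ^ (j + 1) * (2 * CV p)) * E0 p lam ^ (j + 2) := by
        gcongr with j
        exact exi_long p h T (j + 1) h h hh' hh' (by linarith)
    _ = 2 * CV p * E0 p lam * x * ∑' j : ℕ, x ^ j := by
        rw [← ENNReal.tsum_mul_left]
        refine tsum_congr fun j => ?_
        rw [hxdef, mul_pow]; ring
    _ = 2 * CV p * E0 p lam * x * (1 - x)⁻¹ := by rw [ENNReal.tsum_geometric]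
    _ ≤ 2 * CV p * E0 p lam * x * 2 := by
        gcongr
        rw [ENNReal.inv_le_iff_inv_le]
        rw [show (2 : ℝ≥0∞)⁻¹ = 1 - 2⁻¹ by rw [ENNReal.one_sub_inv_two]]
        gcongr
        rw [← one_div]
        exact hx.le
    _ = _ := by ring

/-- threshold for bad pieces -/
noncomputable def Dh (p : Par) (ε : ℝ) (h : ℕ) : ℕ := ⌈(1 + ε) * (h : ℝ) / speed p⌉₊

/-- bad time of a piece -/
def bt (D : ℕ) (l : List Bool) : ℕ := if D < l.length then l.length else 0

lemma exi_bad (p : Par) (ε : ℝ) (hε : 0 < ε) :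
    Tendsto (fun h : ℕ => mass p (fun l => Exi h h l ∧ Dh p ε h < l.length)) atTop (𝓝 0) := by
  have hs := speed_pos p
  have h1 := rec_duration p (ε / speed p / 2) (by positivity)
  have h2 := h1.add h1
  rw [add_zero] at h2
  refine tendsto_of_tendsto_of_tendsto_of_le_of_le' tendsto_const_nhds h2
    (Eventually.of_forall fun _ => zero_le) ?_
  filter_upwards [eventually_gt_atTop 0] with h hh
  have h0 : (0 : ℝ) < h := by exact_mod_cast hh
  have key : ∀ l : List Bool, Dh p ε h < l.length →
      ε / speed p / 2 * h < |(l.length : ℝ) - 1 / speed p * h| := by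
    intro l hl
    have h3 : (1 + ε) * (h : ℝ) / speed p ≤ Dh p ε h := Nat.le_ceil _
    have h4 : (Dh p ε h : ℝ) < l.length := by exact_mod_cast hl
    rw [lt_abs]
    left
    have h5 : (1 + ε) * (h : ℝ) / speed p = 1 / speed p * h + ε / speed p * h := by ring
    have h6 : 0 < ε / speed p * h := by positivity
    linarith
  refine le_trans (mass_or_le p (Q := fun l => Rec l ∧ ed l = h ∧
      ε / speed p / 2 * h < |(l.length : ℝ) - 1 / speed p * h|)
      (R := fun l => (fun l => Rec l ∧ ed l = h ∧
      ε / speed p / 2 * h < |(l.length : ℝ) - 1 / speed p * h|) (neg l)) ?_) ?_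
  · rintro l ⟨⟨h3 | h3, h4⟩, h5⟩
    · left
      exact ⟨fun i hi => by rw [h3]; exact (h4 i hi).2, h3, key l h5⟩
    · right
      refine ⟨fun i hi => ?_, by rw [ed_neg, h3]; ring, by rw [length_neg]; exact key l h5⟩
      rw [length_neg] at hi
      rw [pos_neg, ed_neg, h3]
      have := (h4 i hi).1
      linarith
  · rw [mass_neg p (fun l => Rec l ∧ ed l = h ∧
      ε / speed p / 2 * h < |(l.length : ℝ) - 1 / speed p * h|)]

lemma exi_weight (p : Par) {lam ε : ℝ} (hlam : 0 ≤ lam) (hε : 0 < ε) :
    ∀ᶠ h : ℕ in atTop, ∑' l : List Bool, ic (Exi h h l) (W p l) *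
      ENNReal.ofReal (Real.exp (lam * (bt (Dh p ε h) l) / h)) ≤ 3 * CV p := by
  have h1 := ENNReal.Tendsto.const_mul (exi_bad p ε hε) (a := E0 p lam)
    (Or.inr (E0_ne_top p lam))
  rw [mul_zero] at h1
  have h2 := h1.add (exi_weight_long p hlam)
  rw [add_zero] at h2
  have h3 : (0 : ℝ≥0∞) < CV p := lt_of_lt_of_le one_pos (one_le_CV p)
  filter_upwards [h2.eventually (gt_mem_nhds h3), eventually_gt_atTop 0] with h hx hh
  have hh' : (0 : ℤ) < h := by exact_mod_cast hh
  calc ∑' l : List Bool, ic (Exi h h l) (W p l) *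
      ENNReal.ofReal (Real.exp (lam * (bt (Dh p ε h) l) / h))
      ≤ ∑' l : List Bool, (ic (Exi h h l) (W p l) +
        (E0 p lam * ic (Exi h h l ∧ Dh p ε h < l.length) (W p l) +
          ic (Exi h h l ∧ Tm p h < l.length) (W p l) *
            ENNReal.ofReal (Real.exp (lam * l.length / h)))) := by
        apply ENNReal.tsum_le_tsum
        intro l
        by_cases hl : Exi h h l
        · by_cases hD : Dh p ε h < l.length
          · have hb : bt (Dh p ε h) l = l.length := if_pos hD
            rw [hb]
            by_cases hT : Tm p h < l.length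
            · rw [ic_pos hl, ic_pos (⟨hl, hT⟩ : Exi h h l ∧ Tm p h < l.length)]
              exact le_add_self.trans le_add_self
            · rw [ic_pos hl, ic_pos (⟨hl, hD⟩ : Exi h h l ∧ Dh p ε h < l.length)]
              refine le_trans ?_ (le_add_self (a := E0 p lam * W p l + _))
              refine le_trans ?_ le_self_add
              rw [mul_comm]
              gcongr
              have := exp_weight_le p hlam hh (m := l.length) (j := 1) (by omega)
              rwa [pow_one] at this
          · have hb : bt (Dh p ε h) l = 0 := if_neg hD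
            rw [hb, ic_pos hl]
            simp only [Nat.cast_zero, mul_zero, zero_div, Real.exp_zero, ENNReal.ofReal_one,
              mul_one]
            exact le_self_add
        · rw [ic_neg hl, zero_mul]; exact zero_le
    _ = mass p (Exi h h) + (E0 p lam * mass p (fun l => Exi h h l ∧ Dh p ε h < l.length) +
        ∑' l : List Bool, ic (Exi h h l ∧ Tm p h < l.length) (W p l) *
            ENNReal.ofReal (Real.exp (lam * l.length / h))) := by
        rw [ENNReal.tsum_add, ENNReal.tsum_add, ENNReal.tsum_mul_left, mass_eq_ic, mass_eq_ic]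
    _ ≤ 2 * CV p + CV p := by
        gcongr
        exact exi_mass p hh' hh'
    _ = _ := by ring

lemma cn_weight (p : Par) {lam : ℝ} (hlam : 0 ≤ lam) :
    ∀ᶠ h : ℕ in atTop, ∀ m : ℕ, mass p (fun l => Cn h h l ∧ l.length = m) *
      ENNReal.ofReal (Real.exp (lam * m / h)) ≤ E0 p lam * Czz p := by
  have h2 := (tendsto_E0_rho p lam).eventually (gt_mem_nhds (show (0 : ℝ≥0∞) < 1 by simp))
  filter_upwards [h2, eventually_gt_atTop 0] with h hx hh m
  have hh' : (0 : ℤ) < h := by exact_mod_cast hh
  set T := Tm p h with hT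
  have hT0 : 0 < T := Tm_pos p hh
  have e1 : m = (m / T) * T + m % T := by
    have := Nat.div_add_mod m T
    rw [mul_comm] at this
    exact this.symm
  have e2 : m ≤ (m / T + 1) * T := by
    have h3 := Nat.mod_lt m hT0
    have : (m / T + 1) * T = (m / T) * T + T := by ring
    omega
  have h3 : mass p (fun l => Cn h h l ∧ l.length = m) ≤ rho p h T ^ (m / T) * Czz p := by
    have := cn_long p h T (m % T) (m / T) h h (by linarith) hh' hh'
    rwa [← e1] at this
  calc mass p (fun l => Cn h h l ∧ l.length = m) * ENNReal.ofReal (Real.exp (lam * m / h))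
      ≤ (rho p h T ^ (m / T) * Czz p) * E0 p lam ^ (m / T + 1) := by
        gcongr
        exact exp_weight_le p hlam hh e2
    _ = (E0 p lam * rho p h T) ^ (m / T) * (E0 p lam * Czz p) := by
        rw [mul_pow]; ring
    _ ≤ 1 ^ (m / T) * (E0 p lam * Czz p) := by
        gcongr
    _ = _ := by rw [one_pow, one_mul]

end Pool.Agent.Helper98.Elastic
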