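import Mathlib

/-!
# Nearest-neighbour words: positions, reversal, energy
-/

open Finset

namespace Pool.Agent.Helper98.Elastic

/-- step of a letter -/
def st (b : Bool) : ℤ := if b then 1 else -1

/-- endpoint of a word -/
def ed (l : List Bool) : ℤ := (l.map st).sum

/-- position after `i` letters -/
def pos (l : List Bool) (i : ℕ) : ℤ := ((l.take i).map st).sum

lemma st_not (b : Bool) : st (!b) = - st b := by cases b <;> simp [st]

lemma st_cases (b : Bool) : st b = 1 ∨ st b = -1 := by cases b <;> simp [st]

lemma abs_st (b : Bool) : |st b| = 1 := by cases b <;> simp [st]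

@[simp] lemma pos_zero (l : List Bool) : pos l 0 = 0 := by simp [pos]

@[simp] lemma pos_length (l : List Bool) : pos l l.length = ed l := by simp [pos, ed]

lemma pos_ge (l : List Bool) {i : ℕ} (h : l.length ≤ i) : pos l i = ed l := by
  simp [pos, ed, List.take_of_length_le h]

@[simp] lemma pos_nil (i : ℕ) : pos [] i = 0 := by simp [pos]

@[simp] lemma ed_nil : ed [] = 0 := by simp [ed]

lemma pos_succ (l : List Bool) {i : ℕ} (h : i < l.length) :
    pos l (i + 1) = pos l i + st l[i] := by
  simp only [pos]
  rw [List.take_succ_eq_append_getElem h, List.map_append, List.sum_append]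
  simp only [List.map_cons, List.map_nil, List.sum_cons, List.sum_nil, add_zero]

lemma abs_pos_succ (l : List Bool) {i : ℕ} (h : i < l.length) :
    |pos l (i + 1) - pos l i| = 1 := by
  rw [pos_succ l h]; simp [abs_st]

lemma pos_append_left (l₁ l₂ : List Bool) {i : ℕ} (h : i ≤ l₁.length) :
    pos (l₁ ++ l₂) i = pos l₁ i := by
  simp only [pos]
  rw [List.take_append_of_le_length h]

lemma pos_append_right (l₁ l₂ : List Bool) (i : ℕ) :
    pos (l₁ ++ l₂) (l₁.length + i) = ed l₁ + pos l₂ i := by
  simp only [pos, ed]
  rw [List.take_append, List.take_of_length_le (by omega), Nat.add_sub_cancel_left,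
    List.map_append, List.sum_append]

lemma ed_append (l₁ l₂ : List Bool) : ed (l₁ ++ l₂) = ed l₁ + ed l₂ := by
  simp [ed]

@[simp] lemma ed_cons (b : Bool) (l : List Bool) : ed (b :: l) = st b + ed l := by simp [ed]

lemma pos_cons_succ (b : Bool) (l : List Bool) (i : ℕ) :
    pos (b :: l) (i + 1) = st b + pos l i := by simp [pos]

/-- mirror image -/
def neg (l : List Bool) : List Bool := l.map not

@[simp] lemma length_neg (l : List Bool) : (neg l).length = l.length := by simp [neg]

@[simp] lemma neg_neg' (l : List Bool) : neg (neg l) = l := by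
  unfold neg
  rw [List.map_map]
  have : (not ∘ not) = id := by funext b; simp
  rw [this, List.map_id]

lemma neg_append (l₁ l₂ : List Bool) : neg (l₁ ++ l₂) = neg l₁ ++ neg l₂ := by simp [neg]

lemma neg_reverse (l : List Bool) : neg l.reverse = (neg l).reverse := by simp [neg]

lemma sum_map_st_not (l : List Bool) : ((l.map not).map st).sum = - (l.map st).sum := by
  induction l with
  | nil => simp
  | cons b l ih => simp only [List.map_cons, List.sum_cons, ih, st_not]; ring

lemma ed_neg (l : List Bool) : ed (neg l) = - ed l := sum_map_st_not l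

lemma pos_neg (l : List Bool) (i : ℕ) : pos (neg l) i = - pos l i := by
  simp only [pos, neg, List.map_take]
  rw [← List.map_take, ← List.map_take, sum_map_st_not]
  simp [List.map_take]

lemma ed_reverse (l : List Bool) : ed l.reverse = ed l := by
  simp only [ed, List.map_reverse, List.sum_reverse]

lemma pos_reverse (l : List Bool) {i : ℕ} (_ : i ≤ l.length) :
    pos l.reverse i = ed l - pos l (l.length - i) := by
  have h1 : l = l.take (l.length - i) ++ l.drop (l.length - i) := (List.take_append_drop _ _).symm
  have h2 : ed l = pos l (l.length - i) + ed (l.drop (l.length - i)) := by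
    conv_lhs => rw [h1]
    rw [ed_append]; rfl
  rw [h2]
  simp only [add_sub_cancel_left]
  rw [← ed_reverse (l.drop (l.length - i))]
  simp only [pos, ed]
  rw [List.take_reverse]

/-! ### Energy -/

/-- the interaction `k ^ (-κ)` -/
noncomputable def kr (κ : ℝ) (k : ℕ) : ℝ := (k : ℝ) ^ (-κ)

lemma kr_nonneg (κ : ℝ) (k : ℕ) : 0 ≤ kr κ k := by unfold kr; positivity

/-- energy of the path `w` up to time `n` -/
noncomputable def en (κ : ℝ) (w : ℕ → ℤ) (n : ℕ) : ℝ :=
  ∑ j ∈ range (n + 1), ∑ i ∈ range j, if w i = w j then kr κ (j - i) else 0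

/-- energy of a word -/
noncomputable def eng (κ : ℝ) (l : List Bool) : ℝ := en κ (pos l) l.length

/-- cross energy of two strands issued from a common point -/
noncomputable def xc (κ : ℝ) (a b : List Bool) : ℝ :=
  ∑ i ∈ Icc 1 a.length, ∑ j ∈ Icc 1 b.length, if pos a i = pos b j then kr κ (i + j) else 0

lemma en_nonneg (κ : ℝ) (w : ℕ → ℤ) (n : ℕ) : 0 ≤ en κ w n := by
  unfold en
  refine Finset.sum_nonneg fun j _ => Finset.sum_nonneg fun i _ => ?_
  split_ifs
  · exact kr_nonneg _ _
  · exact le_rfl

lemma eng_nonneg (κ : ℝ) (l : List Bool) : 0 ≤ eng κ l := en_nonneg _ _ _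

lemma xc_nonneg (κ : ℝ) (a b : List Bool) : 0 ≤ xc κ a b := by
  unfold xc
  refine Finset.sum_nonneg fun j _ => Finset.sum_nonneg fun i _ => ?_
  split_ifs
  · exact kr_nonneg _ _
  · exact le_rfl

lemma xc_comm (κ : ℝ) (a b : List Bool) : xc κ a b = xc κ b a := by
  unfold xc
  rw [Finset.sum_comm]
  refine Finset.sum_congr rfl fun i _ => Finset.sum_congr rfl fun j _ => ?_
  rw [add_comm j i]
  by_cases h : pos a j = pos b i
  · rw [if_pos h, if_pos h.symm]
  · rw [if_neg h, if_neg (fun h' => h h'.symm)]

lemma xc_neg (κ : ℝ) (a b : List Bool) : xc κ (neg a) (neg b) = xc κ a b := by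
  unfold xc
  simp only [length_neg, pos_neg, neg_inj]

lemma en_congr (κ : ℝ) {w w' : ℕ → ℤ} {n : ℕ} (h : ∀ i ≤ n, ∀ j ≤ n, (w i = w j ↔ w' i = w' j)) :
    en κ w n = en κ w' n := by
  unfold en
  refine Finset.sum_congr rfl fun j hj => Finset.sum_congr rfl fun i hi => ?_
  simp only [Finset.mem_range] at hi hj
  have := h i (by omega) j (by omega)
  by_cases h1 : w i = w j
  · rw [if_pos h1, if_pos (this.1 h1)]
  · rw [if_neg h1, if_neg (fun h' => h1 (this.2 h'))]

lemma eng_neg (κ : ℝ) (l : List Bool) : eng κ (neg l) = eng κ l := by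
  unfold eng
  rw [length_neg]
  apply en_congr
  intro i _ j _
  rw [pos_neg, pos_neg, neg_inj]

/-- splitting the energy at time `m` -/
lemma en_split (κ : ℝ) (w : ℕ → ℤ) (m k : ℕ) :
    en κ w (m + k) = en κ w m + en κ (fun i => w (m + i)) k
      + ∑ i ∈ range m, ∑ j ∈ Icc 1 k, if w i = w (m + j) then kr κ (m + j - i) else 0 := by
  unfold en
  rw [show m + k + 1 = (m + 1) + k by ring, Finset.sum_range_add]
  have h1 : ∀ f : ℕ → ℝ, ∑ j ∈ range (k + 1), f j = f 0 + ∑ j ∈ range k, f (j + 1) := by
    intro f; rw [Finset.sum_range_succ']; ring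
  have h2 : ∀ f : ℕ → ℝ, ∑ j ∈ Icc 1 k, f j = ∑ j ∈ range k, f (j + 1) := by
    intro f
    rw [← Finset.sum_image (s := range k) (g := fun j => j + 1) (f := f)]
    · congr 1
      ext j
      simp only [Finset.mem_Icc, Finset.mem_image, Finset.mem_range]
      constructor
      · rintro ⟨a, b⟩; exact ⟨j - 1, by omega, by omega⟩
      · rintro ⟨a, ha, rfl⟩; omega
    · intro a _ b _ h; simpa using h
  rw [add_assoc, add_right_inj, h1]
  simp only [Finset.range_zero, Finset.sum_empty, zero_add]
  have h3 : ∑ i ∈ range m, ∑ j ∈ Icc 1 k, (if w i = w (m + j) then kr κ (m + j - i) else 0)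
      = ∑ j ∈ range k, ∑ i ∈ range m, if w i = w (m + (j + 1)) then kr κ (m + (j + 1) - i) else 0 := by
    rw [Finset.sum_comm, h2]
  rw [h3, ← Finset.sum_add_distrib]
  refine Finset.sum_congr rfl fun j _ => ?_
  rw [show m + 1 + j = m + (j + 1) by ring, Finset.sum_range_add, add_comm]
  congr 1
  refine Finset.sum_congr rfl fun i hi => ?_
  rw [show m + (j + 1) - (m + i) = j + 1 - i by omega]

lemma eng_append (κ : ℝ) (l₁ l₂ : List Bool) :
    eng κ (l₁ ++ l₂) = eng κ l₁ + eng κ l₂ + xc κ l₁.reverse (neg l₂) := by
  unfold eng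
  rw [List.length_append, en_split]
  congr 1
  · congr 1
    · apply en_congr
      intro i hi j hj
      rw [pos_append_left _ _ hi, pos_append_left _ _ hj]
    · apply en_congr
      intro i hi j hj
      rw [pos_append_right, pos_append_right]
      constructor <;> intro h <;> linarith
  · unfold xc
    rw [List.length_reverse, length_neg]
    refine Finset.sum_nbij' (fun i => l₁.length - i) (fun i => l₁.length - i) ?_ ?_ ?_ ?_ ?_
    · intro i hi; simp only [Finset.mem_range, Finset.mem_Icc] at *; omega
    · intro i hi; simp only [Finset.mem_range, Finset.mem_Icc] at *; omega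
    · intro i hi; simp only [Finset.mem_range] at *; omega
    · intro i hi; simp only [Finset.mem_Icc] at *; omega
    · intro i hi
      simp only [Finset.mem_range] at hi
      refine Finset.sum_congr rfl fun j hj => ?_
      simp only [Finset.mem_Icc] at hj
      rw [pos_append_left _ _ hi.le, pos_append_right, pos_reverse _ (by omega), pos_neg,
        show l₁.length - (l₁.length - i) = i by omega,
        show l₁.length + j - i = l₁.length - i + j by omega]
      by_cases h : pos l₁ i = ed l₁ + pos l₂ j
      · rw [if_pos h, if_pos (by linarith)]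
      · rw [if_neg h, if_neg (fun h' => h (by linarith))]

lemma eng_append_ge (κ : ℝ) (l₁ l₂ : List Bool) :
    eng κ l₁ + eng κ l₂ ≤ eng κ (l₁ ++ l₂) := by
  rw [eng_append]; linarith [xc_nonneg κ l₁.reverse (neg l₂)]

lemma eng_reverse (κ : ℝ) (l : List Bool) : eng κ l.reverse = eng κ l := by
  induction l with
  | nil => simp
  | cons b l ih =>
    rw [List.reverse_cons, eng_append, ih, ← List.singleton_append (x := b) (l := l), eng_append]
    have h1 : eng κ [b] = 0 := by
      unfold eng en
      simp [Finset.sum_range_succ, pos, st]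
      cases b <;> simp
    rw [h1, List.reverse_reverse]
    have h2 : ([b] : List Bool).reverse = [b] := rfl
    rw [h2, xc_comm κ [b], ← xc_neg κ l (neg [b]), neg_neg']
    ring

end Pool.Agent.Helper98.Elastic
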